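import Pool.Agent.Lib.MP_301213_nt.AA.Defs

/-! MP_301213_nt, almost all theorem: commutation relations -/

set_option autoImplicit false

open Polynomial MeasureTheory Filter Topology

namespace HofAA

theorem Alg1_DD_single (W : List Bool) (P : ℝ[X]) : DD (Finsupp.single W P) = dW W P := by
  unfold DD
  rw [Finsupp.lsum_single]
  rfl

theorem Alg1_SS_single (W : List Bool) (P : ℝ[X]) : SS (Finsupp.single W P) = sW W P := by
  unfold SS
  rw [Finsupp.lsum_single]
  rfl

/-- prefix a letter -/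
noncomputable def Alg1_L (x : Bool) : MM →ₗ[ℝ] MM := Finsupp.lmapDomain ℝ[X] ℝ (fun W => x :: W)

/-- the multiplier of a letter -/
noncomputable def Alg1_m : Bool → ℝ[X]
  | true => 2
  | false => 2 * X

theorem Alg1_L_single (x : Bool) (W : List Bool) (P : ℝ[X]) :
    Alg1_L x (Finsupp.single W P) = Finsupp.single (x :: W) P := by
  simp [Alg1_L]

theorem Alg1_sW_cons (x : Bool) (V : List Bool) (P : ℝ[X]) :
    sW (x :: V) P = Finsupp.single (true :: x :: V) (C (1 / 2 : ℝ) * P) + Alg1_L x (sW V P) := by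
  unfold sW
  rw [map_list_sum]
  simp only [ins, List.map_cons, List.sum_cons, List.map_map]
  congr 2
  refine List.map_congr_left fun W _ => ?_
  simp only [Function.comp, Alg1_L_single]

theorem Alg1_DD_cons (x : Bool) (V : List Bool) (P : ℝ[X]) :
    DD (Finsupp.single (x :: V) P) =
      Finsupp.single (x :: V) (d0 P) + Finsupp.single V (Alg1_m x * P) := by
  rw [Alg1_DD_single]
  cases x <;> simp only [dW, Alg1_m]

theorem Alg1_half (P : ℝ[X]) : (2 : ℝ[X]) * (C (1 / 2 : ℝ) * P) = P := by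
  rw [← mul_assoc]
  have : (2 : ℝ[X]) * C (1 / 2 : ℝ) = 1 := by
    rw [show (2 : ℝ[X]) = C (2 : ℝ) from rfl, ← C_mul]; norm_num
  rw [this, one_mul]

theorem Alg1_d0_half (P : ℝ[X]) : d0 (C (1 / 2 : ℝ) * P) = C (1 / 2 : ℝ) * d0 P := by
  rw [← smul_eq_C_mul, ← smul_eq_C_mul, d0_smul]

theorem Alg1_DD_list (x : Bool) (V : List Bool) (P : ℝ[X]) :
    DD (Alg1_L x (sW V P)) = Alg1_L x (sW V (d0 P)) + sW V (Alg1_m x * P) := by
  unfold sW
  induction ins V with
  | nil => simp
  | cons W l ih =>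
    simp only [List.map_cons, List.sum_cons, map_add]
    rw [ih, Alg1_L_single, Alg1_L_single, Alg1_DD_cons, Alg1_d0_half]
    have : Alg1_m x * (C (1 / 2 : ℝ) * P) = C (1 / 2 : ℝ) * (Alg1_m x * P) := by ring
    rw [this]
    abel

theorem comm_DS (p : MM) : DD (SS p) = SS (DD p) + p := by
  suffices h : DD ∘ₗ SS = SS ∘ₗ DD + LinearMap.id by
    have := LinearMap.congr_fun h p
    simpa using this
  refine Finsupp.lhom_ext fun W P => ?_
  simp only [LinearMap.comp_apply, LinearMap.add_apply, LinearMap.id_apply]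
  rw [Alg1_SS_single]
  rcases W with _ | ⟨x, V⟩
  · rw [Alg1_DD_single]
    simp only [sW, ins, List.map_cons, List.map_nil, List.sum_cons, List.sum_nil, add_zero, dW]
    rw [Alg1_DD_cons, Alg1_d0_half, Alg1_SS_single]
    simp only [sW, ins, List.map_cons, List.map_nil, List.sum_cons, List.sum_nil, add_zero, Alg1_m]
    rw [Alg1_half]
  · rw [Alg1_sW_cons, map_add, Alg1_DD_list, Alg1_DD_cons, Alg1_DD_cons, map_add, Alg1_SS_single,
      Alg1_SS_single, Alg1_sW_cons, Alg1_d0_half]
    have : Alg1_m true * (C (1 / 2 : ℝ) * P) = P := Alg1_half P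
    rw [this]
    abel

/-- `D U^j = U^j D - 2 j U^(j-1)`, multiplied by `U` -/
theorem Alg1_comm_pow {R : Type*} [Ring R] [Algebra ℝ R] (U D : R)
    (h : D * U = U * D - (2 : ℝ) • 1) (j : ℕ) :
    U * (D * U ^ j) = U ^ (j + 1) * D - (2 * (j : ℝ)) • U ^ j := by
  induction j with
  | zero => simp
  | succ j ih =>
    have e1 : U * (D * U ^ (j + 1)) = (U * (D * U ^ j)) * U := by
      rw [pow_succ]; noncomm_ring
    rw [e1, ih, sub_mul, smul_mul_assoc, ← pow_succ, mul_assoc, h, mul_sub, mul_smul_comm, mul_one,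
      ← mul_assoc, ← pow_succ]
    push_cast
    module

theorem Alg1_pow {R : Type*} [Ring R] [Algebra ℝ R] (U D : R)
    (h : D * U = U * D - (2 : ℝ) • 1) (N : ℕ) :
    ∃ σ : ℕ → ℝ, σ N = 1 ∧ (∀ j, N < j → σ j = 0) ∧
      ∀ K, N < K → (U * D) ^ N = ∑ j ∈ Finset.range K, σ j • (U ^ j * D ^ j) := by
  induction N with
  | zero =>
    refine ⟨fun j => if j = 0 then 1 else 0, by simp, fun j hj => by simp [hj.ne'], fun K hK => ?_⟩
    rw [Finset.sum_eq_single 0]
    · simp
    · intro b _ hb
      simp [hb]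
    · intro h0
      exact absurd (Finset.mem_range.2 hK) h0
  | succ N ih =>
    obtain ⟨σ, h1, h2, h3⟩ := ih
    refine ⟨fun j => (if j = 0 then 0 else σ (j - 1)) - 2 * (j : ℝ) * σ j, ?_, ?_, ?_⟩
    · simp [h1, h2 (N + 1) (Nat.lt_succ_self N)]
    · intro j hj
      have a1 : j ≠ 0 := by omega
      simp [a1, h2 j (by omega), h2 (j - 1) (by omega)]
    · intro K hK
      obtain ⟨K, rfl⟩ : ∃ K', K = K' + 1 := ⟨K - 1, by omega⟩
      have e0 := h3 K (by omega)
      have key : ∀ j : ℕ, (U * D) * (U ^ j * D ^ j) =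
          U ^ (j + 1) * D ^ (j + 1) - (2 * (j : ℝ)) • (U ^ j * D ^ j) := by
        intro j
        have := Alg1_comm_pow U D h j
        calc (U * D) * (U ^ j * D ^ j) = (U * (D * U ^ j)) * D ^ j := by noncomm_ring
          _ = _ := by
            rw [this, sub_mul, smul_mul_assoc, mul_assoc, ← pow_succ']
      rw [pow_succ', e0, Finset.mul_sum]
      have e1 : ∀ j ∈ Finset.range K, U * D * σ j • (U ^ j * D ^ j) =
          σ j • (U ^ (j + 1) * D ^ (j + 1)) - (2 * (j : ℝ) * σ j) • (U ^ j * D ^ j) := by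
        intro j _
        rw [mul_smul_comm, key j, smul_sub, smul_smul]
        congr 2
        ring
      rw [Finset.sum_congr rfl e1, Finset.sum_sub_distrib]
      simp only [sub_smul]
      rw [Finset.sum_sub_distrib, Finset.sum_range_succ' _ K]
      rw [Finset.sum_range_succ (fun j => (2 * (j : ℝ) * σ j) • (U ^ j * D ^ j)) K]
      simp [h2 K (by omega)]

/-- normal ordering: a polynomial of degree `N` in `U D` is a combination of `U^j D^j`, `j ≤ N`,
and the coefficient of `U^N D^N` is the leading coefficient. -/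
theorem normal_order (P : ℝ[X]) :
    ∃ σ : ℕ → ℝ, σ P.natDegree = P.leadingCoeff ∧
      aeval TT P = ∑ j ∈ Finset.range (P.natDegree + 1), σ j • (UU ^ j * DD ^ j : Module.End ℝ MM) := by
  have hcomm : (DD * UU : Module.End ℝ MM) = UU * DD - (2 : ℝ) • 1 := by
    refine LinearMap.ext fun p => ?_
    simp only [Module.End.mul_apply, LinearMap.sub_apply, LinearMap.smul_apply, Module.End.one_apply,
      UU, LinearMap.id_apply, map_sub, map_smul, comm_DS, smul_add]
    abel
  have hT : TT = (UU * DD : Module.End ℝ MM) := rfl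
  choose s h1 h2 h3 using Alg1_pow (R := Module.End ℝ MM) UU DD hcomm
  refine ⟨fun j => ∑ i ∈ Finset.range (P.natDegree + 1), P.coeff i * s i j, ?_, ?_⟩
  · show ∑ i ∈ Finset.range (P.natDegree + 1), P.coeff i * s i P.natDegree = P.leadingCoeff
    rw [Finset.sum_range_succ, Finset.sum_eq_zero]
    · simp [h1]
    · intro i hi
      rw [h2 i P.natDegree (Finset.mem_range.1 hi), mul_zero]
  · rw [aeval_eq_sum_range, hT]
    have e : ∀ i ∈ Finset.range (P.natDegree + 1), P.coeff i • (UU * DD : Module.End ℝ MM) ^ i =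
        ∑ j ∈ Finset.range (P.natDegree + 1), (P.coeff i * s i j) •
          (UU ^ j * DD ^ j : Module.End ℝ MM) := by
      intro i hi
      rw [h3 i (P.natDegree + 1) (Finset.mem_range.1 hi), Finset.smul_sum]
      refine Finset.sum_congr rfl fun j _ => ?_
      rw [smul_smul]
    rw [Finset.sum_congr rfl e, Finset.sum_comm]
    refine Finset.sum_congr rfl fun j _ => ?_
    rw [Finset.sum_smul]

end HofAA
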