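import Pool.Agent.Lib.MP_301213_nt.AA.Defs

/-! MP_301213_nt, almost all theorem: degree in the cotangent -/

set_option autoImplicit false

open Polynomial MeasureTheory Filter Topology

namespace HofAA

/-- all coefficients have degree at most `d` -/
def Fd (d : ℕ) (p : MM) : Prop := ∀ W, (p W).natDegree ≤ d

/-- coefficient of the `d`-th power of the cotangent -/
noncomputable def lead (d : ℕ) (p : MM) : List Bool →₀ ℝ := p.mapRange (fun P => P.coeff d) (by simp)

theorem Alg2_DD_single (W : List Bool) (P : ℝ[X]) : DD (Finsupp.single W P) = dW W P := by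
  unfold DD
  rw [Finsupp.lsum_single]
  rfl

theorem Alg2_DD_sum (p : MM) : DD p = ∑ W ∈ p.support, dW W (p W) := by
  conv_lhs => rw [← Finsupp.sum_single p]
  rw [Finsupp.sum, map_sum]
  exact Finset.sum_congr rfl fun W _ => Alg2_DD_single W (p W)

theorem Alg2_SS_single (W : List Bool) (P : ℝ[X]) : SS (Finsupp.single W P) = sW W P := by
  unfold SS
  rw [Finsupp.lsum_single]
  rfl

theorem Alg2_SS_sum (p : MM) : SS p = ∑ W ∈ p.support, sW W (p W) := by
  conv_lhs => rw [← Finsupp.sum_single p]
  rw [Finsupp.sum, map_sum]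
  exact Finset.sum_congr rfl fun W _ => Alg2_SS_single W (p W)

/-- the submodule of elements of degree at most `d` -/
noncomputable def Alg2_sub (d : ℕ) : Submodule ℝ MM where
  carrier := {p | Fd d p}
  add_mem' := by
    intro p q hp hq W
    rw [Finsupp.add_apply]
    exact (natDegree_add_le _ _).trans (max_le (hp W) (hq W))
  zero_mem' := by
    intro W
    simp
  smul_mem' := by
    intro c p hp W
    rw [Finsupp.smul_apply]
    exact (natDegree_smul_le _ _).trans (hp W)

theorem Alg2_mem {d : ℕ} {p : MM} : p ∈ Alg2_sub d ↔ Fd d p := Iff.rfl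

theorem Alg2_single_mem {d : ℕ} {W : List Bool} {P : ℝ[X]} (h : P.natDegree ≤ d) :
    (Finsupp.single W P : MM) ∈ Alg2_sub d := by
  intro V
  rw [Finsupp.single_apply]
  split_ifs
  · exact h
  · simp

theorem Alg2_mono {d e : ℕ} (h : d ≤ e) {p : MM} (hp : Fd d p) : Fd e p := fun W => (hp W).trans h

theorem Alg2_Fd_SS (d : ℕ) (p : MM) (hp : Fd d p) : Fd d (SS p) := by
  rw [Alg2_SS_sum]
  refine Alg2_mem.1 (Submodule.sum_mem _ fun W _ => ?_)
  unfold sW
  refine list_sum_mem fun x hx => ?_
  rw [List.mem_map] at hx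
  obtain ⟨V, _, rfl⟩ := hx
  refine Alg2_single_mem ?_
  exact (natDegree_C_mul_le _ _).trans (hp W)

theorem Fd_UU (d : ℕ) (p : MM) (hp : Fd d p) (j : ℕ) : Fd d ((UU ^ j : Module.End ℝ MM) p) := by
  induction j with
  | zero => simpa using hp
  | succ j ih =>
    rw [pow_succ', Module.End.mul_apply]
    have h1 : (UU : Module.End ℝ MM) ((UU ^ j : Module.End ℝ MM) p) =
        Real.pi • ((UU ^ j : Module.End ℝ MM) p) - (2 : ℝ) • SS ((UU ^ j : Module.End ℝ MM) p) := by
      simp [UU]
    rw [h1]
    exact (Alg2_sub d).sub_mem ((Alg2_sub d).smul_mem _ ih)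
      ((Alg2_sub d).smul_mem _ (Alg2_Fd_SS d _ ih))

theorem Alg2_ins_length (W : List Bool) : ∀ V ∈ ins W, V.length = W.length + 1 := by
  induction W with
  | nil =>
    intro V hV
    simp only [ins, List.mem_singleton] at hV
    simp [hV]
  | cons x W ih =>
    intro V hV
    simp only [ins, List.mem_cons, List.mem_map] at hV
    rcases hV with rfl | ⟨V', h1, rfl⟩
    · simp
    · simp [ih V' h1]

theorem Alg2_SS_low (ℓ : ℕ) (p : MM) (hp : ∀ W, W.length < ℓ → p W = 0) (V : List Bool)
    (hV : V.length < ℓ + 1) : SS p V = 0 := by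
  rw [Alg2_SS_sum, Finsupp.finsetSum_apply]
  refine Finset.sum_eq_zero fun W hW => ?_
  have hWl : ℓ ≤ W.length := by
    by_contra hc
    exact (Finsupp.mem_support_iff.1 hW) (hp W (not_le.1 hc))
  unfold sW
  have key : ∀ l : List (List Bool), (∀ V' ∈ l, V'.length = W.length + 1) →
      ((l.map (fun V => (Finsupp.single V (C (1 / 2 : ℝ) * p W) : MM))).sum) V = 0 := by
    intro l
    induction l with
    | nil => intro _; simp
    | cons a l ih =>
      intro h
      rw [List.map_cons, List.sum_cons, Finsupp.add_apply,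
        ih fun V' hV' => h V' (List.mem_cons_of_mem _ hV'), add_zero, Finsupp.single_apply, if_neg]
      rintro rfl
      have := h a List.mem_cons_self
      omega
  exact key _ (Alg2_ins_length W)

theorem Alg2_UU_low (ℓ : ℕ) (p : MM) (hp : ∀ W, W.length < ℓ → p W = 0) (j : ℕ) :
    ∀ V : List Bool, V.length ≤ ℓ → (UU ^ j : Module.End ℝ MM) p V = Real.pi ^ j • p V := by
  induction j with
  | zero => intro V _; simp
  | succ j ih =>
    intro V hV
    rw [pow_succ', Module.End.mul_apply]
    have h1 : (UU : Module.End ℝ MM) ((UU ^ j : Module.End ℝ MM) p) =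
        Real.pi • ((UU ^ j : Module.End ℝ MM) p) - (2 : ℝ) • SS ((UU ^ j : Module.End ℝ MM) p) := by
      simp [UU]
    rw [h1, Finsupp.sub_apply, Finsupp.smul_apply, Finsupp.smul_apply, ih V hV,
      Alg2_SS_low ℓ _ (fun W hW => by rw [ih W hW.le, hp W hW, smul_zero]) V (by omega),
      smul_zero, sub_zero, smul_smul, pow_succ']

/-- `U^j` keeps the words of minimal length: `ℓ` = lower bound for the lengths. -/
theorem lead_UU (d ℓ : ℕ) (p : MM) (hp : ∀ W ∈ p.support, ℓ ≤ W.length) (j : ℕ)
    (V : List Bool) (hV : V.length ≤ ℓ) :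
    lead d ((UU ^ j : Module.End ℝ MM) p) V = Real.pi ^ j * lead d p V := by
  have h0 : ∀ W, W.length < ℓ → p W = 0 := by
    intro W hW
    by_contra hc
    have := hp W (Finsupp.mem_support_iff.2 hc)
    omega
  unfold lead
  rw [Finsupp.mapRange_apply, Finsupp.mapRange_apply, Alg2_UU_low ℓ p h0 j V hV, coeff_smul,
    smul_eq_mul]

theorem Alg2_d0_C (c : ℝ) : d0 (C c) = 0 := by
  unfold d0; simp

theorem Alg2_DD_trueC (W : List Bool) (c : ℝ) :
    DD (Finsupp.single (true :: W) (C c)) = Finsupp.single W (C (2 * c)) := by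
  rw [Alg2_DD_single]
  simp only [dW, Alg2_d0_C, Finsupp.single_zero, zero_add]
  congr 1
  rw [C_mul]
  rfl

theorem Alg2_DD_nilC (c : ℝ) : DD (Finsupp.single [] (C c)) = 0 := by
  rw [Alg2_DD_single]
  simp only [dW, Alg2_d0_C, Finsupp.single_zero]

/-- iterated derivatives of `true^k` -/
theorem DD_true (k j : ℕ) :
    Fd 0 ((DD ^ j : Module.End ℝ MM) (Finsupp.single (List.replicate k true) 1)) := by
  have key : ∀ (j k : ℕ) (c : ℝ),
      Fd 0 ((DD ^ j : Module.End ℝ MM) (Finsupp.single (List.replicate k true) (C c))) := by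
    intro j
    induction j with
    | zero =>
      intro k c
      simp only [pow_zero, Module.End.one_apply]
      exact Alg2_single_mem (by simp)
    | succ j ih =>
      intro k c
      rw [pow_succ, Module.End.mul_apply]
      cases k with
      | zero =>
        rw [List.replicate_zero, Alg2_DD_nilC, map_zero]
        exact (Alg2_sub 0).zero_mem
      | succ k =>
        rw [List.replicate_succ, Alg2_DD_trueC]
        exact ih k _
  have := key j k 1
  simpa using this

theorem Alg2_low (U : List Bool) (j : ℕ) : ∀ (k : ℕ) (c : ℝ),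
    (DD ^ j : Module.End ℝ MM) (Finsupp.single (List.replicate (k + j) true ++ U) (C c)) =
      Finsupp.single (List.replicate k true ++ U) (C (2 ^ j * c)) := by
  induction j with
  | zero => intro k c; simp
  | succ j ih =>
    intro k c
    rw [pow_succ, Module.End.mul_apply, ← Nat.add_assoc, List.replicate_succ, List.cons_append,
      Alg2_DD_trueC, ih]
    congr 2
    ring

/-- iterated derivatives of `true^k false true V`, at most `k` times -/
theorem DD_low (k j : ℕ) (hj : j ≤ k) (V : List Bool) :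
    Fd 0 ((DD ^ j : Module.End ℝ MM)
      (Finsupp.single (List.replicate k true ++ false :: true :: V) 1)) := by
  have := Alg2_low (false :: true :: V) j (k - j) 1
  rw [Nat.sub_add_cancel hj, C_1] at this
  rw [this]
  exact Alg2_single_mem (by simp)

theorem Alg2_d0_deg (e : ℕ) (P : ℝ[X]) (h : P.natDegree ≤ e) : (d0 P).natDegree ≤ e + 1 := by
  unfold d0
  rcases Nat.eq_zero_or_pos e with rfl | he
  · rw [natDegree_eq_zero.1 (Nat.le_zero.1 h) |>.choose_spec.symm]
    simp
  · have h1 : (-(1 + X ^ 2) : ℝ[X]).natDegree ≤ 2 := by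
      rw [natDegree_neg]
      compute_degree
    have h2 := natDegree_derivative_le P
    have h3 := natDegree_mul_le (p := (-(1 + X ^ 2) : ℝ[X])) (q := derivative P)
    omega

theorem Alg2_Fd_DD (e : ℕ) (p : MM) (hp : Fd e p) : Fd (e + 1) (DD p) := by
  rw [Alg2_DD_sum]
  refine Alg2_mem.1 (Submodule.sum_mem _ fun W _ => ?_)
  have hd := Alg2_d0_deg e (p W) (hp W)
  have h2 : (2 * p W).natDegree ≤ e + 1 := by
    refine (natDegree_mul_le).trans ?_
    have h3 := hp W
    have h4 : ((2 : ℝ[X])).natDegree = 0 := natDegree_ofNat 2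
    omega
  have h3 : (2 * X * p W).natDegree ≤ e + 1 := by
    refine (natDegree_mul_le).trans ?_
    have h3 := hp W
    have h4 : ((2 : ℝ[X]) * X).natDegree ≤ 1 := by compute_degree
    omega
  rcases W with _ | ⟨_ | _, W⟩ <;> simp only [dW]
  · exact Alg2_single_mem hd
  · exact (Alg2_sub _).add_mem (Alg2_single_mem hd) (Alg2_single_mem h3)
  · exact (Alg2_sub _).add_mem (Alg2_single_mem hd) (Alg2_single_mem h2)

theorem Alg2_lead_add (d : ℕ) (p q : MM) : lead d (p + q) = lead d p + lead d q := by
  ext W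
  simp [lead]

theorem Alg2_lead_single (d : ℕ) (W : List Bool) (P : ℝ[X]) :
    lead d (Finsupp.single W P) = Finsupp.single W (P.coeff d) := by
  simp [lead]

theorem Alg2_lead_zero_of_Fd {d e : ℕ} (h : d < e) {p : MM} (hp : Fd d p) : lead e p = 0 := by
  ext W
  simp only [lead, Finsupp.mapRange_apply, Finsupp.zero_apply]
  exact coeff_eq_zero_of_natDegree_lt (lt_of_le_of_lt (hp W) h)

theorem Alg2_d0_coeff (d : ℕ) (c : ℝ) :
    (d0 (monomial (d + 1) c)).coeff (d + 2) = -(((d : ℝ) + 1) * c) := by
  unfold d0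
  rw [derivative_monomial, Nat.add_sub_cancel, neg_mul, coeff_neg, add_mul, one_mul, coeff_add,
    coeff_X_pow_mul, coeff_monomial, coeff_monomial, if_neg (by omega), if_pos rfl]
  push_cast
  ring

theorem Alg2_step (V : List Bool) (d : ℕ) (c : ℝ) (p : MM) (hp : Fd (d + 1) p)
    (hl : lead (d + 1) p = Finsupp.single (true :: V) c) :
    Fd (d + 2) (DD p) ∧
      lead (d + 2) (DD p) = Finsupp.single (true :: V) (-(((d : ℝ) + 1) * c)) := by
  refine ⟨Alg2_Fd_DD (d + 1) p hp, ?_⟩
  set q : MM := p - Finsupp.single (true :: V) (monomial (d + 1) c) with hq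
  have hpq : p = q + Finsupp.single (true :: V) (monomial (d + 1) c) := by rw [hq]; abel
  have hqd : Fd d q := by
    intro W
    have h1 : (q W).natDegree ≤ d + 1 :=
      (Alg2_sub (d + 1)).sub_mem hp (Alg2_single_mem (natDegree_monomial_le c)) W
    have h2 : (q W).coeff (d + 1) = 0 := by
      have e1 : (p W).coeff (d + 1) = (Finsupp.single (true :: V) c : List Bool →₀ ℝ) W := by
        rw [← hl]; simp [lead]
      rw [hq, Finsupp.sub_apply, coeff_sub, e1]
      by_cases hW : true :: V = W
      · subst hW; simp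
      · rw [Finsupp.single_apply, if_neg hW, Finsupp.single_apply, if_neg hW]; simp
    by_contra hc
    have h3 : (q W).natDegree = d + 1 := by omega
    have h4 : q W = 0 := by
      rw [← leadingCoeff_eq_zero, leadingCoeff, h3, h2]
    rw [h4] at h3
    simp at h3
  rw [hpq, map_add, Alg2_lead_add, Alg2_lead_zero_of_Fd (by omega) (Alg2_Fd_DD d q hqd), zero_add,
    Alg2_DD_single]
  simp only [dW]
  rw [Alg2_lead_add, Alg2_lead_single, Alg2_lead_single, Alg2_d0_coeff]
  have : ((2 : ℝ[X]) * monomial (d + 1) c).coeff (d + 2) = 0 := by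
    rw [show (2 : ℝ[X]) = C (2 : ℝ) from rfl, coeff_C_mul, coeff_monomial, if_neg (by omega),
      mul_zero]
  rw [this, Finsupp.single_zero, add_zero]

/-- iterated derivatives of `true^k false true V`, more than `k` times -/
theorem DD_high (k i : ℕ) (V : List Bool) :
    Fd (i + 1) ((DD ^ (k + 1 + i) : Module.End ℝ MM)
      (Finsupp.single (List.replicate k true ++ false :: true :: V) 1)) ∧
    lead (i + 1) ((DD ^ (k + 1 + i) : Module.End ℝ MM)
      (Finsupp.single (List.replicate k true ++ false :: true :: V) 1)) =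
      Finsupp.single (true :: V) (2 ^ (k + 1) * (-1) ^ i * (Nat.factorial i : ℝ)) := by
  induction i with
  | zero =>
    have h0 := Alg2_low (false :: true :: V) k 0 1
    rw [Nat.zero_add, C_1, List.replicate_zero, List.nil_append, mul_one] at h0
    have h1 : (DD ^ (k + 1 + 0) : Module.End ℝ MM)
        (Finsupp.single (List.replicate k true ++ false :: true :: V) 1) =
        Finsupp.single (true :: V) (C (2 ^ (k + 1)) * X) := by
      rw [Nat.add_zero, pow_succ', Module.End.mul_apply, h0, Alg2_DD_single]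
      simp only [dW, Alg2_d0_C, Finsupp.single_zero, zero_add]
      congr 1
      rw [pow_succ, C_mul, show (2 : ℝ[X]) = C (2 : ℝ) from rfl]
      ring
    rw [h1]
    refine ⟨Alg2_single_mem ?_, ?_⟩
    · exact (natDegree_C_mul_le _ _).trans (by simp)
    · rw [Alg2_lead_single, coeff_C_mul_X]
      simp
  | succ i ih =>
    obtain ⟨h1, h2⟩ := ih
    have h3 := Alg2_step V i _ _ h1 h2
    rw [← Nat.add_assoc, pow_succ', Module.End.mul_apply]
    refine ⟨h3.1, h3.2.trans ?_⟩
    congr 1
    rw [Nat.factorial_succ]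
    push_cast
    ring

end HofAA
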