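import Pool.Agent.Lib.MP_301213_nt.AA.Alg1
import Pool.Agent.Lib.MP_301213_nt.AA.Alg2

/-! MP_301213_nt, almost all theorem: independence over the polynomials in the Euler operator -/

set_option autoImplicit false

open Polynomial MeasureTheory Filter Topology

namespace HofAA

/-! ### words -/

private theorem enc_len (u : List ℕ) (hu : ∀ a ∈ u, a = 2 ∨ a = 3) :
    (enc u).length = u.sum := by
  induction u with
  | nil => simp [enc]
  | cons a u ih =>
    have ih' := ih (fun b hb => hu b (List.mem_cons_of_mem _ hb))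
    rcases hu a List.mem_cons_self with rfl | rfl
    · simp [enc, ih']; omega
    · simp [enc, ih']; omega

private theorem enc_inj (u : List ℕ) : ∀ v : List ℕ, (∀ a ∈ u, a = 2 ∨ a = 3) →
    (∀ a ∈ v, a = 2 ∨ a = 3) → enc u = enc v → u = v := by
  induction u with
  | nil =>
    intro v _ hv h
    cases v with
    | nil => rfl
    | cons b v =>
      exfalso
      have := congrArg List.length h
      simp [enc] at this
  | cons a u ih =>
    intro v hu hv h
    cases v with
    | nil =>
      exfalso
      have := congrArg List.length h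
      simp [enc] at this
    | cons b v =>
      have hu' : ∀ c ∈ u, c = 2 ∨ c = 3 := fun c hc => hu c (List.mem_cons_of_mem _ hc)
      have hv' : ∀ c ∈ v, c = 2 ∨ c = 3 := fun c hc => hv c (List.mem_cons_of_mem _ hc)
      rcases hu a List.mem_cons_self with rfl | rfl <;>
        rcases hv b List.mem_cons_self with rfl | rfl
      · simp [enc] at h
        rw [ih v hu' hv' h]
      · simp [enc] at h
      · simp [enc] at h
      · simp [enc] at h
        rw [ih v hu' hv' h]

private theorem dec3 (u : List ℕ) (hu : ∀ a ∈ u, a = 2 ∨ a = 3) (h3 : 3 ∈ u) :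
    ∃ (s : ℕ) (v : List ℕ), u = List.replicate s 2 ++ 3 :: v := by
  induction u with
  | nil => simp at h3
  | cons a u ih =>
    rcases hu a List.mem_cons_self with rfl | rfl
    · have h3' : 3 ∈ u := by simpa using h3
      obtain ⟨s, v, hsv⟩ := ih (fun b hb => hu b (List.mem_cons_of_mem _ hb)) h3'
      exact ⟨s + 1, v, by rw [hsv]; simp [List.replicate_succ]⟩
    · exact ⟨0, u, by simp⟩

private theorem dec2 (u : List ℕ) (hu : ∀ a ∈ u, a = 2 ∨ a = 3) (h3 : 3 ∉ u) :
    ∃ (s : ℕ), enc u = List.replicate s true := by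
  induction u with
  | nil => exact ⟨0, by simp [enc]⟩
  | cons a u ih =>
    rcases hu a List.mem_cons_self with rfl | rfl
    · have h3' : 3 ∉ u := by simpa using h3
      obtain ⟨s, hs⟩ := ih (fun b hb => hu b (List.mem_cons_of_mem _ hb)) h3'
      exact ⟨s + 2, by simp [enc, hs, List.replicate_succ]⟩
    · simp at h3

private theorem enc_rep (s : ℕ) (v : List ℕ) : enc (List.replicate s 2 ++ 3 :: v) =
    List.replicate (2 * s) true ++ false :: true :: true :: enc v := by
  induction s with
  | zero => simp [enc]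
  | succ s ih =>
    rw [List.replicate_succ, List.cons_append, enc, ih, show 2 * (s + 1) = 2 * s + 1 + 1 by ring,
      List.replicate_succ, List.replicate_succ]
    simp

/-! ### the coefficient maps -/

private noncomputable def LL (d : ℕ) : MM →ₗ[ℝ] (List Bool →₀ ℝ) :=
  Finsupp.mapRange.linearMap (Polynomial.lcoeff ℝ d)

private theorem LL_apply (d : ℕ) (p : MM) (V : List Bool) : LL d p V = (p V).coeff d := rfl

private theorem LL_eq (d : ℕ) (p : MM) : LL d p = lead d p := rfl

private theorem LL_zero_of_Fd {d e : ℕ} (he : e < d) {p : MM} (hp : Fd e p) : LL d p = 0 := by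
  ext V
  rw [LL_apply]
  exact Polynomial.coeff_eq_zero_of_natDegree_lt (lt_of_le_of_lt (hp V) he)

private theorem Fd_mono {d e : ℕ} (h : d ≤ e) {p : MM} (hp : Fd d p) : Fd e p :=
  fun W => (hp W).trans h

/-- terms without the letter three -/
private theorem term2 (d : ℕ) (hd : 1 ≤ d) (s : ℕ) (Q : ℝ[X]) :
    LL d ((aeval TT Q : Module.End ℝ MM) (Finsupp.single (List.replicate s true) 1)) = 0 := by
  obtain ⟨σ, _, hσ⟩ := normal_order Q
  rw [hσ, LinearMap.sum_apply, map_sum]
  refine Finset.sum_eq_zero fun j _ => ?_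
  rw [LinearMap.smul_apply, map_smul, Module.End.mul_apply]
  rw [LL_zero_of_Fd (lt_of_lt_of_le Nat.zero_lt_one hd) (Fd_UU 0 _ (DD_true s j) j), smul_zero]

private theorem term3_low (d k i : ℕ) (hi : i + 1 < d) (V : List Bool) (Q : ℝ[X])
    (hQ : Q.natDegree ≤ k + 1 + i) :
    LL d ((aeval TT Q : Module.End ℝ MM)
      (Finsupp.single (List.replicate k true ++ false :: true :: V) 1)) = 0 := by
  obtain ⟨σ, _, hσ⟩ := normal_order Q
  rw [hσ, LinearMap.sum_apply, map_sum]
  refine Finset.sum_eq_zero fun j hj => ?_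
  rw [LinearMap.smul_apply, map_smul, Module.End.mul_apply]
  have hj' : j ≤ k + 1 + i := by
    have := Finset.mem_range.1 hj
    omega
  rcases le_or_gt j k with h | h
  · rw [LL_zero_of_Fd (by omega : 0 < d) (Fd_UU 0 _ (DD_low k j h V) j), smul_zero]
  · obtain ⟨i', rfl⟩ := Nat.exists_eq_add_of_le (by omega : k + 1 ≤ j)
    rw [LL_zero_of_Fd (by omega : i' + 1 < d) (Fd_UU _ _ (DD_high k i' V).1 _), smul_zero]

private theorem term3_top (k i : ℕ) (V : List Bool) (Q : ℝ[X])
    (hQ : Q.natDegree = k + 1 + i) (V0 : List Bool) (hV0 : V0.length ≤ (true :: V).length) :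
    LL (i + 1) ((aeval TT Q : Module.End ℝ MM)
      (Finsupp.single (List.replicate k true ++ false :: true :: V) 1)) V0 =
      Q.leadingCoeff * (Real.pi ^ (k + 1 + i) *
        (Finsupp.single (true :: V) (2 ^ (k + 1) * (-1) ^ i * (Nat.factorial i : ℝ)) :
          List Bool →₀ ℝ) V0) := by
  obtain ⟨σ, hσ0, hσ⟩ := normal_order Q
  rw [hQ] at hσ0 hσ
  rw [hσ, Finset.sum_range_succ, LinearMap.add_apply, map_add, LinearMap.sum_apply, map_sum]
  rw [Finset.sum_eq_zero, zero_add, LinearMap.smul_apply, map_smul, Module.End.mul_apply, hσ0]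
  · -- the top term
    obtain ⟨h1, h2⟩ := DD_high k i V
    set p : MM := (DD ^ (k + 1 + i) : Module.End ℝ MM)
      (Finsupp.single (List.replicate k true ++ false :: true :: V) 1) with hp
    set c : ℝ := 2 ^ (k + 1) * (-1) ^ i * (Nat.factorial i : ℝ) with hc
    set q : MM := Finsupp.single (true :: V) (C c * X ^ (i + 1)) with hq
    have hqlead : lead (i + 1) q = Finsupp.single (true :: V) c := by
      ext W
      change (q W).coeff (i + 1) = _
      rw [hq]
      by_cases hW : true :: V = W
      · subst hW; simp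
      · rw [Finsupp.single_eq_of_ne' hW, Finsupp.single_eq_of_ne' hW]; simp
    have hlow : Fd i (p - q) := by
      intro W
      have hd1 : (p W).natDegree ≤ i + 1 := h1 W
      have hd2 : (q W).natDegree ≤ i + 1 := by
        rw [hq]
        by_cases hW : true :: V = W
        · subst hW
          rw [Finsupp.single_eq_same]
          exact natDegree_C_mul_X_pow_le _ _
        · rw [Finsupp.single_eq_of_ne' hW]; simp
      have hcoef : ((p - q) W).coeff (i + 1) = 0 := by
        rw [Finsupp.sub_apply, coeff_sub]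
        have e1 : (p W).coeff (i + 1) = lead (i + 1) p W := rfl
        have e2 : (q W).coeff (i + 1) = lead (i + 1) q W := rfl
        rw [e1, e2, h2, hqlead, sub_self]
      rw [Polynomial.natDegree_le_iff_coeff_eq_zero]
      intro n hn
      rcases (show n = i + 1 ∨ i + 1 < n by omega) with rfl | hn'
      · exact hcoef
      · rw [Finsupp.sub_apply, coeff_sub, coeff_eq_zero_of_natDegree_lt (lt_of_le_of_lt hd1 hn'),
          coeff_eq_zero_of_natDegree_lt (lt_of_le_of_lt hd2 hn'), sub_zero]
    have hsplit : p = q + (p - q) := by abel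
    rw [hsplit, map_add, map_add, LL_zero_of_Fd (Nat.lt_succ_self i) (Fd_UU i _ hlow _), add_zero]
    rw [Finsupp.smul_apply, smul_eq_mul, LL_eq]
    rw [lead_UU (i + 1) (true :: V).length q ?_ (k + 1 + i) V0 hV0, hqlead]
    intro W hW
    rw [hq] at hW
    have := Finsupp.support_single_subset hW
    rw [Finset.mem_singleton] at this
    rw [this]
  · intro j hj
    rw [LinearMap.smul_apply, map_smul, Module.End.mul_apply]
    have hj' := Finset.mem_range.1 hj
    rcases le_or_gt j k with h | h
    · rw [LL_zero_of_Fd (by omega : 0 < i + 1) (Fd_UU 0 _ (DD_low k j h V) j), smul_zero]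
    · obtain ⟨i', rfl⟩ := Nat.exists_eq_add_of_le (by omega : k + 1 ≤ j)
      rw [LL_zero_of_Fd (by omega : i' + 1 < i + 1) (Fd_UU _ _ (DD_high k i' V).1 _), smul_zero]

theorem fi_alg (k : ℕ) (U : Finset (List ℕ)) (hU : ∀ u ∈ U, Hof k u) (P : List ℕ → ℝ[X])
    (h : ∑ u ∈ U, (aeval TT (P u) : Module.End ℝ MM) (Finsupp.single (enc u) 1) = 0) :
    ∀ u ∈ U, 3 ∈ u → P u = 0 := by
  classical
  by_contra hcon
  push Not at hcon
  obtain ⟨w, hwU, hw3, hwP⟩ := hcon
  have hdec : ∀ u : List ℕ, ∃ (s : ℕ) (v : List ℕ), u ∈ U → 3 ∈ u →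
      u = List.replicate s 2 ++ 3 :: v := by
    intro u
    by_cases hu : u ∈ U ∧ 3 ∈ u
    · obtain ⟨s, v, hsv⟩ := dec3 u (hU u hu.1).1 hu.2
      exact ⟨s, v, fun _ _ => hsv⟩
    · exact ⟨0, [], fun h1 h2 => absurd ⟨h1, h2⟩ hu⟩
  choose s v hsv using hdec
  set K : ℕ := U.sup (fun u => 2 * s u) + 1 with hK
  have hKu : ∀ u ∈ U, 2 * s u + 1 ≤ K := by
    intro u hu
    have : 2 * s u ≤ U.sup (fun u => 2 * s u) := Finset.le_sup (f := fun u => 2 * s u) hu
    omega
  -- multiply the relation
  have hrel : ∑ u ∈ U, (aeval TT (X ^ K * P u) : Module.End ℝ MM) (Finsupp.single (enc u) 1)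
      = 0 := by
    have := congrArg ((TT ^ K : Module.End ℝ MM)) h
    rw [map_sum, map_zero] at this
    rw [← this]
    refine Finset.sum_congr rfl fun u _ => ?_
    rw [map_mul, map_pow, aeval_X, Module.End.mul_apply]
  set S : Finset (List ℕ) := U.filter (fun u => 3 ∈ u ∧ P u ≠ 0) with hS
  have hwS : w ∈ S := by rw [hS, Finset.mem_filter]; exact ⟨hwU, hw3, hwP⟩
  obtain ⟨u1, hu1S, hu1⟩ := Finset.exists_max_image S
    (fun u => K + (P u).natDegree - 2 * s u) ⟨w, hwS⟩
  set d : ℕ := K + (P u1).natDegree - 2 * s u1 with hd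
  set S' : Finset (List ℕ) := S.filter (fun u => K + (P u).natDegree - 2 * s u = d) with hS'
  have hu1S' : u1 ∈ S' := by rw [hS', Finset.mem_filter]; exact ⟨hu1S, rfl⟩
  obtain ⟨u0, hu0S', hu0⟩ := Finset.exists_max_image S' s ⟨u1, hu1S'⟩
  have hu0m := Finset.mem_filter.1 (hS' ▸ hu0S')
  have hu0S := hu0m.1
  have hu0d : K + (P u0).natDegree - 2 * s u0 = d := hu0m.2
  obtain ⟨hu0U, hu03, hu0P⟩ : u0 ∈ U ∧ 3 ∈ u0 ∧ P u0 ≠ 0 := by
    have := Finset.mem_filter.1 (hS ▸ hu0S)
    exact ⟨this.1, this.2.1, this.2.2⟩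
  have hd1 : 1 ≤ d := by
    have := hKu u0 hu0U
    omega
  set V0 : List Bool := true :: true :: enc (v u0) with hV0
  have hlen : ∀ u ∈ U, 3 ∈ u → (true :: true :: enc (v u)).length + 2 * s u + 1 = k := by
    intro u hu h3
    have h1 := hsv u hu h3
    have h2 := enc_len u (hU u hu).1
    rw [(hU u hu).2] at h2
    have h4 : (enc u).length = (enc (List.replicate (s u) 2 ++ 3 :: v u)).length := by
      rw [← h1]
    rw [enc_rep] at h4
    simp only [List.length_append, List.length_replicate, List.length_cons] at h4 ⊢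
    omega
  have hnd : ∀ u, P u ≠ 0 → (X ^ K * P u).natDegree = K + (P u).natDegree := by
    intro u hu
    rw [natDegree_mul (pow_ne_zero _ X_ne_zero) hu, natDegree_X_pow]
  have key : ∀ u ∈ U, u ≠ u0 → LL d ((aeval TT (X ^ K * P u) : Module.End ℝ MM)
      (Finsupp.single (enc u) 1)) V0 = 0 := by
    intro u hu hne
    by_cases hPu : P u = 0
    · rw [hPu, mul_zero, map_zero, LinearMap.zero_apply, map_zero, Finsupp.zero_apply]
    by_cases h3 : 3 ∈ u
    · have huS : u ∈ S := by rw [hS, Finset.mem_filter]; exact ⟨hu, h3, hPu⟩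
      have hle : K + (P u).natDegree - 2 * s u ≤ d := hu1 u huS
      have hK' := hKu u hu
      have hnat := hnd u hPu
      have hencu : enc u = List.replicate (2 * s u) true ++ false :: true :: (true :: enc (v u)) := by
        conv_lhs => rw [hsv u hu h3]
        exact enc_rep _ _
      obtain ⟨i, hi⟩ := Nat.exists_eq_add_of_le
        (show 2 * s u + 1 ≤ K + (P u).natDegree by omega)
      rcases hle.lt_or_eq with hlt | heq
      · rw [hencu, term3_low d (2 * s u) i (by omega) _ _ (by omega), Finsupp.zero_apply]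
      · have huS' : u ∈ S' := by rw [hS', Finset.mem_filter]; exact ⟨huS, heq⟩
        have hsle : s u ≤ s u0 := hu0 u huS'
        have hl1 := hlen u hu h3
        have hl0 := hlen u0 hu0U hu03
        have hdi : d = i + 1 := by omega
        rw [hencu, hdi, term3_top (2 * s u) i (true :: enc (v u)) _ (by omega) V0 (by
          rw [hV0]; omega)]
        by_cases hVV : true :: true :: enc (v u) = V0
        · exfalso
          apply hne
          have hlv := congrArg List.length hVV
          have hss : s u = s u0 := by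
            rw [hV0] at hlv
            omega
          have hev : enc (v u) = enc (v u0) := by
            rw [hV0] at hVV
            simpa using hVV
          have hvv : v u = v u0 := by
            apply enc_inj _ _ _ _ hev
            · intro a ha
              apply (hU u hu).1
              rw [hsv u hu h3]
              simp [ha]
            · intro a ha
              apply (hU u0 hu0U).1
              rw [hsv u0 hu0U hu03]
              simp [ha]
          rw [hsv u hu h3, hsv u0 hu0U hu03, hss, hvv]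
        · rw [Finsupp.single_eq_of_ne' hVV, mul_zero, mul_zero]
    · obtain ⟨t, ht⟩ := dec2 u (hU u hu).1 h3
      rw [ht, term2 d hd1 t, Finsupp.zero_apply]
  have hsum := congrArg (fun p => LL d p V0) hrel
  simp only [map_sum, Finsupp.finsetSum_apply, map_zero, Finsupp.zero_apply] at hsum
  rw [Finset.sum_eq_single u0 (fun u hu hne => key u hu hne) (fun h => absurd hu0U h)] at hsum
  -- the term of u0
  have hK0 := hKu u0 hu0U
  obtain ⟨i, hi⟩ := Nat.exists_eq_add_of_le
    (show 2 * s u0 + 1 ≤ K + (P u0).natDegree by omega)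
  have hdi : d = i + 1 := by omega
  have henc0 : enc u0 = List.replicate (2 * s u0) true ++ false :: true ::
      (true :: enc (v u0)) := by
    conv_lhs => rw [hsv u0 hu0U hu03]
    exact enc_rep _ _
  have hnat := hnd u0 hu0P
  rw [henc0, hdi, term3_top (2 * s u0) i (true :: enc (v u0)) _ (by omega) V0 (by
    rw [hV0])] at hsum
  rw [hV0, Finsupp.single_eq_same, leadingCoeff_mul, leadingCoeff_X_pow, one_mul] at hsum
  have h1 : (P u0).leadingCoeff ≠ 0 := leadingCoeff_ne_zero.2 hu0P
  have h2 : (Real.pi ^ (2 * s u0 + 1 + i) : ℝ) ≠ 0 := pow_ne_zero _ Real.pi_ne_zero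
  have h3 : (2 ^ (2 * s u0 + 1) * (-1) ^ i * (Nat.factorial i : ℝ)) ≠ 0 := by
    have : (Nat.factorial i : ℝ) ≠ 0 := by exact_mod_cast Nat.factorial_ne_zero i
    have h4 : ((-1 : ℝ) ^ i) ≠ 0 := pow_ne_zero _ (by norm_num)
    positivity
  exact (mul_ne_zero h1 (mul_ne_zero h2 h3)) hsum

end HofAA
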