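import Pool.Agent.Lib.MP_301213_nt.AA.Rep

/-! MP_301213_nt, almost all theorem: change of variables -/

set_option autoImplicit false

open Polynomial MeasureTheory Filter Topology

namespace HofAA

/-- the change of variables -/
noncomputable def Chv_f (y : ℝ) : ℝ := Real.pi / 2 * (1 - √(1 - y))

theorem Chv_deriv {y : ℝ} (hy : y < 1) :
    HasDerivAt Chv_f (Real.pi / 4 / √(1 - y)) y := by
  have h1 : (0 : ℝ) < 1 - y := by linarith
  have h2 : HasDerivAt (fun y : ℝ => 1 - y) (-1) y := by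
    simpa using (hasDerivAt_id y).const_sub 1
  have h3 := (h2.sqrt h1.ne').const_sub 1
  have h4 := h3.const_mul (Real.pi / 2)
  have h5 : √(1 - y) ≠ 0 := (Real.sqrt_pos.2 h1).ne'
  have h6 : Real.pi / 2 * -(-1 / (2 * √(1 - y))) = Real.pi / 4 / √(1 - y) := by
    field_simp
    ring
  rw [h6] at h4
  exact h4

theorem Chv_inj : Set.InjOn Chv_f (Set.Ioo 0 1) := by
  intro a ha b hb h
  unfold Chv_f at h
  have hpi := Real.pi_pos
  have h1 : √(1 - a) = √(1 - b) := by
    have h2 : (1 - √(1 - a)) = (1 - √(1 - b)) := mul_left_cancel₀ (by positivity) h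
    linarith
  rw [Real.sqrt_inj (by linarith [ha.2]) (by linarith [hb.2])] at h1
  linarith

theorem Chv_image : Chv_f '' Set.Ioo 0 1 = Set.Ioo 0 (Real.pi / 2) := by
  have hpi := Real.pi_pos
  ext x
  constructor
  · rintro ⟨y, ⟨hy0, hy1⟩, rfl⟩
    have h1 : 0 < √(1 - y) := Real.sqrt_pos.2 (by linarith)
    have h2 : √(1 - y) < 1 := by
      rw [Real.sqrt_lt' one_pos]; linarith
    unfold Chv_f
    constructor
    · have : 0 < 1 - √(1 - y) := by linarith
      positivity
    · have : Real.pi / 2 * (1 - √(1 - y)) < Real.pi / 2 * 1 :=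
        mul_lt_mul_of_pos_left (by linarith) (by positivity)
      linarith
  · rintro ⟨hx0, hx1⟩
    have h0 : 0 < 1 - 2 * x / Real.pi := by
      rw [sub_pos, div_lt_one hpi]; linarith
    have h1 : 1 - 2 * x / Real.pi < 1 := by
      have : 0 < 2 * x / Real.pi := by positivity
      linarith
    refine ⟨1 - (1 - 2 * x / Real.pi) ^ 2, ⟨?_, ?_⟩, ?_⟩
    · nlinarith
    · have : 0 < (1 - 2 * x / Real.pi) ^ 2 := by positivity
      linarith
    · unfold Chv_f
      rw [sub_sub_cancel, Real.sqrt_sq h0.le]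
      field_simp
      ring

theorem Chv_sq {y : ℝ} (hy : y < 1) (n : ℕ) :
    (1 - 2 * Chv_f y / Real.pi) ^ (2 * n) = (1 - y) ^ n := by
  have hpi := Real.pi_ne_zero
  have h1 : 1 - 2 * Chv_f y / Real.pi = √(1 - y) := by
    unfold Chv_f
    field_simp
    ring
  rw [h1, pow_mul, Real.sq_sqrt (by linarith)]

theorem hh_int (u : List ℕ) (hu : HofPers.Adm u) : IntervalIntegrable (hh u) volume 0 1 := by
  have hpi := Real.pi_pos
  rw [intervalIntegrable_iff_integrableOn_Ioo_of_le (by norm_num)]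
  have h1 := phi_int u hu
  rw [intervalIntegrable_iff_integrableOn_Ioo_of_le (by positivity), ← Chv_image,
    integrableOn_image_iff_integrableOn_abs_deriv_smul measurableSet_Ioo
      (fun x hx => (Chv_deriv hx.2).hasDerivWithinAt) Chv_inj] at h1
  refine h1.congr_fun ?_ measurableSet_Ioo
  intro y hy
  have h2 : 0 ≤ Real.pi / 4 / √(1 - y) := by positivity
  simp only [abs_of_nonneg h2, smul_eq_mul]
  rfl

theorem chv (u : List ℕ) (hu : HofPers.Adm u) (n : ℕ) :
    ∫ φ in (0 : ℝ)..(Real.pi / 2), (1 - 2 * φ / Real.pi) ^ (2 * n) * Phi u φ = mom (hh u) n := by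
  have hpi := Real.pi_pos
  rw [mom, intervalIntegral.integral_of_le (by positivity),
    intervalIntegral.integral_of_le (by norm_num), integral_Ioc_eq_integral_Ioo,
    integral_Ioc_eq_integral_Ioo, ← Chv_image,
    integral_image_eq_integral_abs_deriv_smul measurableSet_Ioo
      (fun x hx => (Chv_deriv hx.2).hasDerivWithinAt) Chv_inj]
  refine setIntegral_congr_fun measurableSet_Ioo ?_
  intro y hy
  have h2 : 0 ≤ Real.pi / 4 / √(1 - y) := by positivity
  simp only [abs_of_nonneg h2, smul_eq_mul]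
  rw [Chv_sq hy.2]
  unfold hh
  change Real.pi / 4 / √(1 - y) * ((1 - y) ^ n * Phi u (Real.pi / 2 * (1 - √(1 - y)))) = _
  ring

theorem rep_mom (w : List ℕ) (hw : HofPers.Adm w) (n : ℕ) :
    HofPers.T (w ++ List.replicate n 2) 0 =
      2 / Real.pi * (Real.pi ^ (2 * n) / (Nat.factorial (2 * n) : ℝ)) *
        mom (hh w.reverse) n := by
  rw [rep w hw n, ← chv w.reverse (HofPers.adm_reverse hw) n, mul_assoc]
  have hpi := Real.pi_ne_zero
  have h0 : ∀ φ : ℝ, (Real.pi - 2 * φ) ^ (2 * n) / (Nat.factorial (2 * n) : ℝ) *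
      Phi w.reverse φ = Real.pi ^ (2 * n) / (Nat.factorial (2 * n) : ℝ) *
      ((1 - 2 * φ / Real.pi) ^ (2 * n) * Phi w.reverse φ) := by
    intro φ
    have h1 : (Real.pi - 2 * φ) = Real.pi * (1 - 2 * φ / Real.pi) := by
      field_simp
    rw [h1, mul_pow]
    ring
  simp_rw [h0]
  rw [intervalIntegral.integral_const_mul]

end HofAA
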