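import Pool.Agent.Lib.MP_301213_nt.AA.Defs

/-! MP_301213_nt, almost all theorem: coefficients of a polynomial from its differences -/

set_option autoImplicit false

open Polynomial MeasureTheory Filter Topology

namespace HofAA

theorem cf_cast (m : ℕ) : ∀ (g : ℝ → ℝ) (N : ℕ),
    ((fwdDiff (1 : ℕ))^[m] (fun n : ℕ => g (n : ℝ))) N = ((fwdDiff (1 : ℝ))^[m] g) (N : ℝ) := by
  induction m with
  | zero => intro g N; rfl
  | succ m ih =>
    intro g N
    rw [Function.iterate_succ_apply, Function.iterate_succ_apply]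
    have h : fwdDiff (1 : ℕ) (fun n : ℕ => g (n : ℝ)) = fun n : ℕ => (fwdDiff (1 : ℝ) g) (n : ℝ) := by
      funext n
      simp only [fwdDiff, Nat.cast_add, Nat.cast_one]
    rw [h, ih]

theorem cf_deg (m : ℕ) : ∀ (Q : ℝ[X]), ∃ R : ℝ[X], R.natDegree ≤ Q.natDegree - m ∧
    ∀ N : ℕ, ((fwdDiff (1 : ℕ))^[m] (fun n : ℕ => Q.eval (n : ℝ))) N = R.eval (N : ℝ) := by
  induction m with
  | zero => intro Q; exact ⟨Q, by simp, fun N => rfl⟩
  | succ m ih =>
    intro Q
    have h : fwdDiff (1 : ℕ) (fun n : ℕ => Q.eval (n : ℝ)) =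
        fun n : ℕ => (taylor 1 Q - Q).eval (n : ℝ) := by
      funext n
      simp only [fwdDiff, Nat.cast_add, Nat.cast_one, eval_sub, taylor_eval]
    have hd : (taylor 1 Q - Q).natDegree ≤ Q.natDegree - 1 := by
      by_cases hQ : Q = 0
      · simp [hQ]
      · rcases Nat.eq_zero_or_pos Q.natDegree with h0 | h0
        · obtain ⟨c, hc⟩ := natDegree_eq_zero.mp h0
          rw [← hc]; simp
        · have h1 : (taylor 1 Q - Q).degree < (taylor 1 Q).degree := by
            apply degree_sub_lt_left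
            · rw [degree_taylor]
            · intro h2
              exact hQ ((taylor_injective 1) (by rw [h2, map_zero]))
            · rw [leadingCoeff_taylor]
          rw [degree_taylor] at h1
          rcases eq_or_ne (taylor 1 Q - Q) 0 with h3 | h3
          · rw [h3]; simp
          · have := natDegree_lt_natDegree h3 h1
            omega
    obtain ⟨R, hR, hR2⟩ := ih (taylor 1 Q - Q)
    refine ⟨R, by omega, fun N => ?_⟩
    rw [Function.iterate_succ_apply, h, hR2]

theorem cf_evb (R : ℝ[X]) : ∃ K : ℝ, 0 ≤ K ∧ ∀ d : ℕ, R.natDegree ≤ d → ∀ N : ℕ, 1 ≤ N →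
    |R.eval (N : ℝ)| ≤ K * (N : ℝ) ^ d := by
  refine ⟨∑ i ∈ Finset.range (R.natDegree + 1), |R.coeff i|,
    Finset.sum_nonneg (fun _ _ => abs_nonneg _), fun d hd N hN => ?_⟩
  rw [eval_eq_sum_range, Finset.sum_mul]
  refine (Finset.abs_sum_le_sum_abs _ _).trans (Finset.sum_le_sum fun i hi => ?_)
  rw [Finset.mem_range] at hi
  have hN' : (1 : ℝ) ≤ N := by exact_mod_cast hN
  rw [abs_mul, abs_of_nonneg (pow_nonneg (by linarith : (0 : ℝ) ≤ N) i)]
  exact mul_le_mul_of_nonneg_left (pow_le_pow_right₀ hN' (by omega)) (abs_nonneg _)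

theorem cf_powb (m m' : ℕ) (h : m ≤ m') : ∃ K : ℝ, 0 ≤ K ∧ ∀ N : ℕ, 1 ≤ N →
    |((fwdDiff (1 : ℕ))^[m] (fun n : ℕ => (n : ℝ) ^ m')) N| * (N : ℝ) ^ m ≤ K * (N : ℝ) ^ m' := by
  obtain ⟨R, hR, hR2⟩ := cf_deg m (X ^ m' : ℝ[X])
  obtain ⟨K, hK, hK2⟩ := cf_evb R
  refine ⟨K, hK, fun N hN => ?_⟩
  have h1 : ((fwdDiff (1 : ℕ))^[m] (fun n : ℕ => (n : ℝ) ^ m')) N = R.eval (N : ℝ) := by
    rw [← hR2]
    simp
  rw [h1]
  have h2 := hK2 (m' - m) (by simpa using hR) N hN
  calc |R.eval (N : ℝ)| * (N : ℝ) ^ m ≤ (K * (N : ℝ) ^ (m' - m)) * (N : ℝ) ^ m :=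
        mul_le_mul_of_nonneg_right h2 (by positivity)
    _ = K * (N : ℝ) ^ m' := by
        rw [mul_assoc, ← pow_add, Nat.sub_add_cancel h]

theorem cf_expand (P : ℝ[X]) (D : ℕ) (hP : P.natDegree ≤ D) (m N : ℕ) :
    ((fwdDiff (1 : ℕ))^[m] (fun n : ℕ => P.eval (n : ℝ))) N =
      ∑ i ∈ Finset.range (D + 1),
        P.coeff i * ((fwdDiff (1 : ℕ))^[m] (fun n : ℕ => (n : ℝ) ^ i)) N := by
  have h1 : (fun n : ℕ => P.eval (n : ℝ)) =
      ∑ i ∈ Finset.range (D + 1), P.coeff i • (fun n : ℕ => (n : ℝ) ^ i) := by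
    funext n
    rw [eval_eq_sum_range' (Nat.lt_succ_of_le hP)]
    simp [Finset.sum_apply]
  rw [h1, fwdDiff_iter_finsetSum]
  simp only [fwdDiff_iter_const_smul, Finset.sum_apply, Pi.smul_apply, smul_eq_mul]

theorem coeff_bound (κ D : ℕ) :
    ∃ C : ℝ, 0 ≤ C ∧ ∀ P : ℝ[X], P.natDegree ≤ D → ∀ N : ℕ, 1 ≤ N → ∀ B : ℝ, 0 ≤ B →
      (∀ m : ℕ, κ < m → m ≤ D →
        |((fwdDiff (1 : ℕ))^[m] (fun n : ℕ => P.eval (n : ℝ))) N| ≤ B / (N : ℝ) ^ m) →
      ∀ m : ℕ, κ < m → |P.coeff m| ≤ C * B / (N : ℝ) ^ m := by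
  have key : ∀ j : ℕ, ∃ C : ℝ, 0 ≤ C ∧ ∀ P : ℝ[X], P.natDegree ≤ D → ∀ N : ℕ, 1 ≤ N →
      ∀ B : ℝ, 0 ≤ B →
      (∀ m : ℕ, κ < m → m ≤ D →
        |((fwdDiff (1 : ℕ))^[m] (fun n : ℕ => P.eval (n : ℝ))) N| ≤ B / (N : ℝ) ^ m) →
      ∀ m : ℕ, κ < m → D < m + j → |P.coeff m| * (N : ℝ) ^ m ≤ C * B := by
    intro j
    induction j with
    | zero =>
      refine ⟨0, le_rfl, fun P hP N hN B hB _ m hm hj => ?_⟩
      rw [coeff_eq_zero_of_natDegree_lt (by omega)]
      simp
    | succ j ih =>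
      obtain ⟨C, hC, hC2⟩ := ih
      -- constants
      choose! K hK hK2 using fun m' (h : D - j ≤ m') => cf_powb (D - j) m' h
      set S : ℝ := ∑ i ∈ Finset.range (D + 1), |K i| with hS
      have hS0 : 0 ≤ S := Finset.sum_nonneg fun _ _ => abs_nonneg _
      refine ⟨C + (1 + C * S), by positivity, fun P hP N hN B hB hyp m hm hj => ?_⟩
      rcases Nat.lt_or_ge D (m + j) with h1 | h1
      · have := hC2 P hP N hN B hB hyp m hm h1
        nlinarith [mul_nonneg hC hS0, mul_nonneg (mul_nonneg hC hS0) hB]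
      · have hmD : m = D - j := by omega
        have hmD' : m ≤ D := by omega
        have hN' : (1 : ℝ) ≤ N := by exact_mod_cast hN
        have hNm : (0 : ℝ) < (N : ℝ) ^ m := by positivity
        have h2 := hyp m hm hmD'
        rw [cf_expand P D hP m N] at h2
        -- split the sum
        have hmem : m ∈ Finset.range (D + 1) := Finset.mem_range.mpr (by omega)
        rw [← Finset.add_sum_erase _ _ hmem] at h2
        set a : ℕ → ℝ := fun i => ((fwdDiff (1 : ℕ))^[m] (fun n : ℕ => (n : ℝ) ^ i)) N with ha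
        have ham : a m = (m.factorial : ℝ) := by
          have := cf_cast m (fun x : ℝ => x ^ m) N
          rw [ha]
          simp only
          rw [this]
          have h3 := congrFun (fwdDiff_iter_eq_factorial (R := ℝ) (n := m)) (N : ℝ)
          simpa using h3
        have hterm : ∀ i ∈ (Finset.range (D + 1)).erase m,
            |P.coeff i * a i| * (N : ℝ) ^ m ≤ C * B * |K i| := by
          intro i hi
          rw [Finset.mem_erase, Finset.mem_range] at hi
          rcases Nat.lt_or_ge i m with h3 | h3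
          · have h4 : a i = 0 := by
              rw [ha]
              simp only
              rw [cf_cast m (fun x : ℝ => x ^ i) N]
              have h5 := congrFun (fwdDiff_iter_pow_eq_zero_of_lt (R := ℝ) h3) (N : ℝ)
              simpa using h5
            rw [h4]
            simp only [mul_zero, abs_zero, zero_mul]
            positivity
          · have h3' : D - j ≤ i := by omega
            have h6 := hK2 i h3' N hN
            rw [← hmD] at h6
            have h7 := hC2 P hP N hN B hB hyp i (by omega) (by omega)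
            rw [abs_mul]
            have h8 : |K i| = K i := abs_of_nonneg (hK i h3')
            rw [h8]
            calc |P.coeff i| * |a i| * (N : ℝ) ^ m = |P.coeff i| * (|a i| * (N : ℝ) ^ m) := by ring
              _ ≤ |P.coeff i| * (K i * (N : ℝ) ^ i) :=
                  mul_le_mul_of_nonneg_left h6 (abs_nonneg _)
              _ = (|P.coeff i| * (N : ℝ) ^ i) * K i := by ring
              _ ≤ (C * B) * K i := mul_le_mul_of_nonneg_right h7 (hK i h3')
        have hsum : |∑ i ∈ (Finset.range (D + 1)).erase m, P.coeff i * a i| * (N : ℝ) ^ m ≤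
            C * B * S := by
          calc |∑ i ∈ (Finset.range (D + 1)).erase m, P.coeff i * a i| * (N : ℝ) ^ m
              ≤ (∑ i ∈ (Finset.range (D + 1)).erase m, |P.coeff i * a i|) * (N : ℝ) ^ m :=
                mul_le_mul_of_nonneg_right (Finset.abs_sum_le_sum_abs _ _) hNm.le
            _ = ∑ i ∈ (Finset.range (D + 1)).erase m, |P.coeff i * a i| * (N : ℝ) ^ m := by
                rw [Finset.sum_mul]
            _ ≤ ∑ i ∈ (Finset.range (D + 1)).erase m, C * B * |K i| := Finset.sum_le_sum hterm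
            _ ≤ ∑ i ∈ Finset.range (D + 1), C * B * |K i| :=
                Finset.sum_le_sum_of_subset_of_nonneg (Finset.erase_subset _ _)
                  (fun _ _ _ => by positivity)
            _ = C * B * S := by rw [hS, Finset.mul_sum]
        have h9 : |P.coeff m * a m| ≤ B / (N : ℝ) ^ m +
            |∑ i ∈ (Finset.range (D + 1)).erase m, P.coeff i * a i| := by
          have h10 := abs_sub_abs_le_abs_sub (P.coeff m * a m)
            (-(∑ i ∈ (Finset.range (D + 1)).erase m, P.coeff i * a i))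
          rw [abs_neg, sub_neg_eq_add] at h10
          linarith
        have h11 : |P.coeff m| ≤ |P.coeff m * a m| := by
          rw [abs_mul, ham, abs_of_nonneg (Nat.cast_nonneg (α := ℝ) m.factorial)]
          have h12 : (1 : ℝ) ≤ (m.factorial : ℝ) := by exact_mod_cast Nat.factorial_pos m
          nlinarith [abs_nonneg (P.coeff m)]
        calc |P.coeff m| * (N : ℝ) ^ m ≤ (B / (N : ℝ) ^ m +
            |∑ i ∈ (Finset.range (D + 1)).erase m, P.coeff i * a i|) * (N : ℝ) ^ m :=
              mul_le_mul_of_nonneg_right (h11.trans h9) hNm.le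
          _ = B + |∑ i ∈ (Finset.range (D + 1)).erase m, P.coeff i * a i| * (N : ℝ) ^ m := by
              rw [add_mul, div_mul_cancel₀ _ hNm.ne']
          _ ≤ B + C * B * S := by linarith
          _ ≤ (C + (1 + C * S)) * B := by nlinarith [mul_nonneg hC hB]
  obtain ⟨C, hC, hC2⟩ := key D
  refine ⟨C, hC, fun P hP N hN B hB hyp m hm => ?_⟩
  have hN' : (1 : ℝ) ≤ N := by exact_mod_cast hN
  have hNm : (0 : ℝ) < (N : ℝ) ^ m := by positivity
  rw [le_div_iff₀ hNm]
  exact hC2 P hP N hN B hB hyp m hm (by omega)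

end HofAA
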