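import Pool.Agent.Lib.MP_301213_nt.AA.Defs

/-! MP_301213_nt, almost all theorem: counting -/

set_option autoImplicit false

open Polynomial MeasureTheory Filter Topology

namespace HofAA

theorem count_bad (bad : ℕ → Prop) [DecidablePred bad] (C q N0 : ℕ)
    (h : ∀ N : ℕ, N0 ≤ N → ∀ K : ℕ, K ^ q ≤ N → ∀ E : Finset ℕ,
      (∀ k ∈ E, k ≤ K ∧ bad (N + k)) → E.card ≤ C) :
    ∃ C' η : ℝ, 0 < η ∧ ∀ N : ℕ,
      (((Finset.range N).filter bad).card : ℝ) ≤ C' * (N : ℝ) ^ (1 - η) := by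
  set Q : ℕ := q + 1 with hQ
  set η : ℝ := 1 / (2 * (Q : ℝ)) with hη
  have hQ1 : (1 : ℝ) ≤ Q := by rw [hQ]; push_cast; linarith [Nat.cast_nonneg (α := ℝ) q]
  have hη0 : 0 < η := by rw [hη]; positivity
  have hη2 : η ≤ 1 / 2 := by
    rw [hη]
    apply one_div_le_one_div_of_le (by norm_num)
    linarith
  refine ⟨(N0 : ℝ) + 2 + 2 * C, η, hη0, fun N => ?_⟩
  rcases Nat.eq_zero_or_pos N with hN | hN
  · subst hN
    simp only [Finset.range_zero, Finset.filter_empty, Finset.card_empty, Nat.cast_zero]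
    positivity
  have hN1 : (1 : ℝ) ≤ (N : ℝ) := by exact_mod_cast hN
  have hN0 : (0 : ℝ) < (N : ℝ) := by linarith
  set K : ℕ := ⌊(N : ℝ) ^ η⌋₊ with hK
  have hNη : (0 : ℝ) < (N : ℝ) ^ η := Real.rpow_pos_of_pos hN0 _
  have hK1 : (K : ℝ) ≤ (N : ℝ) ^ η := Nat.floor_le hNη.le
  have hK2 : (N : ℝ) ^ η < (K : ℝ) + 1 := Nat.lt_floor_add_one _
  set P : ℝ := (N : ℝ) ^ (1 - η) with hP
  have hP1 : 1 ≤ P := Real.one_le_rpow hN1 (by linarith)
  have hKQ : ((K ^ Q : ℕ) : ℝ) ≤ P := by
    push_cast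
    calc (K : ℝ) ^ Q ≤ ((N : ℝ) ^ η) ^ Q := pow_le_pow_left₀ (Nat.cast_nonneg _) hK1 _
      _ = (N : ℝ) ^ (η * Q) := by rw [Real.rpow_mul hN0.le, Real.rpow_natCast]
      _ ≤ P := by
        apply Real.rpow_le_rpow_of_exponent_le hN1
        have : η * (Q : ℝ) = 1 / 2 := by rw [hη]; field_simp
        linarith
  -- the starting point
  set m : ℕ := max N0 1 + K ^ Q with hm
  have hmN0 : N0 ≤ m := (le_max_left _ _).trans (Nat.le_add_right _ _)
  have hm1 : 1 ≤ m := (le_max_right N0 1).trans (Nat.le_add_right _ _)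
  have hmK : K ^ Q ≤ m := Nat.le_add_left _ _
  have hKq : ∀ M : ℕ, m ≤ M → K ^ q ≤ M := by
    intro M hM
    rcases Nat.eq_zero_or_pos K with h0 | h0
    · rw [h0]
      exact (Nat.pow_le_pow_left (zero_le_one) q).trans (by simpa using hm1.trans hM)
    · exact (Nat.pow_le_pow_right h0 (Nat.le_succ q)).trans (hmK.trans hM)
  have hsplit : ((Finset.range N).filter bad).card ≤
      m + ((Finset.Ico m N).filter bad).card := by
    have hsub : (Finset.range N).filter bad ⊆
        Finset.range m ∪ (Finset.Ico m N).filter bad := by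
      intro x hx
      simp only [Finset.mem_filter, Finset.mem_range, Finset.mem_union, Finset.mem_Ico] at hx ⊢
      rcases lt_or_ge x m with h1 | h1
      · exact Or.inl h1
      · exact Or.inr ⟨⟨h1, hx.1⟩, hx.2⟩
    calc _ ≤ _ := Finset.card_le_card hsub
      _ ≤ _ := Finset.card_union_le _ _
      _ = _ := by rw [Finset.card_range]
  have hwin : ((Finset.Ico m N).filter bad).card ≤ C * (N / (K + 1) + 1) := by
    have := Finset.card_le_mul_card_image_of_maps_to
      (s := (Finset.Ico m N).filter bad) (t := Finset.range (N / (K + 1) + 1))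
      (f := fun x => (x - m) / (K + 1)) ?_ C ?_
    · rwa [Finset.card_range] at this
    · intro x hx
      simp only [Finset.mem_filter, Finset.mem_Ico] at hx
      rw [Finset.mem_range]
      exact Nat.lt_succ_of_le (Nat.div_le_div_right (by omega))
    · intro b _
      set F := ((Finset.Ico m N).filter bad).filter (fun x => (x - m) / (K + 1) = b) with hF
      have hmem : ∀ x ∈ F, m + b * (K + 1) ≤ x ∧ x ≤ m + b * (K + 1) + K ∧ bad x := by
        intro x hx
        simp only [hF, Finset.mem_filter, Finset.mem_Ico] at hx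
        obtain ⟨⟨⟨h1, h2⟩, h3⟩, h4⟩ := hx
        have h5 := Nat.div_add_mod (x - m) (K + 1)
        have h6 := Nat.mod_lt (x - m) (by omega : 0 < K + 1)
        rw [h4] at h5
        have h7 : (K + 1) * b = b * (K + 1) := Nat.mul_comm _ _
        refine ⟨by omega, by omega, h3⟩
      have hinj : Set.InjOn (fun x => x - (m + b * (K + 1))) (F : Set ℕ) := by
        intro x hx y hy hxy
        have h1 := (hmem x hx).1
        have h2 := (hmem y hy).1
        simp only at hxy
        omega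
      rw [← Finset.card_image_of_injOn hinj]
      refine h (m + b * (K + 1)) (hmN0.trans (Nat.le_add_right _ _)) K
        (hKq _ (Nat.le_add_right _ _)) _ ?_
      intro k hk
      obtain ⟨x, hx, rfl⟩ := Finset.mem_image.1 hk
      obtain ⟨h1, h2, h3⟩ := hmem x hx
      refine ⟨by omega, ?_⟩
      rwa [Nat.add_sub_cancel' h1]
  have hdiv : ((N / (K + 1) : ℕ) : ℝ) ≤ P := by
    calc ((N / (K + 1) : ℕ) : ℝ) ≤ (N : ℝ) / ((K + 1 : ℕ) : ℝ) := Nat.cast_div_le
      _ ≤ (N : ℝ) / (N : ℝ) ^ η := by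
        apply div_le_div_of_nonneg_left hN0.le hNη
        push_cast
        exact hK2.le
      _ = P := by rw [hP, Real.rpow_sub hN0, Real.rpow_one]
  have htot : (((Finset.range N).filter bad).card : ℝ) ≤
      ((max N0 1 : ℕ) : ℝ) + ((K ^ Q : ℕ) : ℝ) + C * (((N / (K + 1) : ℕ) : ℝ) + 1) := by
    have h1 : ((Finset.range N).filter bad).card ≤
        max N0 1 + K ^ Q + C * (N / (K + 1) + 1) := hsplit.trans (Nat.add_le_add_left hwin _)
    exact_mod_cast h1
  have hmax : ((max N0 1 : ℕ) : ℝ) ≤ (N0 : ℝ) + 1 := by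
    have : max N0 1 ≤ N0 + 1 := max_le (Nat.le_succ _) (Nat.le_add_left _ _)
    exact_mod_cast this
  have hC0 : (0 : ℝ) ≤ (C : ℝ) := Nat.cast_nonneg _
  have hN00 : (0 : ℝ) ≤ (N0 : ℝ) := Nat.cast_nonneg _
  calc _ ≤ _ := htot
    _ ≤ ((N0 : ℝ) + 1) * P + P + C * (P + P) := by
      have a1 : (N0 : ℝ) + 1 ≤ ((N0 : ℝ) + 1) * P := le_mul_of_one_le_right (by linarith) hP1
      have a2 : (C : ℝ) * (((N / (K + 1) : ℕ) : ℝ) + 1) ≤ C * (P + P) :=
        mul_le_mul_of_nonneg_left (by linarith) hC0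
      linarith
    _ = _ := by ring

end HofAA
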