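import Mathlib
import Pool.Agent.Lib.MP_301213_nt.Main

/-! MP_301213_nt, almost all theorem: definitions. -/

open Polynomial MeasureTheory Filter Topology

namespace HofAA

/-! ### moments -/

/-- moments of a function on `[0,1]` -/
noncomputable def mom (h : ℝ → ℝ) (n : ℕ) : ℝ := ∫ y in (0 : ℝ)..1, (1 - y) ^ n * h y

/-- integrable, with Taylor expansions of all orders at `0` with integrable remainders -/
def Tay (h : ℝ → ℝ) : Prop :=
  IntervalIntegrable h volume 0 1 ∧
  ∀ J : ℕ, ∃ (μ : ℕ → ℝ) (ρ : ℝ → ℝ), IntervalIntegrable ρ volume 0 1 ∧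
    ∀ y ∈ Set.Ioo (0 : ℝ) 1, h y = ∑ j ∈ Finset.range J, μ j * y ^ j + y ^ J * ρ y

/-- bounded below by a power of `n` -/
def NonFlat (G : ℕ → ℝ) : Prop :=
  ∃ (c : ℝ) (m N0 : ℕ), 0 < c ∧ ∀ n : ℕ, N0 ≤ n → c / (n : ℝ) ^ m ≤ |G n|

/-- independence over real polynomials, in the quantitative form -/
def PolyInd {ω : Type} [Fintype ω] (M : ω → ℕ → ℝ) : Prop :=
  ∀ Q : ω → ℝ[X], Q ≠ 0 → NonFlat fun n => ∑ w, (Q w).eval (n : ℝ) * M w n

/-- local polynomial expansions of all orders -/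
def Expa (M : ℕ → ℝ) : Prop :=
  ∀ β : ℕ, ∃ C : ℝ, 0 ≤ C ∧ ∀ N : ℕ, 1 ≤ N → ∃ y : ℕ → ℝ,
    (∀ m, |y m| ≤ C / (N : ℝ) ^ m) ∧
    ∀ k : ℕ, |M (N + k) - ∑ m ∈ Finset.range (β + 1), y m * (k : ℝ) ^ m| ≤
      C * (k : ℝ) ^ (β + 1) / (N : ℝ) ^ (β + 1)

/-- conclusion of the lower bound module -/
def LowBd {ω : Type} [Fintype ω] (M : ω → ℕ → ℝ) : Prop :=
  ∀ κ : ℕ, ∃ (J C1 N0 : ℕ) (c0 : ℝ), 0 < c0 ∧ ∀ N : ℕ, N0 ≤ N → ∀ Q : ω → ℝ[X],
    (∀ w, (Q w).natDegree ≤ κ) → (∃ w a, 1 ≤ |(Q w).coeff a|) →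
    ∃ k ≤ J, c0 / (N : ℝ) ^ C1 ≤ |∑ w, (Q w).eval (((N + k : ℕ) : ℝ)) * M w (N + k)|

/-! ### families with integer polynomial coefficients -/

/-- `Y_i(k) = ∑_w B_{iw}(k) M_w(N+k)` -/
noncomputable def Yf {ω ι : Type} [Fintype ω] (M : ω → ℕ → ℝ) (B : ι → ω → ℤ[X]) (N k : ℕ)
    (i : ι) : ℝ :=
  ∑ w, ((B i w).map (Int.castRingHom ℝ)).eval (k : ℝ) * M w (N + k)

/-- the rows of `B` are independent over the polynomials -/
def RowInd {ω ι : Type} [Fintype ω] [Fintype ι] (B : ι → ω → ℤ[X]) : Prop :=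
  ∀ P : ι → ℤ[X], (∀ w, ∑ i, P i * B i w = 0) → P = 0

/-- an integer vector annihilating the family at `k` -/
def Ann {ω ι : Type} [Fintype ω] [Fintype ι] (M : ω → ℕ → ℝ) (B : ι → ω → ℤ[X]) (N A k : ℕ)
    (c : ι → ℤ) : Prop :=
  (∀ i, |c i| ≤ (N : ℤ) ^ A) ∧ ∑ i, (c i : ℝ) * Yf M B N k i = 0

/-! ### the functions -/

/-- the kernel -/
noncomputable def sk (M : ℕ) (φ : ℝ) : ℝ := 4 ^ M * Real.sin φ ^ (2 * M) / (Nat.centralBinom M : ℝ)

/-- the function attached to a reversed word -/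
noncomputable def Phi (u : List ℕ) (φ : ℝ) : ℝ := ∑' M : ℕ, HofPers.aR u M * sk M φ

/-- the function on `[0,1]`, `φ = π/2 (1 - √(1-y))` -/
noncomputable def hh (u : List ℕ) (y : ℝ) : ℝ :=
  Real.pi / 4 / √(1 - y) * Phi u (Real.pi / 2 * (1 - √(1 - y)))

/-- reversed Hoffman words of weight `k` -/
def Hof (k : ℕ) (u : List ℕ) : Prop := (∀ a ∈ u, a = 2 ∨ a = 3) ∧ u.sum = k

/-- iterated integrals; `true` is the form `2 dφ`, `false` is the form `2 cot φ dφ` -/
noncomputable def II : List Bool → ℝ → ℝ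
  | [], _ => 1
  | true :: W, φ => ∫ x in (0 : ℝ)..φ, 2 * II W x
  | false :: W, φ => ∫ x in (0 : ℝ)..φ, 2 * Real.cot x * II W x

/-- words not ending with `false` -/
def good : List Bool → Prop
  | [] => True
  | true :: W => good W
  | false :: W => good W ∧ W ≠ []

/-- encoding of a reversed word: a letter `k` becomes `false^(k-2) true true` -/
def enc : List ℕ → List Bool
  | [] => []
  | k :: u => List.replicate (k - 2) false ++ (true :: true :: enc u)

/-! ### the algebraic model -/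

/-- formal combinations of words with polynomial coefficients (polynomials in `cot φ`) -/
abbrev MM : Type := List Bool →₀ ℝ[X]

/-- derivative of a polynomial in `cot φ` -/
noncomputable def d0 (P : ℝ[X]) : ℝ[X] := -(1 + X ^ 2) * derivative P

/-- derivative of one term -/
noncomputable def dW : List Bool → ℝ[X] → MM
  | [], P => Finsupp.single [] (d0 P)
  | true :: W, P => Finsupp.single (true :: W) (d0 P) + Finsupp.single W (2 * P)
  | false :: W, P => Finsupp.single (false :: W) (d0 P) + Finsupp.single W (2 * X * P)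

/-- all insertions of the letter `true` -/
def ins : List Bool → List (List Bool)
  | [] => [[true]]
  | x :: V => (true :: x :: V) :: (ins V).map (fun W => x :: W)

/-- multiplication by `φ` of one term -/
noncomputable def sW (W : List Bool) (P : ℝ[X]) : MM :=
  ((ins W).map (fun V => Finsupp.single V (C (1 / 2 : ℝ) * P))).sum

theorem d0_add (P Q : ℝ[X]) : d0 (P + Q) = d0 P + d0 Q := by
  unfold d0; rw [derivative_add]; ring

theorem d0_smul (r : ℝ) (P : ℝ[X]) : d0 (r • P) = r • d0 P := by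
  unfold d0; rw [derivative_smul]; rw [smul_eq_C_mul, smul_eq_C_mul]; ring

theorem dW_add (W : List Bool) (P Q : ℝ[X]) : dW W (P + Q) = dW W P + dW W Q := by
  rcases W with _ | ⟨_ | _, W⟩ <;>
    simp only [dW, d0_add, mul_add, Finsupp.single_add] <;> abel

theorem dW_smul (W : List Bool) (r : ℝ) (P : ℝ[X]) : dW W (r • P) = r • dW W P := by
  rcases W with _ | ⟨_ | _, W⟩ <;>
    simp only [dW, d0_smul, mul_smul_comm, smul_add, Finsupp.smul_single]

theorem sW_add (W : List Bool) (P Q : ℝ[X]) : sW W (P + Q) = sW W P + sW W Q := by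
  unfold sW
  induction ins W with
  | nil => simp
  | cons V l ih =>
    simp only [List.map_cons, List.sum_cons, mul_add, Finsupp.single_add] at ih ⊢
    rw [ih]; abel

theorem sW_smul (W : List Bool) (r : ℝ) (P : ℝ[X]) : sW W (r • P) = r • sW W P := by
  unfold sW
  induction ins W with
  | nil => simp
  | cons V l ih =>
    simp only [List.map_cons, List.sum_cons, mul_smul_comm, smul_add, Finsupp.smul_single] at ih ⊢
    rw [ih]

/-- the derivation -/
noncomputable def DD : MM →ₗ[ℝ] MM :=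
  Finsupp.lsum ℝ fun W =>
    { toFun := dW W
      map_add' := dW_add W
      map_smul' := dW_smul W }

/-- multiplication by `φ` -/
noncomputable def SS : MM →ₗ[ℝ] MM :=
  Finsupp.lsum ℝ fun W =>
    { toFun := sW W
      map_add' := sW_add W
      map_smul' := sW_smul W }

/-- multiplication by `π - 2φ` -/
noncomputable def UU : MM →ₗ[ℝ] MM := Real.pi • LinearMap.id - (2 : ℝ) • SS

/-- the operator `(π - 2φ) d/dφ` -/
noncomputable def TT : Module.End ℝ MM := UU ∘ₗ DD

/-- evaluation -/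
noncomputable def ev (p : MM) (φ : ℝ) : ℝ := p.sum fun W P => P.eval (Real.cot φ) * II W φ

/-- the operator `(π - 2φ) d/dφ` on functions -/
noncomputable def tf (f : ℝ → ℝ) (φ : ℝ) : ℝ := (Real.pi - 2 * φ) * deriv f φ

end HofAA
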