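import Pool.Agent.Lib.MP_301213_nt.AA.Defs

/-! MP_301213_nt, almost all theorem: interpolation determinant -/

set_option autoImplicit false

open Polynomial MeasureTheory Filter Topology

namespace HofAA

section Det1

variable {ι : Type} [Fintype ι] [DecidableEq ι] (β : ℕ)

/-- the lower triangular block -/
noncomputable def D1L (a : ℕ → ℝ) : Matrix (Fin (β + 1)) (Fin (β + 1)) ℝ :=
  Matrix.of fun c b => if b ≤ c then a ((c : ℕ) - b) else 0

theorem D1L_det (a : ℕ → ℝ) : (D1L β a).det = a 0 ^ (β + 1) := by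
  rw [Matrix.det_of_isLowerTriangular]
  · have h : ∀ i : Fin (β + 1), (D1L β a) i i = a 0 := by
      intro i
      simp [D1L]
    rw [Finset.prod_congr rfl fun i _ => h i]
    simp
  · intro i j hij
    have h1 : i < j := hij
    simp only [D1L, Matrix.of_apply]
    rw [if_neg (not_le.2 h1)]

/-- the transition matrix -/
noncomputable def D1T (y : Option ι → ℕ → ℝ) :
    Matrix (Option ι × Fin (β + 1)) (Option ι × Fin (β + 1)) ℝ :=
  Matrix.of fun r p => match p with
    | (none, b) => if b ≤ r.2 then y r.1 ((r.2 : ℕ) - b) else 0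
    | (some j, b) => if r = (some j, b) then 1 else 0

/-- the reindexing -/
def D1e : Option ι × Fin (β + 1) ≃ (ι × Fin (β + 1)) ⊕ Fin (β + 1) where
  toFun p := match p with
    | (none, b) => Sum.inr b
    | (some j, b) => Sum.inl (j, b)
  invFun s := match s with
    | Sum.inl (j, b) => (some j, b)
    | Sum.inr b => (none, b)
  left_inv := by rintro ⟨_ | j, b⟩ <;> rfl
  right_inv := by rintro (⟨j, b⟩ | b) <;> rfl

theorem D1T_det (y : Option ι → ℕ → ℝ) : (D1T β y).det = y none 0 ^ (β + 1) := by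
  rw [← Matrix.det_reindex_self (D1e β)]
  have h : Matrix.reindex (D1e β) (D1e β) (D1T β y) =
      Matrix.fromBlocks 1 (Matrix.of fun (r : ι × Fin (β + 1)) (b : Fin (β + 1)) =>
        if b ≤ r.2 then y (some r.1) ((r.2 : ℕ) - b) else 0) 0 (D1L β (y none)) := by
    ext r p
    rcases r with ⟨i, c⟩ | c <;> rcases p with ⟨j, b⟩ | b
    · simp [D1e, D1T, Matrix.one_apply]
    · simp [D1e, D1T]
    · simp [D1e, D1T]
    · simp [D1e, D1T, D1L]
  rw [h, Matrix.det_fromBlocks_zero₂₁, Matrix.det_one, one_mul, D1L_det]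

theorem D1_shift (a k : ℝ) (y : ℕ → ℝ) (b N : ℕ) (hb : b ≤ N) :
    ∑ c ∈ Finset.range N, a * k ^ c * (if b ≤ c then y (c - b) else 0) =
      ∑ m ∈ Finset.range (N - b), y m * (a * k ^ (m + b)) := by
  obtain ⟨M, rfl⟩ := Nat.exists_eq_add_of_le hb
  rw [Finset.sum_range_add, Nat.add_sub_cancel_left]
  have h6 : ∑ c ∈ Finset.range b, a * k ^ c * (if b ≤ c then y (c - b) else 0) = 0 := by
    refine Finset.sum_eq_zero fun c hc => ?_
    rw [if_neg (not_le.2 (Finset.mem_range.1 hc)), mul_zero]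
  rw [h6, zero_add]
  refine Finset.sum_congr rfl fun m _ => ?_
  rw [if_pos (Nat.le_add_right _ _), Nat.add_sub_cancel_left, add_comm b m]
  ring

theorem D1_det_bound {n : Type} [Fintype n] [DecidableEq n] (M : Matrix n n ℝ) (s : n → ℝ)
    (h : ∀ l p, |M l p| ≤ s p) :
    |M.det| ≤ (Nat.factorial (Fintype.card n) : ℝ) * ∏ p, s p := by
  rw [Matrix.det_apply]
  refine (Finset.abs_sum_le_sum_abs _ _).trans ?_
  have h1 : ∀ σ : Equiv.Perm n, |Equiv.Perm.sign σ • ∏ i, M (σ i) i| ≤ ∏ p, s p := by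
    intro σ
    have h2 : |Equiv.Perm.sign σ • ∏ i, M (σ i) i| = |∏ i, M (σ i) i| := by
      rcases Int.units_eq_one_or (Equiv.Perm.sign σ) with h3 | h3 <;> rw [h3] <;> simp
    rw [h2, Finset.abs_prod]
    exact Finset.prod_le_prod (fun i _ => abs_nonneg _) fun i _ => h _ _
  refine (Finset.sum_le_sum fun σ _ => h1 σ).trans ?_
  rw [Finset.sum_const, nsmul_eq_mul, Finset.card_univ, Fintype.card_perm]

end Det1

theorem det_small {ι : Type} [Fintype ι] [DecidableEq ι] (β : ℕ)
    (cc : (Option ι × Fin (β + 1)) → Option ι → ℝ) (kk : (Option ι × Fin (β + 1)) → ℝ)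
    (y : Option ι → ℕ → ℝ) (H K : ℝ) (e : Fin (β + 1) → ℝ) (hK : 1 ≤ K) (hH : 0 ≤ H)
    (hc : ∀ l i, |cc l i| ≤ H) (hk : ∀ l, |kk l| ≤ K)
    (he : ∀ (l : Option ι × Fin (β + 1)) (b : Fin (β + 1)),
      |∑ i, ∑ m ∈ Finset.range (β + 1 - b), y i m * (cc l i * kk l ^ (m + (b : ℕ)))| ≤ e b) :
    |Matrix.det (Matrix.of fun (l p : Option ι × Fin (β + 1)) =>
        cc l p.1 * kk l ^ (p.2 : ℕ))| * |y none 0| ^ (β + 1) ≤
      (Nat.factorial (Fintype.card (Option ι × Fin (β + 1))) : ℝ) *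
        (H * K ^ β) ^ (Fintype.card ι * (β + 1)) * ∏ b, e b := by
  set V : Matrix (Option ι × Fin (β + 1)) (Option ι × Fin (β + 1)) ℝ :=
    Matrix.of fun l p => cc l p.1 * kk l ^ (p.2 : ℕ) with hV
  have h1 : |V.det| * |y none 0| ^ (β + 1) = |(V * D1T β y).det| := by
    rw [Matrix.det_mul, D1T_det, abs_mul, abs_pow]
  rw [h1]
  let s : Option ι × Fin (β + 1) → ℝ := fun p => match p with
    | (none, b) => e b
    | (some _, _) => H * K ^ β
  have h2 := D1_det_bound (V * D1T β y) s ?_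
  · refine h2.trans (le_of_eq ?_)
    rw [mul_assoc]
    congr 1
    rw [Fintype.prod_prod_type, Fintype.prod_option, mul_comm]
    congr 1
    simp [s, Finset.prod_const, ← pow_mul, mul_comm]
  · rintro l ⟨_ | j, b⟩
    · show |(V * D1T β y) l (none, b)| ≤ e b
      have h3 : (V * D1T β y) l (none, b) =
          ∑ i, ∑ m ∈ Finset.range (β + 1 - b), y i m * (cc l i * kk l ^ (m + (b : ℕ))) := by
        rw [Matrix.mul_apply, Fintype.sum_prod_type]
        refine Finset.sum_congr rfl fun i _ => ?_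
        simp only [hV, D1T, Matrix.of_apply]
        have h4 := Fin.sum_univ_eq_sum_range (fun c : ℕ => cc l i * kk l ^ c *
          (if (b : ℕ) ≤ c then y i (c - b) else 0)) (β + 1)
        refine Eq.trans ?_ (h4.trans ?_)
        · refine Finset.sum_congr rfl fun c _ => ?_
          rfl
        · exact D1_shift (cc l i) (kk l) (y i) b (β + 1) b.2.le
      rw [h3]
      exact he l b
    · show |(V * D1T β y) l (some j, b)| ≤ H * K ^ β
      have h3 : (V * D1T β y) l (some j, b) = V l (some j, b) := by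
        rw [Matrix.mul_apply]
        simp [D1T]
      rw [h3, hV, Matrix.of_apply, abs_mul, abs_pow]
      have hb : (b : ℕ) ≤ β := Nat.lt_succ_iff.1 b.2
      refine mul_le_mul (hc _ _) ?_ (by positivity) hH
      exact (pow_le_pow_left₀ (abs_nonneg _) (hk l) _).trans (pow_le_pow_right₀ hK hb)

end HofAA
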