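import Pool.Agent.Lib.MP_301213_nt.AA.Defs

/-! MP_301213_nt, almost all theorem: small integer solution -/

set_option autoImplicit false

open Polynomial MeasureTheory Filter Topology

namespace HofAA

open scoped Matrix.Norms.Elementwise in
theorem small_sol {n : Type} [Fintype n] [DecidableEq n] (V : Finset (n → ℤ)) (Hb : ℕ)
    (hHb : 1 ≤ Hb) (hn : 0 < Fintype.card n) (hV : ∀ v ∈ V, ∀ i, |v i| ≤ (Hb : ℤ))
    (hdet : ∀ f : n → (n → ℤ), (∀ i, f i ∈ V) → Matrix.det (Matrix.of f) = 0) :
    ∃ p : n → ℤ, p ≠ 0 ∧ (∀ v ∈ V, ∑ i, v i * p i = 0) ∧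
      ∀ i, |p i| ≤ ((Fintype.card n * Hb) ^ Fintype.card n : ℕ) := by
  classical
  have hbase : 1 ≤ Fintype.card n * Hb := Nat.mul_pos hn hHb
  -- rational vectors
  let w : V → (n → ℚ) := fun v i => ((v : n → ℤ) i : ℚ)
  obtain ⟨ρ, a, ha, hspan, hli⟩ := exists_linearIndependent' ℚ w
  have hfin : Finite ρ := Finite.of_injective a ha
  have := Fintype.ofFinite ρ
  -- the number of independent vectors is small
  have hle : Fintype.card ρ ≤ Fintype.card n := by
    have := hli.fintype_card_le_finrank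
    rwa [Module.finrank_fintype_fun_eq_card] at this
  have hlt : Fintype.card ρ < Fintype.card n := by
    refine lt_of_le_of_ne hle fun heq => ?_
    obtain ⟨e⟩ := Fintype.card_eq.mp heq.symm
    have h1 := hdet (fun i => ((a (e i) : V) : n → ℤ)) (fun i => (a (e i)).2)
    have h2 : Matrix.det (Matrix.of (fun i => w (a (e i)))) ≠ 0 := by
      have h3 : LinearIndependent ℚ (fun i => w (a (e i))) := hli.comp e e.injective
      have h4 : LinearIndependent ℚ (Matrix.of (fun i => w (a (e i)))).row := h3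
      rw [Matrix.linearIndependent_rows_iff_isUnit, Matrix.isUnit_iff_isUnit_det] at h4
      exact h4.ne_zero
    apply h2
    have h5 : Matrix.of (fun i => w (a (e i)))
        = (Matrix.of (fun i => ((a (e i) : V) : n → ℤ))).map (Int.castRingHom ℚ) := by
      ext i j; rfl
    rw [h5, ← RingHom.mapMatrix_apply, ← RingHom.map_det, h1, map_zero]
  -- it is enough to annihilate the vectors `a j`
  have key : ∀ p : n → ℤ, (∀ j : ρ, ∑ i, (a j : n → ℤ) i * p i = 0) →
      ∀ v ∈ V, ∑ i, v i * p i = 0 := by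
    intro p hp v hv
    let L : (n → ℚ) →ₗ[ℚ] ℚ :=
      { toFun := fun u => ∑ i, u i * (p i : ℚ)
        map_add' := by intro x y; simp [add_mul, Finset.sum_add_distrib]
        map_smul' := by intro c x; simp [Finset.mul_sum, mul_assoc] }
    have h1 : Submodule.span ℚ (Set.range (w ∘ a)) ≤ LinearMap.ker L := by
      rw [Submodule.span_le]
      rintro _ ⟨j, rfl⟩
      change ∑ i, ((a j : n → ℤ) i : ℚ) * (p i : ℚ) = 0
      exact_mod_cast hp j
    rw [hspan] at h1
    have h2 : w ⟨v, hv⟩ ∈ LinearMap.ker L := h1 (Submodule.subset_span ⟨_, rfl⟩)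
    have h3 : ∑ i, (v i : ℚ) * (p i : ℚ) = 0 := h2
    exact_mod_cast h3
  rcases Nat.eq_zero_or_pos (Fintype.card ρ) with h0 | hpos
  · -- no vectors
    have hemp : IsEmpty ρ := Fintype.card_eq_zero_iff.mp h0
    have : Nonempty n := Fintype.card_pos_iff.mp hn
    obtain ⟨i₀⟩ := this
    refine ⟨Pi.single i₀ 1, ?_, key _ (fun j => hemp.elim j), ?_⟩
    · intro h
      have := congrFun h i₀
      simp at this
    · intro i
      have h1 : (1 : ℕ) ≤ (Fintype.card n * Hb) ^ Fintype.card n := Nat.one_le_pow _ _ hbase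
      have h2 : |(Pi.single i₀ (1 : ℤ) : n → ℤ) i| ≤ 1 := by
        by_cases h : i = i₀
        · subst h; simp
        · simp [Pi.single_eq_of_ne h]
      exact h2.trans (by exact_mod_cast h1)
  · -- Siegel's lemma
    let M : Matrix ρ n ℤ := Matrix.of fun j i => (a j : n → ℤ) i
    obtain ⟨t, ht0, htM, htn⟩ := Int.Matrix.exists_ne_zero_int_vec_norm_le M hlt hpos
    refine ⟨t, ht0, key t (fun j => ?_), fun i => ?_⟩
    · have := congrFun htM j
      exact this
    · have hM : ‖M‖ ≤ Hb := by
        rw [Matrix.norm_le_iff (by positivity)]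
        intro j i
        have := hV _ (a j).2 i
        rw [Int.norm_eq_abs]
        exact_mod_cast this
      have hHb' : (1 : ℝ) ≤ Hb := by exact_mod_cast hHb
      have hmax : max 1 ‖M‖ ≤ Hb := max_le hHb' hM
      have hb1 : (1 : ℝ) ≤ (Fintype.card n : ℝ) * max 1 ‖M‖ := by
        have : (1 : ℝ) ≤ Fintype.card n := by exact_mod_cast hn
        have h3 : (1 : ℝ) ≤ max 1 ‖M‖ := le_max_left _ _
        nlinarith
      have hb2 : (Fintype.card n : ℝ) * max 1 ‖M‖ ≤ ((Fintype.card n * Hb : ℕ) : ℝ) := by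
        push_cast
        exact mul_le_mul_of_nonneg_left hmax (Nat.cast_nonneg _)
      have hexp : ((Fintype.card ρ : ℝ) / ((Fintype.card n : ℝ) - Fintype.card ρ))
          ≤ (Fintype.card n : ℝ) := by
        have h4 : (1 : ℝ) ≤ (Fintype.card n : ℝ) - Fintype.card ρ := by
          have : (Fintype.card ρ : ℝ) + 1 ≤ Fintype.card n := by exact_mod_cast hlt
          linarith
        rw [div_le_iff₀ (by linarith)]
        have h5 : (Fintype.card ρ : ℝ) ≤ Fintype.card n := by exact_mod_cast hle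
        have h6 : (0 : ℝ) ≤ Fintype.card n := Nat.cast_nonneg _
        nlinarith
      have h7 : ‖t‖ ≤ (((Fintype.card n * Hb : ℕ) : ℝ)) ^ Fintype.card n := by
        refine htn.trans ?_
        calc ((Fintype.card n : ℝ) * max 1 ‖M‖) ^
              ((Fintype.card ρ : ℝ) / ((Fintype.card n : ℝ) - Fintype.card ρ))
            ≤ ((Fintype.card n : ℝ) * max 1 ‖M‖) ^ (Fintype.card n : ℝ) :=
              Real.rpow_le_rpow_of_exponent_le hb1 hexp
          _ = ((Fintype.card n : ℝ) * max 1 ‖M‖) ^ Fintype.card n := Real.rpow_natCast _ _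
          _ ≤ _ := pow_le_pow_left₀ (by linarith) hb2 _
      have h8 : ‖t i‖ ≤ ‖t‖ := norm_le_pi_norm t i
      rw [Int.norm_eq_abs] at h8
      have h9 : ((|t i| : ℤ) : ℝ) ≤ (((Fintype.card n * Hb) ^ Fintype.card n : ℕ) : ℝ) := by
        push_cast
        push_cast at h7
        exact h8.trans h7
      exact_mod_cast h9

end HofAA
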