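import Pool.Agent.Lib.MP_301213_nt.AA.Det1
import Pool.Agent.Lib.MP_301213_nt.AA.Sieg

/-! MP_301213_nt, almost all theorem: determinant step -/

set_option autoImplicit false

open Polynomial MeasureTheory Filter Topology

namespace HofAA

/-- local polynomial expansion with uniform remainders -/
def Xp (N K β e : ℕ) (D : ℝ) (f : ℕ → ℝ) (z : ℕ → ℝ) : Prop :=
  f 0 = z 0 ∧ ∀ n ≤ β + 1, ∀ k ≤ K,
    |f k - ∑ m ∈ Finset.range n, z m * (k : ℝ) ^ m| ≤ D * (K : ℝ) ^ e / (N : ℝ) ^ n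

theorem Xp.mono {N K β e e' : ℕ} {D D' : ℝ} {f z : ℕ → ℝ} (h : Xp N K β e D f z) (hK : 1 ≤ K)
    (hD : 0 ≤ D') (hDD : D ≤ D') (he : e ≤ e') : Xp N K β e' D' f z := by
  refine ⟨h.1, fun n hn k hk => (h.2 n hn k hk).trans ?_⟩
  apply div_le_div_of_nonneg_right _ (by positivity)
  have : (K : ℝ) ^ e ≤ (K : ℝ) ^ e' := pow_le_pow_right₀ (by exact_mod_cast hK) he
  exact mul_le_mul hDD this (by positivity) hD

theorem Xp.smul {N K β e : ℕ} {D S c : ℝ} {f z : ℕ → ℝ} (h : Xp N K β e D f z)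
    (hc : |c| ≤ S) : Xp N K β e (S * D) (fun k => c * f k) (fun m => c * z m) := by
  refine ⟨congrArg (fun t => c * t) h.1, fun n hn k hk => ?_⟩
  have h1 : c * f k - ∑ m ∈ Finset.range n, c * z m * (k : ℝ) ^ m =
      c * (f k - ∑ m ∈ Finset.range n, z m * (k : ℝ) ^ m) := by
    rw [mul_sub, Finset.mul_sum]
    congr 1
    exact Finset.sum_congr rfl fun m _ => by ring
  rw [h1, abs_mul]
  have h2 := h.2 n hn k hk
  have h3 : S * D * (K : ℝ) ^ e / (N : ℝ) ^ n = S * (D * (K : ℝ) ^ e / (N : ℝ) ^ n) := by ring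
  rw [h3]
  exact mul_le_mul hc h2 (abs_nonneg _) ((abs_nonneg _).trans hc)

theorem Xp.sum {N K β e : ℕ} {α : Type} (s : Finset α) (D : α → ℝ) (f z : α → ℕ → ℝ)
    (h : ∀ a ∈ s, Xp N K β e (D a) (f a) (z a)) :
    Xp N K β e (∑ a ∈ s, D a) (fun k => ∑ a ∈ s, f a k) (fun m => ∑ a ∈ s, z a m) := by
  refine ⟨Finset.sum_congr rfl fun a ha => (h a ha).1, fun n hn k hk => ?_⟩
  have h1 : ∑ a ∈ s, f a k - ∑ m ∈ Finset.range n, (∑ a ∈ s, z a m) * (k : ℝ) ^ m =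
      ∑ a ∈ s, (f a k - ∑ m ∈ Finset.range n, z a m * (k : ℝ) ^ m) := by
    rw [Finset.sum_sub_distrib]
    congr 1
    rw [Finset.sum_comm]
    exact Finset.sum_congr rfl fun m _ => by rw [Finset.sum_mul]
  rw [h1, Finset.sum_mul, Finset.sum_div]
  exact (Finset.abs_sum_le_sum_abs _ _).trans (Finset.sum_le_sum fun a ha => (h a ha).2 n hn k hk)

theorem Xp.mulk {N K β e : ℕ} {D : ℝ} {f z : ℕ → ℝ} (h : Xp N K β e D f z) (hN : 1 ≤ N)
    (hK : 1 ≤ K) (hD : 0 ≤ D) :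
    Xp N K β (e + 1) (D * N) (fun k => (k : ℝ) * f k)
      (fun m => match m with | 0 => 0 | (m + 1) => z m) := by
  have hN' : (1 : ℝ) ≤ N := by exact_mod_cast hN
  refine ⟨by simp, fun n hn k hk => ?_⟩
  have hkK : (k : ℝ) ≤ K := by exact_mod_cast hk
  rcases n with _ | n
  · have h2 := h.2 0 (by omega) k hk
    simp only [Finset.range_zero, Finset.sum_empty, sub_zero, pow_zero, div_one] at h2 ⊢
    rw [abs_mul, abs_of_nonneg (Nat.cast_nonneg k)]
    calc (k : ℝ) * |f k| ≤ K * (D * (K : ℝ) ^ e) :=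
          mul_le_mul hkK h2 (abs_nonneg _) (Nat.cast_nonneg _)
      _ = D * 1 * (K : ℝ) ^ (e + 1) := by ring
      _ ≤ D * N * (K : ℝ) ^ (e + 1) := by
          apply mul_le_mul_of_nonneg_right _ (by positivity)
          exact mul_le_mul_of_nonneg_left hN' hD
  · have h2 := h.2 n (by omega) k hk
    have h1 : (k : ℝ) * f k - ∑ m ∈ Finset.range (n + 1),
        (match m with | 0 => 0 | (m + 1) => z m : ℝ) * (k : ℝ) ^ m =
        k * (f k - ∑ m ∈ Finset.range n, z m * (k : ℝ) ^ m) := by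
      rw [Finset.sum_range_succ', mul_sub, Finset.mul_sum]
      simp only [zero_mul, add_zero]
      congr 1
      exact Finset.sum_congr rfl fun m _ => by ring
    rw [h1, abs_mul, abs_of_nonneg (Nat.cast_nonneg k)]
    have hNp : (0 : ℝ) < (N : ℝ) ^ n := by positivity
    calc (k : ℝ) * |f k - ∑ m ∈ Finset.range n, z m * (k : ℝ) ^ m|
        ≤ K * (D * (K : ℝ) ^ e / (N : ℝ) ^ n) :=
          mul_le_mul hkK h2 (abs_nonneg _) (Nat.cast_nonneg _)
      _ = D * N * (K : ℝ) ^ (e + 1) / (N : ℝ) ^ (n + 1) := by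
          rw [pow_succ, pow_succ]
          field_simp

theorem Xp.mulpow {N K β e : ℕ} {D : ℝ} {f z : ℕ → ℝ} (h : Xp N K β e D f z) (hN : 1 ≤ N)
    (hK : 1 ≤ K) (hD : 0 ≤ D) (a : ℕ) :
    ∃ z' : ℕ → ℝ, Xp N K β (e + a) (D * (N : ℝ) ^ a) (fun k => (k : ℝ) ^ a * f k) z' := by
  induction a with
  | zero => exact ⟨z, by simpa using h⟩
  | succ a ih =>
    obtain ⟨z', hz⟩ := ih
    refine ⟨fun m => match m with | 0 => 0 | (m + 1) => z' m, ?_⟩
    have h1 := hz.mulk hN hK (by positivity)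
    have h2 : (fun k : ℕ => (k : ℝ) * ((k : ℝ) ^ a * f k)) =
        fun k : ℕ => (k : ℝ) ^ (a + 1) * f k := by
      funext k; ring
    have h3 : D * (N : ℝ) ^ a * N = D * (N : ℝ) ^ (a + 1) := by ring
    rw [h2, h3] at h1
    exact h1

theorem xp_base {M : ℕ → ℝ} {β : ℕ} {C : ℝ} (hC : 0 ≤ C) {N K : ℕ} (hN : 1 ≤ N) (hK : 1 ≤ K)
    {y : ℕ → ℝ} (hy : ∀ m, |y m| ≤ C / (N : ℝ) ^ m)
    (hk : ∀ k : ℕ, |M (N + k) - ∑ m ∈ Finset.range (β + 1), y m * (k : ℝ) ^ m| ≤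
      C * (k : ℝ) ^ (β + 1) / (N : ℝ) ^ (β + 1)) :
    Xp N K β (β + 1) ((β + 2) * C) (fun k => M (N + k)) y := by
  have hN' : (1 : ℝ) ≤ N := by exact_mod_cast hN
  have hK' : (1 : ℝ) ≤ K := by exact_mod_cast hK
  constructor
  · have h := hk 0
    rw [Finset.sum_range_succ'] at h
    simp only [Nat.cast_zero, pow_zero, mul_one, ne_eq, Nat.add_eq_zero_iff, one_ne_zero,
      and_false, not_false_eq_true, zero_pow, mul_zero, Finset.sum_const_zero, zero_add,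
      zero_div, abs_nonpos_iff, add_zero] at h
    simpa using sub_eq_zero.1 h
  · intro n hn k hkK
    have hkK' : (k : ℝ) ≤ K := by exact_mod_cast hkK
    have hNn : (0 : ℝ) < (N : ℝ) ^ n := by positivity
    have h1 := hk k
    have h2 : ∑ m ∈ Finset.range (β + 1), y m * (k : ℝ) ^ m =
        ∑ m ∈ Finset.range n, y m * (k : ℝ) ^ m +
        ∑ m ∈ Finset.Ico n (β + 1), y m * (k : ℝ) ^ m :=
      (Finset.sum_range_add_sum_Ico _ hn).symm
    have h3 : |∑ m ∈ Finset.Ico n (β + 1), y m * (k : ℝ) ^ m| ≤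
        (β + 1) * (C * (K : ℝ) ^ (β + 1) / (N : ℝ) ^ n) := by
      refine (Finset.abs_sum_le_sum_abs _ _).trans ?_
      have h4 : ∀ m ∈ Finset.Ico n (β + 1), |y m * (k : ℝ) ^ m| ≤
          C * (K : ℝ) ^ (β + 1) / (N : ℝ) ^ n := by
        intro m hm
        rw [Finset.mem_Ico] at hm
        rw [abs_mul, abs_of_nonneg (by positivity : (0 : ℝ) ≤ (k : ℝ) ^ m)]
        have h5 : (k : ℝ) ^ m ≤ (K : ℝ) ^ (β + 1) :=
          (pow_le_pow_left₀ (Nat.cast_nonneg _) hkK' _).trans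
            (pow_le_pow_right₀ hK' hm.2.le)
        have h6 : |y m| ≤ C / (N : ℝ) ^ n := (hy m).trans
          (div_le_div_of_nonneg_left hC hNn (pow_le_pow_right₀ hN' hm.1))
        calc |y m| * (k : ℝ) ^ m ≤ C / (N : ℝ) ^ n * (K : ℝ) ^ (β + 1) :=
              mul_le_mul h6 h5 (by positivity) (by positivity)
          _ = _ := by ring
      refine (Finset.sum_le_sum h4).trans ?_
      rw [Finset.sum_const, nsmul_eq_mul]
      apply mul_le_mul_of_nonneg_right _ (by positivity)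
      rw [Nat.card_Ico]
      have : ((β + 1 - n : ℕ) : ℝ) ≤ ((β + 1 : ℕ) : ℝ) := by exact_mod_cast Nat.sub_le _ _
      simpa using this
    have h7 : C * (k : ℝ) ^ (β + 1) / (N : ℝ) ^ (β + 1) ≤ C * (K : ℝ) ^ (β + 1) / (N : ℝ) ^ n := by
      apply div_le_div₀ (by positivity) _ hNn (pow_le_pow_right₀ hN' hn)
      exact mul_le_mul_of_nonneg_left (pow_le_pow_left₀ (Nat.cast_nonneg _) hkK' _) hC
    have h8 : M (N + k) - ∑ m ∈ Finset.range n, y m * (k : ℝ) ^ m =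
        (M (N + k) - ∑ m ∈ Finset.range (β + 1), y m * (k : ℝ) ^ m) +
        ∑ m ∈ Finset.Ico n (β + 1), y m * (k : ℝ) ^ m := by
      rw [h2]; ring
    rw [h8]
    refine (abs_add_le _ _).trans ?_
    calc _ ≤ C * (K : ℝ) ^ (β + 1) / (N : ℝ) ^ n +
          (β + 1) * (C * (K : ℝ) ^ (β + 1) / (N : ℝ) ^ n) := add_le_add (h1.trans h7) h3
      _ = _ := by ring

theorem yexp {ω : Type} [Fintype ω] (M : ω → ℕ → ℝ) (hM : ∀ w, Expa (M w)) (β κ : ℕ) :
    ∃ C3 : ℝ, 0 ≤ C3 ∧ ∀ N K : ℕ, 1 ≤ N → 1 ≤ K → ∀ (ι : Type) (B : ι → ω → ℤ[X]),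
      (∀ i w, (B i w).natDegree ≤ κ) → (∀ i w a, |(B i w).coeff a| ≤ (N : ℤ) ^ κ) →
      ∃ z : ι → ℕ → ℝ, ∀ i, Xp N K β (β + 1 + κ) (C3 * (N : ℝ) ^ (2 * κ))
        (fun k => Yf M B N k i) (z i) := by
  choose C hC hCN using fun w => hM w β
  refine ⟨∑ w, ∑ a ∈ Finset.range (κ + 1), (β + 2) * C w,
    Finset.sum_nonneg fun w _ => Finset.sum_nonneg fun a _ =>
      mul_nonneg (by positivity) (hC w), ?_⟩
  intro N K hN hK ι B hB1 hB2
  have hN' : (1 : ℝ) ≤ N := by exact_mod_cast hN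
  choose y hy hyk using fun w => hCN w N hN
  have hb : ∀ w, Xp N K β (β + 1) ((β + 2) * C w) (fun k => M w (N + k)) (y w) :=
    fun w => xp_base (hC w) hN hK (hy w) (hyk w)
  have hD : ∀ w, 0 ≤ ((β : ℝ) + 2) * C w := fun w => mul_nonneg (by positivity) (hC w)
  choose zz hzz using fun w a => (hb w).mulpow hN hK (hD w) a
  refine ⟨fun i m => ∑ w, ∑ a ∈ Finset.range (κ + 1), ((B i w).coeff a : ℝ) * zz w a m,
    fun i => ?_⟩
  have h1 : ∀ w, ∀ a ∈ Finset.range (κ + 1), Xp N K β (β + 1 + κ)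
      ((β + 2) * C w * (N : ℝ) ^ (2 * κ))
      (fun k => ((B i w).coeff a : ℝ) * ((k : ℝ) ^ a * M w (N + k)))
      (fun m => ((B i w).coeff a : ℝ) * zz w a m) := by
    intro w a ha
    rw [Finset.mem_range] at ha
    have h2 : |((B i w).coeff a : ℝ)| ≤ (N : ℝ) ^ κ := by
      have := hB2 i w a
      exact_mod_cast this
    have h3 := (hzz w a).smul h2
    refine h3.mono hK (mul_nonneg (hD w) (by positivity)) ?_ (by omega)
    have h4 : (N : ℝ) ^ a ≤ (N : ℝ) ^ κ := pow_le_pow_right₀ hN' (by omega)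
    calc (N : ℝ) ^ κ * ((β + 2) * C w * (N : ℝ) ^ a)
        = (β + 2) * C w * (N ^ κ * (N : ℝ) ^ a) := by ring
      _ ≤ (β + 2) * C w * (N ^ κ * (N : ℝ) ^ κ) :=
          mul_le_mul_of_nonneg_left (mul_le_mul_of_nonneg_left h4 (by positivity)) (hD w)
      _ = _ := by ring
  have h2 := Xp.sum Finset.univ _ _ _ fun w _ => Xp.sum (Finset.range (κ + 1)) _ _ _ (h1 w)
  have h3 : ∑ w, ∑ a ∈ Finset.range (κ + 1), (β + 2) * C w * (N : ℝ) ^ (2 * κ) =
      (∑ w, ∑ a ∈ Finset.range (κ + 1), (β + 2) * C w) * (N : ℝ) ^ (2 * κ) := by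
    rw [Finset.sum_mul]
    exact Finset.sum_congr rfl fun w _ => by rw [Finset.sum_mul]
  rw [h3] at h2
  have h4 : (fun k => Yf M B N k i) = fun k : ℕ => ∑ w, ∑ a ∈ Finset.range (κ + 1),
      ((B i w).coeff a : ℝ) * ((k : ℝ) ^ a * M w (N + k)) := by
    funext k
    unfold Yf
    refine Finset.sum_congr rfl fun w _ => ?_
    have h5 : ((B i w).map (Int.castRingHom ℝ)).natDegree < κ + 1 :=
      Nat.lt_succ_of_le ((Polynomial.natDegree_map_le).trans (hB1 i w))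
    rw [Polynomial.eval_eq_sum_range' h5, Finset.sum_mul]
    refine Finset.sum_congr rfl fun a _ => ?_
    rw [Polynomial.coeff_map]
    simp only [eq_intCast]
    ring
  rw [h4]
  exact h2

theorem sum_tri (n : ℕ) : (∑ b : Fin n, (n - (b : ℕ))) * 2 = n * (n + 1) := by
  rw [Fin.sum_univ_eq_sum_range (fun i => n - i) n]
  induction n with
  | zero => simp
  | succ n ih =>
    rw [Finset.sum_range_succ', Nat.sub_zero]
    have : ∑ k ∈ Finset.range n, (n + 1 - (k + 1)) = ∑ k ∈ Finset.range n, (n - k) :=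
      Finset.sum_congr rfl fun k _ => by omega
    rw [this, add_mul, ih]
    ring

/-- the determinant is small -/
theorem det_lt {G r' A C1 κ D : ℕ} {c0 C3 x y N H : ℝ} (hN : 1 ≤ N) (hc0 : 0 < c0)
    (hC3 : 0 ≤ C3) (hG : G = (A + 1) * (r' + 1) + (A + 2 * κ + 1) + C1) (hD : 1 ≤ D)
    (hlarge : D * C3 / c0 < N) (hx : 0 ≤ x) (hH : 0 ≤ H) (hHN : H ≤ N ^ (A + 1))
    (hy : c0 / N ^ C1 ≤ y)
    (h : x * y ^ (2 * G + 1) ≤ D * H ^ (r' * (2 * G + 1)) *
      ∏ b : Fin (2 * G + 1), (C3 * N ^ (A + 2 * κ + 1) / N ^ (2 * G + 1 - (b : ℕ)))) : x < 1 := by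
  have hNp : 0 < N := lt_of_lt_of_le one_pos hN
  have hsum : ∑ b : Fin (2 * G + 1), (2 * G + 1 - (b : ℕ)) = (G + 1) * (2 * G + 1) := by
    have := sum_tri (2 * G + 1)
    have h2 : (2 * G + 1) * (2 * G + 1 + 1) = (G + 1) * (2 * G + 1) * 2 := by ring
    rw [h2] at this
    exact Nat.eq_of_mul_eq_mul_right (by norm_num) this
  have hprod : ∏ b : Fin (2 * G + 1), (C3 * N ^ (A + 2 * κ + 1) / N ^ (2 * G + 1 - (b : ℕ))) =
      (C3 * N ^ (A + 2 * κ + 1) / N ^ (G + 1)) ^ (2 * G + 1) := by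
    rw [Finset.prod_div_distrib, Finset.prod_const, Finset.prod_pow_eq_pow_sum, hsum,
      Finset.card_univ, Fintype.card_fin, div_pow, ← pow_mul]
  rw [hprod] at h
  have h1 : x * (c0 / N ^ C1) ^ (2 * G + 1) ≤ x * y ^ (2 * G + 1) :=
    mul_le_mul_of_nonneg_left (pow_le_pow_left₀ (by positivity) hy _) hx
  have h2 : (D : ℝ) * H ^ (r' * (2 * G + 1)) *
      (C3 * N ^ (A + 2 * κ + 1) / N ^ (G + 1)) ^ (2 * G + 1) ≤
      (D * C3 / N / N ^ C1) ^ (2 * G + 1) := by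
    have hD' : (1 : ℝ) ≤ D := by exact_mod_cast hD
    have e1 : (D : ℝ) ≤ (D : ℝ) ^ (2 * G + 1) := le_self_pow₀ hD' (by omega)
    have e2 : H ^ (r' * (2 * G + 1)) ≤ (N ^ ((A + 1) * r')) ^ (2 * G + 1) := by
      rw [pow_mul, pow_mul]
      exact pow_le_pow_left₀ (by positivity) (pow_le_pow_left₀ hH hHN _) _
    have e3 : D * C3 / N / N ^ C1 =
        D * N ^ ((A + 1) * r') * (C3 * N ^ (A + 2 * κ + 1) / N ^ (G + 1)) * N ^ (A + 1) := by
      have e4 : N ^ (G + 1) = N ^ ((A + 1) * r') * N ^ (A + 2 * κ + 1) * N ^ (A + 1) *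
          N ^ C1 * N := by
        rw [← pow_add, ← pow_add, ← pow_add, ← pow_succ, hG]
        congr 1
        ring
      rw [e4]
      field_simp
    have e5 : (D : ℝ) * N ^ ((A + 1) * r') * (C3 * N ^ (A + 2 * κ + 1) / N ^ (G + 1)) ≤
        D * C3 / N / N ^ C1 := by
      rw [e3]
      apply le_mul_of_one_le_right (by positivity)
      exact one_le_pow₀ hN
    calc _ ≤ (D : ℝ) ^ (2 * G + 1) * (N ^ ((A + 1) * r')) ^ (2 * G + 1) *
          (C3 * N ^ (A + 2 * κ + 1) / N ^ (G + 1)) ^ (2 * G + 1) := by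
          apply mul_le_mul_of_nonneg_right _ (by positivity)
          exact mul_le_mul e1 e2 (by positivity) (by positivity)
      _ = (D * N ^ ((A + 1) * r') * (C3 * N ^ (A + 2 * κ + 1) / N ^ (G + 1))) ^ (2 * G + 1) := by
          rw [mul_pow, mul_pow]
      _ ≤ _ := pow_le_pow_left₀ (by positivity) e5 _
  have h3 : (D * C3 / N / N ^ C1) ^ (2 * G + 1) < (c0 / N ^ C1) ^ (2 * G + 1) := by
    apply pow_lt_pow_left₀ _ (by positivity) (by omega)
    apply div_lt_div_of_pos_right _ (by positivity)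
    rw [div_lt_iff₀ hNp]
    rw [div_lt_iff₀ hc0] at hlarge
    linarith [mul_comm N c0]
  have h4 : x * (c0 / N ^ C1) ^ (2 * G + 1) < 1 * (c0 / N ^ C1) ^ (2 * G + 1) := by
    rw [one_mul]
    exact lt_of_le_of_lt (h1.trans (h.trans h2)) h3
  exact lt_of_mul_lt_mul_right h4 (by positivity)

/-- the determinant step with a distinguished index -/
theorem det_opt {ω : Type} [Fintype ω] (M : ω → ℕ → ℝ) (hM : ∀ w, Expa (M w))
    (r' A κ C1 : ℕ) (c0 : ℝ) (hc0 : 0 < c0) :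
    ∃ β q N0 κ' : ℕ, ∀ N : ℕ, N0 ≤ N → ∀ (ι : Type) [Fintype ι] [DecidableEq ι],
      Fintype.card ι = r' → ∀ B : Option ι → ω → ℤ[X],
      (∀ i w, (B i w).natDegree ≤ κ) → (∀ i w a, |(B i w).coeff a| ≤ (N : ℤ) ^ κ) →
      (c0 / (N : ℝ) ^ C1 ≤ |Yf M B N 0 none|) →
      ∀ K : ℕ, K ^ q ≤ N → ∀ (E : Finset ℕ) (cc : ℕ → Option ι → ℤ),
        (∀ k ∈ E, k ≤ K ∧ Ann M B N A k (cc k)) →
        ∃ P : Option ι → ℤ[X], P ≠ 0 ∧ (∀ i, (P i).natDegree ≤ β) ∧
          (∀ i a, |(P i).coeff a| ≤ (N : ℤ) ^ κ') ∧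
          ∀ k ∈ E, ∑ i, cc k i * (P i).eval (k : ℤ) = 0 := by
  set G := (A + 1) * (r' + 1) + (A + 2 * κ + 1) + C1 with hG
  obtain ⟨C3, hC3, hexp⟩ := yexp M hM (2 * G) κ
  set Dn := (r' + 1) * (2 * G + 1) with hDn
  have hDn1 : 1 ≤ Dn := Nat.mul_pos (by omega) (by omega)
  obtain ⟨N1, hN1⟩ := exists_nat_gt ((Nat.factorial Dn : ℝ) * ((r' + 1) * C3) / c0)
  refine ⟨2 * G, 4 * G + κ + 1, max (max N1 1) Dn, (A + 2) * Dn, ?_⟩
  intro N hN ι _ _ hι B hB1 hB2 hY K hK E cc hE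
  have hNN1 : N1 ≤ N := (le_max_left _ _).trans ((le_max_left _ _).trans hN)
  have hN1' : 1 ≤ N := (le_max_right _ _).trans ((le_max_left _ _).trans hN)
  have hNDn : Dn ≤ N := (le_max_right _ _).trans hN
  have hNR : (1 : ℝ) ≤ N := by exact_mod_cast hN1'
  set K1 := max K 1 with hK1
  have hK1' : 1 ≤ K1 := le_max_right _ _
  have hK1R : (1 : ℝ) ≤ K1 := by exact_mod_cast hK1'
  have hK1N : K1 ^ (4 * G + κ + 1) ≤ N := by
    rcases Nat.eq_zero_or_pos K with h0 | h0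
    · rw [hK1, h0]; simpa using hN1'
    · rw [hK1, max_eq_left h0]; exact hK
  have hK1NR : (K1 : ℝ) ^ (4 * G + κ + 1) ≤ N := by exact_mod_cast hK1N
  obtain ⟨z, hz⟩ := hexp N K1 hN1' hK1' (Option ι) B hB1 hB2
  have hcard : Fintype.card (Option ι) = r' + 1 := by rw [Fintype.card_option, hι]
  have hcardn : Fintype.card (Option ι × Fin (2 * G + 1)) = Dn := by
    rw [Fintype.card_prod, hcard, Fintype.card_fin]
  have hKβ : (K1 : ℝ) ^ (2 * G) ≤ N :=
    (pow_le_pow_right₀ hK1R (by omega)).trans hK1NR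
  have hKβ' : K1 ^ (2 * G) ≤ N :=
    (Nat.pow_le_pow_right hK1' (by omega)).trans hK1N
  -- the main estimate
  have hmain : ∀ k ∈ E, ∀ b : Fin (2 * G + 1),
      |∑ i, ∑ m ∈ Finset.range (2 * G + 1 - b), z i m * ((cc k i : ℝ) * (k : ℝ) ^ (m + (b : ℕ)))| ≤
        (r' + 1) * C3 * (N : ℝ) ^ (A + 2 * κ + 1) / (N : ℝ) ^ (2 * G + 1 - (b : ℕ)) := by
    intro k hk b
    obtain ⟨hkK, hc1, hc2⟩ := hE k hk
    have hkK1 : k ≤ K1 := hkK.trans (le_max_left _ _)
    have hkR : (k : ℝ) ≤ K1 := by exact_mod_cast hkK1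
    have e1 : ∑ i, ∑ m ∈ Finset.range (2 * G + 1 - b),
        z i m * ((cc k i : ℝ) * (k : ℝ) ^ (m + (b : ℕ))) =
        (k : ℝ) ^ (b : ℕ) * ∑ i, (cc k i : ℝ) *
          (∑ m ∈ Finset.range (2 * G + 1 - b), z i m * (k : ℝ) ^ m - Yf M B N k i) := by
      simp only [mul_sub]
      rw [Finset.sum_sub_distrib, hc2, sub_zero, Finset.mul_sum]
      refine Finset.sum_congr rfl fun i _ => ?_
      rw [Finset.mul_sum, Finset.mul_sum]
      exact Finset.sum_congr rfl fun m _ => by rw [pow_add]; ring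
    rw [e1, abs_mul, abs_of_nonneg (by positivity : (0 : ℝ) ≤ (k : ℝ) ^ (b : ℕ))]
    have hbG : (b : ℕ) ≤ 2 * G := Nat.lt_succ_iff.1 b.2
    have e2 : (k : ℝ) ^ (b : ℕ) ≤ (K1 : ℝ) ^ (2 * G) :=
      (pow_le_pow_left₀ (Nat.cast_nonneg _) hkR _).trans (pow_le_pow_right₀ hK1R hbG)
    have e3 : |∑ i, (cc k i : ℝ) *
          (∑ m ∈ Finset.range (2 * G + 1 - b), z i m * (k : ℝ) ^ m - Yf M B N k i)| ≤
        (r' + 1) * ((N : ℝ) ^ A * (C3 * (N : ℝ) ^ (2 * κ) * (K1 : ℝ) ^ (2 * G + 1 + κ) /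
          (N : ℝ) ^ (2 * G + 1 - (b : ℕ)))) := by
      refine (Finset.abs_sum_le_sum_abs _ _).trans ?_
      have e4 : ∀ i ∈ (Finset.univ : Finset (Option ι)), |(cc k i : ℝ) *
          (∑ m ∈ Finset.range (2 * G + 1 - b), z i m * (k : ℝ) ^ m - Yf M B N k i)| ≤
          (N : ℝ) ^ A * (C3 * (N : ℝ) ^ (2 * κ) * (K1 : ℝ) ^ (2 * G + 1 + κ) /
          (N : ℝ) ^ (2 * G + 1 - (b : ℕ))) := by
        intro i _
        rw [abs_mul, abs_sub_comm]
        have e5 : |(cc k i : ℝ)| ≤ (N : ℝ) ^ A := by exact_mod_cast hc1 i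
        exact mul_le_mul e5 ((hz i).2 (2 * G + 1 - b) (Nat.sub_le _ _) k hkK1) (abs_nonneg _)
          (by positivity)
      refine (Finset.sum_le_sum e4).trans ?_
      rw [Finset.sum_const, nsmul_eq_mul, Finset.card_univ, hcard]
      push_cast
      exact le_refl _
    refine (mul_le_mul e2 e3 (abs_nonneg _) (by positivity)).trans ?_
    have e6 : (K1 : ℝ) ^ (2 * G) * ((r' + 1) * ((N : ℝ) ^ A * (C3 * (N : ℝ) ^ (2 * κ) *
        (K1 : ℝ) ^ (2 * G + 1 + κ) / (N : ℝ) ^ (2 * G + 1 - (b : ℕ))))) =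
        (r' + 1) * C3 * (N : ℝ) ^ (A + 2 * κ) * (K1 : ℝ) ^ (4 * G + κ + 1) /
          (N : ℝ) ^ (2 * G + 1 - (b : ℕ)) := by
      have : (K1 : ℝ) ^ (4 * G + κ + 1) = (K1 : ℝ) ^ (2 * G) * (K1 : ℝ) ^ (2 * G + 1 + κ) := by
        rw [← pow_add]; congr 1; omega
      rw [this, pow_add (N : ℝ) A (2 * κ)]
      ring
    rw [e6, pow_succ (N : ℝ) (A + 2 * κ), ← mul_assoc ((r' + 1) * C3)]
    apply div_le_div_of_nonneg_right _ (by positivity)
    exact mul_le_mul_of_nonneg_left hK1NR (by positivity)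
  -- the rows
  set row : ℕ → (Option ι × Fin (2 * G + 1)) → ℤ :=
    fun k p => cc k p.1 * (k : ℤ) ^ (p.2 : ℕ) with hrow
  have hrowb : ∀ k ∈ E, ∀ p, |row k p| ≤ ((N ^ (A + 1) : ℕ) : ℤ) := by
    intro k hk p
    obtain ⟨hkK, hc1, hc2⟩ := hE k hk
    have hkK1 : k ≤ K1 := hkK.trans (le_max_left _ _)
    rw [hrow]
    simp only [abs_mul, abs_pow]
    have e1 : |(k : ℤ)| ^ (p.2 : ℕ) ≤ (N : ℤ) := by
      rw [abs_of_nonneg (Int.natCast_nonneg k)]
      have : k ^ (p.2 : ℕ) ≤ N :=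
        (Nat.pow_le_pow_left hkK1 _).trans ((Nat.pow_le_pow_right hK1'
          (Nat.lt_succ_iff.1 p.2.2)).trans hKβ')
      exact_mod_cast this
    push_cast
    rw [pow_succ]
    exact mul_le_mul (hc1 p.1) e1 (by positivity) (by positivity)
  have hdet : ∀ f : (Option ι × Fin (2 * G + 1)) → ((Option ι × Fin (2 * G + 1)) → ℤ),
      (∀ i, f i ∈ E.image row) → Matrix.det (Matrix.of f) = 0 := by
    intro f hf
    have hf' : ∀ l, ∃ k ∈ E, row k = f l := fun l => Finset.mem_image.1 (hf l)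
    choose kk hkE hkf using hf'
    set x : ℝ := |Matrix.det (Matrix.of fun (l p : Option ι × Fin (2 * G + 1)) =>
        (fun l i => (cc (kk l) i : ℝ)) l p.1 * (fun l => (kk l : ℝ)) l ^ (p.2 : ℕ))| with hx
    have hxdet : x = |((Matrix.det (Matrix.of f) : ℤ) : ℝ)| := by
      rw [hx, ← eq_intCast (Int.castRingHom ℝ), RingHom.map_det]
      congr 2
      ext l p
      simp only [Matrix.of_apply, RingHom.mapMatrix_apply, Matrix.map_apply, eq_intCast]
      rw [← hkf l, hrow]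
      push_cast
      rfl
    have hsmall := det_small (2 * G) (fun l i => (cc (kk l) i : ℝ)) (fun l => (kk l : ℝ)) z
      ((N : ℝ) ^ A) K1 (fun b => (r' + 1) * C3 * (N : ℝ) ^ (A + 2 * κ + 1) /
        (N : ℝ) ^ (2 * G + 1 - (b : ℕ))) hK1R (by positivity)
      (fun l i => by
        have := (hE _ (hkE l)).2.1 i
        exact_mod_cast this)
      (fun l => by
        rw [abs_of_nonneg (Nat.cast_nonneg _)]
        exact_mod_cast (hE _ (hkE l)).1.trans (le_max_left _ _))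
      (fun l b => hmain (kk l) (hkE l) b)
    rw [hcardn, hι] at hsmall
    have hlt : x < 1 := by
      refine det_lt (G := G) (r' := r') (A := A) (C1 := C1) (κ := κ) (D := Nat.factorial Dn)
        (c0 := c0) (C3 := (r' + 1) * C3) (y := |z none 0|) (N := (N : ℝ))
        (H := (N : ℝ) ^ A * (K1 : ℝ) ^ (2 * G)) hNR hc0 (by positivity) hG
        (Nat.succ_le_of_lt (Nat.factorial_pos _)) (hN1.trans_le (by exact_mod_cast hNN1))
        (abs_nonneg _) (by positivity) ?_ ?_ hsmall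
      · rw [pow_succ]
        exact mul_le_mul_of_nonneg_left hKβ (by positivity)
      · rw [← (hz none).1]
        exact hY
    rw [hxdet] at hlt
    have : |Matrix.det (Matrix.of f)| < 1 := by exact_mod_cast hlt
    exact Int.abs_lt_one_iff.1 this
  obtain ⟨p, hp0, hpV, hpb⟩ := small_sol (E.image row) (N ^ (A + 1)) (Nat.one_le_pow _ _ hN1')
    (by rw [hcardn]; exact hDn1)
    (fun v hv i => by
      obtain ⟨k, hk, rfl⟩ := Finset.mem_image.1 hv
      exact hrowb k hk i) hdet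
  have hcoeff : ∀ i a, (∑ b : Fin (2 * G + 1), C (p (i, b)) * X ^ (b : ℕ) : ℤ[X]).coeff a =
      if h : a < 2 * G + 1 then p (i, ⟨a, h⟩) else 0 := by
    intro i a
    rw [Polynomial.finsetSum_coeff]
    simp only [Polynomial.coeff_C_mul_X_pow]
    split_ifs with h
    · rw [Finset.sum_eq_single ⟨a, h⟩]
      · simp
      · intro b _ hb
        rw [if_neg]
        intro h1
        exact hb (Fin.ext h1.symm)
      · intro h1; exact absurd (Finset.mem_univ _) h1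
    · refine Finset.sum_eq_zero fun b _ => ?_
      rw [if_neg]
      intro h1
      exact h (h1 ▸ b.2)
  refine ⟨fun i => ∑ b : Fin (2 * G + 1), C (p (i, b)) * X ^ (b : ℕ), ?_, ?_, ?_, ?_⟩
  · intro h0
    apply hp0
    funext ib
    have h1 := congrArg (fun P : ℤ[X] => P.coeff ib.2) (congrFun h0 ib.1)
    simp only [hcoeff, Pi.zero_apply, Polynomial.coeff_zero] at h1
    rw [dif_pos ib.2.2] at h1
    exact h1
  · intro i
    rw [Polynomial.natDegree_le_iff_coeff_eq_zero]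
    intro a ha
    rw [hcoeff, dif_neg (by omega)]
  · intro i a
    rw [hcoeff]
    have hpow : ((Dn * N ^ (A + 1)) ^ Dn : ℕ) ≤ N ^ ((A + 2) * Dn) := by
      rw [pow_mul N]
      apply Nat.pow_le_pow_left
      calc Dn * N ^ (A + 1) ≤ N * N ^ (A + 1) := Nat.mul_le_mul_right _ hNDn
        _ = N ^ (A + 2) := by ring
    split_ifs with h
    · refine (hpb _).trans ?_
      rw [hcardn]
      exact_mod_cast hpow
    · rw [abs_zero]; positivity
  · intro k hk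
    have h1 := hpV (row k) (Finset.mem_image_of_mem _ hk)
    rw [Fintype.sum_prod_type] at h1
    rw [← h1]
    refine Finset.sum_congr rfl fun i _ => ?_
    rw [Polynomial.eval_finsetSum, Finset.mul_sum]
    refine Finset.sum_congr rfl fun b _ => ?_
    rw [Polynomial.eval_mul, Polynomial.eval_C, Polynomial.eval_pow, Polynomial.eval_X]
    simp only [hrow]
    ring

theorem det_step {ω : Type} [Fintype ω] (M : ω → ℕ → ℝ) (hM : ∀ w, Expa (M w))
    (r A κ C1 : ℕ) (c0 : ℝ) (hc0 : 0 < c0) :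
    ∃ β q N0 κ' : ℕ, ∀ N : ℕ, N0 ≤ N → ∀ (ι : Type) [Fintype ι] [DecidableEq ι],
      Fintype.card ι = r → ∀ B : ι → ω → ℤ[X],
      (∀ i w, (B i w).natDegree ≤ κ) → (∀ i w a, |(B i w).coeff a| ≤ (N : ℤ) ^ κ) →
      (∃ i, c0 / (N : ℝ) ^ C1 ≤ |Yf M B N 0 i|) →
      ∀ K : ℕ, K ^ q ≤ N → ∀ (E : Finset ℕ) (cc : ℕ → ι → ℤ),
        (∀ k ∈ E, k ≤ K ∧ Ann M B N A k (cc k)) →
        ∃ P : ι → ℤ[X], P ≠ 0 ∧ (∀ i, (P i).natDegree ≤ β) ∧
          (∀ i a, |(P i).coeff a| ≤ (N : ℤ) ^ κ') ∧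
          ∀ k ∈ E, ∑ i, cc k i * (P i).eval (k : ℤ) = 0 := by
  obtain ⟨β, q, N0, κ', h⟩ := det_opt M hM (r - 1) A κ C1 c0 hc0
  refine ⟨β, q, N0, κ', ?_⟩
  intro N hN ι _ _ hι B hB1 hB2 hY K hK E cc hE
  obtain ⟨i0, hi0⟩ := hY
  set e : Option {i // i ≠ i0} ≃ ι := Equiv.optionSubtypeNe i0 with he
  have he0 : e none = i0 := by rw [he]; simp
  have hc : Fintype.card {i // i ≠ i0} = r - 1 := by
    have h1 := Fintype.card_congr e
    rw [Fintype.card_option, hι] at h1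
    omega
  have hYe : ∀ k o, Yf M (fun o => B (e o)) N k o = Yf M B N k (e o) := fun k o => rfl
  obtain ⟨P, hP0, hP1, hP2, hP3⟩ := h N hN {i // i ≠ i0} hc (fun o => B (e o))
    (fun o w => hB1 _ w) (fun o w a => hB2 _ w a) (by rw [hYe, he0]; exact hi0) K hK E
    (fun k o => cc k (e o)) (fun k hk => by
      obtain ⟨h1, h2, h3⟩ := hE k hk
      refine ⟨h1, fun o => h2 _, ?_⟩
      rw [← h3, ← Equiv.sum_comp e]
      rfl)
  refine ⟨fun i => P (e.symm i), ?_, fun i => hP1 _, fun i a => hP2 _ a, ?_⟩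
  · intro h0
    apply hP0
    funext o
    have := congrFun h0 (e o)
    simpa using this
  · intro k hk
    rw [← hP3 k hk, ← Equiv.sum_comp e]
    refine Finset.sum_congr rfl fun o _ => ?_
    simp only [Equiv.symm_apply_apply]

end HofAA
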