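import Pool.Agent.Lib.MP_301213_nt.AA.IIc

/-! MP_301213_nt, almost all theorem: derivative and multiplication of evaluations -/

set_option autoImplicit false

open Polynomial MeasureTheory Filter Topology

namespace HofAA

theorem ev_zero (φ : ℝ) : ev 0 φ = 0 := by simp [ev]

theorem ev_add (p q : MM) (φ : ℝ) : ev (p + q) φ = ev p φ + ev q φ := by
  unfold ev
  refine Finsupp.sum_add_index' (fun W => by simp) (fun W P Q => ?_)
  rw [eval_add, add_mul]

theorem ev_smul (r : ℝ) (p : MM) (φ : ℝ) : ev (r • p) φ = r * ev p φ := by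
  unfold ev
  rw [Finsupp.sum_smul_index' (fun W => by simp), Finsupp.mul_sum]
  refine Finsupp.sum_congr fun W _ => ?_
  rw [eval_smul, smul_eq_mul, mul_assoc]

theorem ev_single (W : List Bool) (P : ℝ[X]) (φ : ℝ) :
    ev (Finsupp.single W P) φ = P.eval (Real.cot φ) * II W φ := by
  unfold ev
  exact Finsupp.sum_single_index (by simp)

/-- evaluation as a linear map -/
private noncomputable def evL (φ : ℝ) : MM →ₗ[ℝ] ℝ where
  toFun p := ev p φ
  map_add' p q := ev_add p q φ
  map_smul' r p := by rw [ev_smul]; rfl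

private theorem evL_apply (p : MM) (φ : ℝ) : evL φ p = ev p φ := rfl

/-- combinations of good words -/
private noncomputable def gs : Submodule ℝ MM := Finsupp.supported ℝ[X] ℝ {W | good W}

private theorem mem_gs (p : MM) : p ∈ gs ↔ ∀ W ∈ p.support, good W := by
  unfold gs
  rw [Finsupp.mem_supported]
  exact Iff.rfl

private theorem single_gs {W : List Bool} (hW : good W) (P : ℝ[X]) :
    (Finsupp.single W P : MM) ∈ gs := by
  rw [mem_gs]
  intro V hV
  have h := Finsupp.support_single_subset hV
  rw [Finset.mem_singleton] at h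
  rw [h]
  exact hW

private theorem DD_apply (p : MM) : DD p = p.sum fun W P => dW W P := by
  unfold DD
  rw [Finsupp.lsum_apply]
  rfl

private theorem SS_apply (p : MM) : SS p = p.sum fun W P => sW W P := by
  unfold SS
  rw [Finsupp.lsum_apply]
  rfl

private theorem dW_gs {W : List Bool} (hW : good W) (P : ℝ[X]) : dW W P ∈ gs := by
  rcases W with _ | ⟨_ | _, W⟩
  · exact single_gs hW _
  · exact gs.add_mem (single_gs hW _) (single_gs (good_tail _ _ hW) _)
  · exact gs.add_mem (single_gs hW _) (single_gs (good_tail _ _ hW) _)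

private theorem ins_ne (W : List Bool) : ∀ V ∈ ins W, V ≠ [] := by
  rcases W with _ | ⟨x, W⟩
  · intro V hV
    simp only [ins, List.mem_singleton] at hV
    rw [hV]
    simp
  · intro V hV
    simp only [ins, List.mem_cons, List.mem_map] at hV
    rcases hV with rfl | ⟨V', -, rfl⟩ <;> simp

private theorem ins_good (W : List Bool) (hW : good W) : ∀ V ∈ ins W, good V := by
  induction W with
  | nil =>
    intro V hV
    simp only [ins, List.mem_singleton] at hV
    rw [hV]
    trivial
  | cons x W ih =>
    intro V hV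
    simp only [ins, List.mem_cons, List.mem_map] at hV
    rcases hV with rfl | ⟨V', hV', rfl⟩
    · exact hW
    · have h1 := ih (good_tail _ _ hW) V' hV'
      rcases x with _ | _
      · exact ⟨h1, ins_ne W V' hV'⟩
      · exact h1

private theorem sW_gs {W : List Bool} (hW : good W) (P : ℝ[X]) : sW W P ∈ gs := by
  unfold sW
  refine gs.list_sum_mem ?_
  intro q hq
  rw [List.mem_map] at hq
  obtain ⟨V, hV, rfl⟩ := hq
  exact single_gs (ins_good W hW V hV) _

theorem good_DD (p : MM) (hp : ∀ W ∈ p.support, good W) : ∀ W ∈ (DD p).support, good W := by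
  rw [← mem_gs, DD_apply]
  exact gs.sum_mem fun W hW => dW_gs (hp W hW) _

theorem good_SS (p : MM) (hp : ∀ W ∈ p.support, good W) : ∀ W ∈ (SS p).support, good W := by
  rw [← mem_gs, SS_apply]
  exact gs.sum_mem fun W hW => sW_gs (hp W hW) _

private theorem cot_deriv {φ : ℝ} (h0 : 0 < φ) (h1 : φ < Real.pi / 2) :
    HasDerivAt Real.cot (-(1 + Real.cot φ ^ 2)) φ := by
  have hs : Real.sin φ ≠ 0 := (Real.sin_pos_of_pos_of_lt_pi h0 (by linarith [Real.pi_pos])).ne'
  have h2 := (Real.hasDerivAt_cos φ).div (Real.hasDerivAt_sin φ) hs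
  have h3 : (Real.cos / Real.sin : ℝ → ℝ) = Real.cot := by
    funext x
    rw [Pi.div_apply, Real.cot_eq_cos_div_sin]
  have h4 : (-Real.sin φ * Real.sin φ - Real.cos φ * Real.cos φ) / Real.sin φ ^ 2 =
      -(1 + Real.cot φ ^ 2) := by
    rw [Real.cot_eq_cos_div_sin]
    field_simp
    ring
  rw [← h4, ← h3]
  exact h2

private theorem poly_deriv (P : ℝ[X]) {φ : ℝ} (h0 : 0 < φ) (h1 : φ < Real.pi / 2) :
    HasDerivAt (fun x => P.eval (Real.cot x)) ((d0 P).eval (Real.cot φ)) φ := by
  have h2 := (P.hasDerivAt (Real.cot φ)).comp φ (cot_deriv h0 h1)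
  have h3 : (d0 P).eval (Real.cot φ) =
      (derivative P).eval (Real.cot φ) * (-(1 + Real.cot φ ^ 2)) := by
    unfold d0
    simp only [eval_mul, eval_neg, eval_add, eval_one, eval_pow, eval_X]
    ring
  rw [h3]
  exact h2

private theorem term_deriv {W : List Bool} (hW : good W) (P : ℝ[X]) {φ : ℝ} (h0 : 0 < φ)
    (h1 : φ < Real.pi / 2) :
    HasDerivAt (fun x => P.eval (Real.cot x) * II W x) (ev (dW W P) φ) φ := by
  rcases W with _ | ⟨_ | _, W⟩
  · have h2 := (poly_deriv P h0 h1).mul_const 1
    simp only [dW, ev_single]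
    exact h2
  · have h2 := (poly_deriv P h0 h1).mul (ii_false W (good_tail _ _ hW) hW.2 φ h0 h1)
    have h3 : ev (dW (false :: W) P) φ = (d0 P).eval (Real.cot φ) * II (false :: W) φ +
        P.eval (Real.cot φ) * (2 * Real.cot φ * II W φ) := by
      simp only [dW, ev_add, ev_single, eval_mul, eval_X, eval_ofNat]
      ring
    rw [h3]
    exact h2
  · have h2 := (poly_deriv P h0 h1).mul (ii_true W (good_tail _ _ hW) φ h0 h1)
    have h3 : ev (dW (true :: W) P) φ = (d0 P).eval (Real.cot φ) * II (true :: W) φ +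
        P.eval (Real.cot φ) * (2 * II W φ) := by
      simp only [dW, ev_add, ev_single, eval_mul, eval_ofNat]
      ring
    rw [h3]
    exact h2

theorem ev_DD (p : MM) (hp : ∀ W ∈ p.support, good W) (φ : ℝ) (h0 : 0 < φ)
    (h1 : φ < Real.pi / 2) : HasDerivAt (ev p) (ev (DD p) φ) φ := by
  have h2 : HasDerivAt (fun x => ∑ W ∈ p.support, (p W).eval (Real.cot x) * II W x)
      (∑ W ∈ p.support, ev (dW W (p W)) φ) φ :=
    HasDerivAt.fun_sum fun W hW => term_deriv (hp W hW) (p W) h0 h1
  have h3 : ev (DD p) φ = ∑ W ∈ p.support, ev (dW W (p W)) φ := by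
    rw [DD_apply, ← evL_apply, Finsupp.sum, map_sum]
    rfl
  rw [h3]
  exact h2

/-- functions with the same derivative on `(0, π/2)` and the same limit at `0` agree -/
private theorem eq_of_deriv {f g f' : ℝ → ℝ}
    (hf : ∀ x, 0 < x → x < Real.pi / 2 → HasDerivAt f (f' x) x)
    (hg : ∀ x, 0 < x → x < Real.pi / 2 → HasDerivAt g (f' x) x)
    (hf0 : Tendsto f (𝓝[>] 0) (𝓝 0)) (hg0 : Tendsto g (𝓝[>] 0) (𝓝 0)) {φ : ℝ} (h0 : 0 < φ)
    (h1 : φ < Real.pi / 2) : f φ = g φ := by
  have hd : ∀ x ∈ Set.Ioo 0 (Real.pi / 2), HasDerivAt (fun x => f x - g x) 0 x := by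
    intro x hx
    have := (hf x hx.1 hx.2).sub (hg x hx.1 hx.2)
    rw [sub_self] at this
    exact this
  have hc : ∀ x ∈ Set.Ioo 0 (Real.pi / 2), f x - g x = f φ - g φ := by
    intro x hx
    exact isOpen_Ioo.is_const_of_deriv_eq_zero isPreconnected_Ioo
      (f := fun x => f x - g x)
      (fun y hy => (hd y hy).differentiableAt.differentiableWithinAt)
      (fun y hy => (hd y hy).deriv) hx ⟨h0, h1⟩
  have ht : Tendsto (fun x => f x - g x) (𝓝[>] 0) (𝓝 (0 - 0)) := hf0.sub hg0
  rw [sub_zero] at ht
  have ht2 : Tendsto (fun x => f x - g x) (𝓝[>] 0) (𝓝 (f φ - g φ)) := by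
    refine Tendsto.congr' ?_ tendsto_const_nhds
    filter_upwards [Ioo_mem_nhdsGT (show (0 : ℝ) < Real.pi / 2 by positivity)] with x hx
    exact (hc x hx).symm
  have := tendsto_nhds_unique ht ht2
  linarith

private theorem sum_lim (l : List (List Bool)) (hl : ∀ V ∈ l, good V ∧ V ≠ []) :
    Tendsto (fun x => (l.map fun V => II V x).sum) (𝓝[>] 0) (𝓝 0) := by
  induction l with
  | nil => simp
  | cons V l ih =>
    have h1 := ii_lim V (hl V (by simp)).1 (hl V (by simp)).2
    have h2 := ih fun V' hV' => hl V' (by simp [hV'])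
    have h3 := h1.add h2
    rw [add_zero] at h3
    simpa using h3

private theorem sum_deriv (x : Bool) (c : ℝ → ℝ) (l : List (List Bool)) (φ : ℝ)
    (hl : ∀ V ∈ l, HasDerivAt (II (x :: V)) (c φ * II V φ) φ) :
    HasDerivAt (fun y => ((l.map fun V => x :: V).map fun V => II V y).sum)
      (c φ * (l.map fun V => II V φ).sum) φ := by
  induction l with
  | nil => simpa using hasDerivAt_const φ (0 : ℝ)
  | cons V l ih =>
    have h1 := hl V (by simp)
    have h2 := ih fun V' hV' => hl V' (by simp [hV'])
    have h3 := h1.add h2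
    simp only [List.map_cons, List.sum_cons, mul_add] at h3 ⊢
    exact h3

/-- multiplication of an iterated integral by the variable -/
private theorem mulx (W : List Bool) (hW : good W) : ∀ φ : ℝ, 0 < φ → φ < Real.pi / 2 →
    φ * II W φ = 1 / 2 * ((ins W).map fun V => II V φ).sum := by
  induction W with
  | nil =>
    intro φ _ _
    simp only [ins, II, List.map_cons, List.map_nil, List.sum_cons, List.sum_nil,
      intervalIntegral.integral_const, smul_eq_mul]
    ring
  | cons x W ih =>
    intro φ h0 h1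
    have ih' := ih (good_tail _ _ hW)
    set c : ℝ → ℝ := fun y => if x then 2 else 2 * Real.cot y with hc
    have hder : ∀ V : List Bool, good (x :: V) → ∀ y, 0 < y → y < Real.pi / 2 →
        HasDerivAt (II (x :: V)) (c y * II V y) y := by
      intro V hV y hy0 hy1
      rcases x with _ | _
      · have := ii_false V (good_tail _ _ hV) hV.2 y hy0 hy1
        simpa [hc] using this
      · have := ii_true V (good_tail _ _ hV) y hy0 hy1
        simpa [hc] using this
    refine eq_of_deriv (f := fun y => y * II (x :: W) y)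
      (g := fun y => 1 / 2 * ((ins (x :: W)).map fun V => II V y).sum)
      (f' := fun y => II (x :: W) y + y * (c y * II W y)) ?_ ?_ ?_ ?_ h0 h1
    · intro y hy0 hy1
      have h2 := (hasDerivAt_id y).mul (hder W hW y hy0 hy1)
      have h3 : II (x :: W) y + y * (c y * II W y) =
          1 * II (x :: W) y + id y * (c y * II W y) := by simp
      rw [h3]
      exact h2
    · intro y hy0 hy1
      have hg1 : good (true :: x :: W) := hW
      have h2 := ii_true (x :: W) hW y hy0 hy1
      have h3 := sum_deriv x c (ins W) y fun V hV => hder V (by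
        rcases x with _ | _
        · exact ⟨ins_good W (good_tail _ _ hW) V hV, ins_ne W V hV⟩
        · exact ins_good W (good_tail _ _ hW) V hV) y hy0 hy1
      have h4 := (h2.add h3).const_mul (1 / 2 : ℝ)
      have h5 : II (x :: W) y + y * (c y * II W y) =
          1 / 2 * (2 * II (x :: W) y + c y * ((ins W).map fun V => II V y).sum) := by
        have := ih' y hy0 hy1
        linear_combination c y * this
      rw [h5]
      simp only [ins, List.map_cons, List.sum_cons]
      exact h4
    · have h2 := (tendsto_nhdsWithin_of_tendsto_nhds (s := Set.Ioi (0 : ℝ))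
        (tendsto_id (α := ℝ) (x := 𝓝 0))).mul (ii_lim (x :: W) hW (by simp))
      rw [zero_mul] at h2
      exact h2
    · have h2 := (sum_lim (ins (x :: W)) fun V hV =>
        ⟨ins_good _ hW V hV, ins_ne _ V hV⟩).const_mul (1 / 2 : ℝ)
      rw [mul_zero] at h2
      exact h2

private theorem ev_sW {W : List Bool} (hW : good W) (P : ℝ[X]) {φ : ℝ} (h0 : 0 < φ)
    (h1 : φ < Real.pi / 2) : ev (sW W P) φ = φ * (P.eval (Real.cot φ) * II W φ) := by
  have h2 : ev (sW W P) φ = P.eval (Real.cot φ) * (1 / 2 * ((ins W).map fun V => II V φ).sum) := by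
    unfold sW
    rw [← evL_apply, map_list_sum, List.map_map]
    induction ins W with
    | nil => simp
    | cons V l ih =>
      simp only [List.map_cons, List.sum_cons, Function.comp_apply, mul_add] at ih ⊢
      rw [ih, evL_apply, ev_single]
      simp only [eval_mul, eval_C]
      ring
  rw [h2, ← mulx W hW φ h0 h1]
  ring

theorem ev_SS (p : MM) (hp : ∀ W ∈ p.support, good W) (φ : ℝ) (h0 : 0 < φ)
    (h1 : φ < Real.pi / 2) : ev (SS p) φ = φ * ev p φ := by
  rw [SS_apply, ← evL_apply, Finsupp.sum, map_sum]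
  unfold ev
  rw [Finsupp.sum, Finset.mul_sum]
  exact Finset.sum_congr rfl fun W hW => ev_sW (hp W hW) (p W) h0 h1

end HofAA
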