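import Pool.Agent.Lib.MP_301213_nt.AA.Defs

/-! MP_301213_nt, almost all theorem: rational functions of the cotangent -/

set_option autoImplicit false

open Polynomial MeasureTheory Filter Topology

namespace HofAA

/-- for coprime `P, R`: `P R' = P' R` forces both to be constant -/
private theorem Rat_cop {P R : ℝ[X]} (hP : P ≠ 0) (hcop : IsCoprime P R)
    (h : P * derivative R = derivative P * R) : P.natDegree = 0 ∧ R.natDegree = 0 := by
  have h1 : P ∣ derivative P := by
    have : P ∣ derivative P * R := ⟨derivative R, h.symm⟩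
    exact hcop.dvd_of_dvd_mul_right this
  have h2 : derivative P = 0 := by
    by_contra h0
    have hd := Polynomial.natDegree_le_of_dvd h1 h0
    have hlt := Polynomial.natDegree_derivative_lt (p := P) (by
      intro hn
      exact h0 (Polynomial.derivative_of_natDegree_zero hn))
    omega
  have h3 : P.natDegree = 0 := Polynomial.derivative_eq_zero.1 h2
  refine ⟨h3, ?_⟩
  rw [h2, zero_mul] at h
  exact Polynomial.derivative_eq_zero.1
    ((mul_eq_zero.1 h).resolve_left hP)

/-- dividing by the greatest common divisor -/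
private theorem Rat_gcd (P R : ℝ[X]) (hP : P ≠ 0) :
    ∃ G P1 R1 : ℝ[X], G ≠ 0 ∧ P1 ≠ 0 ∧ P = G * P1 ∧ R = G * R1 ∧ IsCoprime P1 R1 := by
  classical
  obtain ⟨P1, hP1⟩ := EuclideanDomain.gcd_dvd_left P R
  obtain ⟨R1, hR1⟩ := EuclideanDomain.gcd_dvd_right P R
  have hG : EuclideanDomain.gcd P R ≠ 0 := by
    intro h0
    rw [h0, zero_mul] at hP1
    exact hP hP1
  refine ⟨_, P1, R1, hG, ?_, hP1, hR1, ?_⟩
  · rintro rfl
    rw [mul_zero] at hP1
    exact hP hP1
  · have hb := EuclideanDomain.gcd_eq_gcd_ab P R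
    refine ⟨EuclideanDomain.gcdA P R, EuclideanDomain.gcdB P R, ?_⟩
    apply mul_left_cancel₀ hG
    calc EuclideanDomain.gcd P R * (EuclideanDomain.gcdA P R * P1 + EuclideanDomain.gcdB P R * R1)
        = (EuclideanDomain.gcd P R * P1) * EuclideanDomain.gcdA P R +
          (EuclideanDomain.gcd P R * R1) * EuclideanDomain.gcdB P R := by ring
      _ = EuclideanDomain.gcd P R * 1 := by rw [← hP1, ← hR1, mul_one, ← hb]

/-- proportional polynomials -/
theorem prop_poly (P R : ℝ[X]) (hP : P ≠ 0) (h : P * derivative R = derivative P * R) :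
    ∃ k : ℝ, R = C k * P := by
  obtain ⟨G, P1, R1, hG, hP1, rfl, rfl, hcop⟩ := Rat_gcd P R hP
  have h1 : P1 * derivative R1 = derivative P1 * R1 := by
    rw [derivative_mul, derivative_mul] at h
    have h2 : (G * G) * (P1 * derivative R1 - derivative P1 * R1) = 0 := by linear_combination h
    have h3 := (mul_eq_zero.1 h2).resolve_left (mul_ne_zero hG hG)
    exact sub_eq_zero.1 h3
  obtain ⟨hp, hr⟩ := Rat_cop hP1 hcop h1
  obtain ⟨p, hp'⟩ := Polynomial.natDegree_eq_zero.1 hp
  obtain ⟨r, hr'⟩ := Polynomial.natDegree_eq_zero.1 hr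
  have hp0 : p ≠ 0 := by
    rintro rfl
    rw [map_zero] at hp'
    exact hP1 hp'.symm
  refine ⟨r / p, ?_⟩
  rw [← hp', ← hr']
  have : (C (r / p) * (G * C p) : ℝ[X]) = G * (C (r / p) * C p) := by ring
  rw [this, ← C_mul, div_mul_cancel₀ _ hp0]

/-- no rational function of the cotangent has derivative `a + b cot` -/
theorem no_prim (P R : ℝ[X]) (hP : P ≠ 0) (a b : ℝ)
    (h : (1 + X ^ 2) * (P * derivative R - derivative P * R) = (C a + C b * X) * P ^ 2) :
    a = 0 ∧ b = 0 := by
  obtain ⟨G, P1, R1, hG, hP1, rfl, rfl, hcop⟩ := Rat_gcd P R hP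
  have h1 : (1 + X ^ 2) * (P1 * derivative R1 - derivative P1 * R1) =
      (C a + C b * X) * P1 ^ 2 := by
    rw [derivative_mul, derivative_mul] at h
    have h2 : (G * G) * ((1 + X ^ 2) * (P1 * derivative R1 - derivative P1 * R1) -
        (C a + C b * X) * P1 ^ 2) = 0 := by linear_combination h
    have h3 := (mul_eq_zero.1 h2).resolve_left (mul_ne_zero hG hG)
    exact sub_eq_zero.1 h3
  -- pass to the complex numbers
  let φ : ℝ →+* ℂ := Complex.ofRealHom
  set p : ℂ[X] := P1.map φ with hp
  set r : ℂ[X] := R1.map φ with hr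
  have hp0 : p ≠ 0 := (Polynomial.map_ne_zero_iff φ.injective).2 hP1
  have hcop' : IsCoprime p r := hcop.map (mapRingHom φ)
  have h2 : (1 + X ^ 2) * (p * derivative r - derivative p * r) =
      (C (a : ℂ) + C (b : ℂ) * X) * p ^ 2 := by
    have := congrArg (Polynomial.map φ) h1
    simpa [Polynomial.derivative_map, hp, hr, φ] using this
  by_contra hab
  have hab' : (a : ℂ) + b * Complex.I ≠ 0 := by
    intro h0
    apply hab
    have hre := congrArg Complex.re h0
    have him := congrArg Complex.im h0
    simp at hre him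
    exact ⟨hre, him⟩
  have hL0 : (C (a : ℂ) + C (b : ℂ) * X) ≠ 0 := by
    intro h0
    have := congrArg (Polynomial.eval Complex.I) h0
    simp at this
    exact hab' this
  have hI : (1 + X ^ 2 : ℂ[X]) = (X - C Complex.I) * (X + C Complex.I) := by
    have hII : (C Complex.I * C Complex.I : ℂ[X]) = C (-1) := by
      rw [← C_mul, Complex.I_mul_I]
    have : (X - C Complex.I) * (X + C Complex.I) = X ^ 2 - (C Complex.I * C Complex.I : ℂ[X]) := by
      ring
    rw [this, hII]
    simp [add_comm]
  by_cases hpI : p.eval Complex.I = 0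
  · -- multiplicity of the zero
    have hrI : r.eval Complex.I ≠ 0 := by
      intro h0
      obtain ⟨u, v, huv⟩ := hcop'
      have := congrArg (Polynomial.eval Complex.I) huv
      simp [hpI, h0] at this
    obtain ⟨m, q, hq, hqI⟩ : ∃ (m : ℕ) (q : ℂ[X]), p = (X - C Complex.I) ^ m * q ∧
        q.eval Complex.I ≠ 0 := by
      obtain ⟨q, hq, hqn⟩ := Polynomial.exists_eq_pow_rootMultiplicity_mul_and_not_dvd p hp0
        Complex.I
      refine ⟨_, q, hq, ?_⟩
      intro h0
      exact hqn (Polynomial.dvd_iff_isRoot.2 h0)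
    have hm : 1 ≤ m := by
      rcases Nat.eq_zero_or_pos m with h0 | h0
      · subst h0
        rw [pow_zero, one_mul] at hq
        rw [hq] at hpI
        exact absurd hpI hqI
      · exact h0
    obtain ⟨k, rfl⟩ : ∃ k, m = k + 1 := ⟨m - 1, by omega⟩
    have hX0 : (X - C Complex.I : ℂ[X]) ≠ 0 := Polynomial.X_sub_C_ne_zero _
    rw [hI, hq] at h2
    have hder : derivative ((X - C Complex.I) ^ (k + 1) * q) =
        (X - C Complex.I) ^ k * (C ((k : ℂ) + 1) * q + (X - C Complex.I) * derivative q) := by
      rw [derivative_mul, derivative_X_sub_C_pow]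
      simp only [Nat.add_sub_cancel]
      push_cast
      rw [pow_succ]
      simp only [C_add, C_1]
      ring
    rw [hder] at h2
    have h3 : (X - C Complex.I) ^ (k + 1) * ((X + C Complex.I) * ((X - C Complex.I) * q *
        derivative r - (C ((k : ℂ) + 1) * q + (X - C Complex.I) * derivative q) * r)) =
        (X - C Complex.I) ^ (k + 1) * ((X - C Complex.I) ^ (k + 1) *
          ((C (a : ℂ) + C (b : ℂ) * X) * q ^ 2)) := by
      linear_combination h2
    have h4 := mul_left_cancel₀ (pow_ne_zero _ hX0) h3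
    have h5 := congrArg (Polynomial.eval Complex.I) h4
    simp only [eval_mul, eval_sub, eval_add, eval_X, eval_C, eval_pow, sub_self, zero_mul,
      add_zero, zero_sub, zero_pow (Nat.succ_ne_zero k)] at h5
    have h6 : (Complex.I + Complex.I) ≠ 0 := by
      intro h0
      have := congrArg Complex.im h0
      simp at this
    have h7 : ((k : ℂ) + 1) ≠ 0 := by exact_mod_cast Nat.succ_ne_zero k
    have h8 := (mul_eq_zero.1 h5).resolve_left h6
    rw [neg_eq_zero] at h8
    exact (mul_ne_zero (mul_ne_zero h7 hqI) hrI) h8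
  · have h3 := congrArg (Polynomial.eval Complex.I) h2
    simp only [eval_mul, eval_sub, eval_add, eval_X, eval_C, eval_pow, eval_one,
      Complex.I_sq] at h3
    rw [show (1 : ℂ) + -1 = 0 by ring, zero_mul] at h3
    exact (mul_ne_zero hab' (pow_ne_zero 2 hpI)) h3.symm

end HofAA
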