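import Pool.Agent.Lib.MP_301213_nt.AA.EvD
import Pool.Agent.Lib.MP_301213_nt.AA.Rat

/-! MP_301213_nt, almost all theorem: independence of the iterated integrals -/

set_option autoImplicit false

open Polynomial MeasureTheory Filter Topology

namespace HofAA

private theorem d0_zero : d0 (0 : ℝ[X]) = 0 := by simp [d0]

private theorem DD_single (W : List Bool) (P : ℝ[X]) : DD (Finsupp.single W P) = dW W P := by
  unfold DD
  rw [Finsupp.lsum_single]
  rfl

/-- the coefficients of the derivative -/
private theorem DD_coeff (p : MM) (V : List Bool) :
    DD p V = d0 (p V) + 2 * p (true :: V) + 2 * X * p (false :: V) := by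
  induction p using Finsupp.induction_linear with
  | zero => simp [d0_zero]
  | add f g hf hg =>
    rw [map_add, Finsupp.add_apply, hf, hg]
    simp only [Finsupp.add_apply, d0_add]
    ring
  | single W P =>
    rw [DD_single]
    rcases W with _ | ⟨_ | _, W⟩
    · simp only [dW, Finsupp.single_apply]
      by_cases h : [] = V
      · subst h
        simp
      · simp [h, d0_zero]
    · simp only [dW, Finsupp.add_apply, Finsupp.single_apply]
      by_cases h : false :: W = V
      · subst h
        simp
      · by_cases h' : W = V
        · subst h'
          simp [h, d0_zero]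
        · simp [h, h', d0_zero]
    · simp only [dW, Finsupp.add_apply, Finsupp.single_apply]
      by_cases h : true :: W = V
      · subst h
        simp
      · by_cases h' : W = V
        · subst h'
          simp [h, d0_zero]
        · simp [h, h', d0_zero]

private theorem ev_psmul (P : ℝ[X]) (p : MM) (φ : ℝ) :
    ev (P • p) φ = P.eval (Real.cot φ) * ev p φ := by
  unfold ev
  rw [Finsupp.sum_smul_index' (fun W => by simp), Finsupp.mul_sum]
  refine Finsupp.sum_congr fun W _ => ?_
  rw [smul_eq_mul, eval_mul, mul_assoc]

private theorem ev_inj_aux : ∀ l n : ℕ, ∀ p : MM, (∀ W ∈ p.support, good W) →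
    (∀ W ∈ p.support, W.length ≤ l) → (p.support.filter fun W => W.length = l).card = n →
    ∀ ε : ℝ, 0 < ε → (∀ φ : ℝ, 0 < φ → φ < ε → ev p φ = 0) → p = 0 := by
  classical
  intro l
  induction l with
  | zero =>
    intro n p hp hl _ ε hε h
    -- only the empty word
    have hs : p = Finsupp.single [] (p []) := by
      ext1 W
      rw [Finsupp.single_apply]
      by_cases hW : [] = W
      · rw [if_pos hW, ← hW]
      · rw [if_neg hW]
        by_contra h0
        have := hl W (Finsupp.mem_support_iff.mpr h0)
        exact hW (List.length_eq_zero_iff.mp (Nat.le_zero.mp this)).symm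
    have h1 : p [] = 0 := by
      have hε' : 0 < min ε (Real.pi / 2) := lt_min hε (by positivity)
      refine Polynomial.eq_zero_of_infinite_isRoot _ ?_
      have hinj : Set.InjOn Real.cot (Set.Ioo 0 (min ε (Real.pi / 2))) := by
        intro x hx y hy hxy
        have hx2 : x < Real.pi / 2 := hx.2.trans_le (min_le_right _ _)
        have hy2 : y < Real.pi / 2 := hy.2.trans_le (min_le_right _ _)
        refine Real.injOn_tan ⟨by linarith [hx.1, Real.pi_pos], hx2⟩
          ⟨by linarith [hy.1, Real.pi_pos], hy2⟩ ?_
        have := congrArg (fun z => z⁻¹) hxy
        simpa [Real.cot_eq_cos_div_sin, Real.tan_eq_sin_div_cos] using this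
      have hinf := (Set.Ioo_infinite hε').image hinj
      refine hinf.mono ?_
      rintro _ ⟨x, hx, rfl⟩
      have h2 := h x hx.1 (hx.2.trans_le (min_le_left _ _))
      rw [hs, ev_single] at h2
      simpa [II] using h2
    rw [hs, h1, Finsupp.single_zero]
  | succ l ihl =>
    intro n
    induction n using Nat.strong_induction_on with
    | _ n ihn =>
      intro p hp hl hn ε hε h
      by_cases hne : (p.support.filter fun W => W.length = l + 1) = ∅
      · refine ihl _ p hp (fun W hW => ?_) rfl ε hε h
        have h1 := hl W hW
        have h2 : W.length ≠ l + 1 := fun h3 => by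
          have : W ∈ (p.support.filter fun W => W.length = l + 1) :=
            Finset.mem_filter.mpr ⟨hW, h3⟩
          rw [hne] at this
          simp at this
        omega
      · exfalso
        obtain ⟨W0, hW0⟩ := Finset.nonempty_iff_ne_empty.mpr hne
        rw [Finset.mem_filter] at hW0
        obtain ⟨hW0s, hW0l⟩ := hW0
        have hP0 : p W0 ≠ 0 := Finsupp.mem_support_iff.mp hW0s
        set P0 := p W0 with hP0def
        have hlong : ∀ V : List Bool, l + 1 < V.length → p V = 0 := by
          intro V hV
          by_contra h0
          have := hl V (Finsupp.mem_support_iff.mpr h0)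
          omega
        set p' : MM := P0 • DD p - d0 P0 • p with hp'def
        have hcoef : ∀ V, p' V = P0 * (d0 (p V) + 2 * p (true :: V) + 2 * X * p (false :: V)) -
            d0 P0 * p V := by
          intro V
          rw [hp'def, Finsupp.sub_apply, Finsupp.smul_apply, Finsupp.smul_apply, DD_coeff,
            smul_eq_mul, smul_eq_mul]
        have hcoeftop : ∀ V : List Bool, l + 1 ≤ V.length →
            p' V = P0 * d0 (p V) - d0 P0 * p V := by
          intro V hV
          rw [hcoef, hlong (true :: V) (by simp; omega), hlong (false :: V) (by simp; omega)]
          ring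
        have hgood' : ∀ W ∈ p'.support, good W := by
          intro W hW
          by_cases h1 : DD p W = 0
          · refine hp W ?_
            rw [Finsupp.mem_support_iff] at hW ⊢
            intro h2
            apply hW
            rw [hp'def, Finsupp.sub_apply, Finsupp.smul_apply, Finsupp.smul_apply, h1, h2]
            simp
          · exact good_DD p hp W (Finsupp.mem_support_iff.mpr h1)
        have hlen' : ∀ W ∈ p'.support, W.length ≤ l + 1 := by
          intro W hW
          by_contra hcon
          rw [not_le] at hcon
          rw [Finsupp.mem_support_iff, hcoeftop W hcon.le, hlong W hcon, d0_zero] at hW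
          simp at hW
        have hsub : (p'.support.filter fun W => W.length = l + 1) ⊂
            (p.support.filter fun W => W.length = l + 1) := by
          rw [Finset.ssubset_iff_of_subset]
          · refine ⟨W0, Finset.mem_filter.mpr ⟨hW0s, hW0l⟩, ?_⟩
            rw [Finset.mem_filter, not_and]
            intro h1
            exfalso
            rw [Finsupp.mem_support_iff, hcoeftop W0 hW0l.ge] at h1
            apply h1
            rw [← hP0def]
            ring
          · intro W hW
            rw [Finset.mem_filter] at hW ⊢
            refine ⟨?_, hW.2⟩
            have h1 := hW.1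
            rw [Finsupp.mem_support_iff] at h1 ⊢
            intro h2
            apply h1
            rw [hcoeftop W hW.2.ge, h2, d0_zero]
            simp
        have hcard := Finset.card_lt_card hsub
        rw [hn] at hcard
        have hε' : 0 < min ε (Real.pi / 2) := lt_min hε (by positivity)
        have hev' : ∀ φ : ℝ, 0 < φ → φ < min ε (Real.pi / 2) → ev p' φ = 0 := by
          intro φ h0 h1
          have h1e : φ < ε := h1.trans_le (min_le_left _ _)
          have h1p : φ < Real.pi / 2 := h1.trans_le (min_le_right _ _)
          have h2 : ev (DD p) φ = 0 := by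
            have h3 := ev_DD p hp φ h0 h1p
            have h4 : HasDerivAt (ev p) 0 φ := by
              refine (hasDerivAt_const φ (0 : ℝ)).congr_of_eventuallyEq ?_
              filter_upwards [Ioo_mem_nhds h0 h1e] with x hx
              exact h x hx.1 hx.2
            exact h3.unique h4
          have h5 : p' = P0 • DD p + (-1 : ℝ) • (d0 P0 • p) := by
            rw [hp'def, sub_eq_add_neg, neg_one_smul]
          rw [h5, ev_add, ev_smul, ev_psmul, ev_psmul, h2, h φ h0 h1e]
          ring
        have hp'0 : p' = 0 := ihn _ hcard p' hgood' hlen' rfl _ hε' hev'
        -- proportionality of the top coefficients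
        have hprop : ∀ V : List Bool, V.length = l + 1 → ∃ k : ℝ, p V = C k * P0 := by
          intro V hV
          refine prop_poly P0 (p V) hP0 ?_
          have h1 := hcoeftop V hV.ge
          rw [hp'0, Finsupp.zero_apply] at h1
          have h2 : (1 + X ^ 2 : ℝ[X]) * (P0 * derivative (p V)) =
              (1 + X ^ 2) * (derivative P0 * p V) := by
            unfold d0 at h1
            linear_combination h1
          refine mul_left_cancel₀ ?_ h2
          intro h3
          have h4 := congrArg (fun q : ℝ[X] => q.eval 0) h3
          simp at h4
        obtain ⟨x, V, rfl⟩ : ∃ x V, W0 = x :: V := by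
          rcases W0 with _ | ⟨x, V⟩
          · simp at hW0l
          · exact ⟨x, V, rfl⟩
        have hVl : V.length = l := by simpa using hW0l
        obtain ⟨a, ha⟩ := hprop (true :: V) (by simp [hVl])
        obtain ⟨b, hb⟩ := hprop (false :: V) (by simp [hVl])
        have h1 := hcoef V
        rw [hp'0, Finsupp.zero_apply, ha, hb] at h1
        obtain ⟨ha0, hb0⟩ := no_prim P0 (p V) hP0 (2 * a) (2 * b) (by
          unfold d0 at h1
          rw [map_mul, map_mul]
          have h2 : (C (2 : ℝ) : ℝ[X]) = 2 := C_ofNat 2
          rw [h2]
          linear_combination h1)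
        have ha1 : a = 0 := by linarith
        have hb1 : b = 0 := by linarith
        rcases x with _ | _
        · apply hP0
          rw [hP0def, hb, hb1]
          simp
        · apply hP0
          rw [hP0def, ha, ha1]
          simp

theorem ev_inj (p : MM) (hp : ∀ W ∈ p.support, good W) (ε : ℝ) (hε : 0 < ε)
    (h : ∀ φ : ℝ, 0 < φ → φ < ε → ev p φ = 0) : p = 0 :=
  ev_inj_aux (p.support.sup List.length) _ p hp
    (fun _ hW => Finset.le_sup (f := List.length) hW) rfl ε hε h

end HofAA
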