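import Pool.Agent.Lib.MP_301213_nt.AA.Defs

/-! MP_301213_nt, almost all theorem: local polynomial expansion of moments -/

set_option autoImplicit false

open Polynomial MeasureTheory Filter Topology

namespace HofAA

private theorem Expa_hasDeriv (n : ℕ) (x : ℝ) :
    HasDerivAt (fun x : ℝ => ∑ m ∈ Finset.range (n + 1), (-x) ^ m / (Nat.factorial m : ℝ))
      (-(∑ m ∈ Finset.range n, (-x) ^ m / (Nat.factorial m : ℝ))) x := by
  induction n with
  | zero =>
    simp only [zero_add, Finset.range_one, Finset.sum_singleton, pow_zero, Finset.range_zero,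
      Finset.sum_empty, neg_zero]
    exact hasDerivAt_const x _
  | succ n ih =>
    have h1 : (fun x : ℝ => ∑ m ∈ Finset.range (n + 1 + 1), (-x) ^ m / (Nat.factorial m : ℝ)) =
        fun x : ℝ => (∑ m ∈ Finset.range (n + 1), (-x) ^ m / (Nat.factorial m : ℝ)) +
          (-x) ^ (n + 1) / (Nat.factorial (n + 1) : ℝ) := by
      funext x
      rw [Finset.sum_range_succ]
    rw [h1, Finset.sum_range_succ, neg_add]
    refine ih.add ?_
    have h2 : HasDerivAt (fun x : ℝ => (-x) ^ (n + 1) / (Nat.factorial (n + 1) : ℝ))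
        ((((n + 1 : ℕ) : ℝ) * (-x) ^ (n + 1 - 1) * (-1)) / (Nat.factorial (n + 1) : ℝ)) x :=
      (((hasDerivAt_id x).neg).pow (n + 1)).div_const _
    have h3 : (((n + 1 : ℕ) : ℝ) * (-x) ^ (n + 1 - 1) * (-1)) / (Nat.factorial (n + 1) : ℝ) =
        -((-x) ^ n / (Nat.factorial n : ℝ)) := by
      have h4 : (Nat.factorial n : ℝ) ≠ 0 := by positivity
      rw [Nat.factorial_succ, Nat.add_sub_cancel]
      push_cast
      field_simp
    rw [h3] at h2
    exact h2

private theorem Expa_rem (n : ℕ) : ∀ x : ℝ, 0 ≤ x →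
    |Real.exp (-x) - ∑ m ∈ Finset.range n, (-x) ^ m / (Nat.factorial m : ℝ)| ≤
      x ^ n / (Nat.factorial n : ℝ) := by
  induction n with
  | zero =>
    intro x hx
    simp only [Finset.range_zero, Finset.sum_empty, sub_zero, pow_zero, Nat.factorial_zero,
      Nat.cast_one, div_one, Real.abs_exp]
    exact Real.exp_le_one_iff.2 (by linarith)
  | succ n ih =>
    intro x hx
    have hpow : ∀ z : ℝ, HasDerivAt (fun z : ℝ => z ^ (n + 1) / (Nat.factorial (n + 1) : ℝ))
        (z ^ n / (Nat.factorial n : ℝ)) z := by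
      intro z
      have h2 : HasDerivAt (fun z : ℝ => z ^ (n + 1) / (Nat.factorial (n + 1) : ℝ))
          ((((n + 1 : ℕ) : ℝ) * z ^ (n + 1 - 1)) / (Nat.factorial (n + 1) : ℝ)) z :=
        (hasDerivAt_pow (n + 1) z).div_const _
      have h3 : (((n + 1 : ℕ) : ℝ) * z ^ (n + 1 - 1)) / (Nat.factorial (n + 1) : ℝ) =
          z ^ n / (Nat.factorial n : ℝ) := by
        have h4 : (Nat.factorial n : ℝ) ≠ 0 := by positivity
        rw [Nat.factorial_succ, Nat.add_sub_cancel]
        push_cast
        field_simp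
      rw [h3] at h2
      exact h2
    have hexp : ∀ z : ℝ, HasDerivAt (fun z : ℝ => Real.exp (-z)) (-Real.exp (-z)) z := by
      intro z
      have h := ((hasDerivAt_id z).neg).exp
      have h2 : Real.exp (-id z) * -1 = -Real.exp (-z) := by simp
      rw [← h2]
      exact h
    have hR : ∀ z : ℝ, HasDerivAt
        (fun x => Real.exp (-x) - ∑ m ∈ Finset.range (n + 1), (-x) ^ m / (Nat.factorial m : ℝ))
        (-(Real.exp (-z) - ∑ m ∈ Finset.range n, (-z) ^ m / (Nat.factorial m : ℝ))) z := by
      intro z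
      have h := (hexp z).sub (Expa_hasDeriv n z)
      have h2 : -Real.exp (-z) - -(∑ m ∈ Finset.range n, (-z) ^ m / (Nat.factorial m : ℝ)) =
          -(Real.exp (-z) - ∑ m ∈ Finset.range n, (-z) ^ m / (Nat.factorial m : ℝ)) := by ring
      rw [h2] at h
      exact h
    have h0 : Real.exp (-(0 : ℝ)) - ∑ m ∈ Finset.range (n + 1),
        (-(0 : ℝ)) ^ m / (Nat.factorial m : ℝ) = 0 := by
      rw [Finset.sum_range_succ']
      simp
    have hmono : ∀ s : ℝ, (s = 1 ∨ s = -1) → 0 ≤ x ^ (n + 1) / (Nat.factorial (n + 1) : ℝ) +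
        s * (Real.exp (-x) - ∑ m ∈ Finset.range (n + 1), (-x) ^ m / (Nat.factorial m : ℝ)) := by
      intro s hs
      have hd : ∀ z : ℝ, HasDerivAt (fun z : ℝ => z ^ (n + 1) / (Nat.factorial (n + 1) : ℝ) +
          s * (Real.exp (-z) - ∑ m ∈ Finset.range (n + 1), (-z) ^ m / (Nat.factorial m : ℝ)))
          (z ^ n / (Nat.factorial n : ℝ) + s * (-(Real.exp (-z) -
            ∑ m ∈ Finset.range n, (-z) ^ m / (Nat.factorial m : ℝ)))) z := fun z =>
        (hpow z).add ((hR z).const_mul s)
      have hm : MonotoneOn (fun z : ℝ => z ^ (n + 1) / (Nat.factorial (n + 1) : ℝ) +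
          s * (Real.exp (-z) - ∑ m ∈ Finset.range (n + 1), (-z) ^ m / (Nat.factorial m : ℝ)))
          (Set.Ici 0) := by
        refine monotoneOn_of_deriv_nonneg (convex_Ici 0)
          (fun z _ => (hd z).continuousAt.continuousWithinAt)
          (fun z _ => (hd z).differentiableAt.differentiableWithinAt) ?_
        intro z hz
        rw [interior_Ici] at hz
        rw [(hd z).deriv]
        have h := abs_le.1 (ih z (le_of_lt hz))
        rcases hs with rfl | rfl
        · linarith [h.2]
        · linarith [h.1]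
      have h := hm (Set.mem_Ici.2 le_rfl) (Set.mem_Ici.2 hx) hx
      simp only at h
      rw [h0, mul_zero, add_zero, zero_pow (Nat.succ_ne_zero n), zero_div] at h
      exact h
    rw [abs_le]
    have h1 := hmono 1 (Or.inl rfl)
    have h2 := hmono (-1) (Or.inr rfl)
    constructor <;> linarith

/-- the weight -/
private noncomputable def Expa_g (N m : ℕ) (y : ℝ) : ℝ :=
  (1 - y) ^ N * (Real.log (1 - y) ^ m / (Nat.factorial m : ℝ))

private theorem Expa_g_le {N : ℕ} (hN : 1 ≤ N) (m : ℕ) {y : ℝ} (hy : y ∈ Set.Icc (0 : ℝ) 1) :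
    |Expa_g N m y| ≤ 1 / (N : ℝ) ^ m := by
  have hN0 : (0 : ℝ) < N := by exact_mod_cast hN
  rcases eq_or_lt_of_le hy.2 with h | h
  · have : Expa_g N m y = 0 := by
      unfold Expa_g
      rw [h, sub_self, zero_pow (by omega), zero_mul]
    rw [this, abs_zero]
    positivity
  · have h1 : 0 < 1 - y := by linarith
    have h2 : Real.log (1 - y) ≤ 0 := Real.log_nonpos h1.le (by linarith [hy.1])
    set t := -Real.log (1 - y) with ht
    have ht0 : 0 ≤ t := by linarith
    have h3 : (1 - y) ^ N = Real.exp (-(N * t)) := by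
      rw [ht, mul_neg, neg_neg, Real.exp_nat_mul, Real.exp_log h1]
    have h4 : |Real.log (1 - y) ^ m / (Nat.factorial m : ℝ)| = t ^ m / (Nat.factorial m : ℝ) := by
      rw [abs_div, abs_pow, abs_of_nonpos h2, Nat.abs_cast]
    unfold Expa_g
    rw [abs_mul, h4, h3, Real.abs_exp, Real.exp_neg]
    have h5 := Real.pow_div_factorial_le_exp (x := N * t) (by positivity) m
    rw [mul_pow] at h5
    have h6 : 0 < Real.exp (N * t) := Real.exp_pos _
    rw [inv_mul_le_iff₀ h6, mul_one_div, le_div_iff₀ (by positivity)]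
    calc t ^ m / (Nat.factorial m : ℝ) * (N : ℝ) ^ m =
        (N : ℝ) ^ m * t ^ m / (Nat.factorial m : ℝ) := by ring
      _ ≤ _ := h5

private theorem Expa_meas (N m : ℕ) : Measurable (Expa_g N m) := by
  unfold Expa_g
  fun_prop

private theorem Expa_int {h : ℝ → ℝ} (hh : IntervalIntegrable h volume 0 1) {g : ℝ → ℝ}
    (hg : Measurable g) {c : ℝ} (hc : ∀ y ∈ Set.Icc (0 : ℝ) 1, |g y| ≤ c) :
    IntervalIntegrable (fun y => g y * h y) volume 0 1 ∧
      |∫ y in (0 : ℝ)..1, g y * h y| ≤ c * ∫ y in (0 : ℝ)..1, |h y| := by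
  rw [intervalIntegrable_iff_integrableOn_Ioc_of_le zero_le_one] at hh ⊢
  have h1 : Integrable (fun y => g y * h y) (volume.restrict (Set.Ioc 0 1)) := by
    refine hh.bdd_mul (c := c) hg.aestronglyMeasurable ?_
    refine (ae_restrict_iff' measurableSet_Ioc).2 (Filter.Eventually.of_forall fun y hy => ?_)
    rw [Real.norm_eq_abs]
    exact hc y ⟨hy.1.le, hy.2⟩
  refine ⟨h1, ?_⟩
  rw [← intervalIntegral.integral_const_mul]
  refine (intervalIntegral.abs_integral_le_integral_abs zero_le_one).trans ?_
  refine intervalIntegral.integral_mono_on zero_le_one ?_ ?_ ?_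
  · rw [intervalIntegrable_iff_integrableOn_Ioc_of_le zero_le_one]
    exact h1.abs
  · rw [intervalIntegrable_iff_integrableOn_Ioc_of_le zero_le_one]
    exact (Integrable.abs hh).const_mul c
  · intro y hy
    rw [abs_mul]
    exact mul_le_mul_of_nonneg_right (hc y hy) (abs_nonneg _)

theorem expa_mom (h : ℝ → ℝ) (hh : IntervalIntegrable h volume 0 1) : Expa (mom h) := by
  intro β
  set A := ∫ y in (0 : ℝ)..1, |h y| with hA
  have hA0 : 0 ≤ A := intervalIntegral.integral_nonneg zero_le_one fun _ _ => abs_nonneg _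
  refine ⟨A, hA0, fun N hN => ⟨fun m => ∫ y in (0 : ℝ)..1, Expa_g N m y * h y, ?_, ?_⟩⟩
  · intro m
    refine (Expa_int hh (Expa_meas N m) (fun y hy => Expa_g_le hN m hy)).2.trans (le_of_eq ?_)
    rw [← hA]; ring
  · intro k
    have hN0 : (0 : ℝ) < N := by exact_mod_cast hN
    -- the remainder
    set g : ℝ → ℝ := fun y => (1 - y) ^ (N + k) -
      ∑ m ∈ Finset.range (β + 1), Expa_g N m y * (k : ℝ) ^ m with hg
    have hgm : Measurable g := by
      refine Measurable.sub (by fun_prop) ?_
      exact Finset.measurable_fun_sum _ fun m _ => (Expa_meas N m).mul_const _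
    have hgle : ∀ y ∈ Set.Icc (0 : ℝ) 1, |g y| ≤ (k : ℝ) ^ (β + 1) / (N : ℝ) ^ (β + 1) := by
      intro y hy
      rcases eq_or_lt_of_le hy.2 with h1 | h1
      · have : g y = 0 := by
          simp only [hg, Expa_g]
          rw [h1, sub_self, zero_pow (by omega), zero_pow (by omega)]
          simp
        rw [this, abs_zero]
        positivity
      · have h1y : 0 < 1 - y := by linarith
        have h2 : Real.log (1 - y) ≤ 0 := Real.log_nonpos h1y.le (by linarith [hy.1])
        set t := -Real.log (1 - y) with ht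
        have ht0 : 0 ≤ t := by linarith
        have hkt : (1 - y) ^ k = Real.exp (-(k * t)) := by
          rw [ht, mul_neg, neg_neg, Real.exp_nat_mul, Real.exp_log h1y]
        have h3 : g y = (1 - y) ^ N * (Real.exp (-(k * t)) -
            ∑ m ∈ Finset.range (β + 1), (-(k * t)) ^ m / (Nat.factorial m : ℝ)) := by
          simp only [hg, Expa_g]
          rw [pow_add, hkt, mul_sub, Finset.mul_sum]
          congr 1
          refine Finset.sum_congr rfl fun m _ => ?_
          have h4 : -(k * t) = k * Real.log (1 - y) := by rw [ht]; ring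
          rw [h4, mul_pow]
          ring
        have h4 := Expa_rem (β + 1) (k * t) (by positivity)
        have h5 := Expa_g_le hN (β + 1) hy
        have h6 : |Expa_g N (β + 1) y| = (1 - y) ^ N * (t ^ (β + 1) / (Nat.factorial (β + 1) : ℝ)) := by
          unfold Expa_g
          rw [abs_mul, abs_div, abs_pow, abs_pow, abs_of_nonpos h2, abs_of_pos h1y, Nat.abs_cast]
        rw [h3, abs_mul, abs_pow, abs_of_pos h1y]
        calc (1 - y) ^ N * |Real.exp (-(k * t)) -
              ∑ m ∈ Finset.range (β + 1), (-(k * t)) ^ m / (Nat.factorial m : ℝ)|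
            ≤ (1 - y) ^ N * ((k * t) ^ (β + 1) / (Nat.factorial (β + 1) : ℝ)) := by gcongr
          _ = (k : ℝ) ^ (β + 1) * ((1 - y) ^ N * (t ^ (β + 1) / (Nat.factorial (β + 1) : ℝ))) := by
              rw [mul_pow]; ring
          _ ≤ (k : ℝ) ^ (β + 1) * (1 / (N : ℝ) ^ (β + 1)) := by
              rw [← h6]; gcongr
          _ = _ := by ring
    have h1 := (Expa_int hh hgm hgle).2
    have h2 : mom h (N + k) - ∑ m ∈ Finset.range (β + 1),
        (∫ y in (0 : ℝ)..1, Expa_g N m y * h y) * (k : ℝ) ^ m = ∫ y in (0 : ℝ)..1, g y * h y := by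
      have h3 : ∀ m ∈ Finset.range (β + 1), (∫ y in (0 : ℝ)..1, Expa_g N m y * h y) * (k : ℝ) ^ m =
          ∫ y in (0 : ℝ)..1, (Expa_g N m y * h y) * (k : ℝ) ^ m := by
        intro m _
        rw [intervalIntegral.integral_mul_const]
      rw [Finset.sum_congr rfl h3, mom, ← intervalIntegral.integral_finsetSum,
        ← intervalIntegral.integral_sub]
      · refine intervalIntegral.integral_congr fun y _ => ?_
        simp only [hg]
        rw [sub_mul, Finset.sum_mul]
        congr 1
        exact Finset.sum_congr rfl fun m _ => by ring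
      · refine (Expa_int hh (g := fun y => (1 - y) ^ (N + k)) (by fun_prop) (c := 1) ?_).1
        intro y hy
        rw [abs_pow, abs_of_nonneg (by linarith [hy.2])]
        exact pow_le_one₀ (by linarith [hy.2]) (by linarith [hy.1])
      · have h9 := IntervalIntegrable.sum (Finset.range (β + 1)) (μ := volume) (a := (0 : ℝ))
          (b := 1) (f := fun m y => Expa_g N m y * h y * (k : ℝ) ^ m) (fun m _ =>
            (Expa_int hh (Expa_meas N m) (fun y hy => Expa_g_le hN m hy)).1.mul_const _)
        have h10 : (∑ m ∈ Finset.range (β + 1), fun y => Expa_g N m y * h y * (k : ℝ) ^ m) =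
            fun y => ∑ m ∈ Finset.range (β + 1), Expa_g N m y * h y * (k : ℝ) ^ m := by
          funext y
          rw [Finset.sum_apply]
        rw [h10] at h9
        exact h9
      · intro m _
        exact (Expa_int hh (Expa_meas N m) (fun y hy => Expa_g_le hN m hy)).1.mul_const _
    rw [h2]
    refine h1.trans (le_of_eq ?_)
    rw [← hA]; ring

end HofAA
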