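import Pool.Agent.Lib.MP_301213_nt.AA.Sym
import Pool.Agent.Lib.MP_301213_nt.AA.Coef

/-! MP_301213_nt, almost all theorem: uniform lower bound -/

set_option autoImplicit false

open Polynomial MeasureTheory Filter Topology

namespace HofAA

section Low

variable {ω : Type} [Fintype ω] (M : ω → ℕ → ℝ) (κ : ℕ)

/-- the combination -/
noncomputable def LwG (q : ω → Fin (κ + 1) → ℝ) (n : ℕ) : ℝ :=
  ∑ w, ∑ a, q w a * (n : ℝ) ^ (a : ℕ) * M w n

theorem LwG_add (q q' : ω → Fin (κ + 1) → ℝ) (n : ℕ) :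
    LwG M κ (q + q') n = LwG M κ q n + LwG M κ q' n := by
  unfold LwG
  simp only [Pi.add_apply, add_mul, Finset.sum_add_distrib]

theorem LwG_smul (r : ℝ) (q : ω → Fin (κ + 1) → ℝ) (n : ℕ) :
    LwG M κ (r • q) n = r * LwG M κ q n := by
  unfold LwG
  simp only [Pi.smul_apply, smul_eq_mul, Finset.mul_sum]
  refine Finset.sum_congr rfl fun w _ => Finset.sum_congr rfl fun a _ => ?_
  ring

/-- the flat combinations -/
def LwV (J : ℕ) : Submodule ℝ (ω → Fin (κ + 1) → ℝ) where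
  carrier := {q | ∃ C : ℝ, ∀ n : ℕ, 1 ≤ n → |LwG M κ q n| ≤ C / (n : ℝ) ^ J}
  add_mem' := by
    rintro q q' ⟨C, hC⟩ ⟨C', hC'⟩
    refine ⟨C + C', fun n hn => ?_⟩
    rw [LwG_add, add_div]
    exact (abs_add_le _ _).trans (add_le_add (hC n hn) (hC' n hn))
  zero_mem' := by
    refine ⟨0, fun n _ => ?_⟩
    have : LwG M κ (0 : ω → Fin (κ + 1) → ℝ) n = 0 := by
      unfold LwG
      simp
    rw [this]
    simp
  smul_mem' := by
    rintro r q ⟨C, hC⟩
    refine ⟨|r| * C, fun n hn => ?_⟩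
    rw [LwG_smul, abs_mul, mul_div_assoc]
    exact mul_le_mul_of_nonneg_left (hC n hn) (abs_nonneg _)

theorem LwV_anti (J : ℕ) : LwV M κ (J + 1) ≤ LwV M κ J := by
  rintro q ⟨C, hC⟩
  refine ⟨C, fun n hn => ?_⟩
  have hn1 : (1 : ℝ) ≤ n := by exact_mod_cast hn
  have hn0 : (0 : ℝ) < n := by linarith
  have hC0 : 0 ≤ C := by
    have h1 := (abs_nonneg _).trans (hC 1 le_rfl)
    simpa using h1
  refine (hC n hn).trans ?_
  rw [pow_succ]
  apply div_le_div_of_nonneg_left hC0 (by positivity)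
  nlinarith [pow_pos hn0 J]

theorem LwV_bot (hI : PolyInd M) : ∃ J0 : ℕ, LwV M κ J0 = ⊥ := by
  let f : ℕ →o (Submodule ℝ (ω → Fin (κ + 1) → ℝ))ᵒᵈ :=
    { toFun := fun J => OrderDual.toDual (LwV M κ J)
      monotone' := monotone_nat_of_le_succ fun J => LwV_anti M κ J }
  obtain ⟨J0, hJ0⟩ := IsArtinian.monotone_stabilizes f
  refine ⟨J0, ?_⟩
  rw [eq_bot_iff]
  intro q hq
  rw [Submodule.mem_bot]
  by_contra hq0
  let Q : ω → ℝ[X] := fun w => ∑ a : Fin (κ + 1), monomial (a : ℕ) (q w a)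
  have hQ0 : Q ≠ 0 := by
    intro h0
    apply hq0
    funext w a
    have h1 := congrArg (fun P : ℝ[X] => P.coeff (a : ℕ)) (congrFun h0 w)
    simp only [Q, Pi.zero_apply, coeff_zero, finsetSum_coeff, coeff_monomial] at h1
    rw [Finset.sum_eq_single a] at h1
    · simpa using h1
    · intro b _ hb
      rw [if_neg]
      intro h
      exact hb (Fin.ext h)
    · intro h
      exact absurd (Finset.mem_univ _) h
  obtain ⟨c, m, N0, hc, hlow⟩ := hI Q hQ0
  have hG : ∀ n : ℕ, ∑ w, (Q w).eval (n : ℝ) * M w n = LwG M κ q n := by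
    intro n
    unfold LwG
    refine Finset.sum_congr rfl fun w _ => ?_
    rw [eval_finsetSum, Finset.sum_mul]
    refine Finset.sum_congr rfl fun a _ => ?_
    rw [eval_monomial]
  have hqm : q ∈ LwV M κ (m + 1) := by
    rcases le_total J0 (m + 1) with h | h
    · have := hJ0 (m + 1) h
      have h2 : LwV M κ J0 = LwV M κ (m + 1) := this
      rwa [← h2]
    · have h2 : OrderDual.toDual (LwV M κ (m + 1)) ≤ OrderDual.toDual (LwV M κ J0) := f.monotone h
      exact h2 hq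
  obtain ⟨C, hC⟩ := hqm
  obtain ⟨n, hn⟩ := exists_nat_gt (C / c)
  set k := max (max n 1) N0 with hk
  have hk1 : 1 ≤ k := (le_max_right _ _).trans (le_max_left _ _)
  have hk2 : N0 ≤ k := le_max_right _ _
  have hk3 : n ≤ k := (le_max_left _ _).trans (le_max_left _ _)
  have hk0 : (0 : ℝ) < k := by exact_mod_cast hk1
  have h3 := hlow k hk2
  simp only at h3
  rw [hG] at h3
  have h4 := h3.trans (hC k hk1)
  rw [pow_succ, div_le_div_iff₀ (by positivity) (by positivity)] at h4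
  have h5 : C < c * k := by
    have h6 : C / c < k := lt_of_lt_of_le hn (by exact_mod_cast hk3)
    rw [div_lt_iff₀ hc] at h6
    linarith
  have h7 : (0 : ℝ) < (k : ℝ) ^ m := by positivity
  nlinarith [mul_lt_mul_of_pos_right h5 h7]

theorem Low_diff_bd (f : ℕ → ℝ) (b : ℝ) (m : ℕ) : ∀ n : ℕ, (∀ k ≤ m, |f (n + k)| ≤ b) →
    |((fwdDiff (1 : ℕ))^[m] f) n| ≤ 2 ^ m * b := by
  induction m with
  | zero =>
    intro n h
    simpa using h 0 le_rfl
  | succ m ih =>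
    intro n h
    rw [Sy_fwd_succ]
    have h1 := ih (n + 1) (fun k hk => by
      have := h (k + 1) (by omega)
      rwa [show n + (k + 1) = n + 1 + k by ring] at this)
    have h2 := ih n (fun k hk => h k (by omega))
    calc |((fwdDiff (1 : ℕ))^[m] f) (n + 1) - ((fwdDiff (1 : ℕ))^[m] f) n|
        ≤ |((fwdDiff (1 : ℕ))^[m] f) (n + 1)| + |((fwdDiff (1 : ℕ))^[m] f) n| := abs_sub _ _
      _ ≤ 2 ^ m * b + 2 ^ m * b := add_le_add h1 h2
      _ = 2 ^ (m + 1) * b := by ring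

/-- the rising product -/
noncomputable def LwR (J : ℕ) (m : ℕ) : ℝ := ∏ j ∈ Finset.range J, ((m : ℝ) + j + 1)

theorem LwR_lower (J m : ℕ) : (m : ℝ) ^ J ≤ LwR J m := by
  unfold LwR
  calc (m : ℝ) ^ J = ∏ _j ∈ Finset.range J, (m : ℝ) := by simp
    _ ≤ ∏ j ∈ Finset.range J, ((m : ℝ) + j + 1) := by
      refine Finset.prod_le_prod (fun _ _ => by positivity) fun j _ => ?_
      have : (0 : ℝ) ≤ (j : ℝ) := by positivity
      linarith

theorem LwR_upper (J m : ℕ) : LwR J m ≤ ((m : ℝ) + J) ^ J := by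
  unfold LwR
  calc ∏ j ∈ Finset.range J, ((m : ℝ) + j + 1) ≤ ∏ _j ∈ Finset.range J, ((m : ℝ) + J) := by
        refine Finset.prod_le_prod (fun _ _ => by positivity) fun j hj => ?_
        have h1 : j + 1 ≤ J := Finset.mem_range.1 hj
        have h2 : ((j : ℝ) + 1) ≤ J := by exact_mod_cast h1
        linarith
    _ = ((m : ℝ) + J) ^ J := by simp

/-- the high coefficients -/
noncomputable def LwL (J : ℕ) (Lp : (ω → Fin (κ + 1) → ℝ) →ₗ[ℝ] ℝ[X]) :
    (ω → Fin (κ + 1) → ℝ) →ₗ[ℝ] (Fin (κ + J + 1) → ℝ) where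
  toFun q m := if κ < (m : ℕ) then (Lp q).coeff m else 0
  map_add' q q' := by
    funext m
    simp only [map_add, coeff_add, Pi.add_apply]
    split_ifs <;> simp
  map_smul' r q := by
    funext m
    simp only [map_smul, coeff_smul, Pi.smul_apply, smul_eq_mul, RingHom.id_apply]
    split_ifs <;> simp

end Low

theorem Low_inj {ω : Type} [Fintype ω] (h : ω → ℝ → ℝ) (κ J0 : ℕ)
    (hJ0 : LwV (fun w => mom (h w)) κ J0 = ⊥)
    (Lp : (ω → Fin (κ + 1) → ℝ) →ₗ[ℝ] ℝ[X]) (C : ℝ)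
    (hdeg : ∀ q, (Lp q).natDegree ≤ κ + (J0 + κ))
    (herr : ∀ (q : ω → Fin (κ + 1) → ℝ) (B : ℝ), (∀ w a, |q w a| ≤ B) →
        ∀ i : ℕ, i ≤ κ + (J0 + κ) → ∀ n : ℕ, 1 ≤ n →
          |((fwdDiff (1 : ℕ))^[i] (fun m : ℕ => (∏ j ∈ Finset.range (J0 + κ), ((m : ℝ) + j + 1)) *
              (∑ w, ∑ a, q w a * (m : ℝ) ^ (a : ℕ) * mom (h w) m) - (Lp q).eval (m : ℝ))) n| ≤
            C * B * (n : ℝ) ^ κ / (n : ℝ) ^ i) :
    LinearMap.ker (LwL κ (J0 + κ) Lp) = ⊥ := by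
  rw [LinearMap.ker_eq_bot']
  intro q hq
  have hdeg2 : (Lp q).natDegree ≤ κ := by
    rw [natDegree_le_iff_coeff_eq_zero]
    intro m hm
    by_cases hm2 : m < κ + (J0 + κ) + 1
    · have h1 := congrFun hq ⟨m, hm2⟩
      simp only [LwL, LinearMap.coe_mk, AddHom.coe_mk, Pi.zero_apply] at h1
      rwa [if_pos hm] at h1
    · exact coeff_eq_zero_of_natDegree_lt (lt_of_le_of_lt (hdeg q) (by omega))
  have hqV : q ∈ LwV (fun w => mom (h w)) κ J0 := by
    refine ⟨∑ i ∈ Finset.range (κ + 1), |(Lp q).coeff i| + C * ‖q‖, fun n hn => ?_⟩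
    have hn1 : (1 : ℝ) ≤ n := by exact_mod_cast hn
    have hn0 : (0 : ℝ) < n := by linarith
    have h1 := herr q ‖q‖ (fun w a => (norm_le_pi_norm (q w) a).trans (norm_le_pi_norm q w)) 0
      (by omega) n hn
    simp only [Function.iterate_zero, id, pow_zero, div_one] at h1
    have h2 : |(Lp q).eval (n : ℝ)| ≤ (∑ i ∈ Finset.range (κ + 1), |(Lp q).coeff i|) * (n : ℝ) ^ κ := by
      rw [eval_eq_sum_range' (Nat.lt_succ_of_le hdeg2), Finset.sum_mul]
      refine (Finset.abs_sum_le_sum_abs _ _).trans ?_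
      refine Finset.sum_le_sum fun i hi => ?_
      rw [abs_mul, abs_of_nonneg (by positivity : (0 : ℝ) ≤ (n : ℝ) ^ i)]
      exact mul_le_mul_of_nonneg_left
        (pow_le_pow_right₀ hn1 (Nat.lt_succ_iff.1 (Finset.mem_range.1 hi))) (abs_nonneg _)
    have h3 : |LwR (J0 + κ) n * LwG (fun w => mom (h w)) κ q n| ≤
        (∑ i ∈ Finset.range (κ + 1), |(Lp q).coeff i| + C * ‖q‖) * (n : ℝ) ^ κ := by
      have h4 : LwR (J0 + κ) n * LwG (fun w => mom (h w)) κ q n =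
          ((∏ j ∈ Finset.range (J0 + κ), ((n : ℝ) + j + 1)) *
              (∑ w, ∑ a, q w a * (n : ℝ) ^ (a : ℕ) * mom (h w) n) - (Lp q).eval (n : ℝ)) +
            (Lp q).eval (n : ℝ) := by
        unfold LwR LwG
        ring
      rw [h4]
      refine (abs_add_le _ _).trans ?_
      rw [add_mul]
      linarith
    rw [abs_mul] at h3
    have h5 : (n : ℝ) ^ (J0 + κ) ≤ |LwR (J0 + κ) n| := (LwR_lower _ _).trans (le_abs_self _)
    have h6 : (n : ℝ) ^ (J0 + κ) * |LwG (fun w => mom (h w)) κ q n| ≤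
        (∑ i ∈ Finset.range (κ + 1), |(Lp q).coeff i| + C * ‖q‖) * (n : ℝ) ^ κ :=
      (mul_le_mul_of_nonneg_right h5 (abs_nonneg _)).trans h3
    rw [le_div_iff₀ (by positivity)]
    have h7 : (|LwG (fun w => mom (h w)) κ q n| * (n : ℝ) ^ J0) * (n : ℝ) ^ κ ≤
        (∑ i ∈ Finset.range (κ + 1), |(Lp q).coeff i| + C * ‖q‖) * (n : ℝ) ^ κ := by
      refine le_trans (le_of_eq ?_) h6
      rw [pow_add]
      ring
    exact le_of_mul_le_mul_right h7 (by positivity)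
  rw [hJ0] at hqV
  exact (Submodule.mem_bot ℝ).1 hqV

theorem low_bd {ω : Type} [Fintype ω] (h : ω → ℝ → ℝ) (hT : ∀ w, Tay (h w))
    (hI : PolyInd fun w => mom (h w)) : LowBd fun w => mom (h w) := by
  intro κ
  obtain ⟨J0, hJ0⟩ := LwV_bot (fun w => mom (h w)) κ hI
  obtain ⟨Lp, C, hC, hdeg, herr⟩ := main_terms h hT κ (J0 + κ)
  obtain ⟨C2, hC2, hcoef⟩ := coeff_bound κ (κ + (J0 + κ))
  obtain ⟨K, hK, hanti⟩ := LinearMap.exists_antilipschitzWith _
    (Low_inj h κ J0 hJ0 Lp C hdeg herr)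
  set J := J0 + κ with hJ
  have hKr : (0 : ℝ) < (K : ℝ) := hK
  have hlow : ∀ q : ω → Fin (κ + 1) → ℝ, ‖q‖ ≤ K * ‖LwL κ J Lp q‖ := by
    intro q
    have h1 := hanti.le_mul_dist q 0
    rwa [dist_zero_right, map_zero, dist_zero_right] at h1
  set A : ℝ := K * C2 * (2 ^ (κ + J) * (1 + 2 * (J : ℝ) + κ) ^ J) with hA
  have hA0 : 0 ≤ A := by positivity
  refine ⟨κ + J, 2 * J + κ, ⌈2 * K * C2 * C⌉₊ + 1, 1 / (4 * (A + 1)), by positivity, ?_⟩
  intro N hN Q hQdeg hQ1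
  by_contra hcon
  push Not at hcon
  let q : ω → Fin (κ + 1) → ℝ := fun w a => (Q w).coeff (a : ℕ)
  have hG : ∀ n : ℕ, ∑ w, (Q w).eval (n : ℝ) * mom (h w) n = LwG (fun w => mom (h w)) κ q n := by
    intro n
    unfold LwG
    refine Finset.sum_congr rfl fun w _ => ?_
    rw [eval_eq_sum_range' (Nat.lt_succ_of_le (hQdeg w)), Finset.sum_mul, Finset.sum_range]
  have hN1 : 1 ≤ N := le_trans (Nat.le_add_left _ _) hN
  have hN1r : (1 : ℝ) ≤ N := by exact_mod_cast hN1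
  have hN0r : (0 : ℝ) < N := by linarith
  have hNC : 2 * K * C2 * C ≤ N := by
    have h1 := Nat.le_ceil (2 * K * C2 * C)
    have h2 : ((⌈2 * (K : ℝ) * C2 * C⌉₊ : ℕ) : ℝ) ≤ N := by
      exact_mod_cast le_trans (Nat.le_add_right _ _) hN
    linarith
  have hq1 : 1 ≤ ‖q‖ := by
    obtain ⟨w, a, hwa⟩ := hQ1
    have ha : a < κ + 1 := by
      by_contra hc
      have h1 : (Q w).coeff a = 0 :=
        coeff_eq_zero_of_natDegree_lt (lt_of_le_of_lt (hQdeg w) (by omega))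
      rw [h1, abs_zero] at hwa
      linarith
    have h1 : |q w ⟨a, ha⟩| ≤ ‖q‖ :=
      (norm_le_pi_norm (q w) ⟨a, ha⟩).trans (norm_le_pi_norm q w)
    exact hwa.trans h1
  set η : ℝ := 1 / (4 * (A + 1)) / (N : ℝ) ^ (2 * J + κ) with hη
  have hη0 : 0 ≤ η := by positivity
  set b : ℝ := ((1 + 2 * (J : ℝ) + κ) * N) ^ J * η with hb
  have hb0 : 0 ≤ b := by positivity
  have hF : ∀ k ≤ κ + J, |LwR J (N + k) * LwG (fun w => mom (h w)) κ q (N + k)| ≤ b := by
    intro k hk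
    have h1 := hcon k hk
    rw [hG] at h1
    rw [abs_mul, hb]
    refine mul_le_mul ?_ h1.le (abs_nonneg _) (by positivity)
    rw [abs_of_nonneg ((by positivity : (0 : ℝ) ≤ ((N + k : ℕ) : ℝ) ^ J).trans (LwR_lower _ _))]
    refine (LwR_upper _ _).trans ?_
    refine pow_le_pow_left₀ (by positivity) ?_ _
    have hk' : (k : ℝ) ≤ κ + J := by exact_mod_cast hk
    push_cast
    have h2 : (0 : ℝ) ≤ J := by positivity
    have h3 : (0 : ℝ) ≤ κ := by positivity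
    nlinarith
  set B' : ℝ := 2 ^ (κ + J) * b * (N : ℝ) ^ (κ + J) + C * ‖q‖ * (N : ℝ) ^ κ with hB'
  have hB'0 : 0 ≤ B' := by positivity
  have hD : ∀ m : ℕ, κ < m → m ≤ κ + J →
      |((fwdDiff (1 : ℕ))^[m] (fun n : ℕ => (Lp q).eval (n : ℝ))) N| ≤ B' / (N : ℝ) ^ m := by
    intro m _ hm
    have h1 := Low_diff_bd (fun n => LwR J n * LwG (fun w => mom (h w)) κ q n) b m N
      (fun k hk => hF k (hk.trans hm))
    have h2 := herr q ‖q‖ (fun w a => (norm_le_pi_norm (q w) a).trans (norm_le_pi_norm q w)) m hm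
      N hN1
    have h3 : (fun n : ℕ => (Lp q).eval (n : ℝ)) =
        (fun n => LwR J n * LwG (fun w => mom (h w)) κ q n) +
        (-1 : ℝ) • (fun m : ℕ => (∏ j ∈ Finset.range J, ((m : ℝ) + j + 1)) *
              (∑ w, ∑ a, q w a * (m : ℝ) ^ (a : ℕ) * mom (h w) m) - (Lp q).eval (m : ℝ)) := by
      funext n
      simp only [Pi.add_apply, Pi.smul_apply, smul_eq_mul]
      unfold LwR LwG
      ring
    rw [h3, fwdDiff_iter_add, fwdDiff_iter_const_smul, Pi.add_apply, Pi.smul_apply]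
    refine (abs_add_le _ _).trans ?_
    rw [smul_eq_mul, abs_mul, abs_neg, abs_one, one_mul]
    refine (add_le_add h1 h2).trans ?_
    rw [hB', add_div]
    refine add_le_add ?_ le_rfl
    rw [le_div_iff₀ (by positivity)]
    have h4 : (2 : ℝ) ^ m ≤ 2 ^ (κ + J) := pow_le_pow_right₀ (by norm_num) hm
    have h5 : (N : ℝ) ^ m ≤ (N : ℝ) ^ (κ + J) := pow_le_pow_right₀ hN1r hm
    exact mul_le_mul (mul_le_mul_of_nonneg_right h4 hb0) h5 (by positivity) (by positivity)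
  have hcf := hcoef (Lp q) (hdeg q) N hN1 B' hB'0 hD
  have hnorm : ‖LwL κ J Lp q‖ ≤ C2 * B' / (N : ℝ) ^ (κ + 1) := by
    rw [pi_norm_le_iff_of_nonneg (by positivity)]
    intro m
    simp only [LwL, LinearMap.coe_mk, AddHom.coe_mk]
    split_ifs with hm
    · refine (hcf m hm).trans ?_
      apply div_le_div_of_nonneg_left (by positivity) (by positivity)
      exact pow_le_pow_right₀ hN1r hm
    · rw [norm_zero]
      positivity
  have hfin := (hlow q).trans (mul_le_mul_of_nonneg_left hnorm hKr.le)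
  have e1 : K * (C2 * B' / (N : ℝ) ^ (κ + 1)) =
      A * η * ((N : ℝ) ^ J * (N : ℝ) ^ (κ + J) / (N : ℝ) ^ (κ + 1)) +
        (K * C2 * C / N) * ‖q‖ := by
    rw [hB', hb, hA, mul_pow]
    field_simp
    ring
  have h8 : (K * C2 * C / N) * ‖q‖ ≤ 1 / 2 * ‖q‖ := by
    refine mul_le_mul_of_nonneg_right ?_ (norm_nonneg _)
    rw [div_le_div_iff₀ hN0r (by norm_num)]
    linarith
  have h9 : A * η * ((N : ℝ) ^ J * (N : ℝ) ^ (κ + J) / (N : ℝ) ^ (κ + 1)) ≤ 1 / 4 := by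
    have h10 : (N : ℝ) ^ J * (N : ℝ) ^ (κ + J) / (N : ℝ) ^ (κ + 1) ≤ (N : ℝ) ^ (2 * J + κ) := by
      refine (div_le_self (by positivity) (one_le_pow₀ hN1r)).trans (le_of_eq ?_)
      rw [← pow_add]
      congr 1
      ring
    calc A * η * ((N : ℝ) ^ J * (N : ℝ) ^ (κ + J) / (N : ℝ) ^ (κ + 1))
        ≤ A * η * (N : ℝ) ^ (2 * J + κ) := mul_le_mul_of_nonneg_left h10 (by positivity)
      _ = A / (4 * (A + 1)) := by
        rw [hη]
        field_simp
      _ ≤ 1 / 4 := by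
        rw [div_le_div_iff₀ (by positivity) (by norm_num)]
        linarith
  rw [e1] at hfin
  linarith

end HofAA
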