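import Pool.Agent.Lib.MP_301213_nt.AA.Defs

/-! MP_301213_nt, almost all theorem: analyticity -/

set_option autoImplicit false

open Polynomial MeasureTheory Filter Topology

namespace HofAA

theorem PhiA_aR_le_one : ∀ (u : List ℕ), HofPers.Adm u → ∀ M : ℕ, HofPers.aR u M ≤ 1
  | [], _, M => by simp only [HofPers.aR]; split_ifs <;> norm_num
  | (a :: l), h, M => by
    have ha : 2 ≤ a := h a List.mem_cons_self
    have hl : HofPers.Adm l := fun b hb => h b (List.mem_cons_of_mem _ hb)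
    simp only [HofPers.aR]
    rcases Nat.eq_zero_or_pos M with rfl | hM
    · simp
    · have h1 : ∑ j ∈ Finset.range M, HofPers.aR l j ≤ (M : ℝ) := by
        calc ∑ j ∈ Finset.range M, HofPers.aR l j ≤ ∑ _j ∈ Finset.range M, (1 : ℝ) :=
              Finset.sum_le_sum fun j _ => PhiA_aR_le_one l hl j
          _ = M := by simp
      have hM1 : (1 : ℝ) ≤ M := by exact_mod_cast hM
      have h2 : (M : ℝ) ≤ (M : ℝ) ^ a := le_self_pow₀ hM1 (by omega)
      have h3 : 0 < (M : ℝ) ^ a := by positivity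
      calc ((M : ℝ) ^ a)⁻¹ * ∑ j ∈ Finset.range M, HofPers.aR l j
          ≤ ((M : ℝ) ^ a)⁻¹ * (M : ℝ) ^ a := by
            exact mul_le_mul_of_nonneg_left (h1.trans h2) (by positivity)
        _ = 1 := inv_mul_cancel₀ h3.ne'

/-- the coefficients in `s = sin²` -/
noncomputable def PhiA_c (u : List ℕ) (M : ℕ) : ℝ :=
  HofPers.aR u M * (4 ^ M / (Nat.centralBinom M : ℝ))

theorem PhiA_c_nonneg (u : List ℕ) (M : ℕ) : 0 ≤ PhiA_c u M := by
  have := HofPers.aR_nonneg u M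
  unfold PhiA_c
  positivity

theorem PhiA_c_le (u : List ℕ) (hu : HofPers.Adm u) (M : ℕ) : PhiA_c u M ≤ 2 * M + 1 := by
  have h1 := PhiA_aR_le_one u hu M
  have h0 := HofPers.aR_nonneg u M
  have h2 : (4 : ℝ) ^ M / (Nat.centralBinom M : ℝ) ≤ 2 * M + 1 := by
    rcases Nat.eq_zero_or_pos M with rfl | hM
    · simp
    · have hc : (0 : ℝ) < (Nat.centralBinom M : ℝ) := by exact_mod_cast Nat.centralBinom_pos M
      rw [div_le_iff₀ hc]
      have := Nat.four_pow_le_two_mul_self_mul_centralBinom M hM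
      have h4 : (4 : ℝ) ^ M ≤ 2 * M * (Nat.centralBinom M : ℝ) := by exact_mod_cast this
      linarith
  have h3 : (0 : ℝ) ≤ (4 : ℝ) ^ M / (Nat.centralBinom M : ℝ) := by positivity
  unfold PhiA_c
  calc HofPers.aR u M * (4 ^ M / (Nat.centralBinom M : ℝ))
      ≤ 1 * (4 ^ M / (Nat.centralBinom M : ℝ)) := mul_le_mul_of_nonneg_right h1 h3
    _ ≤ 2 * M + 1 := by rw [one_mul]; exact h2

theorem PhiA_term (u : List ℕ) (M : ℕ) (φ : ℝ) :
    HofPers.aR u M * sk M φ = PhiA_c u M * (Real.sin φ ^ 2) ^ M := by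
  unfold sk PhiA_c
  rw [← pow_mul]
  ring

theorem PhiA_eq (u : List ℕ) (φ : ℝ) :
    Phi u φ = FormalMultilinearSeries.ofScalarsSum (E := ℝ) (PhiA_c u) (Real.sin φ ^ 2) := by
  rw [FormalMultilinearSeries.ofScalars_sum_eq]
  unfold Phi
  exact tsum_congr fun M => by rw [PhiA_term, smul_eq_mul]

theorem PhiA_radius (u : List ℕ) (hu : HofPers.Adm u) :
    1 ≤ (FormalMultilinearSeries.ofScalars ℝ (PhiA_c u)).radius := by
  refine ENNReal.le_of_forall_nnreal_lt fun r hr => ?_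
  have hr1 : (r : ℝ) < 1 := by exact_mod_cast hr
  have hs : Summable fun n : ℕ => ((n : ℝ) ^ 1) * (r : ℝ) ^ n :=
    summable_pow_mul_geometric_of_norm_lt_one 1 (by simpa using hr1)
  have hs0 : Summable fun n : ℕ => (r : ℝ) ^ n :=
    summable_geometric_of_lt_one r.2 hr1
  refine FormalMultilinearSeries.le_radius_of_summable _ ?_
  refine Summable.of_nonneg_of_le (fun n => by positivity) (fun n => ?_)
    ((hs.mul_left 2).add hs0)
  rw [FormalMultilinearSeries.ofScalars_norm, Real.norm_of_nonneg (PhiA_c_nonneg u n)]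
  have := mul_le_mul_of_nonneg_right (PhiA_c_le u hu n) (pow_nonneg r.2 n)
  have e : (2 * (n : ℝ) + 1) * (r : ℝ) ^ n = 2 * ((n : ℝ) ^ 1 * (r : ℝ) ^ n) + (r : ℝ) ^ n := by
    ring
  exact this.trans (le_of_eq e)

theorem PhiA_sin_lt (φ : ℝ) (h : |φ| < Real.pi / 2) : Real.sin φ ^ 2 < 1 := by
  have hc : 0 < Real.cos φ := Real.cos_pos_of_mem_Ioo (by rw [abs_lt] at h; exact ⟨h.1, h.2⟩)
  nlinarith [Real.sin_sq_add_cos_sq φ, pow_pos hc 2]

theorem phi_analytic (u : List ℕ) (hu : HofPers.Adm u) (φ : ℝ) (h : |φ| < Real.pi / 2) :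
    AnalyticAt ℝ (Phi u) φ := by
  have hrad := PhiA_radius u hu
  have hpos : 0 < (FormalMultilinearSeries.ofScalars ℝ (PhiA_c u)).radius :=
    lt_of_lt_of_le one_pos hrad
  have h1 := (FormalMultilinearSeries.ofScalars ℝ (PhiA_c u)).hasFPowerSeriesOnBall hpos
  have h2 : AnalyticAt ℝ (FormalMultilinearSeries.ofScalarsSum (E := ℝ) (PhiA_c u))
      (Real.sin φ ^ 2) := by
    refine h1.analyticAt_of_mem ?_
    rw [Metric.mem_eball, edist_dist, Real.dist_eq, sub_zero, abs_of_nonneg (sq_nonneg _)]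
    refine lt_of_lt_of_le ?_ hrad
    rw [ENNReal.ofReal_lt_one]
    exact PhiA_sin_lt φ h
  have h3 : AnalyticAt ℝ (fun x : ℝ => Real.sin x ^ 2) φ := by fun_prop
  have h4 : Phi u = (FormalMultilinearSeries.ofScalarsSum (E := ℝ) (PhiA_c u)) ∘
      (fun x : ℝ => Real.sin x ^ 2) := by
    funext x
    exact PhiA_eq u x
  rw [h4]
  exact AnalyticAt.comp h2 h3

theorem PhiA_sk_nonneg (M : ℕ) (φ : ℝ) : 0 ≤ sk M φ := by
  unfold sk
  have : 0 ≤ Real.sin φ ^ (2 * M) := by rw [pow_mul]; positivity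
  positivity

theorem phi_nonneg (u : List ℕ) (φ : ℝ) : 0 ≤ Phi u φ :=
  tsum_nonneg fun M => mul_nonneg (HofPers.aR_nonneg u M) (PhiA_sk_nonneg M φ)

theorem phi_pos (u : List ℕ) (hu : HofPers.Adm u) (φ : ℝ) (h0 : 0 < φ) (h1 : φ < Real.pi / 2) :
    0 < Phi u φ := by
  have hsin : 0 < Real.sin φ := Real.sin_pos_of_pos_of_lt_pi h0 (by linarith [Real.pi_pos])
  have hlt : Real.sin φ ^ 2 < 1 := PhiA_sin_lt φ (by rw [abs_of_pos h0]; exact h1)
  have hnn : 0 ≤ Real.sin φ ^ 2 := sq_nonneg _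
  have hs : Summable fun n : ℕ => ((n : ℝ) ^ 1) * (Real.sin φ ^ 2) ^ n :=
    summable_pow_mul_geometric_of_norm_lt_one 1 (by
      rw [Real.norm_of_nonneg hnn]; exact hlt)
  have hs0 : Summable fun n : ℕ => (Real.sin φ ^ 2) ^ n :=
    summable_geometric_of_lt_one hnn hlt
  have hsum : Summable fun M : ℕ => HofPers.aR u M * sk M φ := by
    refine Summable.of_nonneg_of_le
      (fun M => mul_nonneg (HofPers.aR_nonneg u M) (PhiA_sk_nonneg M φ)) (fun n => ?_)
      ((hs.mul_left 2).add hs0)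
    rw [PhiA_term]
    have := mul_le_mul_of_nonneg_right (PhiA_c_le u hu n) (pow_nonneg hnn n)
    have e : (2 * (n : ℝ) + 1) * (Real.sin φ ^ 2) ^ n =
        2 * ((n : ℝ) ^ 1 * (Real.sin φ ^ 2) ^ n) + (Real.sin φ ^ 2) ^ n := by ring
    rw [e] at this
    exact this
  refine hsum.tsum_pos (fun M => mul_nonneg (HofPers.aR_nonneg u M) (PhiA_sk_nonneg M φ))
    u.length ?_
  refine mul_pos (HofPers.aR_pos u) ?_
  unfold sk
  have hc : (0 : ℝ) < (Nat.centralBinom u.length : ℝ) := by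
    exact_mod_cast Nat.centralBinom_pos _
  positivity

end HofAA
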