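import Pool.Agent.Lib.MP_301213_nt.AA.Chv
import Pool.Agent.Lib.MP_301213_nt.AA.PhiA

/-! MP_301213_nt, almost all theorem: Taylor expansions -/

set_option autoImplicit false

open Polynomial MeasureTheory Filter Topology

namespace HofAA

theorem tay_of_analyticAt (h : ℝ → ℝ) (hi : IntervalIntegrable h volume 0 1)
    (ha : AnalyticAt ℝ h 0) : Tay h := by
  refine ⟨hi, fun J => ?_⟩
  obtain ⟨p, hp⟩ := ha
  have hO := hp.isBigO_sub_partialSum_pow J
  obtain ⟨C, hC⟩ := hO.bound
  obtain ⟨δ, hδ, hδC⟩ := Metric.eventually_nhds_iff.1 hC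
  set μ : ℕ → ℝ := fun j => p.coeff j with hμ
  have hps : ∀ y : ℝ, p.partialSum J y = ∑ j ∈ Finset.range J, μ j * y ^ j := by
    intro y
    unfold FormalMultilinearSeries.partialSum
    refine Finset.sum_congr rfl fun j _ => ?_
    rw [FormalMultilinearSeries.apply_eq_pow_smul_coeff, smul_eq_mul, mul_comm]
  set S : ℝ → ℝ := fun y => ∑ j ∈ Finset.range J, μ j * y ^ j with hS
  have hScont : Continuous S := by
    simp only [hS]; fun_prop
  refine ⟨μ, fun y => (h y - S y) / y ^ J, ?_, ?_⟩
  · rw [intervalIntegrable_iff_integrableOn_Ioc_of_le zero_le_one] at hi ⊢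
    have hSi : IntegrableOn S (Set.Ioc 0 1) volume :=
      (hScont.integrableOn_Icc).mono_set Set.Ioc_subset_Icc_self
    have hdi : IntegrableOn (fun y => h y - S y) (Set.Ioc 0 1) volume := hi.sub hSi
    have hbi : IntegrableOn (fun y => |C| + |h y - S y| / δ ^ J) (Set.Ioc (0 : ℝ) 1) volume := by
      refine Integrable.add ?_ (hdi.abs.div_const _)
      exact integrable_const _
    refine Integrable.mono' hbi ?_ ?_
    · refine AEStronglyMeasurable.mul hdi.1 ?_ |>.congr (Eventually.of_forall fun y => (div_eq_mul_inv _ _).symm)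
      have : Measurable (fun y : ℝ => (y ^ J)⁻¹) := by fun_prop
      exact this.aestronglyMeasurable
    · rw [ae_restrict_iff' measurableSet_Ioc]
      refine Eventually.of_forall fun y hy => ?_
      have hy0 : 0 < y := hy.1
      have hyJ : 0 < y ^ J := pow_pos hy0 J
      rw [Real.norm_eq_abs, abs_div, abs_of_pos hyJ]
      by_cases hyd : y < δ
      · have h1 := hδC (y := y) (by rw [dist_zero_right, Real.norm_eq_abs, abs_of_pos hy0]; exact hyd)
        rw [zero_add, hps, Real.norm_eq_abs, norm_pow, norm_norm, Real.norm_eq_abs,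
          abs_of_pos hy0] at h1
        have h2 : |h y - S y| / y ^ J ≤ |C| := by
          rw [div_le_iff₀ hyJ]
          exact h1.trans (mul_le_mul_of_nonneg_right (le_abs_self C) hyJ.le)
        have h3 : 0 ≤ |h y - S y| / δ ^ J := by positivity
        linarith
      · push Not at hyd
        have h2 : |h y - S y| / y ^ J ≤ |h y - S y| / δ ^ J :=
          div_le_div_of_nonneg_left (abs_nonneg _) (pow_pos hδ J) (pow_le_pow_left₀ hδ.le hyd J)
        have h3 := abs_nonneg C
        linarith
  · intro y hy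
    have hyJ : y ^ J ≠ 0 := pow_ne_zero _ hy.1.ne'
    field_simp
    simp only [hS]
    ring

theorem hh_analyticAt_zero (u : List ℕ) (hu : HofPers.Adm u) : AnalyticAt ℝ (hh u) 0 := by
  have hs : AnalyticAt ℝ (fun y : ℝ => √(1 - y)) 0 := by
    have h1 : AnalyticAt ℝ (fun x : ℝ => √x) ((fun y : ℝ => 1 - y) 0) := by
      rw [← analyticWithinAt_univ, ← contDiffWithinAt_omega_iff_analyticWithinAt,
        contDiffWithinAt_univ]
      exact Real.contDiffAt_sqrt (by norm_num)
    have h2 : AnalyticAt ℝ (fun y : ℝ => 1 - y) 0 := by fun_prop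
    exact h1.comp h2
  have hφ : AnalyticAt ℝ (fun y : ℝ => Real.pi / 2 * (1 - √(1 - y))) 0 :=
    analyticAt_const.mul (analyticAt_const.sub hs)
  have hP : AnalyticAt ℝ (fun y : ℝ => Phi u (Real.pi / 2 * (1 - √(1 - y)))) 0 := by
    have h1 : AnalyticAt ℝ (Phi u) ((fun y : ℝ => Real.pi / 2 * (1 - √(1 - y))) 0) := by
      apply phi_analytic u hu
      simp
      positivity
    exact AnalyticAt.fun_comp (g := Phi u) (f := fun y : ℝ => Real.pi / 2 * (1 - √(1 - y)))
      h1 hφ
  have hd : AnalyticAt ℝ (fun y : ℝ => Real.pi / 4 / √(1 - y)) 0 := by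
    refine analyticAt_const.div hs ?_
    simp
  exact hd.mul hP

theorem tay_hh (u : List ℕ) (hu : HofPers.Adm u) : Tay (hh u) :=
  tay_of_analyticAt _ (hh_int u hu) (hh_analyticAt_zero u hu)

end HofAA
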