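import Pool.Agent.Lib.MP_301213_nt.AA.Det3

/-! MP_301213_nt, almost all theorem: the induction, bounded number of exceptions in a window -/

set_option autoImplicit false

open Polynomial MeasureTheory Filter Topology

namespace HofAA

theorem coeff_comp_bound {κ k : ℕ} {S : ℤ} (p : ℤ[X]) (hp : p.natDegree ≤ κ)
    (hS : ∀ a, |p.coeff a| ≤ S) (a : ℕ) :
    |(p.comp (X + C (k : ℤ))).coeff a| ≤ (κ + 1) * (S * (2 ^ κ * (1 + k) ^ κ)) := by
  have hS0 : 0 ≤ S := (abs_nonneg _).trans (hS 0)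
  rw [Polynomial.comp, Polynomial.eval₂_eq_sum_range' C (Nat.lt_succ_of_le hp),
    Polynomial.finsetSum_coeff]
  refine (Finset.abs_sum_le_sum_abs _ _).trans ?_
  have h1 : ∀ m ∈ Finset.range (κ + 1),
      |(C (p.coeff m) * (X + C (k : ℤ)) ^ m).coeff a| ≤ S * (2 ^ κ * (1 + k) ^ κ) := by
    intro m hm
    rw [Finset.mem_range] at hm
    rw [Polynomial.coeff_C_mul, Polynomial.coeff_X_add_C_pow, abs_mul]
    apply mul_le_mul (hS m) _ (abs_nonneg _) hS0
    rw [abs_of_nonneg (by positivity), mul_comm]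
    apply mul_le_mul _ _ (by positivity) (by positivity)
    · have : m.choose a ≤ 2 ^ κ :=
        (Nat.choose_le_two_pow m a).trans (Nat.pow_le_pow_right (by norm_num) (by omega))
      exact_mod_cast this
    · have : k ^ (m - a) ≤ (1 + k) ^ κ :=
        (Nat.pow_le_pow_left (by omega) _).trans (Nat.pow_le_pow_right (by omega) (by omega))
      exact_mod_cast this
  refine (Finset.sum_le_sum h1).trans ?_
  rw [Finset.sum_const, Finset.card_range, nsmul_eq_mul]
  push_cast
  exact le_refl _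

theorem comp_shift_inv (p : ℤ[X]) (k : ℤ) : (p.comp (X + C k)).comp (X - C k) = p := by
  rw [Polynomial.comp_assoc]
  simp

theorem comp_shift_inv' (p : ℤ[X]) (k : ℤ) : (p.comp (X - C k)).comp (X + C k) = p := by
  rw [Polynomial.comp_assoc]
  simp

theorem rowInd_shift {ω ι : Type} [Fintype ω] [Fintype ι] {B : ι → ω → ℤ[X]} (h : RowInd B)
    (k : ℤ) : RowInd fun i w => (B i w).comp (X + C k) := by
  intro P hP
  have h1 := h (fun i => (P i).comp (X - C k)) (fun w => by
    have h2 := congrArg (Polynomial.compRingHom (X - C k)) (hP w)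
    simp only [map_sum, map_mul, Polynomial.coe_compRingHom_apply, comp_shift_inv,
      Polynomial.zero_comp] at h2
    exact h2)
  funext i
  have h2 := congrFun h1 i
  have h3 := congrArg (fun p : ℤ[X] => p.comp (X + C k)) h2
  simp only [comp_shift_inv', Pi.zero_apply, Polynomial.zero_comp] at h3
  exact h3

theorem rowInd_ne {ω ι : Type} [Fintype ω] [Fintype ι] {B : ι → ω → ℤ[X]} (h : RowInd B)
    (i : ι) : ∃ w, B i w ≠ 0 := by
  classical
  by_contra hcon
  push Not at hcon
  have h1 := h (Pi.single i 1) (fun w => by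
    rw [Finset.sum_eq_single i]
    · rw [Pi.single_eq_same, hcon w, mul_zero]
    · intro j _ hj
      rw [Pi.single_eq_of_ne hj, zero_mul]
    · intro h; exact absurd (Finset.mem_univ _) h)
  have h2 := congrFun h1 i
  rw [Pi.single_eq_same] at h2
  exact one_ne_zero h2

theorem rowInd_elim {ω ι : Type} [Fintype ω] [Fintype ι] [DecidableEq ι] {B : ι → ω → ℤ[X]}
    (h : RowInd B) (P : ι → ℤ[X]) (i2 : ι) (h2 : P i2 ≠ 0) :
    RowInd fun (i : {i // i ≠ i2}) w => P i2 * B i w - P i * B i2 w := by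
  intro Q hQ
  have h1 := h (fun i => if hi : i ≠ i2 then Q ⟨i, hi⟩ * P i2 else
      -∑ j : {i // i ≠ i2}, Q j * P j) (fun w => by
    have h3 := hQ w
    rw [Fintype.sum_eq_add_sum_subtype_ne _ i2, dif_neg (by simp)]
    have h4 : ∑ j : {i // i ≠ i2}, (if hi : j.1 ≠ i2 then Q ⟨j.1, hi⟩ * P i2 else
        -∑ j : {i // i ≠ i2}, Q j * P j) * B j w =
        ∑ j : {i // i ≠ i2}, Q j * P i2 * B j w := by
      refine Finset.sum_congr rfl fun j _ => ?_
      rw [dif_pos j.2]
    rw [h4, neg_mul, Finset.sum_mul, add_comm, ← sub_eq_add_neg,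
      ← Finset.sum_sub_distrib, ← h3]
    exact Finset.sum_congr rfl fun j _ => by ring)
  funext j
  have h3 := congrFun h1 j.1
  rw [dif_pos j.2, Pi.zero_apply] at h3
  rcases mul_eq_zero.1 h3 with h4 | h4
  · exact h4
  · exact absurd h4 h2

theorem Yf_shift {ω ι : Type} [Fintype ω] (M : ω → ℕ → ℝ) (B : ι → ω → ℤ[X]) (N k0 k : ℕ)
    (i : ι) : Yf M (fun i w => (B i w).comp (X + C (k0 : ℤ))) (N + k0) k i =
      Yf M B N (k0 + k) i := by
  unfold Yf
  refine Finset.sum_congr rfl fun w _ => ?_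
  rw [Polynomial.map_comp, Polynomial.eval_comp, add_assoc]
  congr 1
  congr 1
  simp [add_comm]

theorem Yf_elim {ω ι : Type} [Fintype ω] (M : ω → ℕ → ℝ) (B : ι → ω → ℤ[X]) (P : ι → ℤ[X])
    (i2 : ι) (N k : ℕ) (i : {i // i ≠ i2}) :
    Yf M (fun (i : {i // i ≠ i2}) w => P i2 * B i w - P i * B i2 w) N k i =
      (((P i2).eval (k : ℤ) : ℤ) : ℝ) * Yf M B N k i.1 -
      (((P i).eval (k : ℤ) : ℤ) : ℝ) * Yf M B N k i2 := by
  unfold Yf
  rw [Finset.mul_sum, Finset.mul_sum, ← Finset.sum_sub_distrib]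
  refine Finset.sum_congr rfl fun w _ => ?_
  have h1 : ∀ p : ℤ[X], (p.map (Int.castRingHom ℝ)).eval (k : ℝ) = ((p.eval (k : ℤ) : ℤ) : ℝ) := by
    intro p
    simp
  rw [Polynomial.map_sub, Polynomial.map_mul, Polynomial.map_mul, Polynomial.eval_sub,
    Polynomial.eval_mul, Polynomial.eval_mul, h1 (P i2), h1 (P i)]
  ring

theorem coeff_mul_bound {d : ℕ} {S T : ℤ} (p r : ℤ[X]) (hp : p.natDegree ≤ d)
    (hS : ∀ a, |p.coeff a| ≤ S) (hT : ∀ a, |r.coeff a| ≤ T) (a : ℕ) :
    |(p * r).coeff a| ≤ (d + 1) * (S * T) := by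
  have hS0 : 0 ≤ S := (abs_nonneg _).trans (hS 0)
  have hT0 : 0 ≤ T := (abs_nonneg _).trans (hT 0)
  rw [Polynomial.coeff_mul, Finset.Nat.sum_antidiagonal_eq_sum_range_succ
    (fun i j => p.coeff i * r.coeff j)]
  refine (Finset.abs_sum_le_sum_abs _ _).trans ?_
  have h1 : ∑ x ∈ Finset.range a.succ, |p.coeff x * r.coeff (a - x)| ≤
      ∑ x ∈ Finset.range a.succ, (if x < d + 1 then S * T else 0) := by
    refine Finset.sum_le_sum fun x _ => ?_
    split_ifs with h
    · rw [abs_mul]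
      exact mul_le_mul (hS _) (hT _) (abs_nonneg _) hS0
    · rw [Polynomial.coeff_eq_zero_of_natDegree_lt (by omega)]
      simp
  refine h1.trans ?_
  rw [← Finset.sum_filter, Finset.sum_const, nsmul_eq_mul]
  apply mul_le_mul_of_nonneg_right _ (mul_nonneg hS0 hT0)
  have h2 : ((Finset.range a.succ).filter (fun x => x < d + 1)).card ≤ d + 1 := by
    refine (Finset.card_le_card ?_).trans (Finset.card_range _).le
    intro x hx
    exact Finset.mem_range.2 (Finset.mem_filter.1 hx).2
  exact_mod_cast h2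

theorem pow_exp_le {K a b N : ℕ} (hN : 1 ≤ N) (h : K ^ (a + b) ≤ N) : K ^ a ≤ N := by
  rcases Nat.eq_zero_or_pos K with h0 | h0
  · subst h0
    rcases Nat.eq_zero_or_pos a with h1 | h1
    · subst h1; simpa using hN
    · rw [zero_pow h1.ne']; exact Nat.zero_le _
  · exact (Nat.pow_le_pow_right h0 (Nat.le_add_right _ _)).trans h

/-- a large value of a nonzero row in a bounded window -/
theorem low_row {ω : Type} [Fintype ω] (M : ω → ℕ → ℝ) (hL : LowBd M) (κ : ℕ) :
    ∃ (J C1 N0 : ℕ) (c0 : ℝ), 0 < c0 ∧ ∀ N : ℕ, N0 ≤ N → ∀ (ι : Type) (B : ι → ω → ℤ[X]) (i : ι),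
      (∀ w, (B i w).natDegree ≤ κ) → (∃ w, B i w ≠ 0) →
      ∃ k ≤ J, c0 / (N : ℝ) ^ C1 ≤ |Yf M B N k i| := by
  obtain ⟨J, C1, N0, c0, hc0, h⟩ := hL κ
  refine ⟨J, C1, N0, c0, hc0, fun N hN ι B i hB ⟨w0, hw0⟩ => ?_⟩
  obtain ⟨k, hk, hb⟩ := h N hN
    (fun w => ((B i w).map (Int.castRingHom ℝ)).comp (X - C (N : ℝ))) (fun w => by
      rw [Polynomial.natDegree_comp, Polynomial.natDegree_X_sub_C, mul_one]
      exact (Polynomial.natDegree_map_le).trans (hB w))
    ⟨w0, ((B i w0).map (Int.castRingHom ℝ)).natDegree, by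
      have hinj : Function.Injective (Int.castRingHom ℝ) := Int.cast_injective
      have h1 : (((B i w0).map (Int.castRingHom ℝ)).comp (X - C (N : ℝ))).coeff
          ((B i w0).map (Int.castRingHom ℝ)).natDegree =
          (((B i w0).leadingCoeff : ℤ) : ℝ) := by
        have h2 : ((B i w0).map (Int.castRingHom ℝ)).natDegree =
            (((B i w0).map (Int.castRingHom ℝ)).comp (X - C (N : ℝ))).natDegree := by
          rw [Polynomial.natDegree_comp, Polynomial.natDegree_X_sub_C, mul_one]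
        rw [h2, Polynomial.coeff_natDegree, Polynomial.leadingCoeff_comp (by
          rw [Polynomial.natDegree_X_sub_C]; exact one_ne_zero),
          Polynomial.leadingCoeff_X_sub_C, one_pow, mul_one,
          Polynomial.leadingCoeff_map_of_injective hinj]
        rfl
      rw [h1]
      have h3 : (B i w0).leadingCoeff ≠ 0 := Polynomial.leadingCoeff_ne_zero.2 hw0
      have h4 : 1 ≤ |(B i w0).leadingCoeff| := Int.one_le_abs h3
      exact_mod_cast h4⟩
  refine ⟨k, hk, hb.trans (le_of_eq ?_)⟩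
  unfold Yf
  congr 1
  refine Finset.sum_congr rfl fun w _ => ?_
  congr 1
  rw [Polynomial.eval_comp]
  congr 1
  simp

theorem window {ω : Type} [Fintype ω] (M : ω → ℕ → ℝ) (hM : ∀ w, Expa (M w)) (hL : LowBd M)
    (r : ℕ) : ∀ A κ : ℕ, ∃ C q N0 : ℕ, ∀ N : ℕ, N0 ≤ N → ∀ (ι : Type) [Fintype ι],
      Fintype.card ι = r → ∀ B : ι → ω → ℤ[X],
      (∀ i w, (B i w).natDegree ≤ κ) → (∀ i w a, |(B i w).coeff a| ≤ (N : ℤ) ^ κ) → RowInd B →
      ∀ K : ℕ, K ^ q ≤ N → ∀ E : Finset ℕ,
        (∀ k ∈ E, k ≤ K ∧ ∃ c : ι → ℤ, c ≠ 0 ∧ Ann M B N A k c) → E.card ≤ C := by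
  classical
  induction r with
  | zero =>
    intro A κ
    refine ⟨0, 0, 0, ?_⟩
    intro N _ ι _ hι B _ _ _ K _ E hE
    have hemp : IsEmpty ι := Fintype.card_eq_zero_iff.1 hι
    have : E = ∅ := by
      rw [Finset.eq_empty_iff_forall_notMem]
      intro k hk
      obtain ⟨_, c, hc, _⟩ := hE k hk
      exact hc (funext fun i => (hemp.false i).elim)
    rw [this]
    simp
  | succ r ih =>
    intro A κ
    obtain ⟨J, C1, N1, c0, hc0, hlow⟩ := low_row M hL κ
    obtain ⟨β, q1, N2, κ', hdet⟩ := det_step M hM (r + 1) A (κ + 1) C1 c0 hc0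
    obtain ⟨C', q', N3, hih⟩ := ih A (β + κ' + κ + 2)
    refine ⟨J + (β + C'), q1 + q',
      max (max N1 N2) (max (max N3 1) (max ((κ + 1) * (2 ^ κ * (1 + J) ^ κ)) (2 * (β + 1) + κ + 1))),
      ?_⟩
    intro N hN ι _ hι B hB1 hB2 hR K hK E hE
    have hNN1 : N1 ≤ N := (le_max_left _ _).trans ((le_max_left _ _).trans hN)
    have hNN2 : N2 ≤ N := (le_max_right _ _).trans ((le_max_left _ _).trans hN)
    have hN' := (le_max_right _ _).trans hN
    have hNN3 : N3 ≤ N := (le_max_left _ _).trans ((le_max_left _ _).trans hN')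
    have hN1' : 1 ≤ N := (le_max_right _ _).trans ((le_max_left _ _).trans hN')
    have hN'' := (le_max_right _ _).trans hN'
    have hNκ : (κ + 1) * (2 ^ κ * (1 + J) ^ κ) ≤ N := (le_max_left _ _).trans hN''
    have hNβ : 2 * (β + 1) + κ + 1 ≤ N := (le_max_right _ _).trans hN''
    have hne : Nonempty ι := by
      rw [← Fintype.card_pos_iff, hι]; omega
    obtain ⟨i1⟩ := hne
    obtain ⟨k0, hk0, hk0b⟩ := hlow N hNN1 ι B i1 (fun w => hB1 i1 w) (rowInd_ne hR i1)
    set N' := N + k0 with hNd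
    have hNN' : N ≤ N' := Nat.le_add_right _ _
    have hN'1 : (1 : ℤ) ≤ N' := by exact_mod_cast hN1'.trans hNN'
    set B' : ι → ω → ℤ[X] := fun i w => (B i w).comp (X + C (k0 : ℤ)) with hB'
    have hB'1 : ∀ i w, (B' i w).natDegree ≤ κ + 1 := by
      intro i w
      have h1 : (B' i w).natDegree ≤ κ := by
        refine Polynomial.natDegree_comp_le.trans ?_
        rw [Polynomial.natDegree_X_add_C, mul_one]
        exact hB1 i w
      omega
    have hB'2 : ∀ i w a, |(B' i w).coeff a| ≤ (N' : ℤ) ^ (κ + 1) := by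
      intro i w a
      refine (coeff_comp_bound (B i w) (hB1 i w) (hB2 i w) a).trans ?_
      have h1 : (κ + 1) * (N ^ κ * (2 ^ κ * (1 + k0) ^ κ)) ≤ N' ^ (κ + 1) := by
        calc (κ + 1) * (N ^ κ * (2 ^ κ * (1 + k0) ^ κ))
            ≤ (κ + 1) * (N ^ κ * (2 ^ κ * (1 + J) ^ κ)) := by gcongr
          _ = N ^ κ * ((κ + 1) * (2 ^ κ * (1 + J) ^ κ)) := by ring
          _ ≤ N ^ κ * N := Nat.mul_le_mul_left _ hNκ
          _ = N ^ (κ + 1) := (pow_succ _ _).symm
          _ ≤ N' ^ (κ + 1) := Nat.pow_le_pow_left hNN' _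
      exact_mod_cast h1
    have hR' : RowInd B' := rowInd_shift hR k0
    have hAnn : ∀ (k' : ℕ) (c : ι → ℤ), Ann M B N A (k0 + k') c → Ann M B' N' A k' c := by
      intro k' c hc
      refine ⟨fun i => (hc.1 i).trans ?_, ?_⟩
      · have : N ^ A ≤ N' ^ A := Nat.pow_le_pow_left hNN' _
        exact_mod_cast this
      · rw [← hc.2]
        refine Finset.sum_congr rfl fun i _ => ?_
        rw [hB', hNd, Yf_shift]
    have hY0 : ∃ i, c0 / (N' : ℝ) ^ C1 ≤ |Yf M B' N' 0 i| := by
      refine ⟨i1, ?_⟩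
      rw [hB', hNd, Yf_shift, add_zero]
      refine le_trans ?_ hk0b
      have hNR : (0 : ℝ) < N := by exact_mod_cast hN1'
      apply div_le_div_of_nonneg_left hc0.le (by positivity)
      exact pow_le_pow_left₀ hNR.le (by push_cast; linarith [(Nat.cast_nonneg k0 : (0 : ℝ) ≤ k0)]) _
    -- the shifted exceptional set
    set E' : Finset ℕ := (E.filter (fun k => k0 ≤ k)).image (fun k => k - k0) with hE'
    have hE'm : ∀ k' ∈ E', k' ≤ K ∧ ∃ c : ι → ℤ, c ≠ 0 ∧ Ann M B' N' A k' c := by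
      intro k' hk'
      rw [hE', Finset.mem_image] at hk'
      obtain ⟨k, hk, rfl⟩ := hk'
      rw [Finset.mem_filter] at hk
      obtain ⟨h1, c, hc, hcA⟩ := hE k hk.1
      refine ⟨(Nat.sub_le _ _).trans h1, c, hc, hAnn _ _ ?_⟩
      rw [Nat.add_sub_cancel' hk.2]
      exact hcA
    choose! hE'K cc hcc hccA using hE'm
    have hKq : K ^ (q1 + q') ≤ N' := hK.trans hNN'
    obtain ⟨P, hP0, hP1, hP2, hP3⟩ := hdet N' (hNN2.trans hNN') ι hι B' hB'1 hB'2 hY0 K
      (pow_exp_le (hN1'.trans hNN') hKq) E' cc (fun k hk => ⟨hE'K k hk, hccA k hk⟩)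
    obtain ⟨i2, hi2⟩ : ∃ i2, P i2 ≠ 0 := by
      by_contra hcon
      push Not at hcon
      exact hP0 (funext hcon)
    have hcard : Fintype.card {i // i ≠ i2} = r := by
      have h1 := Fintype.card_congr (Equiv.optionSubtypeNe i2)
      rw [Fintype.card_option, hι] at h1
      omega
    have hbound := hih N' (hNN3.trans hNN') {i // i ≠ i2} hcard
      (fun i w => P i2 * B' i w - P i * B' i2 w)
      (fun i w => by
        refine (Polynomial.natDegree_sub_le _ _).trans (max_le ?_ ?_)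
        · refine Polynomial.natDegree_mul_le.trans ?_
          have := hP1 i2; have := hB'1 i w; omega
        · refine Polynomial.natDegree_mul_le.trans ?_
          have := hP1 i; have := hB'1 i2 w; omega)
      (fun i w a => by
        rw [Polynomial.coeff_sub]
        refine (abs_sub _ _).trans ?_
        refine (add_le_add (coeff_mul_bound (P i2) (B' i w) (hP1 i2) (hP2 i2) (hB'2 i w) a)
          (coeff_mul_bound (P i) (B' i2 w) (hP1 i) (hP2 i) (hB'2 i2 w) a)).trans ?_
        have h1 : (β + 1) * (N' ^ κ' * N' ^ (κ + 1)) + (β + 1) * (N' ^ κ' * N' ^ (κ + 1)) ≤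
            N' ^ (β + κ' + κ + 2) := by
          calc (β + 1) * (N' ^ κ' * N' ^ (κ + 1)) + (β + 1) * (N' ^ κ' * N' ^ (κ + 1))
              = 2 * (β + 1) * N' ^ (κ' + (κ + 1)) := by rw [pow_add]; ring
            _ ≤ N' * N' ^ (κ' + (κ + 1)) := Nat.mul_le_mul_right _ (by omega)
            _ = N' ^ (κ' + (κ + 1) + 1) := by rw [pow_succ]; ring
            _ ≤ N' ^ (β + κ' + κ + 2) := Nat.pow_le_pow_right (by omega) (by omega)
        exact_mod_cast h1)
      (rowInd_elim hR' P i2 hi2) K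
      (pow_exp_le (hN1'.trans hNN') (by rw [add_comm]; exact hKq))
      (E'.filter (fun k : ℕ => (P i2).eval (k : ℤ) ≠ 0))
      (fun k hk => by
        rw [Finset.mem_filter] at hk
        obtain ⟨hkE, hkP⟩ := hk
        refine ⟨hE'K k hkE, fun i => cc k i.1, ?_, ?_, ?_⟩
        · intro h0
          have h1 := hP3 k hkE
          rw [Fintype.sum_eq_add_sum_subtype_ne _ i2, Finset.sum_eq_zero, add_zero] at h1
          · rcases mul_eq_zero.1 h1 with h2 | h2
            · apply hcc k hkE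
              funext i
              by_cases hi : i = i2
              · rw [hi, h2]; rfl
              · exact congrFun h0 ⟨i, hi⟩
            · exact hkP h2
          · intro i _
            have : cc k i.1 = 0 := congrFun h0 i
            rw [this, zero_mul]
        · intro i
          exact (hccA k hkE).1 i.1
        · have h1 := (hccA k hkE).2
          have h2 : ∑ i, (cc k i : ℝ) * (((P i).eval (k : ℤ) : ℤ) : ℝ) = 0 := by
            exact_mod_cast hP3 k hkE
          rw [Fintype.sum_eq_add_sum_subtype_ne _ i2] at h1 h2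
          have h3 : ∑ i : {i // i ≠ i2}, (cc k i.1 : ℝ) *
              Yf M (fun (i : {i // i ≠ i2}) w => P i2 * B' i w - P i * B' i2 w) N' k i =
              (((P i2).eval (k : ℤ) : ℤ) : ℝ) * (∑ i : {i // i ≠ i2}, (cc k i.1 : ℝ) *
                Yf M B' N' k i.1) - Yf M B' N' k i2 * (∑ i : {i // i ≠ i2}, (cc k i.1 : ℝ) *
                (((P i.1).eval (k : ℤ) : ℤ) : ℝ)) := by
            rw [Finset.mul_sum, Finset.mul_sum, ← Finset.sum_sub_distrib]
            refine Finset.sum_congr rfl fun i _ => ?_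
            rw [Yf_elim]
            ring
          rw [h3]
          have h4 : ∑ i : {i // i ≠ i2}, (cc k i.1 : ℝ) * Yf M B' N' k i.1 =
              -((cc k i2 : ℝ) * Yf M B' N' k i2) := by linarith
          have h5 : ∑ i : {i // i ≠ i2}, (cc k i.1 : ℝ) * (((P i.1).eval (k : ℤ) : ℤ) : ℝ) =
              -((cc k i2 : ℝ) * (((P i2).eval (k : ℤ) : ℤ) : ℝ)) := by linarith
          rw [h4, h5]
          ring)
    -- counting
    have hroots : (E'.filter (fun k : ℕ => ¬ (P i2).eval (k : ℤ) ≠ 0)).card ≤ β := by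
      have h1 : ((E'.filter (fun k : ℕ => ¬ (P i2).eval (k : ℤ) ≠ 0)).image
          (fun k : ℕ => (k : ℤ))).card ≤ β := by
        refine le_trans ?_ (hP1 i2)
        refine le_trans (Finset.card_le_card ?_)
          ((Multiset.toFinset_card_le _).trans (Polynomial.card_roots' (P i2)))
        intro z hz
        rw [Finset.mem_image] at hz
        obtain ⟨k, hk, rfl⟩ := hz
        rw [Finset.mem_filter, not_not] at hk
        rw [Multiset.mem_toFinset, Polynomial.mem_roots hi2]
        exact hk.2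
      rwa [Finset.card_image_of_injective _ Nat.cast_injective] at h1
    have hE'card : E'.card ≤ C' + β := by
      rw [← Finset.card_filter_add_card_filter_not (s := E')
        (fun k : ℕ => (P i2).eval (k : ℤ) ≠ 0)]
      exact add_le_add hbound hroots
    have hE1 : (E.filter (fun k => k0 ≤ k)).card = E'.card := by
      rw [hE', Finset.card_image_of_injOn]
      intro a ha b hb hab
      rw [Finset.mem_coe, Finset.mem_filter] at ha hb
      have : a - k0 = b - k0 := hab
      omega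
    have hE2 : (E.filter (fun k => ¬ k0 ≤ k)).card ≤ J := by
      refine (Finset.card_le_card (t := Finset.range k0) ?_).trans ?_
      · intro k hk
        rw [Finset.mem_filter] at hk
        rw [Finset.mem_range]
        omega
      · rw [Finset.card_range]; exact hk0
    rw [← Finset.card_filter_add_card_filter_not (s := E) (fun k => k0 ≤ k), hE1]
    omega

theorem window_id {ω : Type} [Fintype ω] (M : ω → ℕ → ℝ) (hM : ∀ w, Expa (M w)) (hL : LowBd M)
    (A : ℕ) : ∃ C q N0 : ℕ, ∀ N : ℕ, N0 ≤ N → ∀ K : ℕ, K ^ q ≤ N → ∀ E : Finset ℕ,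
      (∀ k ∈ E, k ≤ K ∧ ∃ c : ω → ℤ, c ≠ 0 ∧ (∀ w, |c w| ≤ (N : ℤ) ^ A) ∧
        ∑ w, (c w : ℝ) * M w (N + k) = 0) → E.card ≤ C := by
  classical
  obtain ⟨C, q, N0, h⟩ := window M hM hL (Fintype.card ω) A 0
  refine ⟨C, q, N0, fun N hN K hK E hE => ?_⟩
  refine h N hN ω rfl (fun i w => if i = w then 1 else 0) ?_ ?_ ?_ K hK E ?_
  · intro i w
    split_ifs <;> simp
  · intro i w a
    split_ifs
    · rw [Polynomial.coeff_one]
      split_ifs <;> simp
    · simp
  · intro P hP
    funext w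
    have h1 := hP w
    rw [Finset.sum_eq_single w] at h1
    · beta_reduce at h1
      rw [if_pos rfl, mul_one] at h1
      exact h1
    · intro i _ hi
      beta_reduce
      rw [if_neg hi, mul_zero]
    · intro h; exact absurd (Finset.mem_univ _) h
  · intro k hk
    obtain ⟨h1, c, hc, hcb, hcs⟩ := hE k hk
    refine ⟨h1, c, hc, hcb, ?_⟩
    rw [← hcs]
    refine Finset.sum_congr rfl fun i _ => ?_
    congr 1
    unfold Yf
    rw [Finset.sum_eq_single i]
    · beta_reduce
      rw [if_pos rfl]; simp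
    · intro w _ hw
      beta_reduce
      rw [if_neg (fun h : i = w => hw h.symm)]; simp
    · intro h; exact absurd (Finset.mem_univ _) h

end HofAA
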