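import Pool.Agent.Lib.MP_301213_nt.AA.NF
import Pool.Agent.Lib.MP_301213_nt.AA.TayH
import Pool.Agent.Lib.MP_301213_nt.AA.Low
import Pool.Agent.Lib.MP_301213_nt.AA.Wind
import Pool.Agent.Lib.MP_301213_nt.AA.Count
import Pool.Agent.Lib.MP_301213_nt.AA.Expa

/-! MP_301213_nt, almost all theorem: final assembly -/

set_option autoImplicit false

open Polynomial MeasureTheory Filter Topology

namespace HofAA

theorem hof_rev {k : ℕ} {w : List ℕ} (h : Hof k w) : Hof k w.reverse := by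
  refine ⟨fun a ha => h.1 a (List.mem_reverse.1 ha), ?_⟩
  rw [List.sum_reverse]
  exact h.2

theorem hof_adm {k : ℕ} {w : List ℕ} (h : Hof k w) : HofPers.Adm w := by
  intro a ha
  rcases h.1 a ha with h1 | h1 <;> omega

theorem polyInd_W (k : ℕ) (W : Finset (List ℕ)) (hW : ∀ w ∈ W, Hof k w) :
    PolyInd fun w : {w // w ∈ W} => mom (hh w.1.reverse) := by
  classical
  intro Q hQ
  set U : Finset (List ℕ) := W.image List.reverse with hU
  have hUm : ∀ u ∈ U, Hof k u := by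
    intro u hu
    obtain ⟨w, hw, rfl⟩ := Finset.mem_image.1 hu
    exact hof_rev (hW w hw)
  let e : {u // u ∈ U} ≃ {w // w ∈ W} :=
    { toFun := fun u => ⟨u.1.reverse, by
        obtain ⟨w, hw, h⟩ := Finset.mem_image.1 u.2
        rw [← h, List.reverse_reverse]; exact hw⟩
      invFun := fun w => ⟨w.1.reverse, Finset.mem_image_of_mem _ w.2⟩
      left_inv := fun u => Subtype.ext (List.reverse_reverse _)
      right_inv := fun w => Subtype.ext (List.reverse_reverse _) }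
  have h := polyInd_hof k U hUm (fun u => Q (e u)) (by
    intro h0
    apply hQ
    funext w
    have := congrFun h0 (e.symm w)
    simpa using this)
  obtain ⟨c, m, N0, hc, hb⟩ := h
  refine ⟨c, m, N0, hc, fun n hn => ?_⟩
  have h1 := hb n hn
  have h2 : ∑ u : {u // u ∈ U}, (Q (e u)).eval (n : ℝ) * mom (hh u.1) n =
      ∑ w : {w // w ∈ W}, (Q w).eval (n : ℝ) * mom (hh w.1.reverse) n := by
    rw [← Equiv.sum_comp e]
    refine Finset.sum_congr rfl fun u _ => ?_
    have : (e u).1.reverse = u.1 := List.reverse_reverse _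
    rw [this]
  beta_reduce at h1 ⊢
  rw [← h2]
  exact h1

/-- common factor -/
noncomputable def kap (n : ℕ) : ℝ :=
  2 / Real.pi * (Real.pi ^ (2 * n) / (Nat.factorial (2 * n) : ℝ))

theorem kap_pos (n : ℕ) : 0 < kap n := by
  unfold kap
  have := Real.pi_pos
  positivity

theorem sum_eq (W : Finset (List ℕ)) (hW : ∀ w ∈ W, HofPers.Adm w) (f : List ℕ → ℝ) (n : ℕ) :
    ∑ w ∈ W, f w * HofPers.T (w ++ List.replicate n 2) 0 =
      kap n * ∑ w : {w // w ∈ W}, f w.1 * mom (hh w.1.reverse) n := by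
  rw [Finset.mul_sum, ← Finset.sum_coe_sort W]
  refine Finset.sum_congr rfl fun w _ => ?_
  rw [rep_mom w.1 (hW w.1 w.2) n]
  unfold kap
  ring

/-- real polynomial coefficients -/
theorem poly_ne (k : ℕ) (W : Finset (List ℕ)) (hW : ∀ w ∈ W, Hof k w) (Q : List ℕ → ℝ[X])
    (hQ : ∃ w ∈ W, Q w ≠ 0) :
    ∀ᶠ n : ℕ in atTop,
      ∑ w ∈ W, (Q w).eval (n : ℝ) * HofPers.T (w ++ List.replicate n 2) 0 ≠ 0 := by
  obtain ⟨w0, hw0, hq⟩ := hQ
  obtain ⟨c, m, N0, hc, hb⟩ := polyInd_W k W hW (fun w => Q w.1) (by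
    intro h0
    exact hq (congrFun h0 ⟨w0, hw0⟩))
  filter_upwards [eventually_ge_atTop (max N0 1)] with n hn
  rw [sum_eq W (fun w hw => hof_adm (hW w hw)) (fun w => (Q w).eval (n : ℝ)) n]
  have h1 := hb n (le_trans (le_max_left _ _) hn)
  have h2 : (0 : ℝ) < n := by
    have : 1 ≤ n := le_trans (le_max_right _ _) hn
    exact_mod_cast this
  have h3 : 0 < c / (n : ℝ) ^ m := by positivity
  intro h0
  rcases mul_eq_zero.1 h0 with h4 | h4
  · exact (kap_pos n).ne' h4
  · beta_reduce at h1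
    rw [h4, abs_zero] at h1
    linarith

/-- almost all -/
theorem almost_all (k : ℕ) (W : Finset (List ℕ)) (hW : ∀ w ∈ W, Hof k w) (A : ℕ)
    (bad : ℕ → Prop) [DecidablePred bad]
    (hbad : ∀ n, bad n → ∃ c : List ℕ → ℤ, (∃ w ∈ W, c w ≠ 0) ∧
      (∀ w ∈ W, |c w| ≤ (n : ℤ) ^ A) ∧
      ∑ w ∈ W, (c w : ℝ) * HofPers.T (w ++ List.replicate n 2) 0 = 0) :
    ∃ C' η : ℝ, 0 < η ∧ ∀ N : ℕ,
      (((Finset.range N).filter bad).card : ℝ) ≤ C' * (N : ℝ) ^ (1 - η) := by
  have hadm : ∀ w ∈ W, HofPers.Adm w := fun w hw => hof_adm (hW w hw)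
  have hTay : ∀ w : {w // w ∈ W}, Tay (hh w.1.reverse) := fun w =>
    tay_hh _ (HofPers.adm_reverse (hadm w.1 w.2))
  have hLow := low_bd (fun w : {w // w ∈ W} => hh w.1.reverse) hTay (polyInd_W k W hW)
  obtain ⟨C, q, N0, hwin⟩ := window_id (fun w : {w // w ∈ W} => mom (hh w.1.reverse))
    (fun w => expa_mom _ (hTay w).1) hLow (A + 1 + A)
  refine count_bad bad C (q + 1) (max N0 (2 ^ A)) ?_
  intro N hN K hK E hE
  have hN1 : 2 ^ A ≤ N := le_trans (le_max_right _ _) hN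
  have hNpos : 1 ≤ N := le_trans (Nat.one_le_two_pow) hN1
  refine hwin N (le_trans (le_max_left _ _) hN) K ?_ E ?_
  · rcases Nat.eq_zero_or_pos K with h0 | h0
    · subst h0
      rcases Nat.eq_zero_or_pos q with h1 | h1
      · subst h1; simpa using hNpos
      · rw [zero_pow h1.ne']; exact Nat.zero_le _
    · exact le_trans (Nat.pow_le_pow_right h0 (Nat.le_succ q)) hK
  · intro x hx
    obtain ⟨hxK, hxb⟩ := hE x hx
    refine ⟨hxK, ?_⟩
    obtain ⟨c, ⟨w0, hw0, hc0⟩, hcb, hrel⟩ := hbad _ hxb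
    refine ⟨fun w => c w.1, ?_, ?_, ?_⟩
    · intro h0
      exact hc0 (congrFun h0 ⟨w0, hw0⟩)
    · intro w
      refine (hcb w.1 w.2).trans ?_
      have hKN : K ≤ N := by
        rcases Nat.eq_zero_or_pos K with h0 | h0
        · omega
        · calc K = K ^ 1 := (pow_one K).symm
            _ ≤ K ^ (q + 1) := Nat.pow_le_pow_right h0 (by omega)
            _ ≤ N := hK
      have h1 : (N + x) ^ A ≤ N ^ (A + 1 + A) := by
        calc (N + x) ^ A ≤ (2 * N) ^ A := Nat.pow_le_pow_left (by omega) A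
          _ = 2 ^ A * N ^ A := mul_pow _ _ _
          _ ≤ N * N ^ A := Nat.mul_le_mul_right _ hN1
          _ = N ^ (A + 1) := by rw [pow_succ, mul_comm]
          _ ≤ N ^ (A + 1 + A) := Nat.pow_le_pow_right hNpos (by omega)
      exact_mod_cast h1
    · rw [sum_eq W hadm (fun w => (c w : ℝ)) (N + x)] at hrel
      rcases mul_eq_zero.1 hrel with h4 | h4
      · exact absurd h4 (kap_pos _).ne'
      · exact h4

end HofAA
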