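import Pool.Agent.Lib.MP_301213_nt.AA.Defs

/-! MP_301213_nt, almost all theorem: iterated integrals -/

set_option autoImplicit false

open Polynomial MeasureTheory Filter Topology

namespace HofAA

theorem good_tail (x : Bool) (W : List Bool) (h : good (x :: W)) : good W := by
  cases x
  · exact h.1
  · exact h

/-- primitive of a bounded continuous function on an open interval -/
private theorem prim_aux (g : ℝ → ℝ) (b C : ℝ) (hg : ContinuousOn g (Set.Ioo 0 b))
    (hC : ∀ x ∈ Set.Ioo 0 b, |g x| ≤ C) (φ : ℝ) (h0 : 0 < φ) (h1 : φ < b) :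
    HasDerivAt (fun t => ∫ x in (0 : ℝ)..t, g x) (g φ) φ ∧
      |∫ x in (0 : ℝ)..φ, g x| ≤ C * φ := by
  have hφ : φ ∈ Set.Ioo 0 b := ⟨h0, h1⟩
  have hsub : Set.Ioc 0 φ ⊆ Set.Ioo 0 b := fun x hx => ⟨hx.1, lt_of_le_of_lt hx.2 h1⟩
  have hint : IntervalIntegrable g volume 0 φ := by
    rw [intervalIntegrable_iff_integrableOn_Ioc_of_le h0.le]
    have hfin : IntegrableOn (fun _ : ℝ => C) (Set.Ioc 0 φ) volume := by
      rw [integrableOn_const_iff]
      right
      simp
    refine Integrable.mono' hfin ((hg.mono hsub).aestronglyMeasurable measurableSet_Ioc) ?_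
    refine (ae_restrict_iff' measurableSet_Ioc).2 (Eventually.of_forall fun x hx => ?_)
    rw [Real.norm_eq_abs]
    exact hC x (hsub hx)
  constructor
  · exact intervalIntegral.integral_hasDerivAt_right hint
      (hg.stronglyMeasurableAtFilter isOpen_Ioo φ hφ)
      (hg.continuousAt (isOpen_Ioo.mem_nhds hφ))
  · have h := intervalIntegral.norm_integral_le_of_norm_le_const (a := 0) (b := φ) (f := g)
      (C := C) (fun x hx => by
        rw [Set.uIoc_of_le h0.le] at hx
        rw [Real.norm_eq_abs]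
        exact hC x (hsub hx))
    rwa [Real.norm_eq_abs, sub_zero, abs_of_pos h0] at h

private theorem cot_bd (x : ℝ) (h0 : 0 < x) (h1 : x < Real.pi / 2) :
    |Real.cot x| ≤ 1 / x := by
  have ht : x < Real.tan x := Real.lt_tan h0 h1
  rw [← Real.tan_inv_eq_cot, abs_of_pos (inv_pos.2 (h0.trans ht)), one_div]
  exact inv_anti₀ h0 ht.le

private theorem cot_cont : ContinuousOn Real.cot (Set.Ioo 0 (Real.pi / 2)) := by
  have : Real.cot = fun x => Real.cos x / Real.sin x := by
    funext x; exact Real.cot_eq_cos_div_sin x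
  rw [this]
  refine ContinuousOn.div Real.continuous_cos.continuousOn Real.continuous_sin.continuousOn ?_
  intro x hx
  exact (Real.sin_pos_of_pos_of_lt_pi hx.1 (by linarith [hx.2, Real.pi_pos])).ne'

private theorem ii_all (W : List Bool) (hW : good W) :
    ∃ C : ℝ, 0 ≤ C ∧ ContinuousOn (II W) (Set.Ioo 0 (Real.pi / 2)) ∧
      (∀ φ ∈ Set.Ioo 0 (Real.pi / 2), |II W φ| ≤ C) ∧
      (W ≠ [] → ∀ φ ∈ Set.Ioo 0 (Real.pi / 2), |II W φ| ≤ C * φ) := by
  have step : ∀ (W' : List Bool) (g : ℝ → ℝ) (D : ℝ),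
      (∀ φ, II W' φ = ∫ x in (0 : ℝ)..φ, g x) → 0 ≤ D →
      ContinuousOn g (Set.Ioo 0 (Real.pi / 2)) →
      (∀ x ∈ Set.Ioo 0 (Real.pi / 2), |g x| ≤ D) →
      ∃ C : ℝ, 0 ≤ C ∧ ContinuousOn (II W') (Set.Ioo 0 (Real.pi / 2)) ∧
      (∀ φ ∈ Set.Ioo 0 (Real.pi / 2), |II W' φ| ≤ C) ∧
      (W' ≠ [] → ∀ φ ∈ Set.Ioo 0 (Real.pi / 2), |II W' φ| ≤ C * φ) := by
    intro W' g D hI hD hg hgD
    have hfun : II W' = fun t => ∫ x in (0 : ℝ)..t, g x := funext hI
    refine ⟨D * 2, by positivity, ?_, ?_, ?_⟩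
    · intro φ hφ
      rw [hfun]
      exact (prim_aux g _ D hg hgD φ hφ.1 hφ.2).1.continuousAt.continuousWithinAt
    · intro φ hφ
      rw [hI]
      refine (prim_aux g _ D hg hgD φ hφ.1 hφ.2).2.trans ?_
      refine mul_le_mul_of_nonneg_left ?_ hD
      linarith [hφ.2, Real.pi_lt_four]
    · intro _ φ hφ
      rw [hI]
      refine (prim_aux g _ D hg hgD φ hφ.1 hφ.2).2.trans ?_
      exact mul_le_mul_of_nonneg_right (by linarith) hφ.1.le
  induction W with
  | nil =>
    refine ⟨1, zero_le_one, ?_, ?_, ?_⟩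
    · exact continuousOn_const
    · intro φ _
      simp [II]
    · intro h; exact absurd rfl h
  | cons x W ih =>
    obtain ⟨C, hC, hc, hb, hb2⟩ := ih (good_tail x W hW)
    cases x
    · refine step (false :: W) (fun x => 2 * Real.cot x * II W x) (2 * C) (fun φ => rfl)
        (by positivity) ?_ ?_
      · exact (continuousOn_const.mul cot_cont).mul hc
      · intro x hx
        have h1 := cot_bd x hx.1 hx.2
        have h2 := hb2 hW.2 x hx
        have hx0 := hx.1
        rw [abs_mul, abs_mul, abs_two]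
        calc 2 * |Real.cot x| * |II W x| ≤ 2 * (1 / x) * (C * x) := by
              gcongr
          _ = 2 * C := by field_simp [hx0.ne']
    · refine step (true :: W) (fun x => 2 * II W x) (2 * C) (fun φ => rfl)
        (by positivity) ?_ ?_
      · exact continuousOn_const.mul hc
      · intro x hx
        rw [abs_mul, abs_two]
        exact mul_le_mul_of_nonneg_left (hb x hx) (by norm_num)

theorem ii_true (W : List Bool) (hW : good W) (φ : ℝ) (h0 : 0 < φ) (h1 : φ < Real.pi / 2) :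
    HasDerivAt (II (true :: W)) (2 * II W φ) φ := by
  obtain ⟨C, hC, hc, hb, -⟩ := ii_all W hW
  exact (prim_aux (fun x => 2 * II W x) _ (2 * C) (continuousOn_const.mul hc)
    (fun x hx => by
      rw [abs_mul, abs_two]
      exact mul_le_mul_of_nonneg_left (hb x hx) (by norm_num)) φ h0 h1).1

theorem ii_false (W : List Bool) (hW : good W) (hne : W ≠ []) (φ : ℝ) (h0 : 0 < φ)
    (h1 : φ < Real.pi / 2) :
    HasDerivAt (II (false :: W)) (2 * Real.cot φ * II W φ) φ := by
  obtain ⟨C, hC, hc, -, hb2⟩ := ii_all W hW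
  exact (prim_aux (fun x => 2 * Real.cot x * II W x) _ (2 * C)
    ((continuousOn_const.mul cot_cont).mul hc)
    (fun x hx => by
      have h1 := cot_bd x hx.1 hx.2
      have h2 := hb2 hne x hx
      have hx0 := hx.1
      rw [abs_mul, abs_mul, abs_two]
      calc 2 * |Real.cot x| * |II W x| ≤ 2 * (1 / x) * (C * x) := by
            gcongr
        _ = 2 * C := by field_simp [hx0.ne']) φ h0 h1).1

theorem ii_lim (W : List Bool) (hW : good W) (hne : W ≠ []) :
    Tendsto (II W) (𝓝[>] 0) (𝓝 0) := by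
  obtain ⟨C, hC, hc, -, hb2⟩ := ii_all W hW
  have hlim : Tendsto (fun φ : ℝ => C * φ) (𝓝[>] 0) (𝓝 0) := by
    have : Tendsto (fun φ : ℝ => C * φ) (𝓝 0) (𝓝 (C * 0)) :=
      (continuous_const.mul continuous_id).tendsto 0
    rw [mul_zero] at this
    exact this.mono_left nhdsWithin_le_nhds
  refine squeeze_zero_norm' ?_ hlim
  have hmem : Set.Ioo (0 : ℝ) (Real.pi / 2) ∈ 𝓝[>] (0 : ℝ) :=
    Ioo_mem_nhdsGT (by positivity)
  filter_upwards [hmem] with φ hφ
  rw [Real.norm_eq_abs]
  exact hb2 hne φ hφ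

end HofAA
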