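import Pool.Agent.Lib.MP_301213_nt.AA.Defs

/-! MP_301213_nt, almost all theorem: integration by parts -/

set_option autoImplicit false

open Polynomial MeasureTheory Filter Topology

namespace HofAA

theorem tf_analytic (f : ℝ → ℝ) (ε : ℝ) (hf : AnalyticOnNhd ℝ f (Set.Icc 0 ε)) (j : ℕ) :
    AnalyticOnNhd ℝ (tf^[j] f) (Set.Icc 0 ε) := by
  induction j with
  | zero => simpa using hf
  | succ j ih =>
    rw [Function.iterate_succ_apply']
    have h1 : AnalyticOnNhd ℝ (fun φ : ℝ => Real.pi - 2 * φ) (Set.Icc 0 ε) :=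
      analyticOnNhd_const.sub (analyticOnNhd_const.mul analyticOnNhd_id)
    exact h1.mul ih.deriv

private theorem ibp_one (f : ℝ → ℝ) (ε : ℝ) (h0 : 0 < ε)
    (hf : AnalyticOnNhd ℝ f (Set.Icc 0 ε)) (n : ℕ) :
    (2 * (n : ℝ) + 1) * (∫ φ in (0 : ℝ)..ε, (1 - 2 * φ / Real.pi) ^ (2 * n) * f φ) =
      Real.pi / 2 * (f 0 - (1 - 2 * ε / Real.pi) ^ (2 * n + 1) * f ε) +
        1 / 2 * ∫ φ in (0 : ℝ)..ε, (1 - 2 * φ / Real.pi) ^ (2 * n) * tf f φ := by
  have hpi : Real.pi ≠ 0 := Real.pi_ne_zero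
  have huIcc : Set.uIcc 0 ε = Set.Icc 0 ε := Set.uIcc_of_le h0.le
  have hcf : ContinuousOn f (Set.uIcc 0 ε) := by
    rw [huIcc]; exact hf.continuousOn
  have hcd : ContinuousOn (deriv f) (Set.uIcc 0 ε) := by
    rw [huIcc]; exact hf.deriv.continuousOn
  have hct : ∀ m : ℕ, ContinuousOn (fun φ : ℝ => (1 - 2 * φ / Real.pi) ^ m) (Set.uIcc 0 ε) := by
    intro m
    exact (by fun_prop : Continuous fun φ : ℝ => (1 - 2 * φ / Real.pi) ^ m).continuousOn
  have hctf : ContinuousOn (tf f) (Set.uIcc 0 ε) := by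
    unfold tf
    exact (by fun_prop : Continuous fun φ : ℝ => Real.pi - 2 * φ).continuousOn.mul hcd
  have hder : ∀ x ∈ Set.uIcc 0 ε,
      HasDerivAt (fun φ : ℝ => (1 - 2 * φ / Real.pi) ^ (2 * n + 1) * f φ)
        (-(2 / Real.pi * (2 * (n : ℝ) + 1)) * ((1 - 2 * x / Real.pi) ^ (2 * n) * f x) +
          1 / Real.pi * ((1 - 2 * x / Real.pi) ^ (2 * n) * tf f x)) x := by
    intro x hx
    rw [huIcc] at hx
    have hfx : HasDerivAt f (deriv f x) x := (hf x hx).differentiableAt.hasDerivAt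
    have h1 : HasDerivAt (fun φ : ℝ => 1 - 2 * φ / Real.pi) (-(2 / Real.pi)) x := by
      have := ((hasDerivAt_id x).const_mul (2 / Real.pi)).const_sub 1
      simp only [id, mul_one] at this
      refine this.congr_of_eventuallyEq ?_
      filter_upwards with y
      ring
    have h2 := (h1.pow (2 * n + 1)).mul hfx
    refine (h2.congr_deriv ?_)
    simp only [Pi.pow_apply, tf]
    push_cast
    have hT : Real.pi - 2 * x = Real.pi * (1 - 2 * x / Real.pi) := by field_simp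
    rw [hT]
    generalize 1 - 2 * x / Real.pi = T
    generalize deriv f x = D
    generalize f x = F
    field_simp
    ring
  have hint1 : IntervalIntegrable (fun φ : ℝ => (1 - 2 * φ / Real.pi) ^ (2 * n) * f φ) volume 0 ε :=
    ((hct (2 * n)).mul hcf).intervalIntegrable
  have hint2 : IntervalIntegrable (fun φ : ℝ => (1 - 2 * φ / Real.pi) ^ (2 * n) * tf f φ)
      volume 0 ε :=
    ((hct (2 * n)).mul hctf).intervalIntegrable
  have key := intervalIntegral.integral_eq_sub_of_hasDerivAt hder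
    ((hint1.const_mul _).add (hint2.const_mul _))
  rw [intervalIntegral.integral_add (hint1.const_mul _) (hint2.const_mul _),
    intervalIntegral.integral_const_mul, intervalIntegral.integral_const_mul] at key
  simp only [mul_zero, zero_div, sub_zero, one_pow, one_mul] at key
  have h3 : (2 * (n : ℝ) + 1) *
      (∫ φ in (0 : ℝ)..ε, (1 - 2 * φ / Real.pi) ^ (2 * n) * f φ) =
      -(Real.pi / 2) * (-(2 / Real.pi * (2 * (n : ℝ) + 1)) *
        ∫ φ in (0 : ℝ)..ε, (1 - 2 * φ / Real.pi) ^ (2 * n) * f φ) := by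
    field_simp
  rw [h3]
  have h4 : -(2 / Real.pi * (2 * (n : ℝ) + 1)) *
        (∫ φ in (0 : ℝ)..ε, (1 - 2 * φ / Real.pi) ^ (2 * n) * f φ) =
      (1 - 2 * ε / Real.pi) ^ (2 * n + 1) * f ε - f 0 -
        1 / Real.pi * ∫ φ in (0 : ℝ)..ε, (1 - 2 * φ / Real.pi) ^ (2 * n) * tf f φ := by
    linarith
  rw [h4]
  field_simp
  ring

private theorem lin_geom (r : ℝ) (h0 : 0 ≤ r) (h1 : r < 1) :
    ∃ C : ℝ, 0 ≤ C ∧ ∀ n : ℕ, (2 * (n : ℝ) + 1) * r ^ n ≤ C := by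
  have ht : Tendsto (fun n : ℕ => (2 * (n : ℝ) + 1) * r ^ n) atTop (𝓝 (2 * 0 + 0)) := by
    have ha := (tendsto_self_mul_const_pow_of_lt_one h0 h1).const_mul 2
    have hb := tendsto_pow_atTop_nhds_zero_of_lt_one h0 h1
    refine (ha.add hb).congr ?_
    intro n
    ring
  obtain ⟨C, hC⟩ := ht.bddAbove_range
  refine ⟨max C 0, le_max_right _ _, fun n => ?_⟩
  exact (hC ⟨n, rfl⟩).trans (le_max_left _ _)

theorem ibp (f : ℝ → ℝ) (ε : ℝ) (h0 : 0 < ε) (h1 : ε < Real.pi / 2)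
    (hf : AnalyticOnNhd ℝ f (Set.Icc 0 ε)) (j : ℕ) :
    ∃ (b : ℝ[X]) (C ρ : ℝ), 0 < ρ ∧ ρ < 1 ∧ ∀ n : ℕ,
      |(2 * (n : ℝ) + 1) ^ j * (∫ φ in (0 : ℝ)..ε, (1 - 2 * φ / Real.pi) ^ (2 * n) * f φ) -
        (b.eval (n : ℝ) + (1 / 2) ^ j *
          ∫ φ in (0 : ℝ)..ε, (1 - 2 * φ / Real.pi) ^ (2 * n) * (tf^[j] f) φ)| ≤ C * ρ ^ n := by
  have hpi : 0 < Real.pi := Real.pi_pos
  set t : ℝ := 1 - 2 * ε / Real.pi with ht
  have ht0 : 0 < t := by
    have : 2 * ε / Real.pi < 1 := by rw [div_lt_one hpi]; linarith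
    linarith
  have ht1 : t < 1 := by
    have : 0 < 2 * ε / Real.pi := by positivity
    linarith
  -- the sharper statement
  have main : ∀ j : ℕ, ∃ (b : ℝ[X]) (C ρ : ℝ), 0 ≤ C ∧ t ≤ ρ ∧ ρ < 1 ∧ ∀ n : ℕ,
      |(2 * (n : ℝ) + 1) ^ j * (∫ φ in (0 : ℝ)..ε, (1 - 2 * φ / Real.pi) ^ (2 * n) * f φ) -
        (b.eval (n : ℝ) + (1 / 2) ^ j *
          ∫ φ in (0 : ℝ)..ε, (1 - 2 * φ / Real.pi) ^ (2 * n) * (tf^[j] f) φ)| ≤ C * ρ ^ n := by
    intro j
    induction j with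
    | zero =>
      refine ⟨0, 0, t, le_rfl, le_rfl, ht1, fun n => ?_⟩
      simp
    | succ j ih =>
      obtain ⟨b, C, ρ, hC, hρt, hρ1, hb⟩ := ih
      have hρ0 : 0 < ρ := ht0.trans_le hρt
      set σ : ℝ := (1 + ρ) / 2 with hσ
      have hσρ : ρ < σ := by rw [hσ]; linarith
      have hσ1 : σ < 1 := by rw [hσ]; linarith
      have hσ0 : 0 < σ := hρ0.trans hσρ
      obtain ⟨K, hK0, hK⟩ := lin_geom (ρ / σ) (by positivity) (by rw [div_lt_one hσ0]; exact hσρ)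
      set g : ℝ → ℝ := tf^[j] f with hg
      have hga : AnalyticOnNhd ℝ g (Set.Icc 0 ε) := tf_analytic f ε hf j
      refine ⟨(2 * X + 1) * b + Polynomial.C ((1 / 2) ^ j * (Real.pi / 2) * g 0),
        C * K + (1 / 2) ^ j * (Real.pi / 2) * |g ε|, σ, by positivity, by linarith, hσ1,
        fun n => ?_⟩
      have hone := ibp_one g ε h0 hga n
      rw [Function.iterate_succ_apply', ← hg]
      simp only [eval_add, eval_mul, eval_ofNat, eval_X, eval_one, eval_C]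
      have hrew : (2 * (n : ℝ) + 1) ^ (j + 1) *
            (∫ φ in (0 : ℝ)..ε, (1 - 2 * φ / Real.pi) ^ (2 * n) * f φ) -
          ((2 * (n : ℝ) + 1) * eval (n : ℝ) b + (1 / 2) ^ j * (Real.pi / 2) * g 0 +
            (1 / 2) ^ (j + 1) * ∫ φ in (0 : ℝ)..ε, (1 - 2 * φ / Real.pi) ^ (2 * n) * tf g φ) =
          (2 * (n : ℝ) + 1) * ((2 * (n : ℝ) + 1) ^ j *
              (∫ φ in (0 : ℝ)..ε, (1 - 2 * φ / Real.pi) ^ (2 * n) * f φ) -
            (b.eval (n : ℝ) + (1 / 2) ^ j *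
              ∫ φ in (0 : ℝ)..ε, (1 - 2 * φ / Real.pi) ^ (2 * n) * g φ)) -
          (1 / 2) ^ j * (Real.pi / 2) * (t ^ (2 * n + 1) * g ε) := by
        have h5 : (1 / 2 : ℝ) ^ j * ((2 * (n : ℝ) + 1) *
            ∫ φ in (0 : ℝ)..ε, (1 - 2 * φ / Real.pi) ^ (2 * n) * g φ) =
            (1 / 2) ^ j * (Real.pi / 2 * (g 0 - t ^ (2 * n + 1) * g ε) +
              1 / 2 * ∫ φ in (0 : ℝ)..ε, (1 - 2 * φ / Real.pi) ^ (2 * n) * tf g φ) := by
          rw [hone]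
        rw [pow_succ, pow_succ (1 / 2 : ℝ) j]
        linear_combination h5
      rw [hrew]
      have e1 : |(2 * (n : ℝ) + 1) * ((2 * (n : ℝ) + 1) ^ j *
              (∫ φ in (0 : ℝ)..ε, (1 - 2 * φ / Real.pi) ^ (2 * n) * f φ) -
            (b.eval (n : ℝ) + (1 / 2) ^ j *
              ∫ φ in (0 : ℝ)..ε, (1 - 2 * φ / Real.pi) ^ (2 * n) * g φ))| ≤ C * K * σ ^ n := by
        rw [abs_mul, abs_of_nonneg (by positivity : (0 : ℝ) ≤ 2 * (n : ℝ) + 1)]
        calc (2 * (n : ℝ) + 1) * _ ≤ (2 * (n : ℝ) + 1) * (C * ρ ^ n) :=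
              mul_le_mul_of_nonneg_left (hb n) (by positivity)
          _ = C * ((2 * (n : ℝ) + 1) * (ρ / σ) ^ n) * σ ^ n := by
              rw [div_pow]; field_simp
          _ ≤ C * K * σ ^ n := by
              gcongr
              exact hK n
      have e2 : |(1 / 2 : ℝ) ^ j * (Real.pi / 2) * (t ^ (2 * n + 1) * g ε)| ≤
          (1 / 2) ^ j * (Real.pi / 2) * |g ε| * σ ^ n := by
        rw [abs_mul, abs_mul (t ^ (2 * n + 1)), abs_of_nonneg (by positivity :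
          (0 : ℝ) ≤ (1 / 2 : ℝ) ^ j * (Real.pi / 2)), abs_of_nonneg (by positivity :
          (0 : ℝ) ≤ t ^ (2 * n + 1))]
        have h6 : t ^ (2 * n + 1) ≤ σ ^ n := by
          calc t ^ (2 * n + 1) ≤ t ^ n := pow_le_pow_of_le_one ht0.le ht1.le (by omega)
            _ ≤ σ ^ n := pow_le_pow_left₀ ht0.le (by linarith) n
        calc (1 / 2 : ℝ) ^ j * (Real.pi / 2) * (t ^ (2 * n + 1) * |g ε|)
            ≤ (1 / 2 : ℝ) ^ j * (Real.pi / 2) * (σ ^ n * |g ε|) := by gcongr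
          _ = _ := by ring
      calc _ ≤ _ := abs_sub _ _
        _ ≤ C * K * σ ^ n + (1 / 2) ^ j * (Real.pi / 2) * |g ε| * σ ^ n := add_le_add e1 e2
        _ = _ := by ring
  obtain ⟨b, C, ρ, hC, hρt, hρ1, hb⟩ := main j
  exact ⟨b, C, ρ, ht0.trans_le hρt, hρ1, hb⟩

end HofAA
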