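import Pool.Agent.Lib.MP_301213_nt.AA.Defs

/-! MP_301213_nt, almost all theorem: the kernel integral -/

set_option autoImplicit false

open Polynomial MeasureTheory Filter Topology

namespace HofAA

private noncomputable def Ker_c (M : ℕ) : ℝ := 4 ^ M / (Nat.centralBinom M : ℝ)

private theorem Ker_c_pos (M : ℕ) : 0 < Ker_c M := by
  unfold Ker_c
  have := Nat.centralBinom_pos M
  positivity

private theorem Ker_c_succ (M : ℕ) : (2 * (M : ℝ) + 1) * Ker_c (M + 1) = 2 * (M + 1) * Ker_c M := by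
  unfold Ker_c
  have h1 : (0 : ℝ) < (Nat.centralBinom M : ℝ) := by exact_mod_cast Nat.centralBinom_pos M
  have h2 : (0 : ℝ) < (Nat.centralBinom (M + 1) : ℝ) := by
    exact_mod_cast Nat.centralBinom_pos (M + 1)
  have h3 : ((M : ℝ) + 1) * (Nat.centralBinom (M + 1) : ℝ) =
      2 * (2 * M + 1) * (Nat.centralBinom M : ℝ) := by
    exact_mod_cast Nat.succ_mul_centralBinom_succ M
  rw [← mul_div_assoc, ← mul_div_assoc, div_eq_div_iff h2.ne' h1.ne']
  rw [pow_succ]
  linear_combination -2 * 4 ^ M * h3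

private theorem Ker_sk (M : ℕ) (x : ℝ) : sk M x = Ker_c M * Real.sin x ^ (2 * M) := by
  unfold sk Ker_c
  ring

private theorem Ker_sk_cont (M : ℕ) : Continuous (sk M) := by
  have : sk M = fun x => Ker_c M * Real.sin x ^ (2 * M) := funext (Ker_sk M)
  rw [this]
  fun_prop

private noncomputable def Ker_s1 (M : ℕ) (x : ℝ) : ℝ :=
  Ker_c (M + 1) * (2 * (M + 1) * (Real.sin x ^ (2 * M + 1) * Real.cos x))

private theorem Ker_d1 (M : ℕ) (x : ℝ) : HasDerivAt (sk (M + 1)) (Ker_s1 M x) x := by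
  have h : sk (M + 1) = fun x => Ker_c (M + 1) * Real.sin x ^ (2 * (M + 1)) :=
    funext (Ker_sk (M + 1))
  rw [h]
  have h1 := (((Real.hasDerivAt_sin x).pow (2 * (M + 1))).const_mul (Ker_c (M + 1)))
  refine h1.congr_deriv ?_
  unfold Ker_s1
  have h2 : 2 * (M + 1) - 1 = 2 * M + 1 := by omega
  rw [h2]
  push_cast
  ring

private theorem Ker_d2 (M : ℕ) (x : ℝ) :
    HasDerivAt (Ker_s1 M) (4 * ((M : ℝ) + 1) ^ 2 * (sk M x - sk (M + 1) x)) x := by
  have h : Ker_s1 M = fun x => Ker_c (M + 1) * (2 * (M + 1) *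
    (Real.sin x ^ (2 * M + 1) * Real.cos x)) := rfl
  rw [h]
  have h1 := ((((Real.hasDerivAt_sin x).pow (2 * M + 1)).mul (Real.hasDerivAt_cos x)).const_mul
    (2 * ((M : ℝ) + 1))).const_mul (Ker_c (M + 1))
  refine h1.congr_deriv ?_
  have h2 : 2 * M + 1 - 1 = 2 * M := by omega
  rw [h2, Ker_sk, Ker_sk]
  have h3 := Ker_c_succ M
  have h4 : Real.cos x ^ 2 = 1 - Real.sin x ^ 2 := by
    have := Real.sin_sq_add_cos_sq x
    linarith
  have h5 : Real.sin x ^ (2 * (M + 1)) = Real.sin x ^ (2 * M) * Real.sin x ^ 2 := by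
    rw [← pow_add]
    ring
  have h6 : Real.sin x ^ (2 * M + 1) = Real.sin x ^ (2 * M) * Real.sin x := pow_succ _ _
  simp only [Pi.pow_apply]
  rw [h5, h6]
  push_cast
  linear_combination (2 * ((M : ℝ) + 1) * Real.sin x ^ (2 * M)) * h3 +
    (Ker_c (M + 1) * (2 * (M + 1)) * (2 * M + 1) * Real.sin x ^ (2 * M)) * h4

private noncomputable def Ker_p (n : ℕ) (x : ℝ) : ℝ :=
  (Real.pi - 2 * x) ^ (2 * n) / (Nat.factorial (2 * n) : ℝ)

private noncomputable def Ker_p1 (n : ℕ) (x : ℝ) : ℝ :=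
  -2 * ((Real.pi - 2 * x) ^ (2 * n + 1) / (Nat.factorial (2 * n + 1) : ℝ))

private theorem Ker_lin (x : ℝ) : HasDerivAt (fun x : ℝ => Real.pi - 2 * x) (-2) x := by
  have h := ((hasDerivAt_id x).const_mul (2 : ℝ)).const_sub Real.pi
  simpa using h

private theorem Ker_powd (k : ℕ) (x : ℝ) :
    HasDerivAt (fun x : ℝ => (Real.pi - 2 * x) ^ (k + 1) / (Nat.factorial (k + 1) : ℝ))
      (-2 * ((Real.pi - 2 * x) ^ k / (Nat.factorial k : ℝ))) x := by
  have h := ((Ker_lin x).pow (k + 1)).div_const (Nat.factorial (k + 1) : ℝ)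
  refine h.congr_deriv ?_
  have h1 : (Nat.factorial (k + 1) : ℝ) = ((k : ℝ) + 1) * (Nat.factorial k : ℝ) := by
    rw [Nat.factorial_succ]
    push_cast
    ring
  have h2 : (Nat.factorial k : ℝ) ≠ 0 := by exact_mod_cast Nat.factorial_ne_zero k
  have h3 : ((k : ℝ) + 1) ≠ 0 := by positivity
  rw [h1, Nat.add_sub_cancel]
  push_cast
  field_simp

private theorem Ker_dp (n : ℕ) (x : ℝ) : HasDerivAt (Ker_p (n + 1)) (Ker_p1 n x) x := by
  have h := Ker_powd (2 * n + 1) x
  exact h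

private theorem Ker_dp1 (n : ℕ) (x : ℝ) : HasDerivAt (Ker_p1 n) (4 * Ker_p n x) x := by
  have h := (Ker_powd (2 * n) x).const_mul (-2 : ℝ)
  refine h.congr_deriv ?_
  unfold Ker_p
  ring

private theorem Ker_p_cont (n : ℕ) : Continuous (Ker_p n) := by
  unfold Ker_p
  fun_prop

private noncomputable def Ker_J (n M : ℕ) : ℝ :=
  ∫ φ in (0 : ℝ)..(Real.pi / 2), Ker_p n φ * sk M φ

private theorem Ker_int (n M : ℕ) :
    IntervalIntegrable (fun φ => Ker_p n φ * sk M φ) volume 0 (Real.pi / 2) :=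
  ((Ker_p_cont n).mul (Ker_sk_cont M)).intervalIntegrable _ _

private theorem Ker_step (n M : ℕ) :
    Ker_J (n + 1) M = (((M : ℝ) + 1) ^ 2)⁻¹ * Ker_J n (M + 1) + Ker_J (n + 1) (M + 1) := by
  have hF : ∀ x ∈ Set.uIcc (0 : ℝ) (Real.pi / 2), HasDerivAt
      (fun x => Ker_p (n + 1) x * Ker_s1 M x - Ker_p1 n x * sk (M + 1) x)
      (4 * ((M : ℝ) + 1) ^ 2 * (Ker_p (n + 1) x * sk M x) -
        4 * ((M : ℝ) + 1) ^ 2 * (Ker_p (n + 1) x * sk (M + 1) x) -
        4 * (Ker_p n x * sk (M + 1) x)) x := by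
    intro x _
    refine (((Ker_dp n x).mul (Ker_d2 M x)).sub ((Ker_dp1 n x).mul (Ker_d1 M x))).congr_deriv ?_
    ring
  have hint1 := (Ker_int (n + 1) M).const_mul (4 * ((M : ℝ) + 1) ^ 2)
  have hint2 := (Ker_int (n + 1) (M + 1)).const_mul (4 * ((M : ℝ) + 1) ^ 2)
  have hint3 := (Ker_int n (M + 1)).const_mul 4
  have h := intervalIntegral.integral_eq_sub_of_hasDerivAt hF ((hint1.sub hint2).sub hint3)
  rw [intervalIntegral.integral_sub (hint1.sub hint2) hint3,
    intervalIntegral.integral_sub hint1 hint2, intervalIntegral.integral_const_mul,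
    intervalIntegral.integral_const_mul, intervalIntegral.integral_const_mul] at h
  have hb1 : Ker_p (n + 1) (Real.pi / 2) = 0 := by
    unfold Ker_p
    have : Real.pi - 2 * (Real.pi / 2) = 0 := by ring
    rw [this, zero_pow (by omega), zero_div]
  have hb2 : Ker_p1 n (Real.pi / 2) = 0 := by
    unfold Ker_p1
    have : Real.pi - 2 * (Real.pi / 2) = 0 := by ring
    rw [this, zero_pow (by omega), zero_div, mul_zero]
  have hb3 : Ker_s1 M 0 = 0 := by
    unfold Ker_s1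
    rw [Real.sin_zero, zero_pow (by omega)]
    ring
  have hb4 : sk (M + 1) 0 = 0 := by
    rw [Ker_sk, Real.sin_zero, zero_pow (by omega), mul_zero]
  rw [hb1, hb2, hb3, hb4] at h
  have hM : ((M : ℝ) + 1) ^ 2 ≠ 0 := by positivity
  change 4 * ((M : ℝ) + 1) ^ 2 * Ker_J (n + 1) M - 4 * ((M : ℝ) + 1) ^ 2 * Ker_J (n + 1) (M + 1) -
    4 * Ker_J n (M + 1) = _ at h
  have h2 : ((M : ℝ) + 1) ^ 2 * Ker_J (n + 1) M = Ker_J n (M + 1) +
      ((M : ℝ) + 1) ^ 2 * Ker_J (n + 1) (M + 1) := by linarith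
  have h3 : Ker_J (n + 1) M = (((M : ℝ) + 1) ^ 2)⁻¹ * (((M : ℝ) + 1) ^ 2 * Ker_J (n + 1) M) := by
    rw [← mul_assoc, inv_mul_cancel₀ hM, one_mul]
  rw [h3, h2, mul_add, ← mul_assoc _ (((M : ℝ) + 1) ^ 2), inv_mul_cancel₀ hM, one_mul]

private theorem Ker_zero (M : ℕ) : Ker_J 0 M = Real.pi / 2 := by
  have hp : ∀ x, Ker_p 0 x = 1 := by
    intro x
    unfold Ker_p
    simp
  induction M with
  | zero =>
    have hs : ∀ x, sk 0 x = 1 := by
      intro x
      rw [Ker_sk]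
      simp [Ker_c]
    unfold Ker_J
    simp only [hp, hs, mul_one]
    rw [intervalIntegral.integral_const, sub_zero, smul_eq_mul, mul_one]
  | succ M ih =>
    have hF : ∀ x ∈ Set.uIcc (0 : ℝ) (Real.pi / 2), HasDerivAt (Ker_s1 M)
        (4 * ((M : ℝ) + 1) ^ 2 * (Ker_p 0 x * sk M x) -
          4 * ((M : ℝ) + 1) ^ 2 * (Ker_p 0 x * sk (M + 1) x)) x := by
      intro x _
      refine (Ker_d2 M x).congr_deriv ?_
      rw [hp]
      ring
    have hint1 := (Ker_int 0 M).const_mul (4 * ((M : ℝ) + 1) ^ 2)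
    have hint2 := (Ker_int 0 (M + 1)).const_mul (4 * ((M : ℝ) + 1) ^ 2)
    have h := intervalIntegral.integral_eq_sub_of_hasDerivAt hF (hint1.sub hint2)
    rw [intervalIntegral.integral_sub hint1 hint2, intervalIntegral.integral_const_mul,
      intervalIntegral.integral_const_mul] at h
    have hb1 : Ker_s1 M (Real.pi / 2) = 0 := by
      unfold Ker_s1
      rw [Real.cos_pi_div_two]
      ring
    have hb3 : Ker_s1 M 0 = 0 := by
      unfold Ker_s1
      rw [Real.sin_zero, zero_pow (by omega)]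
      ring
    rw [hb1, hb3] at h
    change 4 * ((M : ℝ) + 1) ^ 2 * Ker_J 0 M - 4 * ((M : ℝ) + 1) ^ 2 * Ker_J 0 (M + 1) = _ at h
    have hM : (4 : ℝ) * ((M : ℝ) + 1) ^ 2 ≠ 0 := by positivity
    have h2 : 4 * ((M : ℝ) + 1) ^ 2 * Ker_J 0 (M + 1) = 4 * ((M : ℝ) + 1) ^ 2 * Ker_J 0 M := by
      linarith
    rw [← ih]
    exact mul_left_cancel₀ hM h2

private theorem Ker_one_zero : Ker_J 1 0 = Real.pi / 2 * (Real.pi ^ 2 / 6) := by
  have hF : ∀ x ∈ Set.uIcc (0 : ℝ) (Real.pi / 2), HasDerivAt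
      (fun x => -((Real.pi - 2 * x) ^ 3 / 12)) (Ker_p 1 x * sk 0 x) x := by
    intro x _
    have h := (((Ker_lin x).pow 3).div_const (12 : ℝ)).neg
    refine h.congr_deriv ?_
    rw [Ker_sk]
    unfold Ker_p Ker_c
    norm_num
    ring
  unfold Ker_J
  rw [intervalIntegral.integral_eq_sub_of_hasDerivAt hF (Ker_int 1 0)]
  ring

private theorem Ker_one (M : ℕ) : Ker_J 1 M = Real.pi / 2 * (Real.pi ^ 2 / 6 -
    ∑ j ∈ Finset.range (M + 1), (1 : ℝ) / (j : ℝ) ^ 2) := by
  induction M with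
  | zero =>
    rw [Ker_one_zero]
    simp
  | succ M ih =>
    have h := Ker_step 0 M
    rw [zero_add, ih, Ker_zero] at h
    rw [Finset.sum_range_succ]
    push_cast
    have h2 : (1 : ℝ) / ((M : ℝ) + 1) ^ 2 = (((M : ℝ) + 1) ^ 2)⁻¹ := one_div _
    rw [h2]
    linear_combination -h

private theorem Ker_one_tendsto : Tendsto (Ker_J 1) atTop (𝓝 0) := by
  have h := (hasSum_zeta_two.tendsto_sum_nat).comp (tendsto_add_atTop_nat 1)
  have h2 := ((h.const_sub (Real.pi ^ 2 / 6)).const_mul (Real.pi / 2))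
  rw [sub_self, mul_zero] at h2
  refine h2.congr fun M => ?_
  rw [Ker_one]
  rfl

private theorem Ker_sk_nonneg (M : ℕ) (x : ℝ) : 0 ≤ sk M x := by
  rw [Ker_sk, pow_mul]
  exact mul_nonneg (Ker_c_pos M).le (by positivity)

private theorem Ker_p_nonneg (n : ℕ) (x : ℝ) : 0 ≤ Ker_p n x := by
  unfold Ker_p
  rw [pow_mul]
  positivity

private theorem Ker_J_nonneg (n M : ℕ) : 0 ≤ Ker_J n M :=
  intervalIntegral.integral_nonneg (by positivity)
    (fun x _ => mul_nonneg (Ker_p_nonneg n x) (Ker_sk_nonneg M x))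

private theorem Ker_tendsto (n : ℕ) : Tendsto (Ker_J (n + 1)) atTop (𝓝 0) := by
  have hle : ∀ M, Ker_J (n + 1) M ≤ (2 * Real.pi ^ (2 * n)) * Ker_J 1 M := by
    intro M
    unfold Ker_J
    rw [← intervalIntegral.integral_const_mul]
    refine intervalIntegral.integral_mono_on (by positivity) (Ker_int (n + 1) M)
      ((Ker_int 1 M).const_mul _) ?_
    intro x hx
    rw [← mul_assoc]
    refine mul_le_mul_of_nonneg_right ?_ (Ker_sk_nonneg M x)
    have h0 : 0 ≤ Real.pi - 2 * x := by linarith [hx.2]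
    have h1 : Real.pi - 2 * x ≤ Real.pi := by linarith [hx.1]
    unfold Ker_p
    have h2 : (Real.pi - 2 * x) ^ (2 * (n + 1)) = (Real.pi - 2 * x) ^ (2 * n) *
        (Real.pi - 2 * x) ^ 2 := by
      rw [← pow_add]
      ring
    have h3 : (Real.pi - 2 * x) ^ (2 * n) ≤ Real.pi ^ (2 * n) := pow_le_pow_left₀ h0 h1 _
    have h4 : (1 : ℝ) ≤ (Nat.factorial (2 * (n + 1)) : ℝ) := by
      exact_mod_cast Nat.succ_le_of_lt (Nat.factorial_pos _)
    calc (Real.pi - 2 * x) ^ (2 * (n + 1)) / (Nat.factorial (2 * (n + 1)) : ℝ)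
        ≤ (Real.pi - 2 * x) ^ (2 * (n + 1)) := div_le_self (pow_nonneg h0 _) h4
      _ ≤ Real.pi ^ (2 * n) * (Real.pi - 2 * x) ^ 2 := by
          rw [h2]
          exact mul_le_mul_of_nonneg_right h3 (by positivity)
      _ = 2 * Real.pi ^ (2 * n) * ((Real.pi - 2 * x) ^ (2 * 1) /
          (Nat.factorial (2 * 1) : ℝ)) := by
          norm_num
          ring
  have h := Ker_one_tendsto.const_mul (2 * Real.pi ^ (2 * n))
  rw [mul_zero] at h
  exact squeeze_zero (fun M => Ker_J_nonneg (n + 1) M) hle h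

private theorem Ker_En_one : Tendsto (HofPers.En 1) atTop (𝓝 0) := by
  have h : Tendsto (fun K : ℕ => 2 / ((K : ℝ) + 1)) atTop (𝓝 0) := by
    have h1 := tendsto_one_div_add_atTop_nhds_zero_nat (𝕜 := ℝ)
    have h2 := h1.const_mul 2
    rw [mul_zero] at h2
    refine h2.congr fun K => ?_
    ring
  refine squeeze_zero (fun K => (HofPers.En_pos 1 K).le) (fun K => ?_) h
  rw [le_div_iff₀ (by positivity), mul_comm]
  exact HofPers.En_one_le K

private theorem Ker_En (n : ℕ) : Tendsto (HofPers.En (n + 1)) atTop (𝓝 0) := by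
  have hle : ∀ M, HofPers.En (n + 1) M ≤ HofPers.En n 0 * HofPers.En 1 M := by
    intro M
    have h1 := HofPers.newton n M
    have h2 : HofPers.En n M ≤ HofPers.En n 0 := HofPers.T_anti (HofPers.adm_rep n) (Nat.zero_le M)
    have h3 := HofPers.En_pos (n + 1) M
    have h4 := HofPers.En_pos 1 M
    have h5 : HofPers.En (n + 1) M ≤ ((n : ℝ) + 1) * HofPers.En (n + 1) M := by
      have : (0 : ℝ) ≤ n := Nat.cast_nonneg n
      nlinarith
    calc HofPers.En (n + 1) M ≤ ((n : ℝ) + 1) * HofPers.En (n + 1) M := h5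
      _ ≤ HofPers.En 1 M * HofPers.En n M := h1
      _ ≤ HofPers.En 1 M * HofPers.En n 0 := mul_le_mul_of_nonneg_left h2 h4.le
      _ = _ := mul_comm _ _
  have h := Ker_En_one.const_mul (HofPers.En n 0)
  rw [mul_zero] at h
  exact squeeze_zero (fun M => (HofPers.En_pos (n + 1) M).le) hle h

theorem ker_int (n M : ℕ) :
    ∫ φ in (0 : ℝ)..(Real.pi / 2), (Real.pi - 2 * φ) ^ (2 * n) / (Nat.factorial (2 * n) : ℝ) *
      sk M φ = Real.pi / 2 * HofPers.En n M := by
  change Ker_J n M = Real.pi / 2 * HofPers.En n M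
  induction n generalizing M with
  | zero =>
    rw [Ker_zero]
    have : HofPers.En 0 M = 1 := HofPers.T_nil M
    rw [this, mul_one]
  | succ n ih =>
    have hconst : ∀ M, Ker_J (n + 1) M - Real.pi / 2 * HofPers.En (n + 1) M =
        Ker_J (n + 1) 0 - Real.pi / 2 * HofPers.En (n + 1) 0 := by
      intro M
      induction M with
      | zero => rfl
      | succ M ihM =>
        rw [← ihM, Ker_step n M, HofPers.En_step n M, ih (M + 1)]
        ring
    have hlim : Tendsto (fun M => Ker_J (n + 1) M - Real.pi / 2 * HofPers.En (n + 1) M) atTop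
        (𝓝 0) := by
      have h := (Ker_tendsto n).sub ((Ker_En n).const_mul (Real.pi / 2))
      rw [mul_zero, sub_zero] at h
      exact h
    have h0 : Ker_J (n + 1) 0 - Real.pi / 2 * HofPers.En (n + 1) 0 = 0 := by
      refine tendsto_nhds_unique ?_ hlim
      refine tendsto_const_nhds.congr fun M => (hconst M).symm
    have h1 := hconst M
    rw [h0] at h1
    linarith

end HofAA
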