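import Pool.Agent.Lib.MP_301213_nt.AA.Defs

/-! MP_301213_nt, almost all theorem: lower bound for a local moment -/

set_option autoImplicit false

open Polynomial MeasureTheory Filter Topology

namespace HofAA

/-- the local lower bound for a function which is at least `c₀ φ ^ m` -/
private theorem nfl_core (f : ℝ → ℝ) (ε c₀ : ℝ) (m : ℕ) (hε : 0 < ε) (hε1 : ε ≤ 1) (hc₀ : 0 < c₀)
    (hcont : ContinuousOn f (Set.Icc 0 ε)) (hlow : ∀ φ ∈ Set.Icc 0 ε, c₀ * φ ^ m ≤ f φ) (n : ℕ)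
    (hn : 1 ≤ n) :
    c₀ / 2 * ε ^ (m + 1) / (8 ^ (m + 1) * (m + 1)) / (n : ℝ) ^ (m + 1) ≤
      ∫ φ in (0 : ℝ)..ε, (1 - 2 * φ / Real.pi) ^ (2 * n) * f φ := by
  have hpi : 2 < Real.pi := by linarith [Real.pi_gt_three]
  have hn1 : (1 : ℝ) ≤ n := by exact_mod_cast hn
  set δ : ℝ := ε / (8 * n) with hδ
  have hδ0 : 0 < δ := by positivity
  have hδε : δ ≤ ε := by
    rw [hδ, div_le_iff₀ (by positivity)]
    nlinarith
  have hδn : δ * n ≤ 1 / 8 := by
    have : δ * n = ε / 8 := by rw [hδ]; field_simp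
    rw [this]; linarith
  have hF : ContinuousOn (fun φ => (1 - 2 * φ / Real.pi) ^ (2 * n) * f φ) (Set.Icc 0 ε) := by
    refine ContinuousOn.mul ?_ hcont
    fun_prop
  have hFi : IntervalIntegrable (fun φ => (1 - 2 * φ / Real.pi) ^ (2 * n) * f φ) volume 0 ε := by
    apply ContinuousOn.intervalIntegrable
    rwa [Set.uIcc_of_le hε.le]
  have hF0 : ∀ φ ∈ Set.Icc 0 ε, 0 ≤ (1 - 2 * φ / Real.pi) ^ (2 * n) * f φ := by
    intro φ hφ
    refine mul_nonneg ?_ ?_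
    · rw [pow_mul]; positivity
    · exact (mul_nonneg hc₀.le (pow_nonneg hφ.1 _)).trans (hlow φ hφ)
  have h1 : ∫ φ in (0 : ℝ)..δ, (1 - 2 * φ / Real.pi) ^ (2 * n) * f φ ≤
      ∫ φ in (0 : ℝ)..ε, (1 - 2 * φ / Real.pi) ^ (2 * n) * f φ := by
    refine intervalIntegral.integral_mono_interval le_rfl hδ0.le hδε ?_ hFi
    filter_upwards [ae_restrict_mem measurableSet_Ioc] with φ hφ
    exact hF0 φ ⟨hφ.1.le, hφ.2⟩
  have h2 : ∫ φ in (0 : ℝ)..δ, c₀ / 2 * φ ^ m ≤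
      ∫ φ in (0 : ℝ)..δ, (1 - 2 * φ / Real.pi) ^ (2 * n) * f φ := by
    refine intervalIntegral.integral_mono_on hδ0.le ?_ ?_ ?_
    · apply Continuous.intervalIntegrable; fun_prop
    · exact hFi.mono_set (by
        rw [Set.uIcc_of_le hδ0.le, Set.uIcc_of_le hε.le]
        exact Set.Icc_subset_Icc le_rfl hδε)
    · intro φ hφ
      have hφε : φ ∈ Set.Icc 0 ε := ⟨hφ.1, hφ.2.trans hδε⟩
      have h3 : 2 * φ / Real.pi ≤ φ := by
        rw [div_le_iff₀ (by linarith)]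
        nlinarith [hφ.1]
      have h4 : (1 : ℝ) / 2 ≤ (1 - 2 * φ / Real.pi) ^ (2 * n) := by
        have h5 := one_add_mul_le_pow (a := -(2 * φ / Real.pi)) (by
          have : φ ≤ 1 := hφε.2.trans hε1
          linarith) (2 * n)
        have h6 : 1 + ((2 * n : ℕ) : ℝ) * (-(2 * φ / Real.pi)) ≥ 1 / 2 := by
          push_cast
          have h7 : (n : ℝ) * (2 * φ / Real.pi) ≤ 1 / 8 := by
            refine le_trans ?_ hδn
            rw [mul_comm]
            exact mul_le_mul_of_nonneg_right (h3.trans hφ.2) (by positivity)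
          nlinarith
        calc (1 : ℝ) / 2 ≤ _ := h6
          _ ≤ _ := h5
          _ = _ := by ring
      calc c₀ / 2 * φ ^ m = 1 / 2 * (c₀ * φ ^ m) := by ring
        _ ≤ (1 - 2 * φ / Real.pi) ^ (2 * n) * f φ :=
          mul_le_mul h4 (hlow φ hφε) (mul_nonneg hc₀.le (pow_nonneg hφ.1 _)) (by linarith)
  have h3 : ∫ φ in (0 : ℝ)..δ, c₀ / 2 * φ ^ m = c₀ / 2 * (δ ^ (m + 1) / (m + 1)) := by
    rw [intervalIntegral.integral_const_mul, integral_pow]
    simp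
  have h4 : c₀ / 2 * ε ^ (m + 1) / (8 ^ (m + 1) * (m + 1)) / (n : ℝ) ^ (m + 1) =
      c₀ / 2 * (δ ^ (m + 1) / (m + 1)) := by
    rw [hδ, div_pow, mul_pow]
    field_simp
  rw [h4, ← h3]
  exact h2.trans h1

theorem nonflat_local (f : ℝ → ℝ) (hf : AnalyticAt ℝ f 0)
    (hne : ¬ ∀ᶠ φ in 𝓝[>] (0 : ℝ), f φ = 0) :
    ∃ ε0 : ℝ, 0 < ε0 ∧ ∀ ε : ℝ, 0 < ε → ε ≤ ε0 →
      NonFlat fun n => ∫ φ in (0 : ℝ)..ε, (1 - 2 * φ / Real.pi) ^ (2 * n) * f φ := by
  obtain ⟨m, g, hg, hg0, hfg⟩ := hf.exists_eventuallyEq_pow_smul_nonzero_iff.2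
    (fun h => hne (h.filter_mono nhdsWithin_le_nhds))
  -- the sign
  obtain ⟨s, hs, hsg⟩ : ∃ s : ℝ, |s| = 1 ∧ 0 < s * g 0 := by
    rcases lt_or_gt_of_ne hg0 with h | h
    · exact ⟨-1, by simp, by linarith⟩
    · exact ⟨1, by simp, by linarith⟩
  set c₀ : ℝ := s * g 0 / 2 with hc₀
  have hc₀p : 0 < c₀ := by positivity
  have hev1 : ∀ᶠ φ in 𝓝 (0 : ℝ), c₀ < s * g φ := by
    have h1 : ContinuousAt (fun φ => s * g φ) 0 := continuousAt_const.mul hg.continuousAt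
    exact h1.eventually (lt_mem_nhds (by rw [hc₀]; linarith))
  have hev2 : ∀ᶠ φ in 𝓝 (0 : ℝ), ContinuousAt f φ :=
    hf.eventually_analyticAt.mono fun φ h => h.continuousAt
  obtain ⟨r, hr, hball⟩ := Metric.eventually_nhds_iff.1 (hfg.and (hev1.and hev2))
  refine ⟨min (r / 2) 1, lt_min (by linarith) one_pos, fun ε hε hεle => ?_⟩
  have hεr : ε < r := (hεle.trans (min_le_left _ _)).trans_lt (by linarith)
  have hε1 : ε ≤ 1 := hεle.trans (min_le_right _ _)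
  have hin : ∀ φ ∈ Set.Icc 0 ε, f φ = (φ - 0) ^ m • g φ ∧ c₀ < s * g φ ∧ ContinuousAt f φ := by
    intro φ hφ
    apply hball
    rw [Real.dist_eq, sub_zero, abs_of_nonneg hφ.1]
    exact hφ.2.trans_lt hεr
  have hcore := nfl_core (fun φ => s * f φ) ε c₀ m hε hε1 hc₀p
    (continuousOn_const.mul fun φ hφ => (hin φ hφ).2.2.continuousWithinAt)
    (by
      intro φ hφ
      obtain ⟨h1, h2, _⟩ := hin φ hφ
      change c₀ * φ ^ m ≤ s * f φ
      rw [h1, sub_zero, smul_eq_mul]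
      have h3 := mul_le_mul_of_nonneg_right h2.le (pow_nonneg hφ.1 m)
      calc c₀ * φ ^ m ≤ s * g φ * φ ^ m := h3
        _ = s * (φ ^ m * g φ) := by ring)
  refine ⟨c₀ / 2 * ε ^ (m + 1) / (8 ^ (m + 1) * (m + 1)), m + 1, 1, by positivity, fun n hn => ?_⟩
  have h1 := hcore n hn
  have h2 : ∫ φ in (0 : ℝ)..ε, (1 - 2 * φ / Real.pi) ^ (2 * n) * (s * f φ) =
      s * ∫ φ in (0 : ℝ)..ε, (1 - 2 * φ / Real.pi) ^ (2 * n) * f φ := by
    rw [← intervalIntegral.integral_const_mul]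
    congr 1
    ext φ; ring
  rw [h2] at h1
  refine h1.trans ((le_abs_self _).trans ?_)
  rw [abs_mul, hs, one_mul]

/-- a polynomial plus a nonflat null sequence plus an exponentially small error -/
theorem nonflat_add (b : ℝ[X]) (G E : ℕ → ℝ) (hG : NonFlat G) (hG0 : Tendsto G atTop (𝓝 0))
    (C ρ : ℝ) (h0 : 0 < ρ) (h1 : ρ < 1) (hE : ∀ n : ℕ, |E n| ≤ C * ρ ^ n) :
    NonFlat fun n => b.eval (n : ℝ) + G n + E n := by
  have hρ : |ρ| < 1 := by rw [abs_of_pos h0]; exact h1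
  by_cases hb : b = 0
  · obtain ⟨c, m, N0, hc, hGn⟩ := hG
    have h2 : Tendsto (fun n : ℕ => C * ((n : ℝ) ^ m * ρ ^ n)) atTop (𝓝 (C * 0)) :=
      (tendsto_pow_const_mul_const_pow_of_abs_lt_one m hρ).const_mul C
    rw [mul_zero] at h2
    have h3 : ∀ᶠ n : ℕ in atTop, C * ((n : ℝ) ^ m * ρ ^ n) < c / 2 :=
      h2.eventually (gt_mem_nhds (by linarith))
    obtain ⟨N1, hN1⟩ := eventually_atTop.1 h3
    refine ⟨c / 2, m, max (max N0 N1) 1, by linarith, fun n hn => ?_⟩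
    have hn0 : N0 ≤ n := (le_max_left _ _).trans ((le_max_left _ _).trans hn)
    have hn1 : N1 ≤ n := (le_max_right _ _).trans ((le_max_left _ _).trans hn)
    have hn2 : 1 ≤ n := (le_max_right _ _).trans hn
    have hnp : (0 : ℝ) < (n : ℝ) ^ m := by
      have : (0 : ℝ) < n := by exact_mod_cast hn2
      positivity
    have h4 := hGn n hn0
    have h5 := hN1 n hn1
    have h6 : |E n| ≤ c / 2 / (n : ℝ) ^ m := by
      rw [le_div_iff₀ hnp]
      calc |E n| * (n : ℝ) ^ m ≤ C * ρ ^ n * (n : ℝ) ^ m :=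
            mul_le_mul_of_nonneg_right (hE n) hnp.le
        _ = C * ((n : ℝ) ^ m * ρ ^ n) := by ring
        _ ≤ c / 2 := h5.le
    have h7 : |G n| - |E n| ≤ |b.eval (n : ℝ) + G n + E n| := by
      rw [hb, eval_zero, zero_add]
      have := abs_sub_abs_le_abs_sub (G n) (-E n)
      rwa [abs_neg, sub_neg_eq_add] at this
    have h8 : c / (n : ℝ) ^ m = c / 2 / (n : ℝ) ^ m + c / 2 / (n : ℝ) ^ m := by
      rw [← add_div]; congr 1; ring
    change c / 2 / (n : ℝ) ^ m ≤ |b.eval (n : ℝ) + G n + E n|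
    linarith
  · obtain ⟨c, hc, hev⟩ : ∃ c : ℝ, 0 < c ∧ ∀ᶠ n : ℕ in atTop, c ≤ |b.eval (n : ℝ)| := by
      by_cases hd : 0 < b.degree
      · refine ⟨1, one_pos, ?_⟩
        have h2 := (Polynomial.abs_tendsto_atTop b hd).comp tendsto_natCast_atTop_atTop
        exact (h2 : Tendsto (fun n : ℕ => |b.eval (n : ℝ)|) atTop atTop).eventually_ge_atTop 1
      · have h2 := Polynomial.eq_C_of_degree_le_zero (not_lt.1 hd)
        have h3 : b.coeff 0 ≠ 0 := by
          intro h4; rw [h4, C_0] at h2; exact hb h2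
        refine ⟨|b.coeff 0|, abs_pos.2 h3, Eventually.of_forall fun n => ?_⟩
        conv_rhs => rw [h2]
        rw [eval_C]
    have hE0 : Tendsto E atTop (𝓝 0) := by
      have h2 : Tendsto (fun n : ℕ => C * ρ ^ n) atTop (𝓝 (C * 0)) :=
        (tendsto_pow_atTop_nhds_zero_of_lt_one h0.le h1).const_mul C
      rw [mul_zero] at h2
      exact squeeze_zero_norm hE h2
    have h2 : Tendsto (fun n => |G n + E n|) atTop (𝓝 0) := by
      have h3 := (hG0.add hE0).abs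
      rwa [add_zero, abs_zero] at h3
    have h3 : ∀ᶠ n in atTop, |G n + E n| < c / 2 := h2.eventually (gt_mem_nhds (by linarith))
    obtain ⟨N, hN⟩ := eventually_atTop.1 (hev.and h3)
    refine ⟨c / 2, 0, N, by linarith, fun n hn => ?_⟩
    obtain ⟨h4, h5⟩ := hN n hn
    rw [pow_zero, div_one]
    have h6 := abs_sub_abs_le_abs_sub (b.eval (n : ℝ)) (-(G n + E n))
    rw [abs_neg, sub_neg_eq_add, ← add_assoc] at h6
    change c / 2 ≤ |b.eval (n : ℝ) + G n + E n|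
    linarith

end HofAA
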