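import Pool.Agent.Lib.MP_301213_nt.AA.PhiD
import Pool.Agent.Lib.MP_301213_nt.AA.IIc

/-! MP_301213_nt, almost all theorem: the functions are iterated integrals -/

set_option autoImplicit false

open Polynomial MeasureTheory Filter Topology

namespace HofAA

theorem pe_good_rep (n : ℕ) (W : List Bool) (h : good W) (hne : W ≠ []) :
    good (List.replicate n false ++ W) := by
  induction n with
  | zero => simpa using h
  | succ n ih =>
    rw [List.replicate_succ, List.cons_append]
    refine ⟨ih, ?_⟩
    simp [hne]

theorem good_enc (u : List ℕ) : good (enc u) := by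
  induction u with
  | nil => trivial
  | cons k u ih =>
    exact pe_good_rep (k - 2) (true :: true :: enc u) ih (by simp)

/-- functions with the same derivative on `(0, π/2)` and the same limit `0` at `0` agree -/
theorem pe_eq_of_deriv (f g d : ℝ → ℝ)
    (hf : ∀ x, 0 < x → x < Real.pi / 2 → HasDerivAt f (d x) x)
    (hg : ∀ x, 0 < x → x < Real.pi / 2 → HasDerivAt g (d x) x)
    (hf0 : Tendsto f (𝓝[>] 0) (𝓝 0)) (hg0 : Tendsto g (𝓝[>] 0) (𝓝 0))
    (x : ℝ) (h0 : 0 < x) (h1 : x < Real.pi / 2) : f x = g x := by
  have hd : ∀ y ∈ Set.Ioo (0 : ℝ) (Real.pi / 2), HasDerivAt (fun y => f y - g y) 0 y := by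
    intro y hy
    have := (hf y hy.1 hy.2).sub (hg y hy.1 hy.2)
    rwa [sub_self] at this
  have hconst : ∀ y ∈ Set.Ioo (0 : ℝ) (Real.pi / 2), f y - g y = f x - g x := by
    intro y hy
    exact isOpen_Ioo.is_const_of_deriv_eq_zero isPreconnected_Ioo
      (fun z hz => (hd z hz).differentiableAt.differentiableWithinAt)
      (fun z hz => (hd z hz).deriv) hy ⟨h0, h1⟩
  have hl : Tendsto (fun y => f y - g y) (𝓝[>] 0) (𝓝 (0 - 0)) := hf0.sub hg0
  have hl2 : Tendsto (fun y => f y - g y) (𝓝[>] 0) (𝓝 (f x - g x)) := by
    refine tendsto_const_nhds.congr' ?_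
    have hmem : Set.Ioo (0 : ℝ) (Real.pi / 2) ∈ 𝓝[>] (0 : ℝ) :=
      Ioo_mem_nhdsGT (by positivity)
    filter_upwards [hmem] with y hy
    exact (hconst y hy).symm
  have := tendsto_nhds_unique hl hl2
  linarith

theorem phi_eq (u : List ℕ) (hu : HofPers.Adm u) (φ : ℝ) (h0 : 0 < φ) (h1 : φ < Real.pi / 2) :
    Phi u φ = II (enc u) φ := by
  induction u generalizing φ with
  | nil => rw [phi_nil]; rfl
  | cons k v ih =>
    have hv : HofPers.Adm v := fun a ha => hu a (List.mem_cons_of_mem _ ha)
    have hk : 2 ≤ k := hu k (by simp)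
    have ihv := ih hv
    clear ih hu
    induction k, hk using Nat.le_induction generalizing φ with
    | base =>
      have hgood := good_enc v
      have hg1 : good (true :: enc v) := hgood
      have hg2 : good (true :: true :: enc v) := hgood
      have hLam : ∀ x, 0 < x → x < Real.pi / 2 → Lam v x = II (true :: enc v) x := by
        intro x hx0 hx1
        refine pe_eq_of_deriv (Lam v) (II (true :: enc v)) (fun y => 2 * Phi v y) ?_ ?_
          (lam_lim v hv) (ii_lim _ hg1 (by simp)) x hx0 hx1
        · intro y hy0 hy1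
          exact (phi_two v hv y hy0 hy1).2
        · intro y hy0 hy1
          have := ii_true (enc v) hgood y hy0 hy1
          rwa [← ihv y hy0 hy1] at this
      change Phi (2 :: v) φ = II (true :: true :: enc v) φ
      refine pe_eq_of_deriv (Phi (2 :: v)) (II (true :: true :: enc v)) (fun y => 2 * Lam v y)
        ?_ ?_ (phi_lim 2 le_rfl v hv) (ii_lim _ hg2 (by simp)) φ h0 h1
      · intro y hy0 hy1
        exact (phi_two v hv y hy0 hy1).1
      · intro y hy0 hy1
        have := ii_true (true :: enc v) hg1 y hy0 hy1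
        rwa [← hLam y hy0 hy1] at this
    | succ k hk ihk =>
      have henc : enc ((k + 1) :: v) = false :: enc (k :: v) := by
        have e : k + 1 - 2 = (k - 2) + 1 := by omega
        simp only [enc, e, List.replicate_succ, List.cons_append]
      have hne : enc (k :: v) ≠ [] := by simp [enc]
      have hgk := good_enc (k :: v)
      have hgk1 := good_enc ((k + 1) :: v)
      rw [henc] at hgk1 ⊢
      refine pe_eq_of_deriv (Phi ((k + 1) :: v)) (II (false :: enc (k :: v)))
        (fun y => 2 * Real.cot y * Phi (k :: v) y)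
        ?_ ?_ (phi_lim (k + 1) (by omega) v hv) (ii_lim _ hgk1 (by simp)) φ h0 h1
      · intro y hy0 hy1
        exact phi_succ k hk v hv y hy0 hy1
      · intro y hy0 hy1
        have := ii_false (enc (k :: v)) hgk hne y hy0 hy1
        rwa [← ihk y hy0 hy1] at this

end HofAA
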