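import Pool.Agent.Lib.MP_301213_nt.AA.EvD
import Pool.Agent.Lib.MP_301213_nt.AA.PhiEq

/-! MP_301213_nt, almost all theorem: iterated Euler operator -/

set_option autoImplicit false

open Polynomial MeasureTheory Filter Topology

namespace HofAA

theorem TTev_supp_add (p q : MM) (hp : ∀ W ∈ p.support, good W) (hq : ∀ W ∈ q.support, good W) :
    ∀ W ∈ (p + q).support, good W := by
  classical
  intro W hW
  rcases Finset.mem_union.1 (Finsupp.support_add hW) with h | h
  · exact hp W h
  · exact hq W h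

theorem TTev_supp_smul (r : ℝ) (p : MM) (hp : ∀ W ∈ p.support, good W) :
    ∀ W ∈ (r • p).support, good W := fun W hW => hp W (Finsupp.support_smul hW)

theorem TTev_UU_eq (p : MM) : UU p = Real.pi • p + (-2 : ℝ) • SS p := by
  unfold UU
  rw [LinearMap.sub_apply, LinearMap.smul_apply, LinearMap.smul_apply, LinearMap.id_apply,
    neg_smul, sub_eq_add_neg]

theorem TTev_good_UU (p : MM) (hp : ∀ W ∈ p.support, good W) :
    ∀ W ∈ (UU p).support, good W := by
  rw [TTev_UU_eq]
  exact TTev_supp_add _ _ (TTev_supp_smul _ _ hp) (TTev_supp_smul _ _ (good_SS p hp))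

theorem TTev_good_TT (p : MM) (hp : ∀ W ∈ p.support, good W) :
    ∀ W ∈ (TT p).support, good W :=
  TTev_good_UU _ (good_DD p hp)

theorem TTev_ev_UU (p : MM) (hp : ∀ W ∈ p.support, good W) (φ : ℝ) (h0 : 0 < φ)
    (h1 : φ < Real.pi / 2) : ev (UU p) φ = (Real.pi - 2 * φ) * ev p φ := by
  rw [TTev_UU_eq, ev_add, ev_smul, ev_smul, ev_SS p hp φ h0 h1]
  ring

theorem good_TT (u : List ℕ) (j : ℕ) :
    ∀ W ∈ ((TT ^ j : Module.End ℝ MM) (Finsupp.single (enc u) 1)).support, good W := by
  induction j with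
  | zero =>
    intro W hW
    rw [pow_zero, Module.End.one_apply] at hW
    have := Finsupp.support_single_subset hW
    rw [Finset.mem_singleton] at this
    rw [this]
    exact good_enc u
  | succ j ih =>
    rw [pow_succ', Module.End.mul_apply]
    exact TTev_good_TT _ ih

theorem tf_iter (u : List ℕ) (hu : HofPers.Adm u) (j : ℕ) (φ : ℝ) (h0 : 0 < φ)
    (h1 : φ < Real.pi / 2) :
    (tf^[j] (Phi u)) φ = ev ((TT ^ j : Module.End ℝ MM) (Finsupp.single (enc u) 1)) φ := by
  induction j generalizing φ with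
  | zero =>
    rw [Function.iterate_zero, id, pow_zero, Module.End.one_apply, ev_single, eval_one, one_mul]
    exact phi_eq u hu φ h0 h1
  | succ j ih =>
    rw [Function.iterate_succ_apply', pow_succ', Module.End.mul_apply]
    set p : MM := (TT ^ j : Module.End ℝ MM) (Finsupp.single (enc u) 1) with hp
    have hg : ∀ W ∈ p.support, good W := good_TT u j
    have hev : (tf^[j] (Phi u)) =ᶠ[𝓝 φ] ev p := by
      filter_upwards [Ioo_mem_nhds h0 h1] with x hx
      exact ih x hx.1 hx.2
    have hd : deriv (tf^[j] (Phi u)) φ = ev (DD p) φ := by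
      rw [hev.deriv_eq]
      exact (ev_DD p hg φ h0 h1).deriv
    change (Real.pi - 2 * φ) * deriv (tf^[j] (Phi u)) φ = ev (UU (DD p)) φ
    rw [hd, TTev_ev_UU _ (good_DD p hg) φ h0 h1]

end HofAA
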