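import Pool.Agent.Lib.MP_301213_nt.AA.EvInj
import Pool.Agent.Lib.MP_301213_nt.AA.TTev
import Pool.Agent.Lib.MP_301213_nt.AA.Alg3
import Pool.Agent.Lib.MP_301213_nt.AA.Ibp
import Pool.Agent.Lib.MP_301213_nt.AA.Nfl
import Pool.Agent.Lib.MP_301213_nt.AA.Chv
import Pool.Agent.Lib.MP_301213_nt.AA.PhiA

/-! MP_301213_nt, almost all theorem: independence over the polynomials -/

set_option autoImplicit false

open Polynomial MeasureTheory Filter Topology

namespace HofAA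

/-! ### exponentially small sequences -/

/-- exponentially small -/
def NFsmall (E : ℕ → ℝ) : Prop := ∃ C ρ : ℝ, 0 < ρ ∧ ρ < 1 ∧ ∀ n : ℕ, |E n| ≤ C * ρ ^ n

theorem NFsmall.zero : NFsmall fun _ => 0 :=
  ⟨0, 1 / 2, by norm_num, by norm_num, fun n => by simp⟩

theorem NFsmall.add {E F : ℕ → ℝ} (hE : NFsmall E) (hF : NFsmall F) :
    NFsmall fun n => E n + F n := by
  obtain ⟨C, ρ, h0, h1, hC⟩ := hE
  obtain ⟨D, σ, g0, g1, hD⟩ := hF
  have hC0 : 0 ≤ C := by
    have := (abs_nonneg _).trans (hC 0)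
    simpa using this
  have hD0 : 0 ≤ D := by
    have := (abs_nonneg _).trans (hD 0)
    simpa using this
  refine ⟨C + D, max ρ σ, lt_max_of_lt_left h0, max_lt h1 g1, fun n => ?_⟩
  calc |E n + F n| ≤ |E n| + |F n| := abs_add_le _ _
    _ ≤ C * ρ ^ n + D * σ ^ n := add_le_add (hC n) (hD n)
    _ ≤ C * max ρ σ ^ n + D * max ρ σ ^ n := by
        gcongr
        · exact le_max_left _ _
        · exact le_max_right _ _
    _ = (C + D) * max ρ σ ^ n := by ring

theorem NFsmall.const_mul {E : ℕ → ℝ} (hE : NFsmall E) (r : ℝ) : NFsmall fun n => r * E n := by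
  obtain ⟨C, ρ, h0, h1, hC⟩ := hE
  refine ⟨|r| * C, ρ, h0, h1, fun n => ?_⟩
  rw [abs_mul, mul_assoc]
  exact mul_le_mul_of_nonneg_left (hC n) (abs_nonneg _)

theorem NFsmall.sum {α : Type} (s : Finset α) (E : α → ℕ → ℝ) (hE : ∀ a ∈ s, NFsmall (E a)) :
    NFsmall fun n => ∑ a ∈ s, E a n := by
  classical
  induction s using Finset.induction_on with
  | empty => simpa using NFsmall.zero
  | insert a s ha ih =>
    have h1 := (hE a (Finset.mem_insert_self _ _)).add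
      (ih fun b hb => hE b (Finset.mem_insert_of_mem hb))
    refine (?_ : (fun n => ∑ b ∈ insert a s, E b n) = _) ▸ h1
    funext n
    rw [Finset.sum_insert ha]

theorem NFsmall.mul_pow {E : ℕ → ℝ} (hE : NFsmall E) (m : ℕ) :
    NFsmall fun n => (n : ℝ) ^ m * E n := by
  obtain ⟨C, ρ, h0, h1, hC⟩ := hE
  have hC0 : 0 ≤ C := by
    have := (abs_nonneg _).trans (hC 0)
    simpa using this
  set σ : ℝ := √ρ with hσ
  have hσ0 : 0 < σ := Real.sqrt_pos.2 h0
  have hσ1 : σ < 1 := by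
    rw [hσ, Real.sqrt_lt' one_pos]; simpa using h1
  have hσ2 : σ * σ = ρ := Real.mul_self_sqrt h0.le
  have hb : Tendsto (fun n : ℕ => (n : ℝ) ^ m * σ ^ n) atTop (𝓝 0) :=
    tendsto_pow_const_mul_const_pow_of_lt_one m hσ0.le hσ1
  obtain ⟨D, hD⟩ := hb.bddAbove_range
  have hD' : ∀ n : ℕ, (n : ℝ) ^ m * σ ^ n ≤ D := fun n => hD ⟨n, rfl⟩
  refine ⟨D * C, σ, hσ0, hσ1, fun n => ?_⟩
  have hp : (0 : ℝ) ≤ (n : ℝ) ^ m := by positivity
  rw [abs_mul, abs_of_nonneg hp]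
  calc (n : ℝ) ^ m * |E n| ≤ (n : ℝ) ^ m * (C * ρ ^ n) := mul_le_mul_of_nonneg_left (hC n) hp
    _ = ((n : ℝ) ^ m * σ ^ n) * (C * σ ^ n) := by rw [← hσ2, _root_.mul_pow]; ring
    _ ≤ D * (C * σ ^ n) := mul_le_mul_of_nonneg_right (hD' n) (by positivity)
    _ = D * C * σ ^ n := by ring

theorem NFsmall.mul_poly {E : ℕ → ℝ} (hE : NFsmall E) (q : ℝ[X]) :
    NFsmall fun n => q.eval (n : ℝ) * E n := by
  have h1 := NFsmall.sum (Finset.range (q.natDegree + 1))
    (fun j n => q.coeff j * ((n : ℝ) ^ j * E n)) (fun j _ => (hE.mul_pow j).const_mul _)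
  refine (?_ : (fun n : ℕ => q.eval (n : ℝ) * E n) = _) ▸ h1
  funext n
  rw [Polynomial.eval_eq_sum_range, Finset.sum_mul]
  exact Finset.sum_congr rfl fun j _ => by ring

/-! ### truncation -/

theorem NF_kernel_le {ε φ : ℝ} (h1 : ε ≤ φ) (h2 : φ ≤ Real.pi / 2) (n : ℕ) :
    0 ≤ (1 - 2 * φ / Real.pi) ^ (2 * n) ∧
      (1 - 2 * φ / Real.pi) ^ (2 * n) ≤ ((1 - 2 * ε / Real.pi) ^ 2) ^ n := by
  have hpi := Real.pi_pos
  have h3 : 0 ≤ 1 - 2 * φ / Real.pi := by
    rw [sub_nonneg, div_le_one hpi]; linarith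
  have h4 : 1 - 2 * φ / Real.pi ≤ 1 - 2 * ε / Real.pi := by
    have : 2 * ε / Real.pi ≤ 2 * φ / Real.pi := by gcongr
    linarith
  refine ⟨by positivity, ?_⟩
  rw [← pow_mul]
  exact pow_le_pow_left₀ h3 h4 _

theorem NF_int (f : ℝ → ℝ) (a b : ℝ) (hf : IntervalIntegrable f volume a b) (n : ℕ) :
    IntervalIntegrable (fun φ => (1 - 2 * φ / Real.pi) ^ (2 * n) * f φ) volume a b :=
  hf.continuousOn_mul (by fun_prop)

theorem NF_tail (u : List ℕ) (hu : HofPers.Adm u) (ε : ℝ) (h0 : 0 < ε) (h1 : ε < Real.pi / 2) :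
    NFsmall fun n => ∫ φ in ε..(Real.pi / 2), (1 - 2 * φ / Real.pi) ^ (2 * n) * Phi u φ := by
  have hpi := Real.pi_pos
  have hint := phi_int u hu
  have hint2 : IntervalIntegrable (Phi u) volume ε (Real.pi / 2) :=
    hint.mono_set (by rw [Set.uIcc_of_le h1.le, Set.uIcc_of_le (by linarith)]
                      exact Set.Icc_subset_Icc h0.le le_rfl)
  refine ⟨∫ φ in ε..(Real.pi / 2), Phi u φ, (1 - 2 * ε / Real.pi) ^ 2, ?_, ?_, fun n => ?_⟩
  · have : 0 < 1 - 2 * ε / Real.pi := by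
      rw [sub_pos, div_lt_one hpi]; linarith
    positivity
  · have h2 : 0 < 1 - 2 * ε / Real.pi := by
      rw [sub_pos, div_lt_one hpi]; linarith
    have h3 : 1 - 2 * ε / Real.pi < 1 := by
      have : 0 < 2 * ε / Real.pi := by positivity
      linarith
    exact pow_lt_one₀ h2.le h3 two_ne_zero
  · rw [abs_of_nonneg]
    · calc ∫ φ in ε..(Real.pi / 2), (1 - 2 * φ / Real.pi) ^ (2 * n) * Phi u φ
          ≤ ∫ φ in ε..(Real.pi / 2), Phi u φ * ((1 - 2 * ε / Real.pi) ^ 2) ^ n := by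
            refine intervalIntegral.integral_mono_on h1.le (NF_int _ _ _ hint2 n)
              (hint2.mul_const _) fun φ hφ => ?_
            have h4 := NF_kernel_le hφ.1 hφ.2 n
            rw [mul_comm (Phi u φ)]
            exact mul_le_mul_of_nonneg_right h4.2 (phi_nonneg u φ)
        _ = (∫ φ in ε..(Real.pi / 2), Phi u φ) * ((1 - 2 * ε / Real.pi) ^ 2) ^ n :=
            intervalIntegral.integral_mul_const _ _
    · exact intervalIntegral.integral_nonneg h1.le fun φ hφ =>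
        mul_nonneg (NF_kernel_le hφ.1 hφ.2 n).1 (phi_nonneg u φ)

theorem NF_mom (u : List ℕ) (hu : HofPers.Adm u) (ε : ℝ) (h0 : 0 < ε) (h1 : ε < Real.pi / 2)
    (n : ℕ) : mom (hh u) n =
      (∫ φ in (0 : ℝ)..ε, (1 - 2 * φ / Real.pi) ^ (2 * n) * Phi u φ) +
      ∫ φ in ε..(Real.pi / 2), (1 - 2 * φ / Real.pi) ^ (2 * n) * Phi u φ := by
  have hint := phi_int u hu
  rw [← chv u hu n]
  refine (intervalIntegral.integral_add_adjacent_intervals ?_ ?_).symm
  · refine NF_int _ _ _ (hint.mono_set ?_) n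
    rw [Set.uIcc_of_le h0.le, Set.uIcc_of_le (by linarith)]
    exact Set.Icc_subset_Icc le_rfl h1.le
  · refine NF_int _ _ _ (hint.mono_set ?_) n
    rw [Set.uIcc_of_le h1.le, Set.uIcc_of_le (by linarith)]
    exact Set.Icc_subset_Icc h0.le le_rfl

theorem NF_lim (f : ℝ → ℝ) (ε : ℝ) (h0 : 0 < ε) (h1 : ε < Real.pi / 2)
    (hf : ContinuousOn f (Set.Icc 0 ε)) :
    Tendsto (fun n : ℕ => ∫ φ in (0 : ℝ)..ε, (1 - 2 * φ / Real.pi) ^ (2 * n) * f φ) atTop (𝓝 0) := by
  have hpi := Real.pi_pos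
  have h2 : Tendsto (fun n : ℕ => ∫ φ in (0 : ℝ)..ε, (1 - 2 * φ / Real.pi) ^ (2 * n) * f φ) atTop
      (𝓝 (∫ _ in (0 : ℝ)..ε, (0 : ℝ))) := by
    refine intervalIntegral.tendsto_integral_filter_of_dominated_convergence (fun φ => |f φ|)
      ?_ ?_ ?_ ?_
    · refine Eventually.of_forall fun n => ?_
      have h3 : ContinuousOn (fun φ => (1 - 2 * φ / Real.pi) ^ (2 * n) * f φ) (Set.Icc 0 ε) :=
        ContinuousOn.mul (by fun_prop) hf
      rw [Set.uIoc_of_le h0.le]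
      exact (h3.mono Set.Ioc_subset_Icc_self).aestronglyMeasurable measurableSet_Ioc
    · refine Eventually.of_forall fun n => Eventually.of_forall fun φ hφ => ?_
      rw [Set.uIoc_of_le h0.le] at hφ
      have h4 := NF_kernel_le (ε := 0) hφ.1.le (hφ.2.trans h1.le) n
      rw [Real.norm_eq_abs, abs_mul, abs_of_nonneg h4.1]
      have h5 : (1 - 2 * φ / Real.pi) ^ (2 * n) ≤ 1 := by simpa using h4.2
      calc (1 - 2 * φ / Real.pi) ^ (2 * n) * |f φ| ≤ 1 * |f φ| :=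
            mul_le_mul_of_nonneg_right h5 (abs_nonneg _)
        _ = |f φ| := one_mul _
    · exact (hf.abs.mono (by rw [Set.uIcc_of_le h0.le])).intervalIntegrable
    · refine Eventually.of_forall fun φ hφ => ?_
      rw [Set.uIoc_of_le h0.le] at hφ
      have h6 : |1 - 2 * φ / Real.pi| < 1 := by
        have : 0 < 2 * φ / Real.pi := by have := hφ.1; positivity
        have h7 : 2 * φ / Real.pi < 1 := by rw [div_lt_one hpi]; linarith [hφ.2]
        rw [abs_lt]; constructor <;> linarith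
      have h8 : Tendsto (fun n : ℕ => (1 - 2 * φ / Real.pi) ^ (2 * n)) atTop (𝓝 0) := by
        have h9 := tendsto_pow_atTop_nhds_zero_of_abs_lt_one (r := (1 - 2 * φ / Real.pi) ^ 2) (by
          rw [abs_pow]; exact pow_lt_one₀ (abs_nonneg _) h6 two_ne_zero)
        simpa only [pow_mul] using h9
      simpa using h8.mul_const (f φ)
  simpa using h2


/-! ### the Euler form of the combination -/

/-- coefficient family in the variable `2n+1` -/
noncomputable def NFP (q : ℝ[X]) : ℝ[X] := q.comp (C (1 / 2) * (X - 1))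

theorem NFP_eval (q : ℝ[X]) (n : ℕ) : (NFP q).eval (2 * (n : ℝ) + 1) = q.eval (n : ℝ) := by
  unfold NFP
  rw [eval_comp]
  congr 1
  simp

theorem NFP_back (q : ℝ[X]) : (NFP q).comp (C 2 * X + 1) = q := by
  unfold NFP
  rw [comp_assoc]
  have : (C (1 / 2) * (X - 1) : ℝ[X]).comp (C 2 * X + 1) = X := by
    simp only [mul_comp, C_comp, sub_comp, X_comp, one_comp, add_sub_cancel_right, ← mul_assoc,
      ← C_mul]
    norm_num
  rw [this, comp_X]

theorem NFP_zero_of (q : ℝ[X]) (h : (NFP q).comp (C (1 / 2) * X) = 0) : q = 0 := by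
  have h1 : NFP q = 0 := by
    have h2 := congrArg (fun p : ℝ[X] => p.comp (C 2 * X)) h
    simp only [comp_assoc, zero_comp] at h2
    have h3 : (C (1 / 2) * X : ℝ[X]).comp (C 2 * X) = X := by
      simp only [mul_comp, C_comp, X_comp, ← mul_assoc, ← C_mul]
      norm_num
    rwa [h3, comp_X] at h2
  rw [← NFP_back q, h1, zero_comp]

/-- the function attached to one word -/
noncomputable def NFth (q : ℝ[X]) (u : List ℕ) (φ : ℝ) : ℝ :=
  ∑ j ∈ Finset.range ((NFP q).natDegree + 1),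
    (NFP q).coeff j * ((1 / 2) ^ j * (tf^[j] (Phi u)) φ)

theorem NF_anal (u : List ℕ) (hu : HofPers.Adm u) (ε : ℝ) (h1 : ε < Real.pi / 2) :
    AnalyticOnNhd ℝ (Phi u) (Set.Icc 0 ε) := fun φ hφ =>
  phi_analytic u hu φ (by rw [abs_of_nonneg hφ.1]; exact lt_of_le_of_lt hφ.2 h1)

theorem NFth_anal (q : ℝ[X]) (u : List ℕ) (hu : HofPers.Adm u) (ε : ℝ) (h1 : ε < Real.pi / 2) :
    AnalyticOnNhd ℝ (NFth q u) (Set.Icc 0 ε) := by
  intro φ hφ
  unfold NFth
  refine Finset.analyticAt_fun_sum _ fun j _ => ?_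
  exact analyticAt_const.mul (analyticAt_const.mul (tf_analytic _ ε (NF_anal u hu ε h1) j φ hφ))

/-- one word: polynomial, plus the local moment, plus a small error -/
theorem NF_one (q : ℝ[X]) (u : List ℕ) (hu : HofPers.Adm u) (ε : ℝ) (h0 : 0 < ε)
    (h1 : ε < Real.pi / 2) :
    ∃ (b : ℝ[X]) (E : ℕ → ℝ), NFsmall E ∧ ∀ n : ℕ, q.eval (n : ℝ) * mom (hh u) n =
      b.eval (n : ℝ) +
        (∫ φ in (0 : ℝ)..ε, (1 - 2 * φ / Real.pi) ^ (2 * n) * NFth q u φ) + E n := by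
  have han := NF_anal u hu ε h1
  choose b C ρ hρ0 hρ1 hb using fun j => ibp (Phi u) ε h0 h1 han j
  set P := NFP q with hP
  set J : ℕ → ℝ := fun n => ∫ φ in (0 : ℝ)..ε, (1 - 2 * φ / Real.pi) ^ (2 * n) * Phi u φ with hJ
  set err : ℕ → ℕ → ℝ := fun j n => (2 * (n : ℝ) + 1) ^ j * J n -
    ((b j).eval (n : ℝ) + (1 / 2) ^ j *
      ∫ φ in (0 : ℝ)..ε, (1 - 2 * φ / Real.pi) ^ (2 * n) * (tf^[j] (Phi u)) φ) with herr
  have hsm : ∀ j, NFsmall (err j) := fun j => ⟨C j, ρ j, hρ0 j, hρ1 j, fun n => hb j n⟩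
  have hT := NF_tail u hu ε h0 h1
  refine ⟨∑ j ∈ Finset.range (P.natDegree + 1), Polynomial.C (P.coeff j) * b j,
    fun n => (∑ j ∈ Finset.range (P.natDegree + 1), P.coeff j * err j n) +
      q.eval (n : ℝ) * ∫ φ in ε..(Real.pi / 2), (1 - 2 * φ / Real.pi) ^ (2 * n) * Phi u φ,
    (NFsmall.sum _ _ fun j _ => (hsm j).const_mul _).add (hT.mul_poly q), fun n => ?_⟩
  rw [NF_mom u hu ε h0 h1 n, mul_add, Polynomial.eval_finsetSum]
  have hint : (∫ φ in (0 : ℝ)..ε, (1 - 2 * φ / Real.pi) ^ (2 * n) * NFth q u φ) =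
      ∑ j ∈ Finset.range (P.natDegree + 1), P.coeff j * ((1 / 2) ^ j *
        ∫ φ in (0 : ℝ)..ε, (1 - 2 * φ / Real.pi) ^ (2 * n) * (tf^[j] (Phi u)) φ) := by
    have h2 : ∀ φ, (1 - 2 * φ / Real.pi) ^ (2 * n) * NFth q u φ =
        ∑ j ∈ Finset.range (P.natDegree + 1), P.coeff j * ((1 / 2) ^ j *
          ((1 - 2 * φ / Real.pi) ^ (2 * n) * (tf^[j] (Phi u)) φ)) := by
      intro φ
      unfold NFth
      rw [Finset.mul_sum]
      exact Finset.sum_congr rfl fun j _ => by ring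
    simp only [h2]
    rw [intervalIntegral.integral_finsetSum]
    · refine Finset.sum_congr rfl fun j _ => ?_
      rw [intervalIntegral.integral_const_mul, intervalIntegral.integral_const_mul]
    · intro j _
      refine ((NF_int _ _ _ ?_ n).const_mul _).const_mul _
      have := (tf_analytic _ ε han j).continuousOn
      exact (this.mono (by rw [Set.uIcc_of_le h0.le])).intervalIntegrable
  rw [hint]
  have h3 : (∑ i ∈ Finset.range (P.natDegree + 1), P.coeff i * (2 * (n : ℝ) + 1) ^ i) * J n =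
      ∑ j ∈ Finset.range (P.natDegree + 1), (P.coeff j * (b j).eval (n : ℝ) +
        P.coeff j * ((1 / 2) ^ j *
          ∫ φ in (0 : ℝ)..ε, (1 - 2 * φ / Real.pi) ^ (2 * n) * (tf^[j] (Phi u)) φ) +
        P.coeff j * err j n) := by
    rw [Finset.sum_mul]
    refine Finset.sum_congr rfl fun j _ => ?_
    simp only [herr]
    ring
  rw [Finset.sum_add_distrib, Finset.sum_add_distrib] at h3
  have h4 : q.eval (n : ℝ) * J n =
      (∑ i ∈ Finset.range (P.natDegree + 1), P.coeff i * (2 * (n : ℝ) + 1) ^ i) * J n := by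
    rw [← NFP_eval q n, ← hP, Polynomial.eval_eq_sum_range]
  rw [h3] at h4
  change q.eval (n : ℝ) * J n + _ = _
  rw [h4]
  simp only [Polynomial.eval_mul, Polynomial.eval_C]
  rw [add_assoc _ _ (q.eval (n : ℝ) * _)]

theorem NF_ev_sum {α : Type} (s : Finset α) (p : α → MM) (φ : ℝ) :
    ev (∑ a ∈ s, p a) φ = ∑ a ∈ s, ev (p a) φ := by
  classical
  induction s using Finset.induction_on with
  | empty => simp [ev_zero]
  | insert a s ha ih => rw [Finset.sum_insert ha, ev_add, ih, Finset.sum_insert ha]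

theorem NF_ev (q : ℝ[X]) (u : List ℕ) (hu : HofPers.Adm u) (φ : ℝ) (h0 : 0 < φ)
    (h1 : φ < Real.pi / 2) :
    ev ((aeval TT ((NFP q).comp (C (1 / 2) * X)) : Module.End ℝ MM)
      (Finsupp.single (enc u) 1)) φ = NFth q u φ := by
  have h2 : (aeval TT ((NFP q).comp (C (1 / 2) * X)) : Module.End ℝ MM) =
      ∑ j ∈ Finset.range ((NFP q).natDegree + 1),
        ((NFP q).coeff j * (1 / 2) ^ j) • (TT ^ j : Module.End ℝ MM) := by
    rw [aeval_comp]
    have h3 : (aeval TT (C (1 / 2) * X : ℝ[X]) : Module.End ℝ MM) = (1 / 2 : ℝ) • TT := by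
      rw [map_mul, aeval_C, aeval_X, Algebra.smul_def]
    rw [h3, aeval_eq_sum_range]
    refine Finset.sum_congr rfl fun j _ => ?_
    rw [_root_.smul_pow, smul_smul]
  rw [h2, LinearMap.sum_apply, NF_ev_sum]
  unfold NFth
  refine Finset.sum_congr rfl fun j _ => ?_
  rw [LinearMap.smul_apply, ev_smul, tf_iter u hu j φ h0 h1]
  ring

theorem NF_adm {k : ℕ} {u : List ℕ} (h : Hof k u) : HofPers.Adm u := by
  intro a ha
  rcases h.1 a ha with h1 | h1 <;> omega

theorem NF_twos {k : ℕ} {u v : List ℕ} (hu : Hof k u) (hv : Hof k v) (h3 : 3 ∉ u) (h3' : 3 ∉ v) :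
    u = v := by
  have key : ∀ w : List ℕ, (∀ a ∈ w, a = 2 ∨ a = 3) → 3 ∉ w → w = List.replicate w.length 2 := by
    intro w hw h
    refine List.eq_replicate_iff.2 ⟨rfl, fun b hb => ?_⟩
    rcases hw b hb with h1 | h1
    · exact h1
    · exact absurd (h1 ▸ hb) h
  have h1 := key u hu.1 h3
  have h2 := key v hv.1 h3'
  have e1 := hu.2
  have e2 := hv.2
  rw [h1, List.sum_replicate] at e1
  rw [h2, List.sum_replicate] at e2
  simp only [smul_eq_mul] at e1 e2
  have : u.length = v.length := by omega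
  rw [h1, h2, this]

theorem NF_mom_lower (u : List ℕ) (hu : HofPers.Adm u) : NonFlat fun n => mom (hh u) n := by
  have hpi := Real.pi_gt_three
  have hne : ¬ ∀ᶠ φ in 𝓝[>] (0 : ℝ), Phi u φ = 0 := by
    intro h
    have h2 : ∀ᶠ φ in 𝓝[>] (0 : ℝ), φ ∈ Set.Ioo (0 : ℝ) 1 :=
      Ioo_mem_nhdsGT one_pos
    obtain ⟨φ, hφ1, hφ2⟩ := (h.and h2).exists
    exact (phi_pos u hu φ hφ2.1 (by linarith [hφ2.2])).ne' hφ1
  obtain ⟨ε0, hε0, h⟩ := nonflat_local (Phi u) (phi_analytic u hu 0 (by simp; linarith)) hne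
  set ε := min ε0 1 with hε
  have hε1 : 0 < ε := lt_min hε0 one_pos
  have hε2 : ε < Real.pi / 2 := lt_of_le_of_lt (min_le_right _ _) (by linarith)
  obtain ⟨c, m, N0, hc, hb⟩ := h ε hε1 (min_le_left _ _)
  refine ⟨c, m, N0, hc, fun n hn => ?_⟩
  have h1 := hb n hn
  beta_reduce at h1 ⊢
  rw [NF_mom u hu ε hε1 hε2 n]
  have h2 : 0 ≤ ∫ φ in (0 : ℝ)..ε, (1 - 2 * φ / Real.pi) ^ (2 * n) * Phi u φ :=
    intervalIntegral.integral_nonneg hε1.le fun φ hφ =>
      mul_nonneg (NF_kernel_le hφ.1 (hφ.2.trans hε2.le) n).1 (phi_nonneg u φ)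
  have h3 : 0 ≤ ∫ φ in ε..(Real.pi / 2), (1 - 2 * φ / Real.pi) ^ (2 * n) * Phi u φ :=
    intervalIntegral.integral_nonneg hε2.le fun φ hφ =>
      mul_nonneg (NF_kernel_le hφ.1 hφ.2 n).1 (phi_nonneg u φ)
  rw [abs_of_nonneg h2] at h1
  rw [abs_of_nonneg (add_nonneg h2 h3)]
  linarith

theorem NF_poly_lower (q : ℝ[X]) (hq : q ≠ 0) :
    ∃ (c : ℝ) (N0 : ℕ), 0 < c ∧ ∀ n : ℕ, N0 ≤ n → c ≤ |q.eval (n : ℝ)| := by
  by_cases hd : q.degree ≤ 0
  · have h1 := eq_C_of_degree_le_zero hd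
    have h2 : q.coeff 0 ≠ 0 := by
      intro h0
      rw [h0, C_0] at h1
      exact hq h1
    refine ⟨|q.coeff 0|, 0, abs_pos.2 h2, fun n _ => ?_⟩
    rw [h1]
    simp
  · push Not at hd
    have h1 := Polynomial.abs_tendsto_atTop q hd
    have h2 := (h1.comp tendsto_natCast_atTop_atTop).eventually (eventually_ge_atTop 1)
    obtain ⟨N0, hN0⟩ := eventually_atTop.1 h2
    exact ⟨1, N0, one_pos, fun n hn => hN0 n hn⟩

theorem polyInd_hof (k : ℕ) (U : Finset (List ℕ)) (hU : ∀ u ∈ U, Hof k u) :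
    PolyInd fun u : {u // u ∈ U} => mom (hh u.1) := by
  classical
  intro Q hQ
  have hpi := Real.pi_gt_three
  have hadm : ∀ u ∈ U, HofPers.Adm u := fun u hu => NF_adm (hU u hu)
  set Θ : ℝ → ℝ := fun φ => ∑ u : {u // u ∈ U}, NFth (Q u) u.1 φ with hΘ
  have hΘan : ∀ ε : ℝ, ε < Real.pi / 2 → AnalyticOnNhd ℝ Θ (Set.Icc 0 ε) := by
    intro ε hε φ hφ
    exact Finset.analyticAt_fun_sum _ fun u _ => NFth_anal (Q u) u.1 (hadm u.1 u.2) ε hε φ hφ
  by_cases hne : ∀ᶠ φ in 𝓝[>] (0 : ℝ), Θ φ = 0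
  · -- the algebraic case
    obtain ⟨ε, hε0, hε⟩ := mem_nhdsGT_iff_exists_Ioo_subset.1 hne
    have hε0' : (0 : ℝ) < ε := hε0
    set p : MM := ∑ u ∈ U.attach, (aeval TT ((NFP (Q u)).comp (C (1 / 2) * X)) :
      Module.End ℝ MM) (Finsupp.single (enc u.1) 1) with hp
    have hgood : ∀ W ∈ p.support, good W := by
      have hsub : ∀ (r : ℝ[X]) (u : List ℕ), ∀ W ∈ ((aeval TT r : Module.End ℝ MM)
          (Finsupp.single (enc u) 1)).support, good W := by
        intro r u W hW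
        rw [aeval_eq_sum_range, LinearMap.sum_apply] at hW
        obtain ⟨j, _, hj⟩ := Finset.mem_biUnion.1 (Finsupp.support_finsetSum hW)
        rw [LinearMap.smul_apply] at hj
        exact good_TT u j W (Finsupp.support_smul hj)
      intro W hW
      rw [hp] at hW
      obtain ⟨u, _, hu⟩ := Finset.mem_biUnion.1 (Finsupp.support_finsetSum hW)
      exact hsub _ _ W hu
    have hp0 : p = 0 := by
      refine ev_inj p hgood (min ε 1) (lt_min hε0' one_pos) fun φ h0 h1 => ?_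
      rw [hp, NF_ev_sum]
      have h2 : Θ φ = 0 := hε ⟨h0, lt_of_lt_of_le h1 (min_le_left _ _)⟩
      rw [← h2, hΘ]
      refine (Finset.sum_congr rfl fun u _ => NF_ev (Q u) u.1 (hadm u.1 u.2) φ h0
        (lt_of_lt_of_le h1 ((min_le_right _ _).trans (by linarith)))).trans ?_
      rw [Finset.univ_eq_attach]
    have halg := fi_alg k U hU (fun u => if h : u ∈ U then
      (NFP (Q ⟨u, h⟩)).comp (C (1 / 2) * X) else 0) (by
        rw [← hp0, hp, ← Finset.sum_attach]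
        refine Finset.sum_congr rfl fun u _ => ?_
        rw [dif_pos u.2])
    have hQ3 : ∀ u : {u // u ∈ U}, 3 ∈ u.1 → Q u = 0 := by
      intro u h3
      have h4 := halg u.1 u.2 h3
      rw [dif_pos u.2] at h4
      exact NFP_zero_of _ h4
    obtain ⟨u0, hu0⟩ : ∃ u0, Q u0 ≠ 0 := by
      by_contra hcon
      push Not at hcon
      exact hQ (funext hcon)
    have h30 : 3 ∉ u0.1 := fun h => hu0 (hQ3 u0 h)
    have hsum : ∀ n : ℕ, ∑ u : {u // u ∈ U}, (Q u).eval (n : ℝ) * mom (hh u.1) n =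
        (Q u0).eval (n : ℝ) * mom (hh u0.1) n := by
      intro n
      refine Finset.sum_eq_single u0 (fun u _ hu => ?_) (fun h => absurd (Finset.mem_univ _) h)
      have : Q u = 0 := by
        by_contra hq
        have h3u : 3 ∉ u.1 := fun h => hq (hQ3 u h)
        exact hu (Subtype.ext (NF_twos (hU u.1 u.2) (hU u0.1 u0.2) h3u h30))
      rw [this, eval_zero, zero_mul]
    obtain ⟨c, m, N0, hc, hb⟩ := NF_mom_lower u0.1 (hadm u0.1 u0.2)
    obtain ⟨c', N1, hc', hb'⟩ := NF_poly_lower (Q u0) hu0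
    refine ⟨c' * c, m, max N0 N1, mul_pos hc' hc, fun n hn => ?_⟩
    have h1 := hb n (le_trans (le_max_left _ _) hn)
    have h2 := hb' n (le_trans (le_max_right _ _) hn)
    beta_reduce at h1 ⊢
    rw [hsum n, abs_mul, mul_div_assoc]
    exact mul_le_mul h2 h1 (by positivity) (abs_nonneg _)
  · -- the analytic case
    obtain ⟨ε0, hε0, h⟩ := nonflat_local Θ
      (hΘan 1 (by linarith) 0 ⟨le_rfl, zero_le_one⟩) hne
    set ε := min ε0 1 with hε
    have hε1 : 0 < ε := lt_min hε0 one_pos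
    have hε2 : ε < Real.pi / 2 := lt_of_le_of_lt (min_le_right _ _) (by linarith)
    choose b E hE hb using fun u : {u // u ∈ U} => NF_one (Q u) u.1 (hadm u.1 u.2) ε hε1 hε2
    obtain ⟨C, ρ, hρ0, hρ1, hC⟩ := NFsmall.sum Finset.univ E fun u _ => hE u
    have hfin := nonflat_add (∑ u, b u)
      (fun n => ∫ φ in (0 : ℝ)..ε, (1 - 2 * φ / Real.pi) ^ (2 * n) * Θ φ)
      (fun n => ∑ u, E u n) (h ε hε1 (min_le_left _ _))
      (NF_lim Θ ε hε1 hε2 (hΘan ε hε2).continuousOn) C ρ hρ0 hρ1 hC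
    have key : (fun n : ℕ => (∑ u, b u).eval (n : ℝ) +
        (∫ φ in (0 : ℝ)..ε, (1 - 2 * φ / Real.pi) ^ (2 * n) * Θ φ) + ∑ u, E u n) =
        fun n : ℕ => ∑ u : {u // u ∈ U}, (Q u).eval (n : ℝ) * mom (hh u.1) n := ?_
    · rw [key] at hfin
      exact hfin
    funext n
    have hint : (∫ φ in (0 : ℝ)..ε, (1 - 2 * φ / Real.pi) ^ (2 * n) * Θ φ) =
        ∑ u : {u // u ∈ U}, ∫ φ in (0 : ℝ)..ε, (1 - 2 * φ / Real.pi) ^ (2 * n) *
          NFth (Q u) u.1 φ := by
      have h2 : ∀ φ, (1 - 2 * φ / Real.pi) ^ (2 * n) * Θ φ =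
          ∑ u : {u // u ∈ U}, (1 - 2 * φ / Real.pi) ^ (2 * n) * NFth (Q u) u.1 φ := by
        intro φ
        rw [hΘ, Finset.mul_sum]
      simp only [h2]
      rw [intervalIntegral.integral_finsetSum]
      intro u _
      refine NF_int _ _ _ ?_ n
      have := (NFth_anal (Q u) u.1 (hadm u.1 u.2) ε hε2).continuousOn
      exact (this.mono (by rw [Set.uIcc_of_le hε1.le])).intervalIntegrable
    rw [hint, Polynomial.eval_finsetSum, ← Finset.sum_add_distrib, ← Finset.sum_add_distrib]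
    exact Finset.sum_congr rfl fun u _ => (hb u n).symm

end HofAA
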