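import Pool.Agent.Lib.MP_301213_nt.AA.Defs

/-! MP_301213_nt, almost all theorem: differential relations -/

set_option autoImplicit false

open Polynomial MeasureTheory Filter Topology

namespace HofAA

/-- half of the derivative of `Phi (2 :: u)` -/
noncomputable def Lam (u : List ℕ) (φ : ℝ) : ℝ :=
  Real.cot φ * ∑' M : ℕ, HofPers.aR (1 :: u) M * sk M φ

theorem pd_aR_le_one : ∀ (l : List ℕ), (∀ a ∈ l, 1 ≤ a) → ∀ M : ℕ, HofPers.aR l M ≤ 1
  | [], _, M => by simp only [HofPers.aR]; split_ifs <;> norm_num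
  | (a :: l), h, M => by
    simp only [HofPers.aR]
    have ha : 1 ≤ a := h a (by simp)
    have hs : ∑ j ∈ Finset.range M, HofPers.aR l j ≤ M := by
      calc ∑ j ∈ Finset.range M, HofPers.aR l j ≤ ∑ j ∈ Finset.range M, (1 : ℝ) :=
            Finset.sum_le_sum fun j _ =>
              pd_aR_le_one l (fun b hb => h b (List.mem_cons_of_mem _ hb)) j
        _ = M := by simp
    rcases Nat.eq_zero_or_pos M with rfl | hM
    · simp
    · have hM1 : (1 : ℝ) ≤ (M : ℝ) := by exact_mod_cast hM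
      have hp : (M : ℝ) ≤ (M : ℝ) ^ a := by
        calc (M : ℝ) = (M : ℝ) ^ 1 := (pow_one _).symm
          _ ≤ (M : ℝ) ^ a := pow_le_pow_right₀ hM1 ha
      have hpos : (0 : ℝ) < (M : ℝ) ^ a := by positivity
      rw [inv_mul_le_iff₀ hpos, mul_one]
      exact hs.trans hp

/-- the coefficient of the kernel -/
noncomputable def pdC (M : ℕ) : ℝ := 4 ^ M / (Nat.centralBinom M : ℝ)

theorem pdC_nonneg (M : ℕ) : 0 ≤ pdC M := by unfold pdC; positivity

theorem pdC_le (M : ℕ) : pdC M ≤ 2 * M + 1 := by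
  unfold pdC
  have hc : (0 : ℝ) < (Nat.centralBinom M : ℝ) := by exact_mod_cast Nat.centralBinom_pos M
  rw [div_le_iff₀ hc]
  rcases Nat.eq_zero_or_pos M with rfl | hM
  · simp
  · have h := Nat.four_pow_le_two_mul_self_mul_centralBinom M hM
    have h2 : (4 : ℝ) ^ M ≤ 2 * M * (Nat.centralBinom M : ℝ) := by exact_mod_cast h
    nlinarith

theorem sk_eq (M : ℕ) (φ : ℝ) : sk M φ = pdC M * Real.sin φ ^ (2 * M) := by
  unfold sk pdC; ring

/-- derivative of the kernel -/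
noncomputable def skd (M : ℕ) (φ : ℝ) : ℝ :=
  pdC M * ((2 * M : ℕ) * Real.sin φ ^ (2 * M - 1) * Real.cos φ)

theorem sk_hasDerivAt (M : ℕ) (φ : ℝ) : HasDerivAt (sk M) (skd M φ) φ := by
  have h : HasDerivAt (fun x => pdC M * Real.sin x ^ (2 * M)) (skd M φ) φ :=
    ((Real.hasDerivAt_sin φ).pow (2 * M)).const_mul _
  exact h.congr_of_eventuallyEq (Eventually.of_forall fun x => sk_eq M x)

theorem skd_eq (M : ℕ) (φ : ℝ) (h : Real.sin φ ≠ 0) :
    skd M φ = 2 * M * Real.cot φ * sk M φ := by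
  rw [sk_eq, skd, Real.cot_eq_cos_div_sin]
  rcases Nat.eq_zero_or_pos M with rfl | hM
  · simp
  · obtain ⟨m, rfl⟩ : ∃ m, M = m + 1 := ⟨M - 1, by omega⟩
    have e : 2 * (m + 1) = (2 * (m + 1) - 1) + 1 := by omega
    rw [show Real.sin φ ^ (2 * (m + 1)) = Real.sin φ ^ (2 * (m + 1) - 1) * Real.sin φ by
      rw [← pow_succ, ← e]]
    field_simp
    push_cast
    ring

theorem pd_summable (s : ℝ) (h0 : 0 ≤ s) (h1 : s < 1) :
    Summable fun M : ℕ => (2 * (M : ℝ) + 1) * ((2 * M : ℕ) * s ^ (2 * M - 1)) := by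
  have hs : ‖s ^ 2‖ < 1 := by
    rw [Real.norm_eq_abs, abs_of_nonneg (by positivity)]
    nlinarith
  have h2 : ∀ k : ℕ, Summable fun M : ℕ => ((M : ℝ) ^ k * (s ^ 2) ^ M) := fun k =>
    summable_pow_mul_geometric_of_norm_lt_one k hs
  have h3 : Summable fun M : ℕ =>
      (2 * ((M + 1 : ℕ) : ℝ) + 1) * ((2 * (M + 1) : ℕ) * s ^ (2 * (M + 1) - 1)) := by
    have h4 : Summable fun M : ℕ => (s * 4) * ((M : ℝ) ^ 2 * (s ^ 2) ^ M) +
        ((s * 10) * ((M : ℝ) ^ 1 * (s ^ 2) ^ M) + (s * 6) * ((M : ℝ) ^ 0 * (s ^ 2) ^ M)) :=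
      ((h2 2).mul_left _).add (((h2 1).mul_left _).add ((h2 0).mul_left _))
    refine h4.congr fun M => ?_
    have e : s ^ (2 * (M + 1) - 1) = (s ^ 2) ^ M * s := by
      rw [← pow_mul, ← pow_succ]; congr 1
    rw [e]
    push_cast
    ring
  exact (summable_nat_add_iff 1).1 h3

theorem pd_sin_bd {φ0 φ : ℝ} (h1 : φ0 < Real.pi / 2) (h : |φ| < φ0) :
    |Real.sin φ| ≤ Real.sin φ0 := by
  have h2 := abs_lt.1 h
  rw [abs_le]
  constructor
  · rw [← Real.sin_neg]
    exact Real.sin_le_sin_of_le_of_le_pi_div_two (by linarith) (by linarith) (by linarith)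
  · exact Real.sin_le_sin_of_le_of_le_pi_div_two (by linarith) (by linarith) (by linarith)

/-- termwise differentiation -/
theorem pd_tsum_deriv (c : ℕ → ℝ) (hc : ∀ M, |c M| ≤ 1) (φ : ℝ) (h : |φ| < Real.pi / 2) :
    HasDerivAt (fun x => ∑' M : ℕ, c M * sk M x) (∑' M : ℕ, c M * skd M φ) φ := by
  obtain ⟨φ0, ha, hb⟩ := exists_between h
  have hφ0 : 0 < φ0 := (abs_nonneg φ).trans_lt ha
  have hs0 : 0 ≤ Real.sin φ0 :=
    Real.sin_nonneg_of_nonneg_of_le_pi hφ0.le (by linarith [Real.pi_pos])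
  have hs1 : Real.sin φ0 < 1 := by
    rw [← Real.sin_pi_div_two]
    exact Real.sin_lt_sin_of_lt_of_le_pi_div_two (by linarith [Real.pi_pos]) le_rfl hb
  refine hasDerivAt_tsum_of_isPreconnected (g := fun (M : ℕ) (x : ℝ) => c M * sk M x)
    (g' := fun (M : ℕ) (x : ℝ) => c M * skd M x) (t := Set.Ioo (-φ0) φ0)
    (u := fun M : ℕ => (2 * (M : ℝ) + 1) * ((2 * M : ℕ) * Real.sin φ0 ^ (2 * M - 1)))
    (pd_summable _ hs0 hs1) isOpen_Ioo isPreconnected_Ioo ?_ ?_ (y₀ := 0) ⟨by linarith, hφ0⟩ ?_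
    (abs_lt.1 ha)
  · intro M y _
    exact (sk_hasDerivAt M y).const_mul _
  · intro M y hy
    have hy' : |y| < φ0 := abs_lt.2 hy
    rw [Real.norm_eq_abs, abs_mul, skd, abs_mul, abs_of_nonneg (pdC_nonneg M), abs_mul, abs_mul,
      abs_pow, Nat.abs_cast]
    have e1 := pd_sin_bd hb hy'
    have e2 : |Real.sin y| ^ (2 * M - 1) ≤ Real.sin φ0 ^ (2 * M - 1) :=
      pow_le_pow_left₀ (abs_nonneg _) e1 _
    have e3 : |Real.cos y| ≤ 1 := Real.abs_cos_le_one y
    have e4 := pdC_le M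
    have e5 : ((2 * M : ℕ) : ℝ) * |Real.sin y| ^ (2 * M - 1) * |Real.cos y| ≤
        (2 * M : ℕ) * Real.sin φ0 ^ (2 * M - 1) := by
      calc ((2 * M : ℕ) : ℝ) * |Real.sin y| ^ (2 * M - 1) * |Real.cos y|
          ≤ ((2 * M : ℕ) : ℝ) * |Real.sin y| ^ (2 * M - 1) * 1 := by gcongr
        _ ≤ (2 * M : ℕ) * Real.sin φ0 ^ (2 * M - 1) := by rw [mul_one]; gcongr
    calc |c M| * (pdC M * (((2 * M : ℕ) : ℝ) * |Real.sin y| ^ (2 * M - 1) * |Real.cos y|))
        ≤ 1 * ((2 * (M : ℝ) + 1) * ((2 * M : ℕ) * Real.sin φ0 ^ (2 * M - 1))) := by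
          have := pdC_nonneg M
          have := hc M
          gcongr
      _ = _ := one_mul _
  · refine summable_of_ne_finset_zero (s := {0}) fun M hM => ?_
    have hM0 : M ≠ 0 := by simpa using hM
    simp [sk_eq, hM0]

/-- summability with polynomial weights -/
theorem pd_summable_sk (c : ℕ → ℝ) (hc : ∀ M, |c M| ≤ (M : ℝ) + 1) (φ : ℝ)
    (h : |φ| < Real.pi / 2) : Summable fun M : ℕ => c M * sk M φ := by
  have hs : ‖Real.sin φ ^ 2‖ < 1 := by
    have h1 := abs_lt.1 h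
    have hcos : 0 < Real.cos φ := Real.cos_pos_of_mem_Ioo ⟨by linarith, by linarith⟩
    rw [Real.norm_eq_abs, abs_of_nonneg (by positivity)]
    have := Real.sin_sq_add_cos_sq φ
    nlinarith [pow_pos hcos 2]
  have h2 : ∀ k : ℕ, Summable fun M : ℕ => ((M : ℝ) ^ k * (Real.sin φ ^ 2) ^ M) := fun k =>
    summable_pow_mul_geometric_of_norm_lt_one k hs
  have h4 : Summable fun M : ℕ => 2 * ((M : ℝ) ^ 2 * (Real.sin φ ^ 2) ^ M) +
      (3 * ((M : ℝ) ^ 1 * (Real.sin φ ^ 2) ^ M) + 1 * ((M : ℝ) ^ 0 * (Real.sin φ ^ 2) ^ M)) :=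
    ((h2 2).mul_left _).add (((h2 1).mul_left _).add ((h2 0).mul_left _))
  refine Summable.of_norm_bounded h4 fun M => ?_
  rw [Real.norm_eq_abs, abs_mul, sk_eq, abs_mul, abs_of_nonneg (pdC_nonneg M), pow_mul,
    abs_of_nonneg (show (0 : ℝ) ≤ (Real.sin φ ^ 2) ^ M by positivity)]
  have e4 := pdC_le M
  calc |c M| * (pdC M * (Real.sin φ ^ 2) ^ M)
      ≤ ((M : ℝ) + 1) * ((2 * M + 1) * (Real.sin φ ^ 2) ^ M) := by
        have := pdC_nonneg M
        have := hc M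
        gcongr
    _ = _ := by ring

theorem pd_adm {u : List ℕ} (hu : HofPers.Adm u) : ∀ a ∈ u, 1 ≤ a := fun a ha =>
  (show 1 ≤ 2 by norm_num).trans (hu a ha)

theorem pd_abs {l : List ℕ} (hl : ∀ a ∈ l, 1 ≤ a) (M : ℕ) : |HofPers.aR l M| ≤ 1 := by
  rw [abs_of_nonneg (HofPers.aR_nonneg l M)]
  exact pd_aR_le_one l hl M

theorem pd_sin_ne (φ : ℝ) (h0 : 0 < φ) (h1 : φ < Real.pi / 2) : Real.sin φ ≠ 0 :=
  (Real.sin_pos_of_pos_of_lt_pi h0 (by linarith [Real.pi_pos])).ne'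

theorem pd_aR_succ (k : ℕ) (u : List ℕ) (M : ℕ) :
    (M : ℝ) * HofPers.aR ((k + 1) :: u) M = HofPers.aR (k :: u) M := by
  simp only [HofPers.aR]
  rcases Nat.eq_zero_or_pos M with rfl | hM
  · simp
  · have hM0 : (M : ℝ) ≠ 0 := by positivity
    rw [pow_succ]
    field_simp

/-- one step, general form -/
theorem pd_step (k : ℕ) (u : List ℕ) (hl : ∀ a ∈ (k + 1) :: u, 1 ≤ a) (φ : ℝ) (h0 : 0 < φ)
    (h1 : φ < Real.pi / 2) :
    HasDerivAt (fun x => ∑' M : ℕ, HofPers.aR ((k + 1) :: u) M * sk M x)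
      (2 * Real.cot φ * ∑' M : ℕ, HofPers.aR (k :: u) M * sk M φ) φ := by
  have h := pd_tsum_deriv (fun M => HofPers.aR ((k + 1) :: u) M) (pd_abs hl) φ
    (by rw [abs_of_pos h0]; exact h1)
  convert h using 1
  rw [← tsum_mul_left]
  refine tsum_congr fun M => ?_
  rw [skd_eq M φ (pd_sin_ne φ h0 h1), ← pd_aR_succ]
  ring

theorem phi_nil (φ : ℝ) : Phi [] φ = 1 := by
  unfold Phi
  rw [tsum_eq_single 0]
  · simp [HofPers.aR, sk]
  · intro M hM
    simp [HofPers.aR, hM]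

theorem pdC_succ (M : ℕ) : (2 * (M : ℝ) + 1) * pdC (M + 1) = 2 * (M + 1) * pdC M := by
  unfold pdC
  have h := Nat.succ_mul_centralBinom_succ M
  have h' : ((M : ℝ) + 1) * (Nat.centralBinom (M + 1) : ℝ) =
      2 * (2 * M + 1) * (Nat.centralBinom M : ℝ) := by exact_mod_cast h
  have hc : (Nat.centralBinom M : ℝ) ≠ 0 := by exact_mod_cast (Nat.centralBinom_pos M).ne'
  have hc' : (Nat.centralBinom (M + 1) : ℝ) ≠ 0 := by
    exact_mod_cast (Nat.centralBinom_pos (M + 1)).ne'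
  field_simp
  rw [pow_succ]
  linear_combination (-2 * 4 ^ M : ℝ) * h'

/-- termwise identity for the derivative of `cot * G` -/
theorem pd_term (M : ℕ) (φ : ℝ) (hs : Real.sin φ ≠ 0) :
    -(1 + Real.cot φ ^ 2) * sk (M + 1) φ + Real.cot φ * skd (M + 1) φ =
      2 * ((M : ℝ) + 1) * (sk M φ - sk (M + 1) φ) := by
  rw [skd_eq _ _ hs]
  have hsk : sk (M + 1) φ = pdC (M + 1) * Real.sin φ ^ (2 * M) * Real.sin φ ^ 2 := by
    rw [sk_eq, mul_assoc, ← pow_add]; rfl
  have hcs := Real.sin_sq_add_cos_sq φ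
  have hC := pdC_succ M
  rw [hsk, sk_eq M, Real.cot_eq_cos_div_sin]
  have e : -(1 + (Real.cos φ / Real.sin φ) ^ 2) *
        (pdC (M + 1) * Real.sin φ ^ (2 * M) * Real.sin φ ^ 2) +
      Real.cos φ / Real.sin φ * (2 * ((M + 1 : ℕ) : ℝ) * (Real.cos φ / Real.sin φ) *
        (pdC (M + 1) * Real.sin φ ^ (2 * M) * Real.sin φ ^ 2)) =
      pdC (M + 1) * Real.sin φ ^ (2 * M) *
        (-(Real.sin φ ^ 2 + Real.cos φ ^ 2) + 2 * ((M : ℝ) + 1) * Real.cos φ ^ 2) := by
    push_cast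
    field_simp
  rw [e, hcs]
  have hc2 : Real.cos φ ^ 2 = 1 - Real.sin φ ^ 2 := by linarith
  rw [hc2]
  linear_combination (Real.sin φ ^ (2 * M)) * hC

theorem pd_Sadd (u : List ℕ) (M : ℕ) :
    ((M : ℝ) + 1) * HofPers.aR (1 :: u) (M + 1) = ∑ j ∈ Finset.range (M + 1), HofPers.aR u j := by
  simp only [HofPers.aR, pow_one]
  have : ((M + 1 : ℕ) : ℝ) ≠ 0 := by positivity
  push_cast at this ⊢
  field_simp

theorem phi_two (u : List ℕ) (hu : HofPers.Adm u) (φ : ℝ) (h0 : 0 < φ) (h1 : φ < Real.pi / 2) :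
    HasDerivAt (Phi (2 :: u)) (2 * Lam u φ) φ ∧ HasDerivAt (Lam u) (2 * Phi u φ) φ := by
  have habs : |φ| < Real.pi / 2 := by rw [abs_of_pos h0]; exact h1
  have hs := pd_sin_ne φ h0 h1
  have hl1 : ∀ a ∈ 1 :: u, 1 ≤ a := by
    intro a ha
    rcases List.mem_cons.1 ha with rfl | ha
    · exact le_rfl
    · exact pd_adm hu a ha
  refine ⟨?_, ?_⟩
  · have h := pd_step 1 u (by
      intro a ha
      rcases List.mem_cons.1 ha with rfl | ha
      · norm_num
      · exact pd_adm hu a ha) φ h0 h1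
    refine (h.congr_deriv ?_)
    rw [Lam]; ring
  · -- derivative of cot
    have hcot : HasDerivAt Real.cot (-(1 + Real.cot φ ^ 2)) φ := by
      have h := (Real.hasDerivAt_cos φ).div (Real.hasDerivAt_sin φ) hs
      have e : (-Real.sin φ * Real.sin φ - Real.cos φ * Real.cos φ) / Real.sin φ ^ 2 =
          -(1 + Real.cot φ ^ 2) := by
        rw [Real.cot_eq_cos_div_sin]; field_simp; ring
      rw [e] at h
      exact h.congr_of_eventuallyEq (Eventually.of_forall fun x => Real.cot_eq_cos_div_sin x)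
    have hG := pd_tsum_deriv (fun M => HofPers.aR (1 :: u) M) (pd_abs hl1) φ habs
    have hmul := hcot.mul hG
    refine hmul.congr_deriv ?_
    -- the value
    have hg1 : ∀ M : ℕ, |HofPers.aR (1 :: u) M| ≤ (M : ℝ) + 1 := fun M =>
      (pd_abs hl1 M).trans (by linarith [Nat.cast_nonneg (α := ℝ) M])
    have hsum1 := pd_summable_sk (fun M => HofPers.aR (1 :: u) M) hg1 φ habs
    set S : ℕ → ℝ := fun M => ∑ j ∈ Finset.range M, HofPers.aR u j with hS
    have hSabs : ∀ M, |S M| ≤ (M : ℝ) := by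
      intro M
      calc |S M| ≤ ∑ j ∈ Finset.range M, |HofPers.aR u j| := Finset.abs_sum_le_sum_abs _ _
        _ ≤ ∑ j ∈ Finset.range M, (1 : ℝ) := Finset.sum_le_sum fun j _ => pd_abs (pd_adm hu) j
        _ = M := by simp
    have hsS := pd_summable_sk S (fun M => (hSabs M).trans (by linarith)) φ habs
    have hsS1 := pd_summable_sk (fun M => S (M + 1)) (fun M => by
      have := hSabs (M + 1); push_cast at this; exact this) φ habs
    have hsU := pd_summable_sk (fun M => HofPers.aR u M) (fun M =>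
      (pd_abs (pd_adm hu) M).trans (by linarith [Nat.cast_nonneg (α := ℝ) M])) φ habs
    have hsum2 : Summable fun M : ℕ => HofPers.aR (1 :: u) M * skd M φ := by
      have h := pd_summable_sk (fun M => (M : ℝ) * HofPers.aR (1 :: u) M) (fun M => by
        rw [abs_mul, Nat.abs_cast]
        have := pd_abs hl1 M
        have h2 : (0 : ℝ) ≤ M := Nat.cast_nonneg M
        nlinarith [abs_nonneg (HofPers.aR (1 :: u) M)]) φ habs
      refine (h.mul_left (2 * Real.cot φ)).congr fun M => ?_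
      rw [skd_eq M φ hs]; ring
    have e1 : -(1 + Real.cot φ ^ 2) * ∑' M : ℕ, HofPers.aR (1 :: u) M * sk M φ +
        Real.cot φ * ∑' M : ℕ, HofPers.aR (1 :: u) M * skd M φ =
        ∑' M : ℕ, HofPers.aR (1 :: u) M *
          (-(1 + Real.cot φ ^ 2) * sk M φ + Real.cot φ * skd M φ) := by
      rw [← tsum_mul_left, ← tsum_mul_left, ← (hsum1.mul_left _).tsum_add (hsum2.mul_left _)]
      refine tsum_congr fun M => ?_
      ring
    rw [e1]
    have hs3 : Summable fun M : ℕ => HofPers.aR (1 :: u) M *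
          (-(1 + Real.cot φ ^ 2) * sk M φ + Real.cot φ * skd M φ) := by
      refine ((hsum1.mul_left (-(1 + Real.cot φ ^ 2))).add (hsum2.mul_left (Real.cot φ))).congr
        fun M => ?_
      ring
    rw [hs3.tsum_eq_zero_add]
    have e0 : HofPers.aR (1 :: u) 0 = 0 := by simp [HofPers.aR]
    rw [e0, zero_mul, zero_add]
    have e2 : ∀ M : ℕ, HofPers.aR (1 :: u) (M + 1) *
          (-(1 + Real.cot φ ^ 2) * sk (M + 1) φ + Real.cot φ * skd (M + 1) φ) =
          2 * (S (M + 1) * sk M φ) - 2 * (S (M + 1) * sk (M + 1) φ) := by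
      intro M
      rw [pd_term M φ hs]
      have := pd_Sadd u M
      simp only [hS]
      rw [← this]; ring
    rw [tsum_congr e2]
    have hsS' : Summable fun M : ℕ => S (M + 1) * sk (M + 1) φ := (summable_nat_add_iff 1).2 hsS
    rw [(hsS1.mul_left 2).tsum_sub (hsS'.mul_left 2), tsum_mul_left, tsum_mul_left]
    have e3 : ∑' M : ℕ, S (M + 1) * sk (M + 1) φ = ∑' M : ℕ, S M * sk M φ := by
      rw [hsS.tsum_eq_zero_add]
      simp [hS]
    have e4 : ∑' M : ℕ, S (M + 1) * sk M φ = ∑' M : ℕ, S M * sk M φ + Phi u φ := by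
      rw [Phi, ← hsS.tsum_add hsU]
      refine tsum_congr fun M => ?_
      simp only [hS]
      rw [Finset.sum_range_succ]; ring
    rw [e3, e4]; ring

theorem phi_succ (k : ℕ) (hk : 2 ≤ k) (u : List ℕ) (hu : HofPers.Adm u) (φ : ℝ) (h0 : 0 < φ)
    (h1 : φ < Real.pi / 2) :
    HasDerivAt (Phi ((k + 1) :: u)) (2 * Real.cot φ * Phi (k :: u) φ) φ :=
  pd_step k u (by
      intro a ha
      rcases List.mem_cons.1 ha with rfl | ha
      · omega
      · exact pd_adm hu a ha) φ h0 h1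

theorem pd_zero_val (k : ℕ) (u : List ℕ) :
    ∑' M : ℕ, HofPers.aR (k :: u) M * sk M 0 = 0 := by
  refine (tsum_congr fun M => ?_).trans tsum_zero
  rcases Nat.eq_zero_or_pos M with rfl | hM
  · simp [HofPers.aR]
  · simp [sk_eq, hM.ne']

theorem pd_zero_deriv (k : ℕ) (u : List ℕ) :
    ∑' M : ℕ, HofPers.aR (k :: u) M * skd M 0 = 0 := by
  refine (tsum_congr fun M => ?_).trans tsum_zero
  rcases Nat.eq_zero_or_pos M with rfl | hM
  · simp [HofPers.aR]
  · have : 2 * M - 1 ≠ 0 := by omega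
    simp [skd, this]

theorem phi_lim (k : ℕ) (hk : 2 ≤ k) (u : List ℕ) (hu : HofPers.Adm u) :
    Tendsto (Phi (k :: u)) (𝓝[>] 0) (𝓝 0) := by
  have h := pd_tsum_deriv (fun M => HofPers.aR (k :: u) M) (pd_abs (by
      intro a ha
      rcases List.mem_cons.1 ha with rfl | ha
      · omega
      · exact pd_adm hu a ha)) 0 (by rw [abs_zero]; positivity)
  have hc := h.continuousAt.tendsto
  rw [pd_zero_val] at hc
  exact hc.mono_left nhdsWithin_le_nhds

theorem lam_lim (u : List ℕ) (hu : HofPers.Adm u) : Tendsto (Lam u) (𝓝[>] 0) (𝓝 0) := by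
  have h := pd_tsum_deriv (fun M => HofPers.aR (1 :: u) M) (pd_abs (by
      intro a ha
      rcases List.mem_cons.1 ha with rfl | ha
      · exact le_rfl
      · exact pd_adm hu a ha)) 0 (by rw [abs_zero]; positivity)
  rw [pd_zero_deriv] at h
  have h1 := (hasDerivAt_iff_tendsto_slope_zero.1 h)
  have h2 := (hasDerivAt_iff_tendsto_slope_zero.1 (Real.hasDerivAt_sin 0))
  simp only [zero_add, pd_zero_val, sub_zero, smul_eq_mul, Real.sin_zero, Real.cos_zero] at h1 h2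
  have h3 : Tendsto (fun t : ℝ => Real.cos t * ((t⁻¹ * ∑' M : ℕ, HofPers.aR (1 :: u) M * sk M t) /
      (t⁻¹ * Real.sin t))) (𝓝[≠] 0) (𝓝 (1 * (0 / 1))) := by
    refine Tendsto.mul ?_ (h1.div h2 one_ne_zero)
    have := Real.continuous_cos.tendsto 0
    rw [Real.cos_zero] at this
    exact this.mono_left nhdsWithin_le_nhds
  rw [zero_div, mul_zero] at h3
  have h4 := h3.mono_left (nhdsWithin_mono 0 (show Set.Ioi (0 : ℝ) ⊆ {0}ᶜ from fun x hx =>
    (Set.mem_Ioi.1 hx).ne'))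
  refine h4.congr' ?_
  filter_upwards [self_mem_nhdsWithin] with t ht
  have ht0 : t ≠ 0 := (Set.mem_Ioi.1 ht).ne'
  rw [Lam, Real.cot_eq_cos_div_sin, mul_div_mul_left _ _ (inv_ne_zero ht0)]
  ring

end HofAA
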