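import Pool.Agent.Lib.MP_301213_nt.AA.Ker

/-! MP_301213_nt, almost all theorem: integral representation -/

set_option autoImplicit false

open Polynomial MeasureTheory Filter Topology

namespace HofAA

/-- a series of integrable functions with summable norms is integrable -/
theorem Rep_integrable_tsum {μ : Measure ℝ} {F : ℕ → ℝ → ℝ} (hF : ∀ i, Integrable (F i) μ)
    (hs : Summable fun i => ∫ a, ‖F i a‖ ∂μ) : Integrable (fun a => ∑' i, F i a) μ := by
  have hf'' : ∀ i, AEMeasurable (fun a => ‖F i a‖ₑ) μ := fun i => (hF i).1.enorm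
  have hval : ∀ i, ∫⁻ a, ‖F i a‖ₑ ∂μ = ENNReal.ofReal (∫ a, ‖F i a‖ ∂μ) := by
    intro i
    rw [ofReal_integral_norm_eq_lintegral_enorm (hF i)]
  have hf' : ∑' i, ∫⁻ a, ‖F i a‖ₑ ∂μ ≠ ⊤ := by
    simp_rw [hval]
    exact hs.tsum_ofReal_ne_top
  have hfin : ∫⁻ a, ∑' n, ‖F n a‖ₑ ∂μ < ⊤ := by
    rwa [lintegral_tsum hf'', lt_top_iff_ne_top]
  have hhh : ∀ᵐ a ∂μ, Summable fun n => F n a := by
    have h1 : ∀ᵐ a ∂μ, ∑' n, ‖F n a‖ₑ < ⊤ := ae_lt_top' (AEMeasurable.tsum hf'') hfin.ne
    filter_upwards [h1] with a ha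
    have h2 : Summable fun n => (‖F n a‖₊ : ℝ) := by
      rw [← ENNReal.tsum_coe_ne_top_iff_summable_coe]
      exact ha.ne
    exact h2.of_norm
  refine ⟨?_, ?_⟩
  · refine aestronglyMeasurable_of_tendsto_ae atTop
      (f := fun n => fun a => ∑ i ∈ Finset.range n, F i a) ?_ ?_
    · intro n
      exact Finset.aestronglyMeasurable_fun_sum _ fun i _ => (hF i).1
    · filter_upwards [hhh] with a ha
      exact ha.hasSum.tendsto_sum_nat
  · unfold HasFiniteIntegral
    refine lt_of_le_of_lt (lintegral_mono fun a => ?_) hfin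
    exact enorm_tsum_le_tsum_enorm

theorem Rep_sk_cont (M : ℕ) : Continuous (sk M) := by
  unfold sk
  fun_prop

theorem Rep_sk_nonneg (M : ℕ) (φ : ℝ) : 0 ≤ sk M φ := by
  unfold sk
  have h1 : 0 ≤ Real.sin φ ^ (2 * M) := by
    rw [pow_mul]; positivity
  positivity

/-- the term of the series, `n`-th weight -/
theorem Rep_term_integrable (u : List ℕ) (n M : ℕ) :
    IntegrableOn (fun φ => (Real.pi - 2 * φ) ^ (2 * n) / (Nat.factorial (2 * n) : ℝ) *
      (HofPers.aR u M * sk M φ)) (Set.Ioc 0 (Real.pi / 2)) volume := by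
  have hc : Continuous (fun φ => (Real.pi - 2 * φ) ^ (2 * n) / (Nat.factorial (2 * n) : ℝ) *
      (HofPers.aR u M * sk M φ)) := by
    have := Rep_sk_cont M
    fun_prop
  exact (hc.integrableOn_Icc (a := 0) (b := Real.pi / 2)).mono_set Set.Ioc_subset_Icc_self

theorem Rep_term_integral (u : List ℕ) (n M : ℕ) :
    ∫ φ in Set.Ioc 0 (Real.pi / 2), ‖(Real.pi - 2 * φ) ^ (2 * n) /
      (Nat.factorial (2 * n) : ℝ) * (HofPers.aR u M * sk M φ)‖ =
      Real.pi / 2 * (HofPers.aR u M * HofPers.En n M) := by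
  have h1 : ∀ φ : ℝ, ‖(Real.pi - 2 * φ) ^ (2 * n) /
      (Nat.factorial (2 * n) : ℝ) * (HofPers.aR u M * sk M φ)‖ =
      HofPers.aR u M * ((Real.pi - 2 * φ) ^ (2 * n) / (Nat.factorial (2 * n) : ℝ) * sk M φ) := by
    intro φ
    have h2 := HofPers.aR_nonneg u M
    have h3 := Rep_sk_nonneg M φ
    have h4 : 0 ≤ (Real.pi - 2 * φ) ^ (2 * n) := by rw [pow_mul]; positivity
    rw [Real.norm_of_nonneg (by positivity)]
    ring
  simp_rw [h1]
  rw [integral_const_mul, ← intervalIntegral.integral_of_le (by positivity), ker_int]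
  ring

theorem Rep_summable (w : List ℕ) (hw : HofPers.Adm w) (n : ℕ) :
    Summable fun M : ℕ => HofPers.aR w.reverse M * HofPers.En n M :=
  (HofPers.conv_real hw (HofPers.adm_rep n)).1

theorem Rep_integrable (w : List ℕ) (hw : HofPers.Adm w) (n : ℕ) :
    IntegrableOn (fun φ => ∑' M : ℕ, (Real.pi - 2 * φ) ^ (2 * n) /
      (Nat.factorial (2 * n) : ℝ) * (HofPers.aR w.reverse M * sk M φ))
      (Set.Ioc 0 (Real.pi / 2)) volume := by
  refine Rep_integrable_tsum (fun M => Rep_term_integrable w.reverse n M) ?_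
  simp_rw [Rep_term_integral]
  exact (Rep_summable w hw n).mul_left _

theorem phi_int (u : List ℕ) (hu : HofPers.Adm u) :
    IntervalIntegrable (Phi u) volume 0 (Real.pi / 2) := by
  rw [intervalIntegrable_iff_integrableOn_Ioc_of_le (by positivity)]
  have h := Rep_integrable u.reverse (HofPers.adm_reverse hu) 0
  rw [List.reverse_reverse] at h
  have h2 : (fun φ => ∑' M : ℕ, (Real.pi - 2 * φ) ^ (2 * 0) /
      (Nat.factorial (2 * 0) : ℝ) * (HofPers.aR u M * sk M φ)) = Phi u := by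
    funext φ
    unfold Phi
    simp
  rwa [h2] at h

theorem rep (w : List ℕ) (hw : HofPers.Adm w) (n : ℕ) :
    HofPers.T (w ++ List.replicate n 2) 0 = 2 / Real.pi *
      ∫ φ in (0 : ℝ)..(Real.pi / 2), (Real.pi - 2 * φ) ^ (2 * n) / (Nat.factorial (2 * n) : ℝ) *
        Phi w.reverse φ := by
  rw [(HofPers.conv_real hw (HofPers.adm_rep n)).2,
    intervalIntegral.integral_of_le (by positivity)]
  have h1 : ∀ φ : ℝ, (Real.pi - 2 * φ) ^ (2 * n) / (Nat.factorial (2 * n) : ℝ) *
      Phi w.reverse φ = ∑' M : ℕ, (Real.pi - 2 * φ) ^ (2 * n) /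
      (Nat.factorial (2 * n) : ℝ) * (HofPers.aR w.reverse M * sk M φ) := by
    intro φ
    rw [Phi, tsum_mul_left]
  simp_rw [h1]
  rw [← integral_tsum_of_summable_integral_norm
    (fun M => Rep_term_integrable w.reverse n M)]
  · rw [← tsum_mul_left]
    refine tsum_congr fun M => ?_
    have h2 : ∀ φ : ℝ, (Real.pi - 2 * φ) ^ (2 * n) /
        (Nat.factorial (2 * n) : ℝ) * (HofPers.aR w.reverse M * sk M φ) =
        HofPers.aR w.reverse M * ((Real.pi - 2 * φ) ^ (2 * n) /
          (Nat.factorial (2 * n) : ℝ) * sk M φ) := fun φ => by ring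
    simp_rw [h2]
    rw [integral_const_mul, ← intervalIntegral.integral_of_le (by positivity), ker_int]
    have hpi := Real.pi_ne_zero
    rw [HofPers.En]
    field_simp
  · simp_rw [Rep_term_integral]
    exact (Rep_summable w hw n).mul_left _

end HofAA
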