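import Pool.Agent.Lib.MP_301213_nt.AA.Defs

/-! MP_301213_nt, almost all theorem: main terms and error of a polynomial combination of moments -/

set_option autoImplicit false

open Polynomial MeasureTheory Filter Topology

namespace HofAA

/-- functions with differences of the order of a power of `n` -/
def Sy (J s : ℕ) (f : ℕ → ℝ) : Prop :=
  ∀ I : ℕ, ∃ C : ℝ, 0 ≤ C ∧ ∀ i ≤ I, ∀ n : ℕ, 1 ≤ n →
    |((fwdDiff (1 : ℕ))^[i] f) n| * (n : ℝ) ^ (i + J) ≤ C * (n : ℝ) ^ s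

theorem Sy_fwd_succ (f : ℕ → ℝ) (i n : ℕ) : ((fwdDiff (1 : ℕ))^[i + 1] f) n =
    ((fwdDiff (1 : ℕ))^[i] f) (n + 1) - ((fwdDiff (1 : ℕ))^[i] f) n := by
  rw [Function.iterate_succ_apply']
  rfl

theorem Sy_mul_iter (f : ℕ → ℝ) (c : ℝ) (i : ℕ) : ∀ n : ℕ,
    ((fwdDiff (1 : ℕ))^[i + 1] (fun m : ℕ => ((m : ℝ) + c) * f m)) n =
      ((n : ℝ) + c) * ((fwdDiff (1 : ℕ))^[i + 1] f) n +
        ((i : ℝ) + 1) * ((fwdDiff (1 : ℕ))^[i] f) (n + 1) := by
  induction i with
  | zero =>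
    intro n
    simp only [Nat.cast_zero, zero_add, one_mul, Function.iterate_one, Function.iterate_zero, id,
      fwdDiff]
    push_cast
    ring
  | succ i ih =>
    intro n
    rw [Sy_fwd_succ _ (i + 1) n, ih (n + 1), ih n, Sy_fwd_succ f (i + 1) n, Sy_fwd_succ f i (n + 1)]
    push_cast
    ring

theorem Sy_mul {J s : ℕ} {f : ℕ → ℝ} (hf : Sy J s f) (c : ℝ) (hc : 0 ≤ c) :
    Sy J (s + 1) (fun m : ℕ => ((m : ℝ) + c) * f m) := by
  intro I
  obtain ⟨C, hC, h⟩ := hf I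
  refine ⟨(1 + c) * C + I * (2 ^ s * C), by positivity, ?_⟩
  intro i hi n hn
  have hn1 : (1 : ℝ) ≤ n := by exact_mod_cast hn
  have hn0 : (0 : ℝ) < n := by linarith
  have hnc : (n : ℝ) + c ≤ (1 + c) * n := by nlinarith
  have h1 : ((n : ℝ) + c) * (|((fwdDiff (1 : ℕ))^[i] f) n| * (n : ℝ) ^ (i + J)) ≤
      (1 + c) * C * (n : ℝ) ^ (s + 1) := by
    calc ((n : ℝ) + c) * (|((fwdDiff (1 : ℕ))^[i] f) n| * (n : ℝ) ^ (i + J))
        ≤ ((1 + c) * n) * (C * (n : ℝ) ^ s) :=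
          mul_le_mul hnc (h i hi n hn) (by positivity) (by positivity)
      _ = (1 + c) * C * (n : ℝ) ^ (s + 1) := by ring
  rcases i with _ | i
  · simp only [Function.iterate_zero, id] at h1 ⊢
    rw [abs_mul, abs_of_nonneg (by positivity : (0 : ℝ) ≤ (n : ℝ) + c), mul_assoc]
    refine h1.trans ?_
    have : (0 : ℝ) ≤ I * (2 ^ s * C) * (n : ℝ) ^ (s + 1) := by positivity
    nlinarith
  · rw [Sy_mul_iter]
    have h2 : |((n : ℝ) + c) * ((fwdDiff (1 : ℕ))^[i + 1] f) n +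
        ((i : ℝ) + 1) * ((fwdDiff (1 : ℕ))^[i] f) (n + 1)| ≤
        ((n : ℝ) + c) * |((fwdDiff (1 : ℕ))^[i + 1] f) n| +
        ((i : ℝ) + 1) * |((fwdDiff (1 : ℕ))^[i] f) (n + 1)| := by
      refine (abs_add_le _ _).trans (le_of_eq ?_)
      rw [abs_mul, abs_mul, abs_of_nonneg (by positivity : (0 : ℝ) ≤ (n : ℝ) + c),
        abs_of_nonneg (by positivity : (0 : ℝ) ≤ (i : ℝ) + 1)]
    have h3 := h i (by omega) (n + 1) (by omega)
    push_cast at h3
    have h4 : ((i : ℝ) + 1) * (|((fwdDiff (1 : ℕ))^[i] f) (n + 1)| * (n : ℝ) ^ (i + 1 + J)) ≤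
        I * (2 ^ s * C) * (n : ℝ) ^ (s + 1) := by
      have h5 : ((i : ℝ) + 1) ≤ I := by exact_mod_cast hi
      have h6 : |((fwdDiff (1 : ℕ))^[i] f) (n + 1)| * (n : ℝ) ^ (i + 1 + J) ≤
          (2 ^ s * C) * (n : ℝ) ^ (s + 1) := by
        calc |((fwdDiff (1 : ℕ))^[i] f) (n + 1)| * (n : ℝ) ^ (i + 1 + J)
            = (|((fwdDiff (1 : ℕ))^[i] f) (n + 1)| * (n : ℝ) ^ (i + J)) * n := by ring
          _ ≤ (|((fwdDiff (1 : ℕ))^[i] f) (n + 1)| * ((n : ℝ) + 1) ^ (i + J)) * n := by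
            gcongr
            linarith
          _ ≤ (C * ((n : ℝ) + 1) ^ s) * n := by gcongr
          _ ≤ (C * (2 * (n : ℝ)) ^ s) * n := by
            gcongr
            linarith
          _ = (2 ^ s * C) * (n : ℝ) ^ (s + 1) := by rw [mul_pow]; ring
      exact (mul_le_mul h5 h6 (by positivity) (by positivity)).trans (le_of_eq (by ring))
    calc |((n : ℝ) + c) * ((fwdDiff (1 : ℕ))^[i + 1] f) n +
        ((i : ℝ) + 1) * ((fwdDiff (1 : ℕ))^[i] f) (n + 1)| * (n : ℝ) ^ (i + 1 + J)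
        ≤ (((n : ℝ) + c) * |((fwdDiff (1 : ℕ))^[i + 1] f) n| +
        ((i : ℝ) + 1) * |((fwdDiff (1 : ℕ))^[i] f) (n + 1)|) * (n : ℝ) ^ (i + 1 + J) := by
          gcongr
      _ = ((n : ℝ) + c) * (|((fwdDiff (1 : ℕ))^[i + 1] f) n| * (n : ℝ) ^ (i + 1 + J)) +
        ((i : ℝ) + 1) * (|((fwdDiff (1 : ℕ))^[i] f) (n + 1)| * (n : ℝ) ^ (i + 1 + J)) := by ring
      _ ≤ (1 + c) * C * (n : ℝ) ^ (s + 1) + I * (2 ^ s * C) * (n : ℝ) ^ (s + 1) := add_le_add h1 h4
      _ = ((1 + c) * C + I * (2 ^ s * C)) * (n : ℝ) ^ (s + 1) := by ring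

theorem Sy_pow {J s : ℕ} {f : ℕ → ℝ} (hf : Sy J s f) (a : ℕ) :
    Sy J (s + a) (fun m : ℕ => (m : ℝ) ^ a * f m) := by
  induction a with
  | zero => simpa using hf
  | succ a ih =>
    have h := Sy_mul ih 0 le_rfl
    have e : (fun m : ℕ => (m : ℝ) ^ (a + 1) * f m) =
        fun m : ℕ => ((m : ℝ) + 0) * ((m : ℝ) ^ a * f m) := by
      funext m
      ring
    rw [e]
    exact h

theorem Sy_prod {J s : ℕ} {f : ℕ → ℝ} (hf : Sy J s f) (a : ℕ) :
    Sy J (s + a) (fun m : ℕ => (∏ j ∈ Finset.range a, ((m : ℝ) + j + 1)) * f m) := by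
  induction a with
  | zero => simpa using hf
  | succ a ih =>
    have h := Sy_mul ih ((a : ℝ) + 1) (by positivity)
    have e : (fun m : ℕ => (∏ j ∈ Finset.range (a + 1), ((m : ℝ) + j + 1)) * f m) =
        fun m : ℕ => ((m : ℝ) + ((a : ℝ) + 1)) * ((∏ j ∈ Finset.range a, ((m : ℝ) + j + 1)) * f m) := by
      funext m
      rw [Finset.prod_range_succ]
      ring
    rw [e]
    exact h

theorem Sy_int {φ : ℝ → ℝ} (hφ : IntervalIntegrable φ volume 0 1) {g : ℝ → ℝ}
    (hg : Continuous g) : IntervalIntegrable (fun y => g y * φ y) volume 0 1 :=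
  hφ.continuousOn_mul hg.continuousOn

theorem Sy_mom_fwd (i : ℕ) : ∀ (φ : ℝ → ℝ), IntervalIntegrable φ volume 0 1 →
    (fwdDiff (1 : ℕ))^[i] (mom φ) = mom (fun y => (-y) ^ i * φ y) := by
  induction i with
  | zero => intro φ _; simp
  | succ i ih =>
    intro φ hφ
    rw [Function.iterate_succ_apply]
    have h1 : fwdDiff (1 : ℕ) (mom φ) = mom (fun y => (-y) * φ y) := by
      funext n
      unfold fwdDiff mom
      rw [← intervalIntegral.integral_sub (Sy_int hφ (by fun_prop)) (Sy_int hφ (by fun_prop))]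
      refine intervalIntegral.integral_congr fun y _ => ?_
      simp only
      ring
    rw [h1, ih _ (Sy_int hφ (by fun_prop))]
    congr 1
    funext y
    ring

theorem Sy_pow_bd (n l : ℕ) (y : ℝ) (hy0 : 0 ≤ y) (hy1 : y ≤ 1) :
    (n : ℝ) ^ l * ((1 - y) ^ n * y ^ l) ≤ (l.factorial : ℝ) := by
  have h1 : (1 - y) ^ n ≤ Real.exp (-(n * y)) := by
    have := Real.one_sub_le_exp_neg y
    calc (1 - y) ^ n ≤ (Real.exp (-y)) ^ n := pow_le_pow_left₀ (by linarith) this n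
      _ = Real.exp (-(n * y)) := by rw [← Real.exp_nat_mul]; ring_nf
  have h2 : ((n : ℝ) * y) ^ l ≤ l.factorial * Real.exp (n * y) := by
    have := Real.pow_div_factorial_le_exp (n * y) (by positivity) l
    rw [div_le_iff₀ (by positivity)] at this
    linarith
  calc (n : ℝ) ^ l * ((1 - y) ^ n * y ^ l) = ((n : ℝ) * y) ^ l * (1 - y) ^ n := by
        rw [mul_pow]; ring
    _ ≤ (l.factorial * Real.exp (n * y)) * Real.exp (-(n * y)) :=
      mul_le_mul h2 h1 (pow_nonneg (by linarith) _) (by positivity)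
    _ = l.factorial := by
      rw [mul_assoc, ← Real.exp_add, add_neg_cancel, Real.exp_zero, mul_one]

theorem Sy_mom (J : ℕ) (ρ : ℝ → ℝ) (hρ : IntervalIntegrable ρ volume 0 1) :
    Sy J 0 (mom fun y => y ^ J * ρ y) := by
  intro I
  refine ⟨(I + J).factorial * ∫ y in (0 : ℝ)..1, |ρ y|, ?_, ?_⟩
  · refine mul_nonneg (by positivity) ?_
    exact intervalIntegral.integral_nonneg (by norm_num) fun y _ => abs_nonneg _
  intro i hi n hn
  rw [Sy_mom_fwd i _ (Sy_int hρ (by fun_prop)), pow_zero, mul_one]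
  unfold mom
  have hn0 : (0 : ℝ) ≤ (n : ℝ) ^ (i + J) := by positivity
  have h1 := intervalIntegral.abs_integral_le_integral_abs (μ := volume) (a := 0) (b := 1)
    (f := fun y : ℝ => (1 - y) ^ n * ((-y) ^ i * (y ^ J * ρ y))) (by norm_num)
  refine (mul_le_mul_of_nonneg_right h1 hn0).trans ?_
  rw [← intervalIntegral.integral_mul_const, ← intervalIntegral.integral_const_mul]
  refine intervalIntegral.integral_mono_on (by norm_num) ?_ (hρ.abs.const_mul _) ?_
  · refine IntervalIntegrable.mul_const ?_ _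
    refine IntervalIntegrable.abs ?_
    have : (fun y : ℝ => (1 - y) ^ n * ((-y) ^ i * (y ^ J * ρ y))) =
        fun y : ℝ => ((1 - y) ^ n * (-y) ^ i * y ^ J) * ρ y := by
      funext y; ring
    rw [this]
    exact Sy_int hρ (by fun_prop)
  · intro y hy
    have hy0 : 0 ≤ y := hy.1
    have hy1 : y ≤ 1 := hy.2
    rw [abs_mul, abs_mul, abs_mul, abs_pow, abs_pow, abs_pow, abs_neg, abs_of_nonneg hy0,
      abs_of_nonneg (by linarith : (0 : ℝ) ≤ 1 - y)]
    have h2 := Sy_pow_bd n (i + J) y hy0 hy1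
    have h3 : ((i + J).factorial : ℝ) ≤ (I + J).factorial := by
      exact_mod_cast Nat.factorial_le (by omega)
    calc (1 - y) ^ n * (y ^ i * (y ^ J * |ρ y|)) * (n : ℝ) ^ (i + J)
        = ((n : ℝ) ^ (i + J) * ((1 - y) ^ n * y ^ (i + J))) * |ρ y| := by ring
      _ ≤ (I + J).factorial * |ρ y| :=
        mul_le_mul_of_nonneg_right (h2.trans h3) (abs_nonneg _)

/-- the moments of the powers -/
theorem Sy_beta_rec (j : ℕ) : ∀ m : ℕ, mom (fun y => y ^ j) m *
    ∏ i ∈ Finset.range (j + 1), ((m : ℝ) + i + 1) = (j.factorial : ℝ) := by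
  induction j with
  | zero =>
    intro m
    have h1 : mom (fun y => y ^ 0) m = 1 / ((m : ℝ) + 1) := by
      unfold mom
      simp only [pow_zero, mul_one]
      have h2 := intervalIntegral.integral_comp_sub_left (fun y : ℝ => y ^ m) (1 : ℝ)
        (a := 0) (b := 1)
      rw [h2, integral_pow]
      simp
    rw [h1]
    have : (m : ℝ) + 1 ≠ 0 := by positivity
    simp
    field_simp
  | succ j ih =>
    intro m
    have h1 : mom (fun y => y ^ (j + 1)) m = mom (fun y => y ^ j) m - mom (fun y => y ^ j) (m + 1) := by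
      unfold mom
      rw [← intervalIntegral.integral_sub]
      · refine intervalIntegral.integral_congr fun y _ => ?_
        simp only
        ring
      · exact Continuous.intervalIntegrable (by fun_prop) _ _
      · exact Continuous.intervalIntegrable (by fun_prop) _ _
    have h2 : ∏ i ∈ Finset.range (j + 1 + 1), ((m : ℝ) + i + 1) =
        (∏ i ∈ Finset.range (j + 1), ((m : ℝ) + i + 1)) * ((m : ℝ) + j + 2) := by
      rw [Finset.prod_range_succ]
      push_cast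
      ring
    have h3 : ∏ i ∈ Finset.range (j + 1 + 1), ((m : ℝ) + i + 1) =
        (∏ i ∈ Finset.range (j + 1), (((m + 1 : ℕ) : ℝ) + i + 1)) * ((m : ℝ) + 1) := by
      rw [Finset.prod_range_succ']
      congr 1
      · refine Finset.prod_congr rfl fun i _ => ?_
        push_cast
        ring
      · push_cast
        ring
    rw [h1, sub_mul]
    nth_rewrite 1 [h2]
    rw [h3, ← mul_assoc, ← mul_assoc, ih m, ih (m + 1), Nat.factorial_succ]
    push_cast
    ring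

/-- the main term -/
noncomputable def SyPJ (J j : ℕ) : ℝ[X] :=
  C (j.factorial : ℝ) * ∏ i ∈ Finset.Ico (j + 1) J, (X + C ((i : ℝ) + 1))

theorem Sy_PJ_deg (J j : ℕ) : (SyPJ J j).natDegree ≤ J := by
  unfold SyPJ
  refine (natDegree_C_mul_le _ _).trans ?_
  refine (natDegree_prod_le _ _).trans ?_
  simp only [natDegree_X_add_C, Finset.sum_const, Nat.card_Ico, smul_eq_mul, mul_one]
  omega

theorem Sy_PJ_eval (J j m : ℕ) (hj : j < J) :
    (∏ i ∈ Finset.range J, ((m : ℝ) + i + 1)) * mom (fun y => y ^ j) m =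
      (SyPJ J j).eval (m : ℝ) := by
  have h1 := Finset.prod_range_mul_prod_Ico (fun i : ℕ => (m : ℝ) + i + 1)
    (show j + 1 ≤ J from hj)
  rw [← h1, mul_comm, ← mul_assoc, Sy_beta_rec]
  unfold SyPJ
  rw [eval_mul, eval_C, eval_prod]
  congr 1
  refine Finset.prod_congr rfl fun i _ => ?_
  simp only [eval_add, eval_X, eval_C]
  ring

theorem Sy_mom_expand (J : ℕ) (h ρ : ℝ → ℝ) (μ : ℕ → ℝ) (hρ : IntervalIntegrable ρ volume 0 1)
    (he : ∀ y ∈ Set.Ioo (0 : ℝ) 1, h y = ∑ j ∈ Finset.range J, μ j * y ^ j + y ^ J * ρ y) (m : ℕ) :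
    mom h m = ∑ j ∈ Finset.range J, μ j * mom (fun y => y ^ j) m +
      mom (fun y => y ^ J * ρ y) m := by
  have h1 : mom h m = ∫ y in (0 : ℝ)..1, (∑ j ∈ Finset.range J, μ j * ((1 - y) ^ m * y ^ j)) +
      (1 - y) ^ m * (y ^ J * ρ y) := by
    unfold mom
    rw [intervalIntegral.integral_of_le (by norm_num), intervalIntegral.integral_of_le (by norm_num),
      integral_Ioc_eq_integral_Ioo, integral_Ioc_eq_integral_Ioo]
    refine setIntegral_congr_fun measurableSet_Ioo fun y hy => ?_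
    rw [he y hy, mul_add, Finset.mul_sum]
    congr 1
    refine Finset.sum_congr rfl fun j _ => ?_
    ring
  rw [h1, intervalIntegral.integral_add]
  · congr 1
    rw [intervalIntegral.integral_finsetSum]
    · refine Finset.sum_congr rfl fun j _ => ?_
      rw [intervalIntegral.integral_const_mul]
      rfl
    · intro j _
      exact Continuous.intervalIntegrable (by fun_prop) _ _
  · exact Continuous.intervalIntegrable (by fun_prop) _ _
  · have : (fun y : ℝ => (1 - y) ^ m * (y ^ J * ρ y)) = fun y : ℝ => ((1 - y) ^ m * y ^ J) * ρ y := by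
      funext y; ring
    rw [this]
    exact Sy_int hρ (by fun_prop)

/-- Main terms (a polynomial in `n`, linear in `q`) and error of
`(n+1)...(n+J) ∑ q_{w,a} n^a M_w(n)`. -/
theorem main_terms {ω : Type} [Fintype ω] (h : ω → ℝ → ℝ) (hT : ∀ w, Tay (h w)) (κ J : ℕ) :
    ∃ (Lp : (ω → Fin (κ + 1) → ℝ) →ₗ[ℝ] ℝ[X]) (C : ℝ), 0 ≤ C ∧
      (∀ q, (Lp q).natDegree ≤ κ + J) ∧
      ∀ (q : ω → Fin (κ + 1) → ℝ) (B : ℝ), (∀ w a, |q w a| ≤ B) →
        ∀ i : ℕ, i ≤ κ + J → ∀ n : ℕ, 1 ≤ n →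
          |((fwdDiff (1 : ℕ))^[i] (fun m : ℕ => (∏ j ∈ Finset.range J, ((m : ℝ) + j + 1)) *
              (∑ w, ∑ a, q w a * (m : ℝ) ^ (a : ℕ) * mom (h w) m) - (Lp q).eval (m : ℝ))) n| ≤
            C * B * (n : ℝ) ^ κ / (n : ℝ) ^ i := by
  classical
  choose μ ρ hρ he using fun w => (hT w).2 J
  let Pw : ω → Fin (κ + 1) → ℝ[X] := fun w a =>
    X ^ (a : ℕ) * ∑ j ∈ Finset.range J, μ w j • SyPJ J j
  let Lp : (ω → Fin (κ + 1) → ℝ) →ₗ[ℝ] ℝ[X] :=
    { toFun := fun q => ∑ w, ∑ a, q w a • Pw w a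
      map_add' := by
        intro q q'
        simp only [Pi.add_apply, add_smul, Finset.sum_add_distrib]
      map_smul' := by
        intro r q
        simp only [Pi.smul_apply, smul_eq_mul, mul_smul, Finset.smul_sum, RingHom.id_apply] }
  have hLp : ∀ q, Lp q = ∑ w, ∑ a, q w a • Pw w a := fun _ => rfl
  -- the error functions
  let Ew : ω → Fin (κ + 1) → ℕ → ℝ := fun w a m => (m : ℝ) ^ (a : ℕ) *
    ((∏ j ∈ Finset.range J, ((m : ℝ) + j + 1)) * mom (fun y => y ^ J * ρ w y) m)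
  have hE : ∀ (w : ω) (a : Fin (κ + 1)), Sy J (J + (a : ℕ)) (Ew w a) := by
    intro w a
    have h1 := Sy_pow (Sy_prod (Sy_mom J (ρ w) (hρ w)) J) (a : ℕ)
    rw [zero_add] at h1
    exact h1
  choose Cw hCw0 hCw using fun w a => hE w a (κ + J)
  refine ⟨Lp, ∑ w, ∑ a, Cw w a, ?_, ?_, ?_⟩
  · exact Finset.sum_nonneg fun w _ => Finset.sum_nonneg fun a _ => hCw0 w a
  · intro q
    rw [hLp]
    refine natDegree_sum_le_of_forall_le _ _ fun w _ => ?_
    refine natDegree_sum_le_of_forall_le _ _ fun a _ => ?_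
    refine (natDegree_smul_le _ _).trans ?_
    refine natDegree_mul_le.trans ?_
    refine add_le_add ?_ ?_
    · rw [natDegree_X_pow]
      exact Nat.lt_succ_iff.1 a.2
    · refine natDegree_sum_le_of_forall_le _ _ fun j _ => ?_
      exact (natDegree_smul_le _ _).trans (Sy_PJ_deg J j)
  · intro q B hB i hi n hn
    have hfun : (fun m : ℕ => (∏ j ∈ Finset.range J, ((m : ℝ) + j + 1)) *
        (∑ w, ∑ a, q w a * (m : ℝ) ^ (a : ℕ) * mom (h w) m) - (Lp q).eval (m : ℝ)) =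
        ∑ w, ∑ a, q w a • Ew w a := by
      funext m
      rw [Finset.sum_apply, hLp, eval_finsetSum, Finset.mul_sum, ← Finset.sum_sub_distrib]
      refine Finset.sum_congr rfl fun w _ => ?_
      rw [Finset.sum_apply, eval_finsetSum, Finset.mul_sum, ← Finset.sum_sub_distrib]
      refine Finset.sum_congr rfl fun a _ => ?_
      have h1 : (∑ j ∈ Finset.range J, μ w j • SyPJ J j).eval (m : ℝ) =
          (∏ j ∈ Finset.range J, ((m : ℝ) + j + 1)) *
          ∑ j ∈ Finset.range J, μ w j * mom (fun y => y ^ j) m := by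
        rw [eval_finsetSum, Finset.mul_sum]
        refine Finset.sum_congr rfl fun j hj => ?_
        rw [eval_smul, ← Sy_PJ_eval J j m (Finset.mem_range.1 hj), smul_eq_mul]
        ring
      rw [Pi.smul_apply, smul_eq_mul, eval_smul, eval_mul, eval_pow, eval_X, h1, smul_eq_mul,
        Sy_mom_expand J (h w) (ρ w) (μ w) (hρ w) (he w) m]
      simp only [Ew]
      ring
    rw [hfun, fwdDiff_iter_finsetSum, Finset.sum_apply]
    have hn0 : (0 : ℝ) < (n : ℝ) := by exact_mod_cast hn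
    rw [le_div_iff₀ (by positivity)]
    have h2 : ∀ w a, |((fwdDiff (1 : ℕ))^[i] (q w a • Ew w a)) n| * (n : ℝ) ^ i ≤
        Cw w a * B * (n : ℝ) ^ κ := by
      intro w a
      rw [fwdDiff_iter_const_smul, Pi.smul_apply, smul_eq_mul, abs_mul]
      have h3 := hCw w a i hi n hn
      have hBn : 0 ≤ B := (abs_nonneg _).trans (hB w a)
      have h4 : |((fwdDiff (1 : ℕ))^[i] (Ew w a)) n| * (n : ℝ) ^ i ≤ Cw w a * (n : ℝ) ^ (a : ℕ) := by
        have h5 : (|((fwdDiff (1 : ℕ))^[i] (Ew w a)) n| * (n : ℝ) ^ i) * (n : ℝ) ^ J ≤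
            (Cw w a * (n : ℝ) ^ (a : ℕ)) * (n : ℝ) ^ J := by
          calc (|((fwdDiff (1 : ℕ))^[i] (Ew w a)) n| * (n : ℝ) ^ i) * (n : ℝ) ^ J
              = |((fwdDiff (1 : ℕ))^[i] (Ew w a)) n| * (n : ℝ) ^ (i + J) := by ring
            _ ≤ Cw w a * (n : ℝ) ^ (J + (a : ℕ)) := h3
            _ = (Cw w a * (n : ℝ) ^ (a : ℕ)) * (n : ℝ) ^ J := by ring
        exact le_of_mul_le_mul_right h5 (by positivity)
      have h6 : (n : ℝ) ^ (a : ℕ) ≤ (n : ℝ) ^ κ :=
        pow_le_pow_right₀ (by exact_mod_cast hn) (Nat.lt_succ_iff.1 a.2)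
      calc |q w a| * |((fwdDiff (1 : ℕ))^[i] (Ew w a)) n| * (n : ℝ) ^ i
          = |q w a| * (|((fwdDiff (1 : ℕ))^[i] (Ew w a)) n| * (n : ℝ) ^ i) := by ring
        _ ≤ B * (Cw w a * (n : ℝ) ^ κ) := by
          refine mul_le_mul (hB w a) (h4.trans ?_) (by positivity) hBn
          exact mul_le_mul_of_nonneg_left h6 (hCw0 w a)
        _ = Cw w a * B * (n : ℝ) ^ κ := by ring
    calc |∑ w, ((fwdDiff (1 : ℕ))^[i] (∑ a, q w a • Ew w a)) n| * (n : ℝ) ^ i
        ≤ (∑ w, ∑ a, |((fwdDiff (1 : ℕ))^[i] (q w a • Ew w a)) n|) * (n : ℝ) ^ i := by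
          refine mul_le_mul_of_nonneg_right ?_ (by positivity)
          refine (Finset.abs_sum_le_sum_abs _ _).trans ?_
          refine Finset.sum_le_sum fun w _ => ?_
          rw [fwdDiff_iter_finsetSum, Finset.sum_apply]
          exact Finset.abs_sum_le_sum_abs _ _
      _ = ∑ w, ∑ a, |((fwdDiff (1 : ℕ))^[i] (q w a • Ew w a)) n| * (n : ℝ) ^ i := by
          rw [Finset.sum_mul]
          exact Finset.sum_congr rfl fun w _ => Finset.sum_mul _ _ _
      _ ≤ ∑ w, ∑ a, Cw w a * B * (n : ℝ) ^ κ :=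
          Finset.sum_le_sum fun w _ => Finset.sum_le_sum fun a _ => h2 w a
      _ = (∑ w, ∑ a, Cw w a) * B * (n : ℝ) ^ κ := by
          rw [Finset.sum_mul, Finset.sum_mul]
          refine Finset.sum_congr rfl fun w _ => ?_
          rw [Finset.sum_mul, Finset.sum_mul]

end HofAA
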